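import Pool.Agent.Lib_MP_a68485_co.Sound

/-!
# MP_a68485_co: a level can be checked in parts
-/

set_option autoImplicit false

namespace Pool.Agent.BW3

theorem levelOK_append {n : ℕ} {Ls Q : List (List ℕ)} {C : List ℕ} {A B : List (List ℕ × List ℕ)}
    (hA : levelOK n Ls Q C A = true) (hB : levelOK n Ls Q C B = true) : levelOK n Ls Q C (A ++ B) = true := by
  rw [levelOK] at hA hB ⊢
  rw [List.all_append, hA, hB]
  rfl

end Pool.Agent.BW3
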