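import Pool.Agent.Lib_MP_a68485_co.Comb4

/-!
# MP_a68485_co: a level can be checked in parts (rank four)
-/

set_option autoImplicit false

namespace Pool.Agent.BW3

theorem levelOK4_append {b : Bool} {Ls Q : List (List ℕ)} {C : List ℕ} {A B : List (List ℕ × List ℕ)}
    (hA : levelOK4 b Ls Q C A = true) (hB : levelOK4 b Ls Q C B = true) : levelOK4 b Ls Q C (A ++ B) = true := by
  rw [levelOK4] at hA hB ⊢
  rw [List.all_append, hA, hB]
  rfl

end Pool.Agent.BW3
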