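import Mathlib

/-!
# MP_a68485_co: branch-width of matroids (definitions and basic facts)
-/

set_option autoImplicit false

namespace Pool.Agent.BW3

open Set

variable {α : Type*}

/-- the rank of the set `X` in the matroid `M`, as a natural number -/
noncomputable def rk (M : Matroid α) (X : Set α) : ℕ := (M.eRk X).toNat

/-- the connectivity function `λ(X) = r(X) + r(E - X) - r(M) + 1` -/
noncomputable def conn (M : Matroid α) (X : Set α) : ℕ := rk M X + rk M (M.E \ X) + 1 - rk M M.E

/-- binary trees with labelled leaves -/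
inductive BT (α : Type*)
  | leaf (a : α) : BT α
  | node (l r : BT α) : BT α

/-- the set of the labels of the leaves -/
def BT.set : BT α → Set α
  | .leaf a => {a}
  | .node l r => l.set ∪ r.set

/-- different leaves have different labels -/
def BT.Inj : BT α → Prop
  | .leaf _ => True
  | .node l r => l.Inj ∧ r.Inj ∧ Disjoint l.set r.set

/-- for every subtree, the set `X` of its labels has `λ(X) ≤ k` -/
def BT.WidthLE (M : Matroid α) (k : ℕ) : BT α → Prop
  | .leaf a => conn M {a} ≤ k
  | .node l r => conn M (l.set ∪ r.set) ≤ k ∧ l.WidthLE M k ∧ r.WidthLE M k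

/-- branch-width at most `k` -/
def BwLE (M : Matroid α) (k : ℕ) : Prop :=
  (M.E.encard ≤ 1 ∧ 1 ≤ k) ∨ ∃ t : BT α, t.Inj ∧ t.set = M.E ∧ t.WidthLE M k

/-- excluded minors for the class of the matroids of branch-width at most three -/
def ExMinor (M : Matroid α) : Prop := ¬ BwLE M 3 ∧ ∀ N : Matroid α, N.IsStrictMinor M → BwLE N 3

/-! ### rank -/

theorem rk_inter (M : Matroid α) (X : Set α) : rk M (X ∩ M.E) = rk M X := by
  unfold rk
  rw [Matroid.eRk_inter_ground]

theorem rk_empty (M : Matroid α) : rk M (∅ : Set α) = 0 := by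
  unfold rk
  simp

theorem rk_restrict (M : Matroid α) {R X : Set α} (h : X ⊆ R) : rk (M.restrict R) X = rk M X := by
  unfold rk
  rw [Matroid.restrict_eRk_eq _ h]

section rank

variable (M : Matroid α) [M.Finite]

theorem eRk_ne_top (X : Set α) : M.eRk X ≠ ⊤ := by
  rw [Matroid.eRk_ne_top_iff]
  exact M.isRkFinite_set X

theorem coe_rk (X : Set α) : (rk M X : ℕ∞) = M.eRk X := ENat.natCast_toNat (eRk_ne_top M X)

theorem rk_mono {X Y : Set α} (h : X ⊆ Y) : rk M X ≤ rk M Y := by
  have := M.eRk_mono h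
  rw [← coe_rk, ← coe_rk] at this
  exact_mod_cast this

theorem rk_sub (X Y : Set α) : rk M (X ∩ Y) + rk M (X ∪ Y) ≤ rk M X + rk M Y := by
  have := M.eRk_inter_add_eRk_union_le X Y
  rw [← coe_rk, ← coe_rk, ← coe_rk, ← coe_rk] at this
  exact_mod_cast this

theorem rk_union_le (X Y : Set α) : rk M (X ∪ Y) ≤ rk M X + rk M Y :=
  (Nat.le_add_left _ _).trans (rk_sub M X Y)

theorem rk_le_ncard {X : Set α} (h : X.Finite) : rk M X ≤ X.ncard := by
  have := M.eRk_le_encard X
  rw [← coe_rk, ← h.cast_ncard_eq] at this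
  exact_mod_cast this

theorem rk_singleton_le (a : α) : rk M {a} ≤ 1 := by
  simpa using rk_le_ncard M (Set.finite_singleton a)

theorem rk_le_rank (X : Set α) : rk M X ≤ rk M M.E := by
  have := M.eRk_le_eRank X
  rw [Matroid.eRank_def, ← coe_rk, ← coe_rk] at this
  exact_mod_cast this

end rank

/-! ### trees -/

theorem BT.set_finite (t : BT α) : t.set.Finite := by
  induction t with
  | leaf a => exact Set.finite_singleton a
  | node l r h1 h2 => exact h1.union h2

theorem BT.set_nonempty (t : BT α) : t.set.Nonempty := by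
  induction t with
  | leaf a => exact ⟨a, rfl⟩
  | node l r h1 h2 => exact h1.mono Set.subset_union_left

/-- empty, or the label set of a tree of width at most `k` -/
def GT (M : Matroid α) (k : ℕ) (S : Set α) : Prop := S = ∅ ∨ ∃ t : BT α, t.Inj ∧ t.set = S ∧ t.WidthLE M k

theorem GT.join {M : Matroid α} {k : ℕ} {S T : Set α} (hS : GT M k S) (hT : GT M k T) (hd : Disjoint S T)
    (h : conn M (S ∪ T) ≤ k) : GT M k (S ∪ T) := by
  rcases hS with rfl | ⟨s, h1, h2, h3⟩
  · rwa [Set.empty_union]
  rcases hT with rfl | ⟨t, h4, h5, h6⟩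
  · rw [Set.union_empty]
    exact Or.inr ⟨s, h1, h2, h3⟩
  refine Or.inr ⟨.node s t, ⟨h1, h4, ?_⟩, ?_, ?_, h3, h6⟩
  · rwa [h2, h5]
  · change s.set ∪ t.set = _
    rw [h2, h5]
  · rw [h2, h5]
    exact h

/-- a set all of whose subsets are good is the label set of a tree -/
theorem exists_tree (M : Matroid α) (k : ℕ) (S : Set α) (hS : S.Finite)
    (h : ∀ X ⊆ S, conn M X ≤ k) : GT M k S := by
  induction S, hS using Set.Finite.induction_on with
  | empty => exact Or.inl rfl
  | @insert a S' ha _ ih =>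
    have h1 := ih fun X hX => h X (hX.trans (Set.subset_insert _ _))
    have h2 : GT M k {a} := Or.inr ⟨.leaf a, trivial, rfl, h {a} (by simp)⟩
    have := h2.join h1 (Set.disjoint_singleton_left.2 ha) (h _ (by simp))
    rwa [Set.singleton_union] at this

theorem GT.bw {M : Matroid α} {k : ℕ} (h : GT M k M.E) (hk : 1 ≤ k) : BwLE M k := by
  rcases h with h | h
  · left
    rw [h]
    simp [hk]
  · exact Or.inr h

section

variable (M : Matroid α) [M.Finite]

omit [M.Finite] in
theorem conn_le {X : Set α} {a b k : ℕ} (h1 : rk M X ≤ a) (h2 : rk M (M.E \ X) ≤ b)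
    (h : a + b + 1 ≤ rk M M.E + k) : conn M X ≤ k := by
  unfold conn
  omega

/-- matroids of rank at most two have branch-width at most three -/
theorem bw_of_rank_le (h : rk M M.E ≤ 2) : BwLE M 3 := by
  refine (exists_tree M 3 M.E M.ground_finite fun X _ => ?_).bw (by norm_num)
  have h1 := rk_le_rank M X
  have h2 := rk_le_rank M (M.E \ X)
  unfold conn
  omega

end

/-! ### duality -/

theorem rk_dual (M : Matroid α) [M.Finite] {X : Set α} (hX : X ⊆ M.E) :
    rk M.dual X + rk M M.E = rk M (M.E \ X) + X.ncard := by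
  have h := M.eRk_dual_add_eRank X hX
  have hf : X.Finite := M.ground_finite.subset hX
  rw [Matroid.eRank_def, ← coe_rk M, ← coe_rk M, ← coe_rk, ← hf.cast_ncard_eq] at h
  exact_mod_cast h

theorem conn_dual (M : Matroid α) [M.Finite] {X : Set α} (hX : X ⊆ M.E) : conn M.dual X = conn M X := by
  have h1 := rk_dual M hX
  have h2 := rk_dual M (Set.sdiff_subset : M.E \ X ⊆ M.E)
  have h3 := rk_dual M (subset_refl M.E)
  rw [Set.sdiff_sdiff_cancel_left hX] at h2
  rw [Set.sdiff_self, rk_empty] at h3
  have h4 := Set.ncard_sdiff_add_ncard_of_subset hX M.ground_finite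
  have h5 := rk_union_le M X (M.E \ X)
  rw [Set.union_sdiff_cancel hX] at h5
  unfold conn
  rw [Matroid.dual_ground]
  omega

theorem WidthLE_dual (M : Matroid α) [M.Finite] (k : ℕ) (t : BT α) (ht : t.set ⊆ M.E) :
    t.WidthLE M.dual k ↔ t.WidthLE M k := by
  induction t with
  | leaf a =>
    change conn M.dual {a} ≤ k ↔ conn M {a} ≤ k
    have h3 : conn M.dual {a} = conn M {a} := conn_dual M ht
    rw [h3]
  | node l r h1 h2 =>
    change (conn M.dual (l.set ∪ r.set) ≤ k ∧ _ ∧ _) ↔ (conn M (l.set ∪ r.set) ≤ k ∧ _ ∧ _)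
    have h3 : conn M.dual (l.set ∪ r.set) = conn M (l.set ∪ r.set) := conn_dual M ht
    rw [h3, h1 (Set.subset_union_left.trans ht), h2 (Set.subset_union_right.trans ht)]

theorem BwLE_dual (M : Matroid α) [M.Finite] (k : ℕ) : BwLE M.dual k ↔ BwLE M k := by
  unfold BwLE
  rw [Matroid.dual_ground]
  refine or_congr Iff.rfl (exists_congr fun t => and_congr_right fun _ => and_congr_right fun h => ?_)
  exact WidthLE_dual M k t h.le

theorem IsMinor_dual {N M : Matroid α} (h : N.IsMinor M) : N.dual.IsMinor M.dual := by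
  obtain ⟨C, D, rfl⟩ := h
  rw [Matroid.dual_contract_delete, Matroid.delete_contract_comm']
  exact ⟨_, _, rfl⟩

theorem IsStrictMinor_dual {N M : Matroid α} (h : N.IsStrictMinor M) : N.dual.IsStrictMinor M.dual := by
  refine ⟨IsMinor_dual h.1, fun h' => h.2 ?_⟩
  have := IsMinor_dual h'
  rwa [Matroid.dual_dual, Matroid.dual_dual] at this

theorem finite_of_minor {N M : Matroid α} [M.Finite] (h : N.IsMinor M) : N.Finite :=
  ⟨M.ground_finite.subset h.subset⟩

theorem ExMinor.dual {M : Matroid α} [M.Finite] (h : ExMinor M) : ExMinor M.dual := by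
  refine ⟨fun h' => h.1 ((BwLE_dual M 3).1 h'), fun N hN => ?_⟩
  have h1 := IsStrictMinor_dual hN
  rw [Matroid.dual_dual] at h1
  have h2 := h.2 _ h1
  have : N.Finite := finite_of_minor hN.1
  exact (BwLE_dual N 3).1 h2

theorem ExMinor_dual_iff (M : Matroid α) [M.Finite] : ExMinor M.dual ↔ ExMinor M := by
  refine ⟨fun h => ?_, fun h => h.dual⟩
  have := h.dual
  rwa [Matroid.dual_dual] at this

end Pool.Agent.BW3
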