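import Pool.Agent.Lib_MP_a68485_co.Base

/-!
# MP_a68485_co: branch-width at most three of a matroid with eight elements
-/

set_option autoImplicit false

namespace Pool.Agent.BW3

open Set

variable {α : Type*}

section

variable (M : Matroid α) [M.Finite]

omit [M.Finite] in
theorem bw8_conn_compl {X : Set α} (h : X ⊆ M.E) : conn M (M.E \ X) = conn M X := by
  unfold conn
  rw [Set.sdiff_sdiff_cancel_left h, Nat.add_comm (rk M (M.E \ X))]

theorem bw8_conn_small {X : Set α} (hX : X.Finite) (h : X.ncard ≤ 2) : conn M X ≤ 3 := by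
  have h1 := rk_le_ncard M hX
  have h2 := rk_le_rank M (M.E \ X)
  unfold conn
  omega

theorem bw8_gt_small {X : Set α} (hX : X.Finite) (h : X.ncard ≤ 2) : GT M 3 X :=
  exists_tree M 3 X hX fun Y hY =>
    bw8_conn_small M (hX.subset hY) ((Set.ncard_le_ncard hY hX).trans h)

theorem bw8_gt_four {X : Set α} (hX : X.Finite) (h : X.ncard ≤ 4) (hc : conn M X ≤ 3) : GT M 3 X := by
  obtain ⟨P, hP, hP2⟩ := Set.exists_subset_card_eq (show min 2 X.ncard ≤ X.ncard from min_le_right _ _)
  have h1 : P.ncard ≤ 2 := hP2 ▸ min_le_left _ _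
  have h2 : (X \ P).ncard ≤ 2 := by
    have := Set.ncard_sdiff_add_ncard_of_subset hP hX
    omega
  have h3 := (bw8_gt_small M (hX.subset hP) h1).join (bw8_gt_small M (hX.subset Set.sdiff_subset) h2)
    Set.disjoint_sdiff_right
  rw [Set.union_sdiff_cancel hP] at h3
  exact h3 hc

omit [M.Finite] in
theorem bw8_conn_ground : conn M M.E ≤ 3 := by
  unfold conn
  rw [Set.sdiff_self, rk_empty]
  omega

/-- a subtree with three or four labels -/
theorem bw8_desc (t : BT α) (hi : t.Inj) (hw : t.WidthLE M 3) (h : 3 ≤ t.set.ncard) :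
    ∃ X ⊆ t.set, (X.ncard = 3 ∨ X.ncard = 4) ∧ conn M X ≤ 3 := by
  induction t with
  | leaf a =>
    change 3 ≤ ({a} : Set α).ncard at h
    rw [Set.ncard_singleton] at h
    omega
  | node l r h1 h2 =>
    obtain ⟨hl, hr, hd⟩ := hi
    obtain ⟨hc, hwl, hwr⟩ := hw
    have hu : (l.set ∪ r.set).ncard = l.set.ncard + r.set.ncard :=
      Set.ncard_union_eq hd l.set_finite r.set_finite
    change 3 ≤ (l.set ∪ r.set).ncard at h
    by_cases ha : 3 ≤ l.set.ncard
    · obtain ⟨X, hX, h3⟩ := h1 hl hwl ha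
      exact ⟨X, hX.trans Set.subset_union_left, h3⟩
    by_cases hb : 3 ≤ r.set.ncard
    · obtain ⟨X, hX, h3⟩ := h2 hr hwr hb
      exact ⟨X, hX.trans Set.subset_union_right, h3⟩
    exact ⟨l.set ∪ r.set, subset_rfl, by omega, hc⟩

omit [M.Finite] in
theorem bw8_width_conn {t : BT α} {k : ℕ} (hw : t.WidthLE M k) : conn M t.set ≤ k := by
  cases t with
  | leaf a => exact hw
  | node l r => exact hw.1

theorem bw8_desc_six (h8 : M.E.ncard = 8) (t : BT α) (hi : t.Inj) (hw : t.WidthLE M 3) (hs : t.set ⊆ M.E)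
    (h : 6 ≤ t.set.ncard) :
    (∃ X ⊆ M.E, X.ncard = 4 ∧ conn M X ≤ 3) ∨
      (∃ X ⊆ M.E, ∃ Y ⊆ M.E, X.ncard = 3 ∧ Y.ncard = 3 ∧ Disjoint X Y ∧ conn M X ≤ 3 ∧ conn M Y ≤ 3) := by
  have five : ∀ s : BT α, s.Inj → s.WidthLE M 3 → s.set ⊆ M.E → s.set.ncard = 5 →
      (∃ X ⊆ M.E, X.ncard = 4 ∧ conn M X ≤ 3) ∨
      (∃ X ⊆ M.E, ∃ Y ⊆ M.E, X.ncard = 3 ∧ Y.ncard = 3 ∧ Disjoint X Y ∧ conn M X ≤ 3 ∧ conn M Y ≤ 3) := by
    intro s hi hw hs h5
    obtain ⟨X, hX, h3 | h4, hc⟩ := bw8_desc M s hi hw (by omega)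
    · right
      refine ⟨X, hX.trans hs, M.E \ s.set, Set.sdiff_subset, h3, ?_, ?_, hc, ?_⟩
      · have := Set.ncard_sdiff_add_ncard_of_subset hs M.ground_finite
        omega
      · exact Set.disjoint_sdiff_right.mono_left hX
      · rw [bw8_conn_compl M hs]
        exact bw8_width_conn M hw
    · exact Or.inl ⟨X, hX.trans hs, h4, hc⟩
  induction t with
  | leaf a =>
    change 6 ≤ ({a} : Set α).ncard at h
    rw [Set.ncard_singleton] at h
    omega
  | node l r h1 h2 =>
    obtain ⟨hl, hr, hd⟩ := hi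
    obtain ⟨hc, hwl, hwr⟩ := hw
    have hu : (l.set ∪ r.set).ncard = l.set.ncard + r.set.ncard :=
      Set.ncard_union_eq hd l.set_finite r.set_finite
    change l.set ∪ r.set ⊆ M.E at hs
    change 6 ≤ (l.set ∪ r.set).ncard at h
    have hsl := Set.subset_union_left.trans hs
    have hsr := Set.subset_union_right.trans hs
    by_cases ha : 6 ≤ l.set.ncard
    · exact h1 hl hwl hsl ha
    by_cases hb : 6 ≤ r.set.ncard
    · exact h2 hr hwr hsr hb
    by_cases ha5 : l.set.ncard = 5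
    · exact five l hl hwl hsl ha5
    by_cases hb5 : r.set.ncard = 5
    · exact five r hr hwr hsr hb5
    by_cases ha4 : l.set.ncard = 4
    · exact Or.inl ⟨l.set, hsl, ha4, bw8_width_conn M hwl⟩
    by_cases hb4 : r.set.ncard = 4
    · exact Or.inl ⟨r.set, hsr, hb4, bw8_width_conn M hwr⟩
    exact Or.inr ⟨l.set, hsl, r.set, hsr, by omega, by omega, hd, bw8_width_conn M hwl,
      bw8_width_conn M hwr⟩

end

/-- a matroid with eight elements has branch-width at most three if and only if it has a set of four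
elements of connectivity at most three, or two disjoint sets of three elements of connectivity at most
three -/
theorem bw8 {α : Type*} (M : Matroid α) [M.Finite] (h : M.E.ncard = 8) : BwLE M 3 ↔
    (∃ X ⊆ M.E, X.ncard = 4 ∧ conn M X ≤ 3) ∨
    (∃ X ⊆ M.E, ∃ Y ⊆ M.E, X.ncard = 3 ∧ Y.ncard = 3 ∧ Disjoint X Y ∧ conn M X ≤ 3 ∧ conn M Y ≤ 3) := by
  constructor
  · rintro (⟨h1, -⟩ | ⟨t, h1, h2, h3⟩)
    · rw [← M.ground_finite.cast_ncard_eq, h] at h1
      exact absurd h1 (by decide)
    · exact bw8_desc_six M h t h1 h3 h2.le (by rw [h2, h]; norm_num)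
  · have hg := bw8_conn_ground M
    rintro (⟨X, hX, h4, hc⟩ | ⟨X, hX, Y, hY, hX3, hY3, hd, hcX, hcY⟩)
    · have hf := M.ground_finite.subset hX
      have h5 := Set.ncard_sdiff_add_ncard_of_subset hX M.ground_finite
      have h6 := (bw8_gt_four M hf h4.le hc).join (bw8_gt_four M (M.ground_finite.subset Set.sdiff_subset)
        (show (M.E \ X).ncard ≤ 4 by omega) (by rwa [bw8_conn_compl M hX])) Set.disjoint_sdiff_right
      rw [Set.union_sdiff_cancel hX] at h6
      exact (h6 hg).bw (by norm_num)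
    · have hfX := M.ground_finite.subset hX
      have hfY := M.ground_finite.subset hY
      have hXY : X ⊆ M.E \ Y := Set.subset_sdiff.2 ⟨hX, hd⟩
      have h5 := Set.ncard_sdiff_add_ncard_of_subset hY M.ground_finite
      have hfE : (M.E \ Y).Finite := M.ground_finite.subset Set.sdiff_subset
      have h6 := Set.ncard_sdiff_add_ncard_of_subset hXY hfE
      have h7 := (bw8_gt_four M hfX (by omega) hcX).join (bw8_gt_small M (hfE.subset Set.sdiff_subset)
        (show ((M.E \ Y) \ X).ncard ≤ 2 by omega)) Set.disjoint_sdiff_right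
      rw [Set.union_sdiff_cancel hXY] at h7
      have h8 := (h7 (by rwa [bw8_conn_compl M hY])).join (bw8_gt_four M hfY (by omega) hcY)
        Set.disjoint_sdiff_left
      rw [Set.sdiff_union_of_subset hY] at h8
      exact (h8 hg).bw (by norm_num)

end Pool.Agent.BW3
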