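import Pool.Agent.Lib_MP_a68485_co.Sound

/-!
# MP_a68485_co: a fast check for `Good`
-/

set_option autoImplicit false

namespace Pool.Agent.BW3

/-- the system with the masks in `P` is good -/
def goodB (n : ℕ) (P : List ℕ) : Bool :=
  P.all (fun m => Nat.blt m (2 ^ n) && ((Nat.beq (pc n m) 3 || Nat.beq (pc n m) 4) &&
    P.all fun l => Nat.beq m l || Nat.ble (pc n (m &&& l)) 1)) &&
  (!(covB n P 3 (2 ^ n - 1)) &&
    (List.range n).all fun i => covB n P 3 ((2 ^ n - 1) ^^^ (2 ^ i)))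

theorem good_of_check (n : ℕ) (P : List ℕ) (h : goodB n P = true) :
    Good n (fun A => ∃ m ∈ P, bits n m = A) := by
  rw [goodB, Bool.and_eq_true, Bool.and_eq_true] at h
  obtain ⟨h1, h2, h3⟩ := h
  have h1' : ∀ m ∈ P, m < 2 ^ n ∧ (pc n m = 3 ∨ pc n m = 4) ∧
      ∀ l ∈ P, m = l ∨ pc n (m &&& l) ≤ 1 := by
    intro m hm
    have h4 := List.all_eq_true.1 h1 m hm
    rw [Bool.and_eq_true, Bool.and_eq_true, Bool.or_eq_true] at h4
    obtain ⟨h5, h6, h7⟩ := h4
    refine ⟨by simpa [Nat.blt] using h5, ?_, ?_⟩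
    · rcases h6 with h6 | h6
      · exact Or.inl (Nat.eq_of_beq_eq_true h6)
      · exact Or.inr (Nat.eq_of_beq_eq_true h6)
    · intro l hl
      have h8 := List.all_eq_true.1 h7 l hl
      rw [Bool.or_eq_true] at h8
      rcases h8 with h8 | h8
      · exact Or.inl (Nat.eq_of_beq_eq_true h8)
      · exact Or.inr (Nat.le_of_ble_eq_true h8)
  have hpos := Nat.two_pow_pos n
  refine ⟨?_, ?_, ?_, ?_⟩
  · rintro A ⟨m, hm, rfl⟩
    rw [← pc_eq_card]
    exact (h1' m hm).2.1
  · rintro A B ⟨m, hm, rfl⟩ ⟨l, hl, rfl⟩ hne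
    rcases (h1' m hm).2.2 l hl with h4 | h4
    · exact absurd (by rw [h4]) hne
    · rw [bits_inter, ← pc_eq_card]
      exact h4
  · intro hc
    rw [← bits_full, covB_iff (P := P) (fun A => Iff.rfl) 3 (2 ^ n - 1) (by omega)] at hc
    rw [hc] at h2
    simp at h2
  · intro i
    have h4 := List.all_eq_true.1 h3 (i : ℕ) (List.mem_range.2 i.isLt)
    rw [← bits_erase, covB_iff (P := P) (fun A => Iff.rfl) 3 _ (Nat.xor_lt_two_pow (by omega)
      (Nat.pow_lt_pow_right (by norm_num) i.isLt))]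
    exact h4

theorem good_of_all (n : ℕ) (Ls : List (List ℕ)) (h : Ls.all (goodB n) = true) :
    ∀ P ∈ Ls, Good n (fun A => ∃ m ∈ P, bits n m = A) :=
  fun P hP => good_of_check n P (List.all_eq_true.1 h P hP)

/-- seven points in general position -/
theorem good7 : Good 7 (fun A => ∃ m ∈ ([] : List ℕ), bits 7 m = A) :=
  good_of_check 7 [] (by decide)

end Pool.Agent.BW3
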