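import Pool.Agent.Lib_MP_a68485_co.States10
import Pool.Agent.Lib_MP_a68485_co.Append

/-!
# MP_a68485_co: the checks for 10 points, levels 1 to 5
-/

set_option autoImplicit false

namespace Pool.Agent.BW3

theorem ok10_1 : (sideY 960 L10_1 && levelY 10 (L10_2.map fun p => p.1.2) L10_1) = true := by
  decide +kernel

theorem ok10_2 : (sideY 960 L10_2 && levelY 10 (L10_3.map fun p => p.1.2) L10_2) = true := by
  decide +kernel

theorem ok10_3 : (sideY 960 L10_3 && levelY 10 (L10_4.map Prod.fst) L10_3) = true := by
  decide +kernel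

theorem ok10_4 : levelOK 10 list10 (L10_5.map Prod.fst) (cands 10) L10_4 = true := by
  decide +kernel

theorem ok10_5 : levelOK 10 list10 (L10_6.map Prod.fst) (cands 10) L10_5 = true := by
  decide +kernel

end Pool.Agent.BW3
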