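import Pool.Agent.Lib_MP_a68485_co.States10
import Pool.Agent.Lib_MP_a68485_co.Append

/-!
# MP_a68485_co: the checks for 10 points, level 6
-/

set_option autoImplicit false

namespace Pool.Agent.BW3

theorem ok10_6a : levelOK 10 list10 (L10_7.map Prod.fst) (cands 10) L10_6a = true := by
  decide +kernel

theorem ok10_6b : levelOK 10 list10 (L10_7.map Prod.fst) (cands 10) L10_6b = true := by
  decide +kernel

theorem ok10_6c : levelOK 10 list10 (L10_7.map Prod.fst) (cands 10) L10_6c = true := by
  decide +kernel

theorem ok10_6 : levelOK 10 list10 (L10_7.map Prod.fst) (cands 10) L10_6 = true :=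
  levelOK_append ok10_6a (levelOK_append ok10_6b ok10_6c)

end Pool.Agent.BW3
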