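import Pool.Agent.Lib_MP_a68485_co.States10
import Pool.Agent.Lib_MP_a68485_co.Append

/-!
# MP_a68485_co: the checks for 10 points, level 7
-/

set_option autoImplicit false

namespace Pool.Agent.BW3

theorem ok10_7a : levelOK 10 list10 (L10_8.map Prod.fst) (cands 10) L10_7a = true := by
  decide +kernel

theorem ok10_7b : levelOK 10 list10 (L10_8.map Prod.fst) (cands 10) L10_7b = true := by
  decide +kernel

theorem ok10_7c : levelOK 10 list10 (L10_8.map Prod.fst) (cands 10) L10_7c = true := by
  decide +kernel

theorem ok10_7d : levelOK 10 list10 (L10_8.map Prod.fst) (cands 10) L10_7d = true := by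
  decide +kernel

theorem ok10_7e : levelOK 10 list10 (L10_8.map Prod.fst) (cands 10) L10_7e = true := by
  decide +kernel

theorem ok10_7 : levelOK 10 list10 (L10_8.map Prod.fst) (cands 10) L10_7 = true :=
  levelOK_append ok10_7a (levelOK_append ok10_7b (levelOK_append ok10_7c (levelOK_append ok10_7d ok10_7e)))

end Pool.Agent.BW3
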