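import Pool.Agent.Lib_MP_a68485_co.States10
import Pool.Agent.Lib_MP_a68485_co.Append

/-!
# MP_a68485_co: the checks for 10 points, level 8
-/

set_option autoImplicit false

namespace Pool.Agent.BW3

theorem ok10_8a : levelOK 10 list10 (L10_9.map Prod.fst) (cands 10) L10_8a = true := by
  decide +kernel

theorem ok10_8b : levelOK 10 list10 (L10_9.map Prod.fst) (cands 10) L10_8b = true := by
  decide +kernel

theorem ok10_8c : levelOK 10 list10 (L10_9.map Prod.fst) (cands 10) L10_8c = true := by
  decide +kernel

theorem ok10_8d : levelOK 10 list10 (L10_9.map Prod.fst) (cands 10) L10_8d = true := by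
  decide +kernel

theorem ok10_8e : levelOK 10 list10 (L10_9.map Prod.fst) (cands 10) L10_8e = true := by
  decide +kernel

theorem ok10_8 : levelOK 10 list10 (L10_9.map Prod.fst) (cands 10) L10_8 = true :=
  levelOK_append ok10_8a (levelOK_append ok10_8b (levelOK_append ok10_8c (levelOK_append ok10_8d ok10_8e)))

end Pool.Agent.BW3
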