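import Pool.Agent.Lib_MP_a68485_co.States10
import Pool.Agent.Lib_MP_a68485_co.Append

/-!
# MP_a68485_co: the checks for 10 points, levels 9 and 10
-/

set_option autoImplicit false

namespace Pool.Agent.BW3

theorem ok10_9a : levelOK 10 list10 (L10_10.map Prod.fst) (cands 10) L10_9a = true := by
  decide +kernel

theorem ok10_9b : levelOK 10 list10 (L10_10.map Prod.fst) (cands 10) L10_9b = true := by
  decide +kernel

theorem ok10_9 : levelOK 10 list10 (L10_10.map Prod.fst) (cands 10) L10_9 = true :=
  levelOK_append ok10_9a ok10_9b

theorem ok10_10 : levelOK 10 list10 [] (cands 10) L10_10 = true := by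
  decide +kernel

end Pool.Agent.BW3
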