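import Pool.Agent.Lib_MP_a68485_co.States9
import Pool.Agent.Lib_MP_a68485_co.Append

/-!
# MP_a68485_co: the checks for 9 points, levels 0 to 5
-/

set_option autoImplicit false

namespace Pool.Agent.BW3

theorem ok9_0 : levelOK 9 list9 (L9_1.map Prod.fst) (cands 9) L9_0 = true := by
  decide +kernel

theorem ok9_1 : levelOK 9 list9 (L9_2.map Prod.fst) (cands 9) L9_1 = true := by
  decide +kernel

theorem ok9_2 : levelOK 9 list9 (L9_3.map Prod.fst) (cands 9) L9_2 = true := by
  decide +kernel

theorem ok9_3 : levelOK 9 list9 (L9_4.map Prod.fst) (cands 9) L9_3 = true := by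
  decide +kernel

theorem ok9_4 : levelOK 9 list9 (L9_5.map Prod.fst) (cands 9) L9_4 = true := by
  decide +kernel

theorem ok9_5a : levelOK 9 list9 (L9_6.map Prod.fst) (cands 9) L9_5a = true := by
  decide +kernel

theorem ok9_5b : levelOK 9 list9 (L9_6.map Prod.fst) (cands 9) L9_5b = true := by
  decide +kernel

theorem ok9_5 : levelOK 9 list9 (L9_6.map Prod.fst) (cands 9) L9_5 = true :=
  levelOK_append ok9_5a ok9_5b

end Pool.Agent.BW3
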