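import Pool.Agent.Lib_MP_a68485_co.States9
import Pool.Agent.Lib_MP_a68485_co.Append

/-!
# MP_a68485_co: the checks for 9 points, level 7
-/

set_option autoImplicit false

namespace Pool.Agent.BW3

theorem ok9_7a : levelOK 9 list9 (L9_8.map Prod.fst) (cands 9) L9_7a = true := by
  decide +kernel

theorem ok9_7b : levelOK 9 list9 (L9_8.map Prod.fst) (cands 9) L9_7b = true := by
  decide +kernel

theorem ok9_7c : levelOK 9 list9 (L9_8.map Prod.fst) (cands 9) L9_7c = true := by
  decide +kernel

theorem ok9_7 : levelOK 9 list9 (L9_8.map Prod.fst) (cands 9) L9_7 = true :=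
  levelOK_append ok9_7a (levelOK_append ok9_7b ok9_7c)

end Pool.Agent.BW3
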