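import Pool.Agent.Lib_MP_a68485_co.Perm

/-!
# MP_a68485_co: ten elements
-/

set_option autoImplicit false

namespace Pool.Agent.BW3

open Finset

/-- `l` is a member of a partition of the complement of `x` into three lines -/
def Part (T : Finset (Fin 10) → Prop) (x : Fin 10) (l : Finset (Fin 10)) : Prop :=
  T l ∧ ∃ m₁ m₂, T m₁ ∧ T m₂ ∧ Disjoint l m₁ ∧ Disjoint l m₂ ∧ Disjoint m₁ m₂ ∧
    l ∪ m₁ ∪ m₂ = univ.erase x

theorem part_of_cov {T : Finset (Fin 10) → Prop} (h : Good 10 T) (h3 : ∀ A, T A → A.card = 3)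
    (x : Fin 10) : ∃ A B C, T A ∧ T B ∧ T C ∧ Disjoint A B ∧ Disjoint A C ∧ Disjoint B C ∧
      A ∪ B ∪ C = univ.erase x := by
  have hR : (univ.erase x : Finset (Fin 10)).card = 9 := by
    rw [card_erase_of_mem (mem_univ x), card_univ, Fintype.card_fin]
  have h1 := h.cov x
  rcases h1 with h1 | ⟨A, hA, h1⟩
  · have h1' : (univ.erase x : Finset (Fin 10)).card ≤ 6 := h1
    omega
  have c1 : (univ.erase x).card ≤ ((univ.erase x) \ A).card + A.card := card_le_card_sdiff_add_card
  rcases h1 with h1 | ⟨B, hB, h1⟩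
  · have h1' : ((univ.erase x) \ A).card ≤ 4 := h1
    have := h3 A hA
    omega
  have c2 : ((univ.erase x) \ A).card ≤ (((univ.erase x) \ A) \ B).card + B.card :=
    card_le_card_sdiff_add_card
  rcases h1 with h1 | ⟨C, hC, h1⟩
  · have h1' : (((univ.erase x) \ A) \ B).card ≤ 2 := h1
    have := h3 A hA
    have := h3 B hB
    omega
  have h1' : (((univ.erase x) \ A) \ B) \ C = ∅ := h1
  have hsub : univ.erase x ⊆ A ∪ B ∪ C := by
    intro y hy
    by_contra hcon
    simp only [mem_union, not_or] at hcon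
    have : y ∈ (((univ.erase x) \ A) \ B) \ C := by
      simp only [mem_sdiff]
      exact ⟨⟨⟨hy, hcon.1.1⟩, hcon.1.2⟩, hcon.2⟩
    rw [h1'] at this
    exact absurd this (notMem_empty y)
  have a3 := h3 A hA
  have b3 := h3 B hB
  have c3 := h3 C hC
  have k1 : (A ∪ B ∪ C).card + ((A ∪ B) ∩ C).card = (A ∪ B).card + C.card :=
    card_union_add_card_inter _ _
  have k2 : (A ∪ B).card + (A ∩ B).card = A.card + B.card := card_union_add_card_inter _ _
  have k3 := card_le_card hsub
  have e1 : (A ∩ B).card = 0 := by omega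
  have e2 : ((A ∪ B) ∩ C).card = 0 := by omega
  have e3 : (A ∪ B ∪ C).card ≤ (univ.erase x : Finset (Fin 10)).card := by omega
  have d1 : Disjoint A B := disjoint_iff_inter_eq_empty.2 (card_eq_zero.1 e1)
  have d2 : Disjoint (A ∪ B) C := disjoint_iff_inter_eq_empty.2 (card_eq_zero.1 e2)
  rw [disjoint_union_left] at d2
  exact ⟨A, B, C, hA, hB, hC, d1, d2.1, d2.2, (eq_of_subset_of_card_le hsub e3).symm⟩

theorem exists_part {T : Finset (Fin 10) → Prop} (h : Good 10 T) (h3 : ∀ A, T A → A.card = 3)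
    (x z : Fin 10) (hxz : x ≠ z) : ∃ l, z ∈ l ∧ Part T x l := by
  obtain ⟨A, B, C, hA, hB, hC, hAB, hAC, hBC, hu⟩ := part_of_cov h h3 x
  have hz : z ∈ A ∪ B ∪ C := by
    rw [hu]
    exact mem_erase.2 ⟨hxz.symm, mem_univ z⟩
  rw [mem_union, mem_union] at hz
  rcases hz with (hz | hz) | hz
  · exact ⟨A, hz, hA, B, C, hB, hC, hAB, hAC, hBC, hu⟩
  · refine ⟨B, hz, hB, A, C, hA, hC, hAB.symm, hBC, hAC, ?_⟩
    rw [union_comm B A]
    exact hu
  · refine ⟨C, hz, hC, A, B, hA, hB, hAC.symm, hBC.symm, hAB, ?_⟩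
    rw [union_assoc, union_comm]
    exact hu

/-- the case `y ∈ m₁`, `x ∈ m₁'` of the next theorem -/
theorem part_aux {T : Finset (Fin 10) → Prop} (h : Good 10 T) (h3 : ∀ A, T A → A.card = 3)
    {x y : Fin 10} {l m₁ m₂ n₁ n₂ : Finset (Fin 10)}
    (t1 : T m₁) (t2 : T m₂) (s1 : T n₁) (s2 : T n₂)
    (hu : l ∪ m₁ ∪ m₂ = univ.erase x)
    (f1 : Disjoint l n₁) (f2 : Disjoint l n₂) (f3 : Disjoint n₁ n₂)
    (hv : l ∪ n₁ ∪ n₂ = univ.erase y) (hy : y ∈ m₁) (hx : x ∈ n₁) : False := by
  have hyn : y ∉ l ∪ n₁ ∪ n₂ := by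
    rw [hv]
    exact notMem_erase y univ
  simp only [mem_union, not_or] at hyn
  have hsub : n₂ ⊆ (n₂ ∩ m₁) ∪ (n₂ ∩ m₂) := by
    intro w hw
    have hwx : w ≠ x := fun e => (disjoint_left.1 f3) (e ▸ hx) hw
    have hw1 : w ∈ l ∪ m₁ ∪ m₂ := by
      rw [hu]
      exact mem_erase.2 ⟨hwx, mem_univ w⟩
    have hwl : w ∉ l := fun hl => (disjoint_left.1 f2) hl hw
    simp only [mem_union, mem_inter] at hw1 ⊢
    tauto
  have c0 := (card_le_card hsub).trans (card_union_le _ _)
  have c1 := h3 n₂ s2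
  have hne : n₂ ≠ m₁ := fun e => hyn.2 (e ▸ hy)
  have c2 := h.meet n₂ m₁ s2 t1 hne
  have heq : n₂ = m₂ := by
    by_contra hne2
    have c3 := h.meet n₂ m₂ s2 t2 hne2
    omega
  have hsub2 : n₁.erase x ⊆ n₁ ∩ m₁ := by
    intro w hw
    obtain ⟨hwx, hw⟩ := mem_erase.1 hw
    have hw1 : w ∈ l ∪ m₁ ∪ m₂ := by
      rw [hu]
      exact mem_erase.2 ⟨hwx, mem_univ w⟩
    have hwl : w ∉ l := fun hl => (disjoint_left.1 f1) hl hw
    have hw2 : w ∉ m₂ := by
      rw [← heq]
      exact fun h2 => (disjoint_left.1 f3) hw h2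
    simp only [mem_union, mem_inter] at hw1 ⊢
    tauto
  have c4 := card_le_card hsub2
  rw [card_erase_of_mem hx, h3 n₁ s1] at c4
  have hne3 : n₁ ≠ m₁ := fun e => hyn.1.2 (e ▸ hy)
  have c5 := h.meet n₁ m₁ s1 t1 hne3
  omega

theorem part_inj {T : Finset (Fin 10) → Prop} (h : Good 10 T) (h3 : ∀ A, T A → A.card = 3)
    {x y : Fin 10} {l : Finset (Fin 10)} (hx : Part T x l) (hy : Part T y l) : x = y := by
  by_contra hxy
  obtain ⟨hl, m₁, m₂, t1, t2, e1, e2, e3, hu⟩ := hx
  obtain ⟨-, n₁, n₂, s1, s2, f1, f2, f3, hv⟩ := hy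
  have hyl : y ∉ l := by
    have : y ∉ l ∪ n₁ ∪ n₂ := by
      rw [hv]
      exact notMem_erase y univ
    simp only [mem_union, not_or] at this
    exact this.1.1
  have hxl : x ∉ l := by
    have : x ∉ l ∪ m₁ ∪ m₂ := by
      rw [hu]
      exact notMem_erase x univ
    simp only [mem_union, not_or] at this
    exact this.1.1
  have hy1 : y ∈ l ∪ m₁ ∪ m₂ := by
    rw [hu]
    exact mem_erase.2 ⟨fun e => hxy e.symm, mem_univ y⟩
  have hx1 : x ∈ l ∪ n₁ ∪ n₂ := by
    rw [hv]
    exact mem_erase.2 ⟨hxy, mem_univ x⟩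
  have hu' : l ∪ m₂ ∪ m₁ = univ.erase x := by
    rw [← hu]; ext w; simp only [mem_union]; tauto
  have hv' : l ∪ n₂ ∪ n₁ = univ.erase y := by
    rw [← hv]; ext w; simp only [mem_union]; tauto
  simp only [mem_union] at hy1 hx1
  rcases hy1 with (hy1 | hy1) | hy1
  · exact hyl hy1
  · rcases hx1 with (hx1 | hx1) | hx1
    · exact hxl hx1
    · exact part_aux h h3 t1 t2 s1 s2 hu f1 f2 f3 hv hy1 hx1
    · exact part_aux h h3 t1 t2 s2 s1 hu f2 f1 f3.symm hv' hy1 hx1
  · rcases hx1 with (hx1 | hx1) | hx1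
    · exact hxl hx1
    · exact part_aux h h3 t2 t1 s1 s2 hu' f1 f2 f3 hv hy1 hx1
    · exact part_aux h h3 t2 t1 s2 s1 hu' f2 f1 f3.symm hv' hy1 hx1

theorem exists_four (T : Finset (Fin 10) → Prop) (h : Good 10 T) : ∃ A, T A ∧ A.card = 4 := by
  classical
  by_contra hcon
  push Not at hcon
  have h3 : ∀ A, T A → A.card = 3 := fun A hA => (h.card A hA).resolve_right (hcon A hA)
  have hex : ∀ x : Fin 10, ∃ l, x ≠ 0 → (0 : Fin 10) ∈ l ∧ Part T x l := by
    intro x
    by_cases hx : x = 0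
    · exact ⟨∅, fun h => absurd hx h⟩
    · obtain ⟨l, hl⟩ := exists_part h h3 x 0 hx
      exact ⟨l, fun _ => hl⟩
  choose f hf using hex
  have hdis : ((univ.erase (0 : Fin 10) : Finset (Fin 10)) : Set (Fin 10)).PairwiseDisjoint
      (fun x => (f x).erase 0) := by
    intro x hx y hy hxy
    have hx0 : x ≠ 0 := (mem_erase.1 (mem_coe.1 hx)).1
    have hy0 : y ≠ 0 := (mem_erase.1 (mem_coe.1 hy)).1
    have hne : f x ≠ f y := by
      intro e
      have h1 := (hf x hx0).2
      rw [e] at h1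
      exact hxy (part_inj h h3 h1 (hf y hy0).2)
    have hm := h.meet (f x) (f y) (hf x hx0).2.1 (hf y hy0).2.1 hne
    show Disjoint ((f x).erase 0) ((f y).erase 0)
    rw [disjoint_left]
    intro w hw1 hw2
    have hsub : ({0, w} : Finset (Fin 10)) ⊆ f x ∩ f y := by
      intro v hv
      rw [mem_insert, mem_singleton] at hv
      rcases hv with rfl | rfl
      · exact mem_inter.2 ⟨(hf x hx0).1, (hf y hy0).1⟩
      · exact mem_inter.2 ⟨(mem_erase.1 hw1).2, (mem_erase.1 hw2).2⟩
    have hc := card_le_card hsub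
    rw [card_pair (mem_erase.1 hw1).1.symm] at hc
    omega
  have hsum := card_biUnion hdis
  have hle : ((univ.erase (0 : Fin 10)).biUnion fun x => (f x).erase 0).card ≤ 10 :=
    (card_le_univ _).trans (by simp)
  have hval : ∀ x ∈ univ.erase (0 : Fin 10), ((f x).erase 0).card = 2 := by
    intro x hx
    have hx0 : x ≠ 0 := (mem_erase.1 hx).1
    rw [card_erase_of_mem (hf x hx0).1, h3 _ (hf x hx0).2.1]
  rw [sum_congr rfl hval, sum_const, card_erase_of_mem (mem_univ _), card_univ,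
    Fintype.card_fin] at hsum
  rw [hsum] at hle
  simp at hle

theorem force (T : Finset (Fin 10) → Prop) (h : Good 10 T) (L : Finset (Fin 10)) (hL : T L)
    (h4 : L.card = 4) (y : Fin 10) (hy : y ∉ L) : ∃ A, T A ∧ (A \ L).card = 3 ∧ y ∉ A := by
  classical
  set S : Finset (Fin 10) := (univ \ L).erase y with hS
  have hyS : y ∈ univ \ L := mem_sdiff.2 ⟨mem_univ y, hy⟩
  have hc : (univ \ L : Finset (Fin 10)).card = 6 := by
    rw [card_sdiff_of_subset (subset_univ L), card_univ, Fintype.card_fin, h4]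
  have hS5 : S.card = 5 := by
    rw [hS, card_erase_of_mem hyS, hc]
  have hSL : Disjoint S L := by
    rw [disjoint_left]
    intro w hw hwL
    exact (mem_sdiff.1 (mem_erase.1 hw).2).2 hwL
  have hR : univ.erase y = S ∪ L := by
    ext w
    simp only [hS, mem_erase, mem_union, mem_sdiff, mem_univ, and_true, true_and]
    constructor
    · intro hw
      by_cases hwL : w ∈ L
      · exact Or.inr hwL
      · exact Or.inl ⟨hw, hwL⟩
    · rintro (⟨hw, -⟩ | hw)
      · exact hw
      · exact fun e => hy (e ▸ hw)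
  have step : ∀ X A : Finset (Fin 10), X.card = (X ∩ A).card + (X \ A).card :=
    fun X A => (card_inter_add_card_sdiff X A).symm
  have mono : ∀ X A B : Finset (Fin 10), ((X \ A) ∩ B).card ≤ (X ∩ B).card :=
    fun X A B => card_le_card (inter_subset_inter_right sdiff_subset)
  have mono2 : ∀ X A B C : Finset (Fin 10), (((X \ A) \ B) ∩ C).card ≤ (X ∩ C).card :=
    fun X A B C => card_le_card (inter_subset_inter_right (sdiff_subset.trans sdiff_subset))
  -- a line other than `L` with three points in `S`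
  have key : ∃ A, T A ∧ A ≠ L ∧ 3 ≤ (S ∩ A).card := by
    by_contra hcon
    push Not at hcon
    have hA : ∀ A, T A → ((S ∩ A).card = 0 ∧ (L ∩ A).card ≤ 4) ∨
        ((S ∩ A).card ≤ 2 ∧ (L ∩ A).card ≤ 1) := by
      intro A hA
      by_cases e : A = L
      · left
        rw [e]
        refine ⟨card_eq_zero.2 (disjoint_iff_inter_eq_empty.1 hSL), ?_⟩
        rw [inter_self, h4]
      · right
        have h1 := hcon A hA e
        have h2 := h.meet L A hL hA (fun e' => e e'.symm)
        exact ⟨by omega, h2⟩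
    have h1 := h.cov y
    rw [hR] at h1
    rcases h1 with h1 | ⟨A, tA, h1⟩
    · replace h1 : (S ∪ L).card ≤ 6 := h1
      rw [card_union_of_disjoint hSL] at h1
      omega
    rcases h1 with h1 | ⟨B, tB, h1⟩
    · replace h1 : ((S ∪ L) \ A).card ≤ 4 := h1
      rw [union_sdiff_distrib, card_union_of_disjoint
        (hSL.mono sdiff_subset sdiff_subset)] at h1
      have a1 := step S A
      have a2 := step L A
      have := hA A tA
      omega
    rcases h1 with h1 | ⟨C, tC, h1⟩
    · replace h1 : (((S ∪ L) \ A) \ B).card ≤ 2 := h1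
      rw [union_sdiff_distrib, union_sdiff_distrib, card_union_of_disjoint
        (hSL.mono (sdiff_subset.trans sdiff_subset) (sdiff_subset.trans sdiff_subset))] at h1
      have a1 := step S A
      have a2 := step L A
      have b1 := step (S \ A) B
      have b2 := step (L \ A) B
      have m1 := mono S A B
      have m2 := mono L A B
      have := hA A tA
      have := hA B tB
      omega
    · have h1' : (((S ∪ L) \ A) \ B) \ C = ∅ := h1
      have h2 : ((((S ∪ L) \ A) \ B) \ C).card = 0 := by rw [h1']; rfl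
      rw [union_sdiff_distrib, union_sdiff_distrib, union_sdiff_distrib, card_union_of_disjoint
        (hSL.mono (sdiff_subset.trans (sdiff_subset.trans sdiff_subset))
          (sdiff_subset.trans (sdiff_subset.trans sdiff_subset)))] at h2
      have a1 := step S A
      have a2 := step L A
      have b1 := step (S \ A) B
      have b2 := step (L \ A) B
      have c1 := step ((S \ A) \ B) C
      have c2 := step ((L \ A) \ B) C
      have m1 := mono S A B
      have m2 := mono L A B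
      have m3 := mono2 S A B C
      have m4 := mono2 L A B C
      have := hA A tA
      have := hA B tB
      have := hA C tC
      omega
  obtain ⟨A, tA, hAL, hA3⟩ := key
  -- no line with four points outside `L`
  have hno : ¬ (A.card = 4 ∧ A ⊆ univ \ L) := by
    rintro ⟨h5, h6⟩
    apply h.notcov
    refine Or.inr ⟨L, hL, Or.inr ⟨A, tA, Or.inl ?_⟩⟩
    rw [card_sdiff_of_subset h6, hc, h5]
  have hSA : S ∩ A ⊆ A \ L := by
    intro w hw
    obtain ⟨hw1, hw2⟩ := mem_inter.1 hw
    exact mem_sdiff.2 ⟨hw2, fun hl => (disjoint_left.1 hSL) hw1 hl⟩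
  have hk := card_le_card hSA
  have hk2 : (A \ L).card ≤ A.card := card_le_card sdiff_subset
  have hA34 := h.card A tA
  have hk3 : (A \ L).card = 3 := by
    by_contra hne
    have h7 : (A \ L).card = 4 := by omega
    have h8 : A.card = 4 := by omega
    have h9 : A \ L = A := eq_of_subset_of_card_le sdiff_subset (by omega)
    exact hno ⟨h8, fun w hw => mem_sdiff.2 ⟨mem_univ w, (mem_sdiff.1 (h9.symm ▸ hw)).2⟩⟩
  refine ⟨A, tA, hk3, ?_⟩
  intro hyA
  have h10 : insert y (S ∩ A) ⊆ A \ L := by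
    intro w hw
    rw [mem_insert] at hw
    rcases hw with rfl | hw
    · exact mem_sdiff.2 ⟨hyA, hy⟩
    · exact hSA hw
  have h11 : y ∉ S ∩ A := by
    intro hw
    exact (mem_erase.1 (mem_inter.1 hw).1).1 rfl
  have h12 := card_le_card h10
  rw [card_insert_of_notMem h11] at h12
  omega

theorem force' (T : Finset (Fin 10) → Prop) (h : Good 10 T) (h960 : T (bits 10 960)) (y : Fin 10)
    (hy : (y : ℕ) < 6) :
    ∃ A, T A ∧ (A.filter fun i : Fin 10 => (i : ℕ) < 6).card = 3 ∧ y ∉ A := by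
  have hmem : ∀ i : Fin 10, i ∈ bits 10 960 ↔ ¬ (i : ℕ) < 6 := by decide
  have h4 : (bits 10 960).card = 4 := by decide
  obtain ⟨A, hA, h3, hyA⟩ := force T h _ h960 h4 y (fun h' => (hmem y).1 h' hy)
  refine ⟨A, hA, ?_, hyA⟩
  rw [← h3]
  congr 1
  ext i
  rw [mem_filter, mem_sdiff, hmem i, not_not]

theorem ten_of_claim (Ls : List (List ℕ)) (h : Claim 10 Ls [960]) :
    ∀ T, Good 10 T → Listed 10 Ls T := by
  intro T hT
  obtain ⟨A, hA, h4⟩ := exists_four T hT
  have h4' : (bits 10 960).card = 4 := by decide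
  obtain ⟨σ, hσ⟩ := exists_perm_map (bits 10 960) A (h4'.trans h4.symm)
  refine listed_perm σ (h _ (good_perm σ hT) ?_)
  intro m hm
  rw [List.mem_singleton] at hm
  rw [hm]
  show T _
  rw [hσ]
  exact hA

end Pool.Agent.BW3
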