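import Pool.Agent.Lib_MP_a68485_co.Data8
import Pool.Agent.Lib_MP_a68485_co.Data9a
import Pool.Agent.Lib_MP_a68485_co.Data9b
import Pool.Agent.Lib_MP_a68485_co.Data9c
import Pool.Agent.Lib_MP_a68485_co.Data9d
import Pool.Agent.Lib_MP_a68485_co.Data10a
import Pool.Agent.Lib_MP_a68485_co.Data10b
import Pool.Agent.Lib_MP_a68485_co.Data10c
import Pool.Agent.Lib_MP_a68485_co.Data10d
import Pool.Agent.Lib_MP_a68485_co.Data10e
import Pool.Agent.Lib_MP_a68485_co.Ten

/-!
# MP_a68485_co: classification of the good systems with 8, 9 and 10 points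
-/

set_option autoImplicit false

namespace Pool.Agent.BW3

/-- from the claims about the states of the next level to the list of states used by the checker -/
theorem claim_fst {n : ℕ} {Ls : List (List ℕ)} {L : List (List ℕ × List ℕ)} (h : ∀ p ∈ L, Claim n Ls p.1) :
    ∀ P ∈ L.map Prod.fst, Claim n Ls P := by
  intro P hP
  obtain ⟨p, hp, rfl⟩ := List.mem_map.1 hP
  exact h p hp

theorem claim_snd {n : ℕ} {Ls : List (List ℕ)} {L : List ((ℕ × List ℕ) × List ℕ)}
    (h : ∀ p ∈ L, Claim n Ls p.1.2) : ∀ P ∈ L.map (fun p => p.1.2), Claim n Ls P := by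
  intro P hP
  obtain ⟨p, hp, rfl⟩ := List.mem_map.1 hP
  exact h p hp

theorem claim_nil {n : ℕ} {Ls : List (List ℕ)} : ∀ P ∈ ([] : List (List ℕ)), Claim n Ls P := by
  intro P hP
  simp at hP

theorem class8 (T : Finset (Fin 8) → Prop) (hT : Good 8 T) : Listed 8 list8 T := by
  have h7 := level_sound _ _ _ claim_nil ok8_7
  have h6 := level_sound _ _ _ (claim_fst h7) ok8_6
  have h5 := level_sound _ _ _ (claim_fst h6) ok8_5
  have h4 := level_sound _ _ _ (claim_fst h5) ok8_4
  have h3 := level_sound _ _ _ (claim_fst h4) ok8_3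
  have h2 := level_sound _ _ _ (claim_fst h3) ok8_2
  have h1 := level_sound _ _ _ (claim_fst h2) ok8_1
  have h0 := level_sound _ _ _ (claim_fst h1) ok8_0
  exact h0 (_, _) (List.mem_cons_self ..) T hT (by simp)

theorem class9 (T : Finset (Fin 9) → Prop) (hT : Good 9 T) : Listed 9 list9 T := by
  have h9 := level_sound _ _ _ claim_nil ok9_9
  have h8 := level_sound _ _ _ (claim_fst h9) ok9_8
  have h7 := level_sound _ _ _ (claim_fst h8) ok9_7
  have h6 := level_sound _ _ _ (claim_fst h7) ok9_6
  have h5 := level_sound _ _ _ (claim_fst h6) ok9_5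
  have h4 := level_sound _ _ _ (claim_fst h5) ok9_4
  have h3 := level_sound _ _ _ (claim_fst h4) ok9_3
  have h2 := level_sound _ _ _ (claim_fst h3) ok9_2
  have h1 := level_sound _ _ _ (claim_fst h2) ok9_1
  have h0 := level_sound _ _ _ (claim_fst h1) ok9_0
  exact h0 (_, _) (List.mem_cons_self ..) T hT (by simp)

theorem class10 (T : Finset (Fin 10) → Prop) (hT : Good 10 T) : Listed 10 list10 T := by
  have h10 := level_sound _ _ _ claim_nil ok10_10
  have h9 := level_sound _ _ _ (claim_fst h10) ok10_9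
  have h8 := level_sound _ _ _ (claim_fst h9) ok10_8
  have h7 := level_sound _ _ _ (claim_fst h8) ok10_7
  have h6 := level_sound _ _ _ (claim_fst h7) ok10_6
  have h5 := level_sound _ _ _ (claim_fst h6) ok10_5
  have h4 := level_sound _ _ _ (claim_fst h5) ok10_4
  have h3 := levelY_sound' (by norm_num) 960 _ _ _ (claim_fst h4) force' ok10_3
  have h2 := levelY_sound' (by norm_num) 960 _ _ _ (claim_snd h3) force' ok10_2
  have h1 := levelY_sound' (by norm_num) 960 _ _ _ (claim_snd h2) force' ok10_1
  exact ten_of_claim _ (h1 ((0, [960]), _) (List.mem_cons_self ..)) T hT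

end Pool.Agent.BW3
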