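import Pool.Agent.Lib_MP_a68485_co.States4
import Pool.Agent.Lib_MP_a68485_co.Append4

/-!
# MP_a68485_co: the checks for the systems of four-element sets, b = false, level 6
-/

set_option autoImplicit false

namespace Pool.Agent.BW3

theorem okS_6a : levelOK4 false listS (MS_7.map Prod.fst) (cands4 false) MS_6a = true := by
  decide +kernel

theorem okS_6b : levelOK4 false listS (MS_7.map Prod.fst) (cands4 false) MS_6b = true := by
  decide +kernel

theorem okS_6 : levelOK4 false listS (MS_7.map Prod.fst) (cands4 false) MS_6 = true :=
  levelOK4_append okS_6a okS_6b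

end Pool.Agent.BW3
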