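import Pool.Agent.Lib_MP_a68485_co.States4
import Pool.Agent.Lib_MP_a68485_co.Append4

/-!
# MP_a68485_co: the checks for the systems of four-element sets, b = false, levels 7 to 9
-/

set_option autoImplicit false

namespace Pool.Agent.BW3

theorem okS_7a : levelOK4 false listS (MS_8.map Prod.fst) (cands4 false) MS_7a = true := by
  decide +kernel

theorem okS_7b : levelOK4 false listS (MS_8.map Prod.fst) (cands4 false) MS_7b = true := by
  decide +kernel

theorem okS_7 : levelOK4 false listS (MS_8.map Prod.fst) (cands4 false) MS_7 = true :=
  levelOK4_append okS_7a okS_7b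

theorem okS_8 : levelOK4 false listS (MS_9.map Prod.fst) (cands4 false) MS_8 = true := by
  decide +kernel

theorem okS_9 : levelOK4 false listS [] (cands4 false) MS_9 = true := by
  decide +kernel

end Pool.Agent.BW3
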