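import Pool.Agent.Lib_MP_a68485_co.Comb

/-!
# MP_a68485_co: soundness of the checker
-/

set_option autoImplicit false

namespace Pool.Agent.BW3

/-! ### bits -/

theorem tb_add (p x j : ℕ) (h : x.testBit p = false) :
    (2 ^ p + x).testBit j = (decide (j = p) || x.testBit j) := by
  rcases lt_trichotomy j p with hj | hj | hj
  · rw [Nat.testBit_two_pow_add_gt hj]
    simp [hj.ne]
  · subst hj
    rw [Nat.testBit_two_pow_add_eq, h]
    simp
  · obtain ⟨k, rfl⟩ : ∃ k, j = (k + 1) + p := ⟨j - p - 1, by omega⟩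
    rw [Nat.testBit_add (2 ^ p + x) (k + 1) p, Nat.testBit_add x (k + 1) p, Nat.testBit_add_one, Nat.testBit_add_one]
    have h1 : (2 ^ p + x) / 2 ^ p = x / 2 ^ p + 1 := by
      rw [Nat.add_div_left _ (by positivity)]
    have h2 : x / 2 ^ p % 2 = 0 := by
      have := h
      rw [Nat.testBit_eq_decide_div_mod_eq] at this
      simp only [decide_eq_false_iff_not] at this
      omega
    have h3 : (x / 2 ^ p + 1) / 2 = x / 2 ^ p / 2 := by omega
    rw [h1, h3]
    have h4 : ¬ (k + 1 + p = p) := by omega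
    simp [h4]

theorem tb_of_and (p x : ℕ) (h : x &&& 2 ^ p = 0) : x.testBit p = false := by
  have h1 : (x &&& 2 ^ p).testBit p = false := by rw [h]; simp
  rw [Nat.testBit_and, Nat.testBit_two_pow_self] at h1
  simpa using h1

theorem mem_bits {n m : ℕ} {i : Fin n} : i ∈ bits n m ↔ m.testBit i = true := by
  simp [bits]

theorem bits_inter (n a b : ℕ) : bits n a ∩ bits n b = bits n (a &&& b) := by
  ext i; simp [mem_bits]

theorem bits_sdiff (n a b : ℕ) : bits n a \ bits n b = bits n (a ^^^ (a &&& b)) := by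
  ext i
  simp only [Finset.mem_sdiff, mem_bits, Nat.testBit_xor, Nat.testBit_and]
  cases a.testBit i <;> cases b.testBit i <;> simp

theorem bits_full (n : ℕ) : bits n (2 ^ n - 1) = Finset.univ := by
  ext i; simp [mem_bits]

theorem bits_erase (n : ℕ) (i : Fin n) : bits n ((2 ^ n - 1) ^^^ 2 ^ (i : ℕ)) = Finset.univ.erase i := by
  ext j
  simp only [mem_bits, Nat.testBit_xor, Nat.testBit_two_pow_sub_one, Nat.testBit_two_pow, Finset.mem_erase,
    Finset.mem_univ, and_true, j.isLt, decide_true]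
  by_cases h : (i : ℕ) = j
  · simp [h, Fin.ext_iff]
  · have : ¬ j = i := fun h' => h (by rw [h'])
    simp [h, this]

theorem bits_inj {n a b : ℕ} (ha : a < 2 ^ n) (hb : b < 2 ^ n) (h : bits n a = bits n b) : a = b := by
  apply Nat.eq_of_testBit_eq
  intro i
  by_cases hi : i < n
  · have := Finset.ext_iff.1 h ⟨i, hi⟩
    rw [mem_bits, mem_bits] at this
    exact Bool.eq_iff_iff.2 this
  · have h1 : 2 ^ n ≤ 2 ^ i := Nat.pow_le_pow_right (by norm_num) (by omega)
    rw [Nat.testBit_lt_two_pow (by omega), Nat.testBit_lt_two_pow (by omega)]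

theorem exists_mask {n : ℕ} (A : Finset (Fin n)) : ∃ m, m < 2 ^ n ∧ bits n m = A := by
  induction A using Finset.induction_on with
  | empty => exact ⟨0, by positivity, by ext i; simp [mem_bits]⟩
  | insert a s _ ih =>
    obtain ⟨m, hm, hs⟩ := ih
    refine ⟨m ||| 2 ^ (a : ℕ), Nat.or_lt_two_pow hm (Nat.pow_lt_pow_right (by norm_num) a.isLt), ?_⟩
    ext i
    rw [mem_bits, Nat.testBit_or, Nat.testBit_two_pow, Finset.mem_insert, ← hs, mem_bits]
    simp only [Bool.or_eq_true, decide_eq_true_eq, Fin.ext_iff]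
    constructor
    · rintro (h | h)
      · exact Or.inr h
      · exact Or.inl h.symm
    · rintro (h | h)
      · exact Or.inr h.symm
      · exact Or.inl h

theorem pc_eq_card (n m : ℕ) : pc n m = (bits n m).card := by
  induction n generalizing m with
  | zero => simp [pc, bits]
  | succ k ih =>
    rw [pc, ih, bits, Finset.card_filter, bits, Finset.card_filter, Fin.sum_univ_succ]
    congr 1
    · rcases Nat.mod_two_eq_zero_or_one m with h | h <;> simp [h]
    · apply Finset.sum_congr rfl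
      intro i _
      rw [Fin.val_succ, Nat.testBit_add_one]

theorem pc_lt_eq (n k m : ℕ) (hk : k ≤ n) : pc k m = ((bits n m).filter fun i : Fin n => (i : ℕ) < k).card := by
  rw [pc_eq_card]
  apply Finset.card_bij (fun (i : Fin k) _ => (⟨i, by omega⟩ : Fin n))
  · intro i hi
    rw [mem_bits] at hi
    rw [Finset.mem_filter, mem_bits]
    exact ⟨hi, i.isLt⟩
  · intro i _ j _ h
    simpa [Fin.ext_iff] using h
  · intro i hi
    rw [Finset.mem_filter, mem_bits] at hi
    exact ⟨⟨i, hi.2⟩, by rw [mem_bits]; exact hi.1, rfl⟩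

/-! ### covering -/

theorem CovT.mono {n : ℕ} {T T' : Finset (Fin n) → Prop} (h : ∀ A, T A → T' A) (k : ℕ) (R : Finset (Fin n)) :
    CovT T k R → CovT T' k R := by
  induction k generalizing R with
  | zero => exact id
  | succ k ih =>
    rintro (h1 | ⟨A, hA, h1⟩)
    · exact Or.inl h1
    · exact Or.inr ⟨A, h A hA, ih _ h1⟩

theorem covB_iff {n : ℕ} {T : Finset (Fin n) → Prop} {P : List ℕ} (hT : ∀ A, T A ↔ ∃ m ∈ P, bits n m = A)
    (k R : ℕ) (hR : R < 2 ^ n) : CovT T k (bits n R) ↔ covB n P k R = true := by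
  induction k generalizing R with
  | zero =>
    rw [CovT, covB]
    constructor
    · intro h
      have : R = 0 := bits_inj hR (by positivity) (by rw [h]; ext i; simp [mem_bits])
      simp [this]
    · intro h
      have : R = 0 := by simpa using h
      rw [this]; ext i; simp [mem_bits]
  | succ k ih =>
    rw [CovT, covB, Bool.or_eq_true, Nat.ble_eq, pc_eq_card, List.any_eq_true]
    apply or_congr Iff.rfl
    constructor
    · rintro ⟨A, hA, h⟩
      obtain ⟨m, hm, rfl⟩ := (hT A).1 hA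
      refine ⟨m, hm, ?_⟩
      rw [bits_sdiff] at h
      exact (ih _ (Nat.xor_lt_two_pow hR (lt_of_le_of_lt Nat.and_le_left hR))).1 h
    · rintro ⟨m, hm, h⟩
      refine ⟨bits n m, (hT _).2 ⟨m, hm, rfl⟩, ?_⟩
      rw [bits_sdiff]
      exact (ih _ (Nat.xor_lt_two_pow hR (lt_of_le_of_lt Nat.and_le_left hR))).2 h

theorem covB_covT {n : ℕ} {T : Finset (Fin n) → Prop} {P : List ℕ} (hT : ∀ m ∈ P, T (bits n m))
    (k R : ℕ) (hR : R < 2 ^ n) (h : covB n P k R = true) : CovT T k (bits n R) := by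
  have h1 := (covB_iff (T := fun A => ∃ m ∈ P, bits n m = A) (fun A => Iff.rfl) k R hR).2 h
  refine CovT.mono ?_ k _ h1
  rintro A ⟨m, hm, rfl⟩
  exact hT m hm

/-! ### bad pairs -/

theorem two_le_card {n x : ℕ} (hx : x < 2 ^ n) (h : (x &&& (x - 1)) ≠ 0) : 2 ≤ (bits n x).card := by
  by_contra hc
  apply h
  have hc' : (bits n x).card ≤ 1 := by omega
  rcases Nat.lt_or_ge (bits n x).card 1 with h0 | h1
  · have h0' : bits n x = ∅ := Finset.card_eq_zero.1 (by omega)
    have : x = 0 := bits_inj hx (by positivity) (by rw [h0']; ext i; simp [mem_bits])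
    simp [this]
  · obtain ⟨i, hi⟩ := Finset.card_eq_one.1 (le_antisymm hc' h1)
    have : x = 2 ^ (i : ℕ) := by
      apply bits_inj hx (Nat.pow_lt_pow_right (by norm_num) i.isLt)
      rw [hi]
      ext j
      rw [mem_bits, Nat.testBit_two_pow, Finset.mem_singleton, decide_eq_true_eq, Fin.ext_iff, eq_comm]
    rw [this]
    apply Nat.eq_of_testBit_eq
    intro j
    rw [Nat.testBit_and, Nat.testBit_two_pow, Nat.testBit_two_pow_sub_one, Nat.zero_testBit]
    by_cases hj : (i : ℕ) = j
    · simp [hj]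
    · simp [hj]

theorem bad_sound {n : ℕ} {T : Finset (Fin n) → Prop} (hG : Good n T) {P : List ℕ} (hP : ∀ l ∈ P, T (bits n l))
    {m : ℕ} (hm : m < 2 ^ n) (hTm : T (bits n m)) (h : bad P m = true) : ∃ l ∈ P, bits n l = bits n m := by
  rw [bad, List.any_eq_true] at h
  obtain ⟨l, hl, h⟩ := h
  refine ⟨l, hl, ?_⟩
  by_contra hne
  have h1 : ((m &&& l) &&& ((m &&& l) - 1)) ≠ 0 := by
    intro h0
    rw [h0] at h
    simp at h
  have h2 := two_le_card (lt_of_le_of_lt Nat.and_le_left hm : (m &&& l) < 2 ^ n) h1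
  have h3 := hG.meet _ _ (hP l hl) hTm hne
  rw [Finset.inter_comm, bits_inter] at h3
  omega

/-! ### permutations -/

/-- the `i`-th hexadecimal digit -/
def dg (c i : ℕ) : ℕ := c / 16 ^ i % 16

theorem dg_zero (c : ℕ) : dg c 0 = c % 16 := by simp [dg]

theorem dg_succ (c i : ℕ) : dg c (i + 1) = dg (c / 16) i := by
  rw [dg, dg, Nat.div_div_eq_div_mul, pow_succ, Nat.mul_comm]

theorem isPerm_spec (n k c acc : ℕ) (h : isPerm n k c acc = true) :
    (∀ i < k, dg c i < n) ∧ (∀ i < k, acc.testBit (dg c i) = false) ∧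
      (∀ i < k, ∀ j < k, dg c i = dg c j → i = j) := by
  induction k generalizing c acc with
  | zero => simp
  | succ k ih =>
    rw [isPerm, Bool.and_eq_true, Bool.and_eq_true] at h
    obtain ⟨h1, h2, h3⟩ := h
    have h1' : c % 16 < n := by simpa [Nat.blt] using h1
    have h2' : acc &&& 2 ^ (c % 16) = 0 := Nat.eq_of_beq_eq_true h2
    have h2'' := tb_of_and _ _ h2'
    obtain ⟨i1, i2, i3⟩ := ih (c / 16) (acc + 2 ^ (c % 16)) h3
    have i2' : ∀ i < k, dg (c / 16) i ≠ c % 16 ∧ acc.testBit (dg (c / 16) i) = false := by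
      intro i hi
      have := i2 i hi
      rw [Nat.add_comm, tb_add _ _ _ h2'', Bool.or_eq_false_iff] at this
      exact ⟨by simpa using this.1, this.2⟩
    refine ⟨?_, ?_, ?_⟩
    · intro i hi
      rcases i with _ | i
      · rw [dg_zero]; exact h1'
      · rw [dg_succ]; exact i1 i (by omega)
    · intro i hi
      rcases i with _ | i
      · rw [dg_zero]; exact h2''
      · rw [dg_succ]; exact (i2' i (by omega)).2
    · intro i hi j hj hij
      rcases i with _ | i <;> rcases j with _ | j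
      · rfl
      · rw [dg_zero, dg_succ] at hij
        exact absurd hij.symm (i2' j (by omega)).1
      · rw [dg_zero, dg_succ] at hij
        exact absurd hij (i2' i (by omega)).1
      · rw [dg_succ, dg_succ] at hij
        rw [i3 i (by omega) j (by omega) hij]

theorem pm_spec (n c m : ℕ) (hinj : ∀ i < n, ∀ j < n, dg c i = dg c j → i = j) (j : ℕ) :
    (pm n c m).testBit j = true ↔ ∃ i < n, m.testBit i = true ∧ dg c i = j := by
  induction n generalizing c m j with
  | zero => simp [pm]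
  | succ n ih =>
    have ih' := fun j => ih (c / 16) (m / 2) (by
      intro i hi j hj hij
      have := hinj (i + 1) (by omega) (j + 1) (by omega) (by rw [dg_succ, dg_succ, hij])
      omega) j
    have key : ∀ j, (∃ i < n, (m / 2).testBit i = true ∧ dg (c / 16) i = j) ↔
        ∃ i < n, m.testBit (i + 1) = true ∧ dg c (i + 1) = j := by
      intro j
      apply exists_congr
      intro i
      rw [Nat.testBit_add_one, dg_succ]
    rw [pm]
    rcases Nat.mod_two_eq_zero_or_one m with h | h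
    · rw [h, Nat.zero_mul, Nat.zero_add, ih' j, key j]
      constructor
      · rintro ⟨i, hi, h1, h2⟩
        exact ⟨i + 1, by omega, h1, h2⟩
      · rintro ⟨i, hi, h1, h2⟩
        rcases i with _ | i
        · rw [Nat.testBit_zero, h] at h1
          simp at h1
        · exact ⟨i, by omega, h1, h2⟩
    · have hf : (pm n (c / 16) (m / 2)).testBit (c % 16) = false := by
        rw [Bool.eq_false_iff]
        intro h1
        obtain ⟨i, hi, _, h2⟩ := (key _).1 ((ih' _).1 h1)
        have := hinj (i + 1) (by omega) 0 (by omega) (by rw [h2, dg_zero])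
        omega
      rw [h, Nat.one_mul, tb_add _ _ _ hf, Bool.or_eq_true, ih' j, key j, decide_eq_true_eq]
      constructor
      · rintro (rfl | ⟨i, hi, h1, h2⟩)
        · exact ⟨0, by omega, by rw [Nat.testBit_zero, h]; rfl, dg_zero c⟩
        · exact ⟨i + 1, by omega, h1, h2⟩
      · rintro ⟨i, hi, h1, h2⟩
        rcases i with _ | i
        · left; rw [← h2, dg_zero]
        · right; exact ⟨i, by omega, h1, h2⟩

/-- the permutation with code `c` -/
theorem exists_perm {n c : ℕ} (h : isPerm n n c 0 = true) :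
    ∃ σ : Equiv.Perm (Fin n), ∀ m, (bits n m).map σ.toEmbedding = bits n (pm n c m) := by
  obtain ⟨h1, _, h3⟩ := isPerm_spec n n c 0 h
  let f : Fin n → Fin n := fun i => ⟨dg c i, h1 i i.isLt⟩
  have hf : Function.Injective f := by
    intro i j hij
    have : dg c i = dg c j := by simpa [f, Fin.ext_iff] using hij
    exact Fin.ext (h3 i i.isLt j j.isLt this)
  refine ⟨Equiv.ofBijective f (Finite.injective_iff_bijective.1 hf), ?_⟩
  intro m
  ext j
  rw [Finset.mem_map, mem_bits, pm_spec n c m h3]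
  constructor
  · rintro ⟨i, hi, rfl⟩
    exact ⟨i, i.isLt, mem_bits.1 hi, rfl⟩
  · rintro ⟨i, hi, h4, h5⟩
    exact ⟨⟨i, hi⟩, mem_bits.2 h4, Fin.ext h5⟩

theorem CovT.map {n : ℕ} (T : Finset (Fin n) → Prop) (σ : Equiv.Perm (Fin n)) (k : ℕ) (R : Finset (Fin n)) :
    CovT (fun A => T (A.map σ.toEmbedding)) k R ↔ CovT T k (R.map σ.toEmbedding) := by
  induction k generalizing R with
  | zero => rw [CovT, CovT, Finset.map_eq_empty]
  | succ k ih =>
    rw [CovT, CovT, Finset.card_map]
    apply or_congr Iff.rfl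
    constructor
    · rintro ⟨A, hA, h⟩
      refine ⟨A.map σ.toEmbedding, hA, ?_⟩
      rw [← Finset.map_sdiff]
      exact (ih _).1 h
    · rintro ⟨A, hA, h⟩
      obtain ⟨B, rfl⟩ : ∃ B : Finset (Fin n), A = B.map σ.toEmbedding := by
        refine ⟨A.map σ.symm.toEmbedding, ?_⟩
        ext i
        simp
      refine ⟨B, hA, ?_⟩
      rw [← Finset.map_sdiff] at h
      exact (ih _).2 h

theorem Good.map {n : ℕ} {T : Finset (Fin n) → Prop} (h : Good n T) (σ : Equiv.Perm (Fin n)) :
    Good n fun A => T (A.map σ.toEmbedding) where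
  card A hA := by simpa using h.card _ hA
  meet A B hA hB hAB := by
    have := h.meet _ _ hA hB (fun h' => hAB (Finset.map_injective _ h'))
    rwa [← Finset.map_inter, Finset.card_map] at this
  notcov hc := by
    apply h.notcov
    have := (CovT.map T σ 3 Finset.univ).1 hc
    rwa [Finset.map_univ_equiv] at this
  cov i := by
    rw [CovT.map]
    have : (Finset.univ.erase i).map σ.toEmbedding = Finset.univ.erase (σ i) := by
      rw [Finset.map_erase, Finset.map_univ_equiv]
      rfl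
    rw [this]
    exact h.cov _

theorem Listed.of_map {n : ℕ} {Ls : List (List ℕ)} {T : Finset (Fin n) → Prop} (σ : Equiv.Perm (Fin n))
    (h : Listed n Ls fun A => T (A.map σ.toEmbedding)) : Listed n Ls T := by
  obtain ⟨P, hP, τ, h⟩ := h
  refine ⟨P, hP, τ.trans σ, fun A => ?_⟩
  rw [← h A]
  show _ ↔ T (Finset.map σ.toEmbedding (Finset.map τ.toEmbedding A))
  rw [Finset.map_map]
  rfl

/-! ### the checker -/

theorem entry_sound {n : ℕ} {Ls Q : List (List ℕ)} (hQ : ∀ P ∈ Q, Claim n Ls P) {P : List ℕ} {m e : ℕ}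
    (h : entryOK n Q P m e = true) {T : Finset (Fin n) → Prop} (hT : Good n T) (hP : ∀ l ∈ P, T (bits n l))
    (hTm : T (bits n m)) : Listed n Ls T := by
  have hP' : ∀ l ∈ m :: P, T (bits n l) := by
    intro l hl
    rcases List.mem_cons.1 hl with rfl | hl
    · exact hTm
    · exact hP l hl
  rw [entryOK] at h
  cases he : Nat.beq e 0
  · rw [he, cond_false, Bool.and_eq_true] at h
    obtain ⟨h1, h2⟩ := h
    obtain ⟨σ, hσ⟩ := exists_perm h1
    cases hq : Q[e % 1024]? with
    | none => rw [hq] at h2; simp at h2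
    | some q =>
      rw [hq] at h2
      have hqQ : q ∈ Q := List.mem_of_getElem? hq
      apply Listed.of_map σ
      apply hQ q hqQ _ (hT.map σ)
      intro l hl
      have h3 := List.all_eq_true.1 h2 l hl
      obtain ⟨x, hx, hx'⟩ := List.any_eq_true.1 h3
      have hx'' := Nat.eq_of_beq_eq_true hx'
      show T ((bits n l).map σ.toEmbedding)
      rw [hσ, hx'']
      exact hP' x hx
  · rw [he, cond_true] at h
    exfalso
    apply hT.notcov
    have := covB_covT hP' 3 (2 ^ n - 1) (by have := Nat.two_pow_pos n; omega) h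
    rwa [bits_full] at this

theorem chk_sound {n : ℕ} (Ls Q : List (List ℕ)) (hQ : ∀ P ∈ Q, Claim n Ls P) (P C cert : List ℕ)
    (h : chk n Q P C cert = true) (T : Finset (Fin n) → Prop) (hT : Good n T) (hP : ∀ l ∈ P, T (bits n l))
    (m : ℕ) (hmC : m ∈ C) (hm : m < 2 ^ n) (hTm : T (bits n m)) :
    (∃ l ∈ P, bits n l = bits n m) ∨ Listed n Ls T := by
  induction C generalizing cert with
  | nil => simp at hmC
  | cons a C ih =>
    rw [chk.eq_def] at h
    simp only at h
    cases hb : bad P a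
    · rw [hb, cond_false] at h
      cases cert with
      | nil => simp at h
      | cons e es =>
        simp only [Bool.and_eq_true] at h
        rcases List.mem_cons.1 hmC with rfl | hmC
        · exact Or.inr (entry_sound hQ h.1 hT hP hTm)
        · exact ih es h.2 hmC
    · rw [hb, cond_true] at h
      rcases List.mem_cons.1 hmC with rfl | hmC
      · exact Or.inl (bad_sound hT hP hm hTm hb)
      · exact ih cert h hmC

theorem mem_cands {n m : ℕ} : m ∈ cands n ↔ m < 2 ^ n ∧ ((bits n m).card = 3 ∨ (bits n m).card = 4) := by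
  rw [cands, List.mem_filter, List.mem_range, Bool.or_eq_true, pc_eq_card]
  simp only [Nat.beq_eq]

theorem mem_candsY {n y m : ℕ} (hn : 6 ≤ n) : m ∈ candsY n y ↔ m ∈ cands n ∧
    ((bits n m).filter fun i : Fin n => (i : ℕ) < 6).card = 3 ∧ m.testBit y = false := by
  rw [candsY, List.mem_filter, Bool.and_eq_true, ← pc_lt_eq n 6 m hn]
  simp only [Nat.beq_eq, Bool.not_eq_true']

theorem exact_sound {n : ℕ} {Ls : List (List ℕ)} {P : List ℕ} (h : exactOK n Ls P = true)
    {T : Finset (Fin n) → Prop} (hT : Good n T) (hP : ∀ A, T A ↔ ∃ m ∈ P, bits n m = A) : Listed n Ls T := by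
  rw [exactOK, Bool.or_eq_true, Bool.or_eq_true] at h
  rcases h with h | h | h
  · obtain ⟨q, hq, h1⟩ := List.any_eq_true.1 h
    have h1' : q = P := by simpa using h1
    subst h1'
    refine ⟨q, hq, Equiv.refl _, fun A => ?_⟩
    rw [← hP]
    have : A.map (Equiv.refl (Fin n)).toEmbedding = A := by
      ext i; simp
    rw [this]
  · exfalso
    apply hT.notcov
    rw [← bits_full]
    exact (covB_iff hP 3 _ (by have := Nat.two_pow_pos n; omega)).2 h
  · obtain ⟨i, hi, h1⟩ := List.any_eq_true.1 h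
    rw [List.mem_range] at hi
    exfalso
    have h2 := hT.cov ⟨i, hi⟩
    rw [← bits_erase] at h2
    have h3 : (2 ^ n - 1) ^^^ 2 ^ i < 2 ^ n := Nat.xor_lt_two_pow (by have := Nat.two_pow_pos n; omega)
      (Nat.pow_lt_pow_right (by norm_num) hi)
    have h4 := (covB_iff hP 3 _ h3).1 h2
    rw [h4] at h1
    simp at h1

theorem level_sound {n : ℕ} (Ls Q : List (List ℕ)) (L : List (List ℕ × List ℕ)) (hQ : ∀ P ∈ Q, Claim n Ls P)
    (h : levelOK n Ls Q (cands n) L = true) : ∀ p ∈ L, Claim n Ls p.1 := by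
  intro p hp T hT hTP
  have h1 := List.all_eq_true.1 h p hp
  rw [Bool.and_eq_true] at h1
  by_cases hA : ∃ A, T A ∧ ∀ l ∈ p.1, bits n l ≠ A
  · obtain ⟨A, hA, hA'⟩ := hA
    obtain ⟨m, hm, rfl⟩ := exists_mask A
    rcases chk_sound Ls Q hQ p.1 (cands n) p.2 h1.2 T hT hTP m (mem_cands.2 ⟨hm, hT.card _ hA⟩) hm hA with h2 | h2
    · obtain ⟨l, hl, h2⟩ := h2
      exact absurd h2 (hA' l hl)
    · exact h2
  · apply exact_sound h1.1 hT
    intro A
    constructor
    · intro h2
      by_contra h3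
      exact hA ⟨A, h2, fun l hl h4 => h3 ⟨l, hl, h4⟩⟩
    · rintro ⟨m, hm, rfl⟩
      exact hTP m hm

theorem levelY_sound {n : ℕ} (hn : 6 ≤ n) (M : ℕ) (Ls Q : List (List ℕ)) (L : List ((ℕ × List ℕ) × List ℕ))
    (hQ : ∀ P ∈ Q, Claim n Ls P) (h : levelY n Q L = true)
    (hforce : ∀ T : Finset (Fin n) → Prop, Good n T → T (bits n M) → ∀ y : Fin n, (y : ℕ) < 6 →
      ∃ A, T A ∧ (A.filter fun i : Fin n => (i : ℕ) < 6).card = 3 ∧ y ∉ A)
    (hL : ∀ p ∈ L, p.1.1 < 6 ∧ M ∈ p.1.2 ∧ ∀ l ∈ p.1.2, pc 6 l ≠ 3 ∨ l.testBit p.1.1 = true) :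
    ∀ p ∈ L, Claim n Ls p.1.2 := by
  intro p hp T hT hTP
  have h1 := List.all_eq_true.1 h p hp
  obtain ⟨hy, hM, hl⟩ := hL p hp
  obtain ⟨A, hA, hA3, hyA⟩ := hforce T hT (hTP M hM) ⟨p.1.1, by omega⟩ hy
  obtain ⟨m, hm, rfl⟩ := exists_mask A
  have hyA' : m.testBit p.1.1 = false := by
    rw [mem_bits] at hyA
    simpa using hyA
  rcases chk_sound Ls Q hQ p.1.2 (candsY n p.1.1) p.2 h1 T hT hTP m
    ((mem_candsY hn).2 ⟨mem_cands.2 ⟨hm, hT.card _ hA⟩, hA3, hyA'⟩) hm hA with h2 | h2
  · obtain ⟨l, hl', h2⟩ := h2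
    exfalso
    rcases hl l hl' with h3 | h3
    · apply h3
      rw [pc_lt_eq n 6 l hn, h2, hA3]
    · apply hyA
      rw [← h2, mem_bits]
      exact h3
  · exact h2

/-- the decidable form of the side conditions of `levelY_sound` -/
def sideY (M : ℕ) (L : List ((ℕ × List ℕ) × List ℕ)) : Bool :=
  L.all fun p => Nat.blt p.1.1 6 && ((p.1.2.any fun l => Nat.beq l M) &&
    p.1.2.all fun l => !(Nat.beq (pc 6 l) 3) || l.testBit p.1.1)

theorem sideY_spec {M : ℕ} {L : List ((ℕ × List ℕ) × List ℕ)} (h : sideY M L = true) :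
    ∀ p ∈ L, p.1.1 < 6 ∧ M ∈ p.1.2 ∧ ∀ l ∈ p.1.2, pc 6 l ≠ 3 ∨ l.testBit p.1.1 = true := by
  intro p hp
  have h1 := List.all_eq_true.1 h p hp
  rw [Bool.and_eq_true, Bool.and_eq_true] at h1
  obtain ⟨h2, h3, h4⟩ := h1
  refine ⟨by simpa [Nat.blt] using h2, ?_, ?_⟩
  · obtain ⟨l, hl, h5⟩ := List.any_eq_true.1 h3
    rw [← Nat.eq_of_beq_eq_true h5]
    exact hl
  · intro l hl
    have h5 := List.all_eq_true.1 h4 l hl
    rw [Bool.or_eq_true] at h5
    rcases h5 with h5 | h5
    · left
      intro h6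
      rw [h6] at h5
      simp at h5
    · exact Or.inr h5

theorem levelY_sound' {n : ℕ} (hn : 6 ≤ n) (M : ℕ) (Ls Q : List (List ℕ)) (L : List ((ℕ × List ℕ) × List ℕ))
    (hQ : ∀ P ∈ Q, Claim n Ls P)
    (hforce : ∀ T : Finset (Fin n) → Prop, Good n T → T (bits n M) → ∀ y : Fin n, (y : ℕ) < 6 →
      ∃ A, T A ∧ (A.filter fun i : Fin n => (i : ℕ) < 6).card = 3 ∧ y ∉ A)
    (h : (sideY M L && levelY n Q L) = true) :
    ∀ p ∈ L, Claim n Ls p.1.2 := by
  rw [Bool.and_eq_true] at h
  exact levelY_sound hn M Ls Q L hQ h.2 hforce (sideY_spec h.1)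

end Pool.Agent.BW3
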