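import Pool.Agent.Lib_MP_a68485_co.Comb4
import Pool.Agent.Lib_MP_a68485_co.Sound

/-!
# MP_a68485_co: soundness of the checker for four-element sets
-/

set_option autoImplicit false

namespace Pool.Agent.BW3

namespace X4

theorem good4_map {b : Bool} {N : Finset (Fin 8) → Prop} (h : Good4 b N) (σ : Equiv.Perm (Fin 8))
    (hσ : b = true → (bits 8 7).map σ.toEmbedding = bits 8 7) :
    Good4 b fun A => N (A.map σ.toEmbedding) where
  card A hA := by simpa using h.card _ hA
  meet A B hA hB hAB := by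
    have := h.meet _ _ hA hB (fun h' => hAB (Finset.map_injective _ h'))
    rwa [← Finset.map_inter, Finset.card_map] at this
  compl A hA hB := by
    apply h.compl _ hA
    have : (A.map σ.toEmbedding)ᶜ = Aᶜ.map σ.toEmbedding := by
      ext i
      simp only [Finset.mem_compl, Finset.mem_map, Equiv.coe_toEmbedding]
      constructor
      · intro h1
        refine ⟨σ.symm i, fun h2 => h1 ⟨σ.symm i, h2, by simp⟩, by simp⟩
      · rintro ⟨j, hj, rfl⟩ ⟨k, hk, hk'⟩
        exact hj (σ.injective hk' ▸ hk)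
    rw [this]
    exact hB
  line hb A hA := by
    have h1 := h.line hb _ hA
    rw [← hσ hb, ← Finset.map_inter, Finset.card_map] at h1
    exact h1
  inn hb i := by
    obtain ⟨A, hA, hi⟩ := h.inn hb (σ i)
    refine ⟨A.map σ.symm.toEmbedding, ?_, ?_⟩
    · have : (A.map σ.symm.toEmbedding).map σ.toEmbedding = A := by ext j; simp
      show N _
      rw [this]; exact hA
    · rw [Finset.mem_map]
      exact ⟨σ i, hi, by simp⟩
  out i hi := by
    have hi' : b = true → σ i ∈ bits 8 7 := by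
      intro hb
      rw [← hσ hb]
      exact Finset.mem_map_of_mem _ (hi hb)
    obtain ⟨A, hA, h1⟩ := h.out (σ i) hi'
    refine ⟨A.map σ.symm.toEmbedding, ?_, ?_⟩
    · have : (A.map σ.symm.toEmbedding).map σ.toEmbedding = A := by ext j; simp
      show N _
      rw [this]; exact hA
    · rw [Finset.mem_map]
      rintro ⟨j, hj, hj'⟩
      apply h1
      have : j = σ i := by
        rw [← hj']; simp
      rwa [← this]

theorem listed4_of_map {b : Bool} {Ls : List (List ℕ)} {N : Finset (Fin 8) → Prop} (σ : Equiv.Perm (Fin 8))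
    (hσ : b = true → (bits 8 7).map σ.toEmbedding = bits 8 7)
    (h : Listed4 b Ls fun A => N (A.map σ.toEmbedding)) : Listed4 b Ls N := by
  obtain ⟨P, hP, τ, hτ, h⟩ := h
  refine ⟨P, hP, τ.trans σ, ?_, fun A => ?_⟩
  · intro hb
    have : (bits 8 7).map (τ.trans σ).toEmbedding = ((bits 8 7).map τ.toEmbedding).map σ.toEmbedding := by
      rw [Finset.map_map]; rfl
    rw [this, hτ hb, hσ hb]
  · rw [← h A]
    show _ ↔ N (Finset.map σ.toEmbedding (Finset.map τ.toEmbedding A))
    rw [Finset.map_map]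
    rfl

theorem entry_sound4 {b : Bool} {Ls Q : List (List ℕ)} (hQ : ∀ P ∈ Q, Claim4 b Ls P) {P : List ℕ} {m e : ℕ}
    (h : entryOK4 b Q P m e = true) {N : Finset (Fin 8) → Prop} (hN : Good4 b N) (hP : ∀ l ∈ P, N (bits 8 l))
    (hNm : N (bits 8 m)) : Listed4 b Ls N := by
  have hP' : ∀ l ∈ m :: P, N (bits 8 l) := by
    intro l hl
    rcases List.mem_cons.1 hl with rfl | hl
    · exact hNm
    · exact hP l hl
  rw [entryOK4, Bool.and_eq_true, Bool.and_eq_true] at h
  obtain ⟨h1, h0, h2⟩ := h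
  obtain ⟨σ, hσ⟩ := exists_perm h1
  have hσ' : b = true → (bits 8 7).map σ.toEmbedding = bits 8 7 := by
    intro hb
    rw [hb] at h0
    have h3 : pm 8 (e / 1024) 7 = 7 := by simpa using h0
    rw [hσ, h3]
  cases hq : Q[e % 1024]? with
  | none => rw [hq] at h2; simp at h2
  | some q =>
    rw [hq] at h2
    have hqQ : q ∈ Q := List.mem_of_getElem? hq
    apply listed4_of_map σ hσ'
    apply hQ q hqQ _ (good4_map hN σ hσ')
    intro l hl
    have h3 := List.all_eq_true.1 h2 l hl
    obtain ⟨x, hx, hx'⟩ := List.any_eq_true.1 h3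
    have hx'' := Nat.eq_of_beq_eq_true hx'
    show N ((bits 8 l).map σ.toEmbedding)
    rw [hσ, hx'']
    exact hP' x hx

theorem bad_sound4 {b : Bool} {N : Finset (Fin 8) → Prop} (hN : Good4 b N) {P : List ℕ}
    (hP : ∀ l ∈ P, N (bits 8 l)) {m : ℕ} (hm : m < 256) (hNm : N (bits 8 m)) (h : bad4 P m = true) :
    ∃ l ∈ P, bits 8 l = bits 8 m := by
  rw [bad4, List.any_eq_true] at h
  obtain ⟨l, hl, h⟩ := h
  refine ⟨l, hl, ?_⟩
  by_contra hne
  rw [Bool.or_eq_true, Nat.ble_eq, pc_eq_card] at h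
  rcases h with h | h
  · have h3 := hN.meet _ _ (hP l hl) hNm hne
    rw [Finset.inter_comm, bits_inter] at h3
    omega
  · have h1 : m &&& l = 0 := Nat.eq_of_beq_eq_true h
    have h2 : bits 8 m ∩ bits 8 l = ∅ := by
      rw [bits_inter, h1]
      ext i; simp [mem_bits]
    have c1 := hN.card _ hNm
    have c2 := hN.card _ (hP l hl)
    apply hN.compl _ hNm
    have h3 : (bits 8 m)ᶜ = bits 8 l := by
      symm
      apply Finset.eq_of_subset_of_card_le
      · intro i hi
        rw [Finset.mem_compl]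
        intro hi'
        have : i ∈ bits 8 m ∩ bits 8 l := Finset.mem_inter.2 ⟨hi', hi⟩
        rw [h2] at this
        simp at this
      · rw [Finset.card_compl, c1, c2, Fintype.card_fin]
    rw [h3]
    exact hP l hl

theorem chk_sound4 {b : Bool} (Ls Q : List (List ℕ)) (hQ : ∀ P ∈ Q, Claim4 b Ls P) (P C cert : List ℕ)
    (h : chk4 b Q P C cert = true) (N : Finset (Fin 8) → Prop) (hN : Good4 b N) (hP : ∀ l ∈ P, N (bits 8 l))
    (m : ℕ) (hmC : m ∈ C) (hm : m < 256) (hNm : N (bits 8 m)) :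
    (∃ l ∈ P, bits 8 l = bits 8 m) ∨ Listed4 b Ls N := by
  induction C generalizing cert with
  | nil => simp at hmC
  | cons a C ih =>
    rw [chk4.eq_def] at h
    simp only at h
    cases hb : bad4 P a
    · rw [hb, cond_false] at h
      cases cert with
      | nil => simp at h
      | cons e es =>
        simp only [Bool.and_eq_true] at h
        rcases List.mem_cons.1 hmC with rfl | hmC
        · exact Or.inr (entry_sound4 hQ h.1 hN hP hNm)
        · exact ih es h.2 hmC
    · rw [hb, cond_true] at h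
      rcases List.mem_cons.1 hmC with rfl | hmC
      · exact Or.inl (bad_sound4 hN hP hm hNm hb)
      · exact ih cert h hmC

theorem pc3 (m : ℕ) : pc 3 m = (bits 8 m ∩ bits 8 7).card := by
  rw [pc_lt_eq 8 3 m (by norm_num)]
  congr 1
  ext i
  rw [Finset.mem_filter, Finset.mem_inter, mem_bits (m := 7)]
  apply and_congr Iff.rfl
  revert i
  decide

theorem mem_cands4 {b : Bool} {m : ℕ} : m ∈ cands4 b ↔ m < 256 ∧ (bits 8 m).card = 4 ∧
    (b = true → (bits 8 m ∩ bits 8 7).card = 1) := by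
  rw [cands4, List.mem_filter, List.mem_range, Bool.and_eq_true, pc_eq_card 8, Nat.beq_eq]
  apply and_congr Iff.rfl
  apply and_congr Iff.rfl
  cases b
  · simp
  · simp only [Bool.not_true, Bool.false_or, Nat.beq_eq, pc3, forall_const]

theorem exact_sound4 {b : Bool} {Ls : List (List ℕ)} {P : List ℕ} (h : exactOK4 b Ls P = true)
    {N : Finset (Fin 8) → Prop} (hN : Good4 b N) (hP : ∀ A, N A ↔ ∃ m ∈ P, bits 8 m = A) : Listed4 b Ls N := by
  rw [exactOK4, Bool.or_eq_true] at h
  rcases h with h | h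
  · obtain ⟨q, hq, h1⟩ := List.any_eq_true.1 h
    have h1' : q = P := by simpa using h1
    subst h1'
    have hr : ∀ A : Finset (Fin 8), A.map (Equiv.refl (Fin 8)).toEmbedding = A := by
      intro A; ext i; simp
    refine ⟨q, hq, Equiv.refl _, fun _ => hr _, fun A => ?_⟩
    rw [hr, ← hP]
  · exfalso
    obtain ⟨i, hi, h1⟩ := List.any_eq_true.1 h
    rw [List.mem_range] at hi
    rw [Bool.or_eq_true, Bool.and_eq_true, Bool.and_eq_true, Bool.or_eq_true] at h1
    rcases h1 with ⟨hb, h1⟩ | ⟨hb, h1⟩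
    · have hb' : b = false := by simpa using hb
      obtain ⟨A, hA, hiA⟩ := hN.inn hb' ⟨i, hi⟩
      obtain ⟨m, hm, rfl⟩ := (hP A).1 hA
      have h2 := List.all_eq_true.1 h1 m hm
      rw [mem_bits] at hiA
      rw [hiA] at h2
      simp at h2
    · have hi' : b = true → (⟨i, hi⟩ : Fin 8) ∈ bits 8 7 := by
        intro hb'
        rw [hb'] at hb
        have h3 : i < 3 := by simpa [Nat.blt] using hb
        rw [mem_bits]
        show (7 : ℕ).testBit i = true
        interval_cases i <;> decide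
      obtain ⟨A, hA, hiA⟩ := hN.out ⟨i, hi⟩ hi'
      obtain ⟨m, hm, rfl⟩ := (hP A).1 hA
      apply hiA
      rw [mem_bits]
      exact List.all_eq_true.1 h1 m hm

theorem level_sound4 {b : Bool} (Ls Q : List (List ℕ)) (L : List (List ℕ × List ℕ))
    (hQ : ∀ P ∈ Q, Claim4 b Ls P) (h : levelOK4 b Ls Q (cands4 b) L = true) : ∀ p ∈ L, Claim4 b Ls p.1 := by
  intro p hp N hN hNP
  have h1 := List.all_eq_true.1 h p hp
  rw [Bool.and_eq_true] at h1
  by_cases hA : ∃ A, N A ∧ ∀ l ∈ p.1, bits 8 l ≠ A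
  · obtain ⟨A, hA, hA'⟩ := hA
    obtain ⟨m, hm, rfl⟩ := exists_mask A
    rcases chk_sound4 Ls Q hQ p.1 (cands4 b) p.2 h1.2 N hN hNP m
      (mem_cands4.2 ⟨hm, hN.card _ hA, fun hb => hN.line hb _ hA⟩) hm hA with h2 | h2
    · obtain ⟨l, hl, h2⟩ := h2
      exact absurd h2 (hA' l hl)
    · exact h2
  · apply exact_sound4 h1.1 hN
    intro A
    constructor
    · intro h2
      by_contra h3
      exact hA ⟨A, h2, fun l hl h4 => h3 ⟨l, hl, h4⟩⟩
    · rintro ⟨m, hm, rfl⟩
      exact hNP m hm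

end X4

end Pool.Agent.BW3
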