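import Pool.Agent.Lib_MP_a68485_co.Data4a
import Pool.Agent.Lib_MP_a68485_co.Data4b
import Pool.Agent.Lib_MP_a68485_co.Data4c
import Pool.Agent.Lib_MP_a68485_co.Data4d
import Pool.Agent.Lib_MP_a68485_co.Data4e
import Pool.Agent.Lib_MP_a68485_co.Sound4x

/-!
# MP_a68485_co: classification of the good systems of four-element sets (rank four, eight elements)
-/

set_option autoImplicit false

namespace Pool.Agent.BW3

theorem claim4_fst {b : Bool} {Ls : List (List ℕ)} {L : List (List ℕ × List ℕ)} (h : ∀ p ∈ L, Claim4 b Ls p.1) :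
    ∀ P ∈ L.map Prod.fst, Claim4 b Ls P := by
  intro P hP
  obtain ⟨p, hp, rfl⟩ := List.mem_map.1 hP
  exact h p hp

theorem claim4_nil {b : Bool} {Ls : List (List ℕ)} : ∀ P ∈ ([] : List (List ℕ)), Claim4 b Ls P := by
  intro P hP
  simp at hP

theorem class4S (N : Finset (Fin 8) → Prop) (hN : Good4 false N) : Listed4 false listS N := by
  have h9 := X4.level_sound4 _ _ _ claim4_nil okS_9
  have h8 := X4.level_sound4 _ _ _ (claim4_fst h9) okS_8
  have h7 := X4.level_sound4 _ _ _ (claim4_fst h8) okS_7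
  have h6 := X4.level_sound4 _ _ _ (claim4_fst h7) okS_6
  have h5 := X4.level_sound4 _ _ _ (claim4_fst h6) okS_5
  have h4 := X4.level_sound4 _ _ _ (claim4_fst h5) okS_4
  have h3 := X4.level_sound4 _ _ _ (claim4_fst h4) okS_3
  have h2 := X4.level_sound4 _ _ _ (claim4_fst h3) okS_2
  have h1 := X4.level_sound4 _ _ _ (claim4_fst h2) okS_1
  have h0 := X4.level_sound4 _ _ _ (claim4_fst h1) okS_0
  exact h0 (_, _) (List.mem_cons_self ..) N hN (by simp)

theorem class4L (N : Finset (Fin 8) → Prop) (hN : Good4 true N) : Listed4 true listL N := by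
  have h6 := X4.level_sound4 _ _ _ claim4_nil okL_6
  have h5 := X4.level_sound4 _ _ _ (claim4_fst h6) okL_5
  have h4 := X4.level_sound4 _ _ _ (claim4_fst h5) okL_4
  have h3 := X4.level_sound4 _ _ _ (claim4_fst h4) okL_3
  have h2 := X4.level_sound4 _ _ _ (claim4_fst h3) okL_2
  have h1 := X4.level_sound4 _ _ _ (claim4_fst h2) okL_1
  have h0 := X4.level_sound4 _ _ _ (claim4_fst h1) okL_0
  exact h0 (_, _) (List.mem_cons_self ..) N hN (by simp)

end Pool.Agent.BW3
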