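import Mathlib

/-!
# MP_a68485_co: the finite combinatorics of the rank-three excluded minors (definitions)

`T` is the set of the long lines (three or four points) of a simple matroid of rank three on `Fin n`.
-/

set_option autoImplicit false

namespace Pool.Agent.BW3

/-! ### semantic side -/

/-- `R` is covered by `k` sets, each a member of `T` or a set with at most two elements -/
def CovT {n : ℕ} (T : Finset (Fin n) → Prop) : ℕ → Finset (Fin n) → Prop
  | 0, R => R = ∅
  | k + 1, R => R.card ≤ 2 * (k + 1) ∨ ∃ A, T A ∧ CovT T k (R \ A)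

/-- the properties of the set of the long lines of a rank-three excluded minor with `n` elements -/
structure Good (n : ℕ) (T : Finset (Fin n) → Prop) : Prop where
  card : ∀ A, T A → A.card = 3 ∨ A.card = 4
  meet : ∀ A B, T A → T B → A ≠ B → (A ∩ B).card ≤ 1
  notcov : ¬ CovT T 3 Finset.univ
  cov : ∀ i, CovT T 3 (Finset.univ.erase i)

/-- the set of the positions of the ones in the binary expansion of `m` -/
def bits (n m : ℕ) : Finset (Fin n) := Finset.univ.filter fun i => m.testBit i = true

/-- `T` is, up to a permutation, one of the systems in the list `Ls` -/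
def Listed (n : ℕ) (Ls : List (List ℕ)) (T : Finset (Fin n) → Prop) : Prop :=
  ∃ P ∈ Ls, ∃ σ : Equiv.Perm (Fin n), ∀ A : Finset (Fin n), T (A.map σ.toEmbedding) ↔ ∃ m ∈ P, bits n m = A

/-- every good `T` that contains the lines in `P` is listed -/
def Claim (n : ℕ) (Ls : List (List ℕ)) (P : List ℕ) : Prop :=
  ∀ T : Finset (Fin n) → Prop, Good n T → (∀ m ∈ P, T (bits n m)) → Listed n Ls T

/-! ### computational side (bit masks `< 2 ^ n`, `n ≤ 10`) -/

/-- number of ones among the last `k` binary digits -/
def pc : ℕ → ℕ → ℕ
  | 0, _ => 0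
  | k + 1, m => m % 2 + pc k (m / 2)

/-- covering by `k` members of `P` or pairs -/
def covB (n : ℕ) (P : List ℕ) : ℕ → ℕ → Bool
  | 0, R => R == 0
  | k + 1, R => Nat.ble (pc n R) (2 * (k + 1)) || P.any fun m => covB n P k (R ^^^ (R &&& m))

/-- `m` has at least two elements in common with some member of `P` -/
def bad (P : List ℕ) (m : ℕ) : Bool := P.any fun l => !(Nat.beq ((m &&& l) &&& ((m &&& l) - 1)) 0)

/-- the image of the mask `m` under the permutation with code `c` (hexadecimal digits, lowest first) -/
def pm : ℕ → ℕ → ℕ → ℕ
  | 0, _, _ => 0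
  | n + 1, c, m => (m % 2) * 2 ^ (c % 16) + pm n (c / 16) (m / 2)

/-- the first `k` hexadecimal digits of `c` are less than `n`, pairwise different and not in the mask `acc` -/
def isPerm (n : ℕ) : ℕ → ℕ → ℕ → Bool
  | 0, _, _ => true
  | k + 1, c, acc => Nat.blt (c % 16) n && (Nat.beq (acc &&& 2 ^ (c % 16)) 0 && isPerm n k (c / 16) (acc + 2 ^ (c % 16)))

/-- `e = 0`: adding `m` to `P` makes the system coverable; otherwise `e = idx + 1024 * c`: the permutation with code
`c` maps the state number `idx` of `Q` into `m :: P` -/
def entryOK (n : ℕ) (Q : List (List ℕ)) (P : List ℕ) (m e : ℕ) : Bool :=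
  bif Nat.beq e 0 then covB n (m :: P) 3 (2 ^ n - 1)
  else isPerm n n (e / 1024) 0 && match Q[e % 1024]? with
    | none => false
    | some q => q.all fun l => (m :: P).any fun x => Nat.beq (pm n (e / 1024) l) x

/-- go through the candidates `ms`; the certificate has one entry for each candidate that is compatible with `P` -/
def chk (n : ℕ) (Q : List (List ℕ)) (P : List ℕ) : List ℕ → List ℕ → Bool
  | [], _ => true
  | m :: ms, cert => bif bad P m then chk n Q P ms cert else
    match cert with
    | [] => false
    | e :: es => entryOK n Q P m e && chk n Q P ms es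

/-- the masks with three or four elements -/
def cands (n : ℕ) : List ℕ := (List.range (2 ^ n)).filter fun m => Nat.beq (pc n m) 3 || Nat.beq (pc n m) 4

/-- the masks with three or four elements, exactly three of them in `{0, ..., 5}`, and `y` not among them -/
def candsY (n y : ℕ) : List ℕ := (cands n).filter fun m => Nat.beq (pc 6 m) 3 && !(m.testBit y)

/-- the system `P` itself is listed, or coverable, or not critical -/
def exactOK (n : ℕ) (Ls : List (List ℕ)) (P : List ℕ) : Bool :=
  Ls.any (fun q => q == P) || (covB n P 3 (2 ^ n - 1) ||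
    (List.range n).any fun i => !(covB n P 3 ((2 ^ n - 1) ^^^ (2 ^ i))))

/-- all the states of a level; every transition goes to a state of `Q` -/
def levelOK (n : ℕ) (Ls Q : List (List ℕ)) (C : List ℕ) (L : List (List ℕ × List ℕ)) : Bool :=
  L.all fun p => exactOK n Ls p.1 && chk n Q p.1 C p.2

/-- levels used for `n = 10` only: the next line is one that has three points in `{0, ..., 5}` and avoids `y` -/
def levelY (n : ℕ) (Q : List (List ℕ)) (L : List ((ℕ × List ℕ) × List ℕ)) : Bool :=
  L.all fun p => chk n Q p.1.2 (candsY n p.1.1) p.2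

end Pool.Agent.BW3
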