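import Pool.Agent.Lib_MP_a68485_co.Comb

/-!
# MP_a68485_co: the excluded minors of rank four with eight elements, finite combinatorics (definitions)

`N` is the set of the four-element sets of rank three (for `b = true`: except those that contain the three-point line
`{0, 1, 2} = bits 8 7`).
-/

set_option autoImplicit false

namespace Pool.Agent.BW3

/-! ### semantic side -/

/-- the properties of the set of the four-element circuits of an excluded minor of rank four with eight elements;
`b = true`: there is exactly one three-element circuit, `{0, 1, 2}`; `b = false`: no three-element circuit and no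
three-element cocircuit -/
structure Good4 (b : Bool) (N : Finset (Fin 8) → Prop) : Prop where
  card : ∀ A, N A → A.card = 4
  meet : ∀ A B, N A → N B → A ≠ B → (A ∩ B).card ≤ 2
  compl : ∀ A, N A → ¬ N Aᶜ
  line : b = true → ∀ A, N A → (A ∩ bits 8 7).card = 1
  inn : b = false → ∀ i, ∃ A, N A ∧ i ∈ A
  out : ∀ i, (b = true → i ∈ bits 8 7) → ∃ A, N A ∧ i ∉ A

/-- `N` is, up to a permutation (that preserves `{0, 1, 2}` if `b = true`), one of the systems in the list `Ls` -/
def Listed4 (b : Bool) (Ls : List (List ℕ)) (N : Finset (Fin 8) → Prop) : Prop :=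
  ∃ P ∈ Ls, ∃ σ : Equiv.Perm (Fin 8), (b = true → (bits 8 7).map σ.toEmbedding = bits 8 7) ∧
    ∀ A : Finset (Fin 8), N (A.map σ.toEmbedding) ↔ ∃ m ∈ P, bits 8 m = A

/-- every good `N` that contains the members of `P` is listed -/
def Claim4 (b : Bool) (Ls : List (List ℕ)) (P : List ℕ) : Prop :=
  ∀ N : Finset (Fin 8) → Prop, Good4 b N → (∀ m ∈ P, N (bits 8 m)) → Listed4 b Ls N

/-- the rank function on eight points: three-element sets have rank three, except `{0, 1, 2}` if `b = true`;
four-element sets have rank four, except those in `P` and those that contain `{0, 1, 2}` if `b = true`; larger sets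
have rank four -/
def rank4 (b : Bool) (P : List ℕ) (A : Finset (Fin 8)) : ℕ :=
  if A.card ≤ 2 then A.card
  else if A.card = 3 then (if b = true ∧ A = bits 8 7 then 2 else 3)
  else if A.card = 4 then (if (b = true ∧ bits 8 7 ⊆ A) ∨ ∃ m ∈ P, bits 8 m = A then 3 else 4)
  else 4

/-! ### computational side -/

/-- `m` cannot be added to `P` -/
def bad4 (P : List ℕ) (m : ℕ) : Bool := P.any fun l => Nat.ble 3 (pc 8 (m &&& l)) || Nat.beq (m &&& l) 0

/-- `e = idx + 1024 * c`: the permutation with code `c` maps the state number `idx` of `Q` into `m :: P` (and, if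
`b = true`, the set `{0, 1, 2}` onto itself) -/
def entryOK4 (b : Bool) (Q : List (List ℕ)) (P : List ℕ) (m e : ℕ) : Bool :=
  isPerm 8 8 (e / 1024) 0 && ((!b || Nat.beq (pm 8 (e / 1024) 7) 7) && match Q[e % 1024]? with
    | none => false
    | some q => q.all fun l => (m :: P).any fun x => Nat.beq (pm 8 (e / 1024) l) x)

/-- go through the candidates `ms`; the certificate has one entry for each candidate that is compatible with `P` -/
def chk4 (b : Bool) (Q : List (List ℕ)) (P : List ℕ) : List ℕ → List ℕ → Bool
  | [], _ => true
  | m :: ms, cert => bif bad4 P m then chk4 b Q P ms cert else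
    match cert with
    | [] => false
    | e :: es => entryOK4 b Q P m e && chk4 b Q P ms es

/-- the masks of the four-element sets; if `b = true` only those with exactly one element in `{0, 1, 2}` -/
def cands4 (b : Bool) : List ℕ := (List.range 256).filter fun m => Nat.beq (pc 8 m) 4 && (!b || Nat.beq (pc 3 m) 1)

/-- the system `P` itself is listed, or violates `inn` or `out` -/
def exactOK4 (b : Bool) (Ls : List (List ℕ)) (P : List ℕ) : Bool :=
  Ls.any (fun q => q == P) || (List.range 8).any fun i =>
    (!b && P.all fun m => !(m.testBit i)) || ((!b || Nat.blt i 3) && P.all fun m => m.testBit i)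

/-- all the states of a level; every transition goes to a state of `Q` -/
def levelOK4 (b : Bool) (Ls Q : List (List ℕ)) (C : List ℕ) (L : List (List ℕ × List ℕ)) : Bool :=
  L.all fun p => exactOK4 b Ls p.1 && chk4 b Q p.1 C p.2

/-- fast check of `Good4` for the system `P` -/
def goodB4 (b : Bool) (P : List ℕ) : Bool :=
  (P.all fun m => Nat.blt m 256 && (Nat.beq (pc 8 m) 4 && ((!b || Nat.beq (pc 3 m) 1) &&
    P.all fun l => Nat.beq m l || (Nat.ble (pc 8 (m &&& l)) 2 && Nat.ble 1 (pc 8 (m &&& l)))))) &&
  (List.range 8).all fun i =>
    (b || P.any fun m => m.testBit i) && ((b && Nat.ble 3 i) || P.any fun m => !(m.testBit i))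

end Pool.Agent.BW3
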