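import Pool.Agent.Lib_MP_a68485_co.Base

/-!
# MP_a68485_co: covers by lines, critical sets
-/

set_option autoImplicit false

namespace Pool.Agent.BW3

open Set

variable {α : Type*}

/-- `X` is contained in a union of `k` sets of rank at most two -/
def Cov (M : Matroid α) : ℕ → Set α → Prop
  | 0, X => X = ∅
  | k + 1, X => ∃ L : Set α, rk M L ≤ 2 ∧ Cov M k (X \ L)

theorem Cov.mono {M : Matroid α} {k : ℕ} {X Y : Set α} (h : Cov M k Y) (hXY : X ⊆ Y) : Cov M k X := by
  induction k generalizing X Y with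
  | zero => exact Set.subset_empty_iff.1 (hXY.trans h.le)
  | succ k ih =>
    obtain ⟨L, hL, h⟩ := h
    exact ⟨L, hL, ih h (Set.sdiff_subset_sdiff_left hXY)⟩

theorem Cov.succ {M : Matroid α} {k : ℕ} {X : Set α} (h : Cov M k X) : Cov M (k + 1) X :=
  ⟨∅, by rw [rk_empty]; norm_num, h.mono Set.sdiff_subset⟩

section

variable (M : Matroid α) [M.Finite]

/-- a set with at most `2 k` elements is covered by `k` sets of rank at most two -/
theorem cov_of_ncard {k : ℕ} {X : Set α} (hX : X.Finite) (h : X.ncard ≤ 2 * k) : Cov M k X := by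
  induction k generalizing X with
  | zero => exact (Set.ncard_eq_zero hX).1 (by omega)
  | succ k ih =>
    rcases le_or_gt X.ncard 2 with h2 | h2
    · refine ⟨X, (rk_le_ncard M hX).trans h2, ?_⟩
      refine ih (hX.subset Set.sdiff_subset) ?_
      rw [Set.sdiff_self, Set.ncard_empty]
      omega
    · obtain ⟨P, hP, hc⟩ := Set.exists_subset_card_eq (show 2 ≤ X.ncard by omega)
      refine ⟨P, (rk_le_ncard M (hX.subset hP)).trans hc.le, ih (hX.subset Set.sdiff_subset) ?_⟩
      rw [Set.ncard_sdiff hP (hX.subset hP)]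
      omega

/-- any two elements of `X` are independent -/
def Simp (X : Set α) : Prop := ∀ x ∈ X, ∀ y ∈ X, x ≠ y → 2 ≤ rk M {x, y}

/-- two sets of rank at most two with two common elements -/
theorem absorb {X A L : Set α} (hs : Simp M X) (hA : rk M A ≤ 2) (hL : rk M L ≤ 2) {x y : α}
    (hx : x ∈ X) (hy : y ∈ X) (hxy : x ≠ y) (hxA : x ∈ A) (hyA : y ∈ A) (hxL : x ∈ L) (hyL : y ∈ L) :
    rk M (A ∪ L) ≤ 2 := by
  have h1 := rk_sub M A L
  have h2 := rk_mono M (show ({x, y} : Set α) ⊆ A ∩ L by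
    rintro z (rfl | rfl)
    · exact ⟨hxA, hxL⟩
    · exact ⟨hyA, hyL⟩)
  have h3 := hs x hx y hy hxy
  omega

/-- Key lemma: if `X` is covered by `k + 1` sets of rank at most two and `L ⊆ X` has rank at most two and more than
`k + 1` elements, then `L` can be one of the sets. -/
theorem cov_line {X : Set α} (hX : X.Finite) (hs : Simp M X) {k : ℕ} (h : Cov M k X) {L : Set α} (hLX : L ⊆ X)
    (hL : rk M L ≤ 2) (hc : k < L.ncard) :
    ∃ (A : Set α) (k' : ℕ), k = k' + 1 ∧ rk M (A ∪ L) ≤ 2 ∧ Cov M k' (X \ A) := by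
  induction k generalizing X L with
  | zero =>
    exfalso
    have : X = ∅ := h
    subst this
    rw [Set.subset_empty_iff.1 hLX, Set.ncard_empty] at hc
    exact absurd hc (lt_irrefl _)
  | succ k ih =>
    obtain ⟨A, hA, h⟩ := h
    rcases le_or_gt (L ∩ A).ncard 1 with h1 | h1
    · -- `L \ A` has more than `k` elements
      have hLf : L.Finite := hX.subset hLX
      have h2 := Set.ncard_inter_add_ncard_sdiff_eq_ncard L A hLf
      obtain ⟨B, k', hk, hB, hcov⟩ := ih (hX.subset Set.sdiff_subset) (X := X \ A)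
        (fun x hx y hy => hs x hx.1 y hy.1) h (L := L \ A) (Set.sdiff_subset_sdiff_left hLX)
        ((rk_mono M Set.sdiff_subset).trans hL) (by omega)
      subst hk
      have h3 : 1 < (L \ A).ncard := by omega
      obtain ⟨x, hx, y, hy, hxy⟩ := (Set.one_lt_ncard_iff_nontrivial_and_finite.1 h3).1
      refine ⟨B, k' + 1, rfl, ?_, A, hA, ?_⟩
      · have h4 := absorb M hs hB hL (hLX hx.1) (hLX hy.1) hxy (Or.inr hx) (Or.inr hy) hx.1 hy.1
        exact (rk_mono M (Set.union_subset_union_left L Set.subset_union_left)).trans h4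
      · rw [Set.sdiff_sdiff_comm]
        exact hcov
    · obtain ⟨x, hx, y, hy, hxy⟩ := (Set.one_lt_ncard_iff_nontrivial_and_finite.1 h1).1
      exact ⟨A, k, rfl, absorb M hs hA hL (hLX hx.1) (hLX hy.1) hxy hx.2 hy.2 hx.1 hy.1, h⟩

/-- `X` is not covered by `k` sets of rank at most two, but every `X \ {x}` is -/
def KCrit (k : ℕ) (X : Set α) : Prop := ¬ Cov M k X ∧ ∀ x ∈ X, Cov M k (X \ {x})

variable {M}

/-- removing an element that is parallel to another one does not matter -/
theorem cov_parallel {k : ℕ} {X : Set α} {x y : α} (hy : y ∈ X) (hxy : x ≠ y) (h0 : 1 ≤ rk M {y})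
    (h1 : rk M {x, y} ≤ 1) (h : Cov M k (X \ {x})) : Cov M k X := by
  induction k generalizing X with
  | zero =>
    exfalso
    have : X \ {x} = ∅ := h
    have h2 : y ∈ X \ {x} := ⟨hy, fun h => hxy h.symm⟩
    rw [this] at h2
    exact h2
  | succ k ih =>
    obtain ⟨L, hL, h⟩ := h
    rw [Set.sdiff_sdiff_comm] at h
    by_cases hyL : y ∈ L
    · refine ⟨L ∪ {x, y}, ?_, h.mono ?_⟩
      · have h2 := rk_sub M L {x, y}
        have h3 := rk_mono M (show ({y} : Set α) ⊆ L ∩ {x, y} by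
          rintro z rfl
          exact ⟨hyL, Or.inr rfl⟩)
        omega
      · rintro z ⟨hz, hz'⟩
        exact ⟨⟨hz, fun h => hz' (Or.inl h)⟩, fun h => hz' (Or.inr (Or.inl h))⟩
    · exact ⟨L, hL, ih ⟨hy, hyL⟩ h⟩

theorem KCrit.simp {k : ℕ} {X : Set α} (hk : 1 ≤ k) (h : KCrit M k X) : Simp M X := by
  have h1 : ∀ y ∈ X, 1 ≤ rk M {y} := by
    intro y hy
    by_contra hc
    obtain ⟨k, rfl⟩ : ∃ k', k = k' + 1 := ⟨k - 1, by omega⟩
    obtain ⟨L, hL, h'⟩ := h.2 y hy
    refine h.1 ⟨L ∪ {y}, ?_, ?_⟩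
    · have := rk_union_le M L {y}
      omega
    · rwa [Set.union_comm, ← Set.sdiff_sdiff]
  intro x hx y hy hxy
  by_contra hc
  exact h.1 (cov_parallel hy hxy (h1 y hy) (by omega) (h.2 x hx))

/-- lines have at most `k + 1` elements -/
theorem KCrit.line {k : ℕ} {X : Set α} (hX : X.Finite) (hk : 1 ≤ k) (h : KCrit M k X) {L : Set α} (hLX : L ⊆ X)
    (hL : rk M L ≤ 2) : L.ncard ≤ k + 1 := by
  by_contra hc
  have hs := h.simp hk
  have hLf := hX.subset hLX
  obtain ⟨x, hx⟩ : L.Nonempty := (Set.ncard_pos hLf).1 (by omega)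
  have h1 := Set.ncard_sdiff_singleton_add_one hx hLf
  obtain ⟨A, k', rfl, hA, hcov⟩ := cov_line M (hX.subset Set.sdiff_subset) (X := X \ {x})
    (fun a ha b hb => hs a ha.1 b hb.1) (h.2 x (hLX hx)) (L := L \ {x}) (Set.sdiff_subset_sdiff_left hLX)
    ((rk_mono M Set.sdiff_subset).trans hL) (by omega)
  have h3 : 1 < (L \ {x}).ncard := by omega
  obtain ⟨a, ha, b, hb, hab⟩ := (Set.one_lt_ncard_iff_nontrivial_and_finite.1 h3).1
  have h4 := absorb M hs hA hL (hLX ha.1) (hLX hb.1) hab (Or.inr ha) (Or.inr hb) ha.1 hb.1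
  refine h.1 ⟨A ∪ (L \ {x}) ∪ L, h4, hcov.mono ?_⟩
  rintro z ⟨hz, hz'⟩
  refine ⟨⟨hz, fun h => hz' (Or.inr ?_)⟩, fun h => hz' (Or.inl (Or.inl h))⟩
  rw [h]
  exact hx

theorem cov_card {k m : ℕ} {X : Set α} (hX : X.Finite) (h : Cov M k X)
    (hm : ∀ L ⊆ X, rk M L ≤ 2 → L.ncard ≤ m) : X.ncard ≤ k * m := by
  induction k generalizing X with
  | zero =>
    have : X = ∅ := h
    subst this
    simp
  | succ k ih =>
    obtain ⟨L, hL, h⟩ := h
    have h1 := ih (hX.subset Set.sdiff_subset) h fun L' hL' => hm L' (hL'.trans Set.sdiff_subset)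
    have h2 := hm (X ∩ L) Set.inter_subset_left ((rk_mono M Set.inter_subset_right).trans hL)
    have h3 := Set.ncard_inter_add_ncard_sdiff_eq_ncard X L hX
    rw [Nat.succ_mul]
    omega

/-- a `k`-critical set has at most `(k + 1) (k + 2) / 2` elements, for `k ≤ 3` -/
theorem KCrit.card {k : ℕ} (hk : k ≤ 3) {X : Set α} (hX : X.Finite) (h : KCrit M k X) :
    2 * X.ncard ≤ (k + 1) * (k + 2) := by
  induction k generalizing X with
  | zero =>
    by_contra hc
    have h1 : 1 < X.ncard := by omega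
    obtain ⟨x, hx, y, hy, hxy⟩ := (Set.one_lt_ncard_iff_nontrivial_and_finite.1 h1).1
    have h2 : X \ {x} = ∅ := h.2 x hx
    have h3 : y ∈ X \ {x} := ⟨hy, fun h => hxy h.symm⟩
    rw [h2] at h3
    exact h3
  | succ k ih =>
    have hs := h.simp (by omega)
    have hline : ∀ L ⊆ X, rk M L ≤ 2 → L.ncard ≤ k + 2 := fun L hL hL' => h.line hX (by omega) hL hL'
    by_cases hL : ∃ L ⊆ X, rk M L ≤ 2 ∧ k + 2 ≤ L.ncard
    · obtain ⟨L, hLX, hL2, hLc⟩ := hL
      have hLf := hX.subset hLX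
      have h1 : KCrit M k (X \ L) := by
        refine ⟨fun h' => h.1 ⟨L, hL2, h'⟩, fun x hx => ?_⟩
        obtain ⟨A, k', hk', hA, hcov⟩ := cov_line M (hX.subset Set.sdiff_subset) (X := X \ {x})
          (fun a ha b hb => hs a ha.1 b hb.1) (h.2 x hx.1) (L := L)
          (fun a ha => ⟨hLX ha, fun h => hx.2 (h ▸ ha)⟩) hL2 (by omega)
        obtain rfl : k = k' := by omega
        refine hcov.mono ?_
        rintro z ⟨hz, hz'⟩
        refine ⟨⟨hz.1, hz'⟩, fun hzA => ?_⟩
        have h2 := hline (insert z L) (Set.insert_subset hz.1 hLX)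
          ((rk_mono M (Set.insert_subset (Or.inl hzA) Set.subset_union_right)).trans hA)
        rw [Set.ncard_insert_of_notMem hz.2 hLf] at h2
        omega
      have h2 := ih (by omega) (hX.subset Set.sdiff_subset) h1
      have h3 := Set.ncard_sdiff_add_ncard_of_subset hLX hX
      have h4 := hline L hLX hL2
      nlinarith
    · rcases X.eq_empty_or_nonempty with rfl | ⟨x, hx⟩
      · simp
      have h1 := cov_card (hX.subset Set.sdiff_subset) (h.2 x hx) (m := k + 1) fun L hL' hL2 => by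
        by_contra hc
        exact hL ⟨L, hL'.trans Set.sdiff_subset, hL2, by omega⟩
      have h2 := Set.ncard_sdiff_singleton_add_one hx hX
      have h3 : k ≤ 2 := by omega
      interval_cases k <;> omega

/-- a critical set has more than `2 k` elements -/
theorem KCrit.lt_card {k : ℕ} {X : Set α} (hX : X.Finite) (h : KCrit M k X) : 2 * k < X.ncard := by
  by_contra hc
  exact h.1 (cov_of_ncard M hX (by omega))

omit [M.Finite] in
/-- if `X` has more than `2 (k + 1)` elements then one of the covering sets has at least three -/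
theorem cov_big {k : ℕ} {X : Set α} (hX : X.Finite) (h : Cov M (k + 1) X) (hc : 2 * (k + 1) < X.ncard) :
    ∃ L, rk M L ≤ 2 ∧ 3 ≤ (X ∩ L).ncard ∧ Cov M k (X \ L) := by
  induction k generalizing X with
  | zero =>
    obtain ⟨L, hL, h⟩ := h
    have h1 : X \ L = ∅ := h
    have h3 := Set.ncard_inter_add_ncard_sdiff_eq_ncard X L hX
    rw [h1, Set.ncard_empty] at h3
    exact ⟨L, hL, by omega, h⟩
  | succ k ih =>
    obtain ⟨L, hL, h⟩ := h
    have h3 := Set.ncard_inter_add_ncard_sdiff_eq_ncard X L hX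
    rcases le_or_gt 3 (X ∩ L).ncard with h1 | h1
    · exact ⟨L, hL, h1, h⟩
    · obtain ⟨A, hA, hc', hcov⟩ := ih (hX.subset Set.sdiff_subset) h (by omega)
      refine ⟨A, hA, hc'.trans (Set.ncard_le_ncard ?_ (hX.subset Set.inter_subset_left)), L, hL, ?_⟩
      · exact Set.inter_subset_inter_left _ Set.sdiff_subset
      · rwa [Set.sdiff_sdiff_comm]

end

end Pool.Agent.BW3
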