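import Pool.Agent.Lib_MP_a68485_co.States4
import Pool.Agent.Lib_MP_a68485_co.Append4

/-!
# MP_a68485_co: the checks for the systems of four-element sets, b = false, levels 0 to 4
-/

set_option autoImplicit false

namespace Pool.Agent.BW3

theorem okS_0 : levelOK4 false listS (MS_1.map Prod.fst) (cands4 false) MS_0 = true := by
  decide +kernel

theorem okS_1 : levelOK4 false listS (MS_2.map Prod.fst) (cands4 false) MS_1 = true := by
  decide +kernel

theorem okS_2 : levelOK4 false listS (MS_3.map Prod.fst) (cands4 false) MS_2 = true := by
  decide +kernel

theorem okS_3 : levelOK4 false listS (MS_4.map Prod.fst) (cands4 false) MS_3 = true := by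
  decide +kernel

theorem okS_4 : levelOK4 false listS (MS_5.map Prod.fst) (cands4 false) MS_4 = true := by
  decide +kernel

end Pool.Agent.BW3
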