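import Pool.Agent.Lib_MP_a68485_co.Comb

/-!
# MP_a68485_co, piece D: a computable isomorphism invariant of systems of lines
-/

set_option autoImplicit false

namespace Pool.Agent.BW3

open Finset

/-! ### the computable invariant -/

/-- remove repetitions -/
def dd : List ℕ → List ℕ
  | [] => []
  | m :: ms => bif ms.any (fun x => Nat.beq x m) then dd ms else m :: dd ms

/-- the union of the members of `P` that contain `i` -/
def nb (i : ℕ) : List ℕ → ℕ
  | [] => 0
  | m :: ms => bif m.testBit i then m ||| nb i ms else nb i ms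

/-- `f 0 + ... + f (n - 1)` -/
def sm (f : ℕ → ℕ) : ℕ → ℕ
  | 0 => 0
  | k + 1 => sm f k + f k

/-- the weight of the mask `m` -/
def wt (n : ℕ) (P : List ℕ) (m : ℕ) : ℕ :=
  sm (fun i => bif m.testBit i then
    sm (fun j => bif m.testBit j then (pc n (nb i P &&& nb j P)) ^ 2 else 0) n else 0) n

/-- the invariant: the sum of the squares of the weights of the lines -/
def inv (n : ℕ) (P : List ℕ) : ℕ := ((dd P).map fun m => (wt n P m) ^ 2).sum

/-! ### elementary facts -/

theorem mem_dd (P : List ℕ) (m : ℕ) : m ∈ dd P ↔ m ∈ P := by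
  induction P with
  | nil => simp [dd]
  | cons a P ih =>
    unfold dd
    cases h : P.any (fun x => Nat.beq x a) with
    | false =>
      rw [cond_false, List.mem_cons, List.mem_cons, ih]
    | true =>
      rw [cond_true, ih, List.mem_cons]
      constructor
      · exact Or.inr
      · rintro (rfl | h1)
        · obtain ⟨x, hx, hx'⟩ := List.any_eq_true.1 h
          rw [← Nat.eq_of_beq_eq_true hx']
          exact hx
        · exact h1

theorem nodup_dd (P : List ℕ) : (dd P).Nodup := by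
  induction P with
  | nil => simp [dd]
  | cons a P ih =>
    unfold dd
    cases h : P.any (fun x => Nat.beq x a) with
    | false =>
      rw [cond_false, List.nodup_cons]
      refine ⟨fun h1 => ?_, ih⟩
      rw [mem_dd] at h1
      rw [List.any_eq_false] at h
      exact h a h1 (Nat.beq_refl a)
    | true =>
      rw [cond_true]
      exact ih

theorem sm_eq (f : ℕ → ℕ) (n : ℕ) : sm f n = ∑ i : Fin n, f i := by
  induction n with
  | zero => simp [sm]
  | succ n ih =>
    rw [sm, ih, Fin.sum_univ_castSucc]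
    simp

theorem pc_eq_sum (n x : ℕ) : pc n x = ∑ k : Fin n, (if x.testBit k = true then 1 else 0) := by
  induction n generalizing x with
  | zero => simp [pc]
  | succ n ih =>
    rw [pc, ih, Fin.sum_univ_succ]
    congr 1
    · rw [Fin.val_zero, Nat.testBit_zero]
      rcases Nat.mod_two_eq_zero_or_one x with h | h <;> simp [h]
    · refine sum_congr rfl fun k _ => ?_
      rw [Fin.val_succ, Nat.testBit_succ]

theorem nb_testBit (i k : ℕ) (P : List ℕ) :
    (nb i P).testBit k = true ↔ ∃ m ∈ P, m.testBit i = true ∧ m.testBit k = true := by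
  induction P with
  | nil => simp [nb]
  | cons a P ih =>
    unfold nb
    cases h : a.testBit i with
    | false =>
      rw [cond_false, ih]
      simp [h]
    | true =>
      rw [cond_true, Nat.testBit_or, Bool.or_eq_true, ih]
      simp [h]

theorem dmem_bits (n m : ℕ) (i : Fin n) : i ∈ bits n m ↔ m.testBit i = true := by
  simp [bits]

theorem dbits_inj (n m m' : ℕ) (h : m < 2 ^ n) (h' : m' < 2 ^ n) (he : bits n m = bits n m') : m = m' := by
  apply Nat.eq_of_testBit_eq
  intro k
  rcases lt_or_ge k n with hk | hk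
  · have h1 := dmem_bits n m ⟨k, hk⟩
    rw [he, dmem_bits] at h1
    rw [Bool.eq_iff_iff]
    exact h1.symm
  · rw [Nat.testBit_lt_two_pow (h.trans_le (Nat.pow_le_pow_right (by norm_num) hk)),
      Nat.testBit_lt_two_pow (h'.trans_le (Nat.pow_le_pow_right (by norm_num) hk))]

/-! ### the semantic invariant -/

variable {n : ℕ}

/-- the family of the lines -/
def fam (n : ℕ) (P : List ℕ) : Finset (Finset (Fin n)) := P.toFinset.image (bits n)

theorem mem_fam (P : List ℕ) (A : Finset (Fin n)) : A ∈ fam n P ↔ ∃ m ∈ P, bits n m = A := by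
  simp [fam]

/-- `i` and `k` lie in a common member -/
def Col (F : Finset (Finset (Fin n))) (i k : Fin n) : Prop := ∃ A ∈ F, i ∈ A ∧ k ∈ A

open Classical in
/-- the number of common neighbours -/
noncomputable def bet (F : Finset (Finset (Fin n))) (i j : Fin n) : ℕ :=
  (univ.filter fun k => Col F i k ∧ Col F j k).card

/-- the semantic invariant -/
noncomputable def Js (F : Finset (Finset (Fin n))) : ℕ :=
  ∑ A ∈ F, (∑ i ∈ A, ∑ j ∈ A, (bet F i j) ^ 2) ^ 2

/-- the image of a family under a permutation -/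
def imF (σ : Equiv.Perm (Fin n)) (F : Finset (Finset (Fin n))) : Finset (Finset (Fin n)) :=
  F.image fun A => A.map σ.toEmbedding

theorem col_im (σ : Equiv.Perm (Fin n)) (F : Finset (Finset (Fin n))) (i k : Fin n) :
    Col (imF σ F) (σ i) (σ k) ↔ Col F i k := by
  unfold Col imF
  constructor
  · rintro ⟨A, hA, h1, h2⟩
    obtain ⟨B, hB, rfl⟩ := mem_image.1 hA
    rw [mem_map_equiv, Equiv.symm_apply_apply] at h1 h2
    exact ⟨B, hB, h1, h2⟩
  · rintro ⟨B, hB, h1, h2⟩
    refine ⟨_, mem_image.2 ⟨B, hB, rfl⟩, ?_, ?_⟩ <;> rw [mem_map_equiv, Equiv.symm_apply_apply] <;> assumption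

theorem bet_im (σ : Equiv.Perm (Fin n)) (F : Finset (Finset (Fin n))) (i j : Fin n) :
    bet (imF σ F) (σ i) (σ j) = bet F i j := by
  unfold bet
  symm
  refine card_equiv σ fun k => ?_
  simp only [mem_filter, mem_univ, true_and]
  rw [col_im, col_im]

theorem Js_im (σ : Equiv.Perm (Fin n)) (F : Finset (Finset (Fin n))) : Js (imF σ F) = Js F := by
  have h1 : Js (imF σ F) = ∑ A ∈ F, (∑ i ∈ A.map σ.toEmbedding, ∑ j ∈ A.map σ.toEmbedding, (bet (imF σ F) i j) ^ 2) ^ 2 := by
    unfold Js
    conv_lhs => rw [imF]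
    rw [sum_image (fun A _ B _ hAB => map_injective _ hAB)]
    rfl
  rw [h1]
  unfold Js
  refine sum_congr rfl fun A _ => ?_
  rw [sum_map]
  congr 1
  refine sum_congr rfl fun i _ => ?_
  rw [sum_map]
  refine sum_congr rfl fun j _ => ?_
  rw [Equiv.toEmbedding_apply, Equiv.toEmbedding_apply, bet_im]

theorem bet_fam (P : List ℕ) (i j : Fin n) : bet (fam n P) i j = pc n (nb i P &&& nb j P) := by
  rw [pc_eq_sum, sum_ite, sum_const_zero, add_zero, sum_const, smul_eq_mul, mul_one]
  unfold bet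
  congr 1
  ext k
  simp only [mem_filter, mem_univ, true_and]
  rw [Nat.testBit_and, Bool.and_eq_true, nb_testBit, nb_testBit]
  unfold Col
  constructor
  · rintro ⟨⟨A, hA, h1, h2⟩, ⟨B, hB, h3, h4⟩⟩
    obtain ⟨m, hm, rfl⟩ := (mem_fam P A).1 hA
    obtain ⟨m', hm', rfl⟩ := (mem_fam P B).1 hB
    rw [dmem_bits] at h1 h2 h3 h4
    exact ⟨⟨m, hm, h1, h2⟩, ⟨m', hm', h3, h4⟩⟩
  · rintro ⟨⟨m, hm, h1, h2⟩, ⟨m', hm', h3, h4⟩⟩
    refine ⟨⟨bits n m, (mem_fam P _).2 ⟨m, hm, rfl⟩, ?_, ?_⟩, ⟨bits n m', (mem_fam P _).2 ⟨m', hm', rfl⟩, ?_, ?_⟩⟩ <;>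
      rw [dmem_bits] <;> assumption

theorem wt_eq (P : List ℕ) (m : ℕ) :
    wt n P m = ∑ i ∈ bits n m, ∑ j ∈ bits n m, (bet (fam n P) i j) ^ 2 := by
  unfold wt
  rw [sm_eq]
  have h1 : ∀ f : Fin n → ℕ, ∑ i ∈ bits n m, f i = ∑ i : Fin n, bif m.testBit i then f i else 0 := by
    intro f
    unfold bits
    rw [sum_filter]
    refine sum_congr rfl fun i _ => ?_
    cases m.testBit i <;> simp
  rw [h1]
  refine sum_congr rfl fun i _ => ?_
  congr 1
  rw [h1, sm_eq]
  refine sum_congr rfl fun j _ => ?_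
  congr 1
  rw [bet_fam]

theorem inv_eq (P : List ℕ) (hP : ∀ m ∈ P, m < 2 ^ n) : inv n P = Js (fam n P) := by
  unfold inv Js fam
  rw [sum_image]
  · have h1 : P.toFinset = (dd P).toFinset := by
      ext m
      rw [List.mem_toFinset, List.mem_toFinset, mem_dd]
    rw [h1, List.sum_toFinset _ (nodup_dd P)]
    congr 1
    refine List.map_congr_left fun m _ => ?_
    rw [wt_eq, fam, h1]
  · intro m hm m' hm' he
    rw [mem_coe, List.mem_toFinset] at hm hm'
    exact dbits_inj n m m' (hP m hm) (hP m' hm') he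

/-- systems with different invariants are not isomorphic -/
theorem distinct (n : ℕ) (P Q : List ℕ) (hP : ∀ m ∈ P, m < 2 ^ n) (hQ : ∀ m ∈ Q, m < 2 ^ n)
    (h : inv n P ≠ inv n Q) :
    ¬ ∃ σ : Equiv.Perm (Fin n), ∀ A : Finset (Fin n),
      (∃ m ∈ P, bits n m = A.map σ.toEmbedding) ↔ ∃ m ∈ Q, bits n m = A := by
  rintro ⟨σ, hσ⟩
  apply h
  rw [inv_eq P hP, inv_eq Q hQ]
  have h1 : fam n P = imF σ (fam n Q) := by
    ext A
    have h2 := hσ (A.map σ.symm.toEmbedding)
    have h3 : (A.map σ.symm.toEmbedding).map σ.toEmbedding = A := by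
      ext i
      simp
    rw [h3] at h2
    rw [mem_fam, h2, imF, mem_image]
    constructor
    · rintro ⟨m, hm, hm'⟩
      exact ⟨bits n m, (mem_fam Q _).2 ⟨m, hm, rfl⟩, by rw [hm', h3]⟩
    · rintro ⟨B, hB, hB'⟩
      obtain ⟨m, hm, rfl⟩ := (mem_fam Q B).1 hB
      refine ⟨m, hm, ?_⟩
      rw [← hB']
      ext i
      simp
  rw [h1, Js_im]

end Pool.Agent.BW3
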