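import Pool.Agent.Lib_MP_a68485_co.Sound4
import Pool.Agent.Lib_MP_a68485_co.Distinct

/-!
# MP_a68485_co: a second computable isomorphism invariant
-/

set_option autoImplicit false

namespace Pool.Agent.BW3

open Finset

/-! ### the computable invariant -/

/-- the number of the members of the list that contain `i` and `j` -/
def cdg (i j : ℕ) : List ℕ → ℕ
  | [] => 0
  | m :: ms => (bif m.testBit i && m.testBit j then 1 else 0) + cdg i j ms

/-- the weight of the mask `m` -/
def wt4 (n : ℕ) (P : List ℕ) (m : ℕ) : ℕ :=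
  sm (fun i => bif m.testBit i then
    sm (fun j => bif m.testBit j then (sm (fun k => cdg i k P * cdg k j P) n) ^ 2 * cdg i j P else 0) n else 0) n

/-- the invariant: the sum of the squares of the weights -/
def inv4 (n : ℕ) (P : List ℕ) : ℕ := ((dd P).map fun m => (wt4 n (dd P) m) ^ 2).sum

/-! ### the semantic invariant -/

variable {n : ℕ}

open Classical in
/-- the number of the members that contain `i` and `j` -/
noncomputable def cdF (F : Finset (Finset (Fin n))) (i j : Fin n) : ℕ :=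
  ∑ A ∈ F, if i ∈ A ∧ j ∈ A then 1 else 0

/-- the semantic invariant -/
noncomputable def Js4 (F : Finset (Finset (Fin n))) : ℕ :=
  ∑ A ∈ F, (∑ i ∈ A, ∑ j ∈ A, (∑ k : Fin n, cdF F i k * cdF F k j) ^ 2 * cdF F i j) ^ 2

theorem sum_imF (σ : Equiv.Perm (Fin n)) (F : Finset (Finset (Fin n))) (g : Finset (Fin n) → ℕ) :
    ∑ A ∈ imF σ F, g A = ∑ A ∈ F, g (A.map σ.toEmbedding) := by
  unfold imF
  rw [sum_image (fun A _ B _ hAB => map_injective _ hAB)]

theorem cdF_im (σ : Equiv.Perm (Fin n)) (F : Finset (Finset (Fin n))) (i j : Fin n) :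
    cdF (imF σ F) (σ i) (σ j) = cdF F i j := by
  unfold cdF
  rw [sum_imF]
  refine sum_congr rfl fun A _ => ?_
  simp only [mem_map_equiv, Equiv.symm_apply_apply]

theorem Js4_im (σ : Equiv.Perm (Fin n)) (F : Finset (Finset (Fin n))) : Js4 (imF σ F) = Js4 F := by
  unfold Js4
  rw [sum_imF]
  refine sum_congr rfl fun A _ => ?_
  rw [sum_map]
  congr 1
  refine sum_congr rfl fun i _ => ?_
  rw [sum_map]
  refine sum_congr rfl fun j _ => ?_
  rw [Equiv.toEmbedding_apply, Equiv.toEmbedding_apply, cdF_im]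
  congr 2
  rw [← Equiv.sum_comp σ]
  refine sum_congr rfl fun k _ => ?_
  rw [cdF_im, cdF_im]

theorem sum_fam (P : List ℕ) (hP : ∀ m ∈ P, m < 2 ^ n) (g : Finset (Fin n) → ℕ) :
    ∑ A ∈ fam n P, g A = ((dd P).map fun m => g (bits n m)).sum := by
  unfold fam
  rw [sum_image]
  · have h1 : P.toFinset = (dd P).toFinset := by
      ext m
      rw [List.mem_toFinset, List.mem_toFinset, mem_dd]
    rw [h1, List.sum_toFinset _ (nodup_dd P)]
  · intro m hm m' hm' he
    rw [mem_coe, List.mem_toFinset] at hm hm'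
    exact dbits_inj n m m' (hP m hm) (hP m' hm') he

theorem cdg_eq (i j : Fin n) (Q : List ℕ) :
    cdg i j Q = (Q.map fun m => if i ∈ bits n m ∧ j ∈ bits n m then 1 else 0).sum := by
  induction Q with
  | nil => simp [cdg]
  | cons m ms ih =>
    rw [cdg, ih, List.map_cons, List.sum_cons]
    congr 1
    simp only [dmem_bits]
    cases m.testBit (i : ℕ) <;> cases m.testBit (j : ℕ) <;> simp

theorem cdF_fam (P : List ℕ) (hP : ∀ m ∈ P, m < 2 ^ n) (i j : Fin n) : cdF (fam n P) i j = cdg i j (dd P) := by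
  unfold cdF
  rw [sum_fam P hP, cdg_eq]

theorem wt4_eq (P : List ℕ) (hP : ∀ m ∈ P, m < 2 ^ n) (m : ℕ) :
    wt4 n (dd P) m = ∑ i ∈ bits n m, ∑ j ∈ bits n m,
      (∑ k : Fin n, cdF (fam n P) i k * cdF (fam n P) k j) ^ 2 * cdF (fam n P) i j := by
  unfold wt4
  rw [sm_eq]
  have h1 : ∀ f : Fin n → ℕ, ∑ i ∈ bits n m, f i = ∑ i : Fin n, bif m.testBit i then f i else 0 := by
    intro f
    unfold bits
    rw [sum_filter]
    refine sum_congr rfl fun i _ => ?_
    cases m.testBit i <;> simp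
  rw [h1]
  refine sum_congr rfl fun i _ => ?_
  congr 1
  rw [h1, sm_eq]
  refine sum_congr rfl fun j _ => ?_
  congr 1
  rw [sm_eq, cdF_fam P hP]
  congr 2
  refine sum_congr rfl fun k _ => ?_
  rw [cdF_fam P hP, cdF_fam P hP]

theorem inv4_eq (P : List ℕ) (hP : ∀ m ∈ P, m < 2 ^ n) : inv4 n P = Js4 (fam n P) := by
  unfold inv4 Js4
  rw [sum_fam P hP]
  congr 1
  refine List.map_congr_left fun m _ => ?_
  rw [wt4_eq P hP]

/-- systems with different invariants are not isomorphic -/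
theorem distinct4 (n : ℕ) (P Q : List ℕ) (hP : ∀ m ∈ P, m < 2 ^ n) (hQ : ∀ m ∈ Q, m < 2 ^ n)
    (h : inv4 n P ≠ inv4 n Q) :
    ¬ ∃ σ : Equiv.Perm (Fin n), ∀ A : Finset (Fin n),
      (∃ m ∈ P, bits n m = A.map σ.toEmbedding) ↔ ∃ m ∈ Q, bits n m = A := by
  rintro ⟨σ, hσ⟩
  apply h
  rw [inv4_eq P hP, inv4_eq Q hQ]
  have h1 : fam n P = imF σ (fam n Q) := by
    ext A
    have h2 := hσ (A.map σ.symm.toEmbedding)
    have h3 : (A.map σ.symm.toEmbedding).map σ.toEmbedding = A := by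
      ext i
      simp
    rw [h3] at h2
    rw [mem_fam, h2, imF, mem_image]
    constructor
    · rintro ⟨m, hm, hm'⟩
      exact ⟨bits n m, (mem_fam Q _).2 ⟨m, hm, rfl⟩, by rw [hm', h3]⟩
    · rintro ⟨B, hB, hB'⟩
      obtain ⟨m, hm, rfl⟩ := (mem_fam Q B).1 hB
      refine ⟨m, hm, ?_⟩
      rw [← hB']
      ext i
      simp
  rw [h1, Js4_im]

/-! ### rank four -/

/-- the system, with the line `{0, 1, 2}` added if `b = true` -/
def ext4 (b : Bool) (P : List ℕ) : List ℕ := bif b then 7 :: P else P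

theorem mem_iff_rank4 {b : Bool} {P : List ℕ} (hP : Good4 b fun A => ∃ m ∈ P, bits 8 m = A)
    (A : Finset (Fin 8)) : (∃ m ∈ P, bits 8 m = A) ↔
      A.card = 4 ∧ rank4 b P A = 3 ∧ ¬ (b = true ∧ bits 8 7 ⊆ A) := by
  constructor
  · intro h
    have h1 := hP.card A h
    refine ⟨h1, ?_, ?_⟩
    · unfold rank4
      rw [if_neg (by omega), if_neg (by omega), if_pos h1, if_pos (Or.inr h)]
    · rintro ⟨hb, hsub⟩
      have h2 := hP.line hb A h
      rw [Finset.inter_eq_right.2 hsub] at h2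
      revert h2
      decide
  · rintro ⟨h1, h2, h3⟩
    unfold rank4 at h2
    rw [if_neg (by omega), if_neg (by omega), if_pos h1] at h2
    by_contra hc
    rw [if_neg (not_or.2 ⟨h3, hc⟩)] at h2
    omega

theorem card87 : (bits 8 7).card = 3 := by decide

theorem rank4_line {P : List ℕ} : rank4 true P (bits 8 7) = 2 := by
  unfold rank4
  rw [if_neg (by rw [card87]; norm_num), if_pos card87, if_pos ⟨rfl, rfl⟩]

theorem rank4_three {b : Bool} {P : List ℕ} {A : Finset (Fin 8)} (h : A.card = 3) (h2 : rank4 b P A = 2) :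
    b = true ∧ A = bits 8 7 := by
  unfold rank4 at h2
  rw [if_neg (by omega), if_pos h] at h2
  by_contra hc
  rw [if_neg hc] at h2
  omega

theorem iso4_of_rank {b c : Bool} {P Q : List ℕ} (hP : Good4 b fun A => ∃ m ∈ P, bits 8 m = A)
    (hQ : Good4 c fun A => ∃ m ∈ Q, bits 8 m = A) (σ : Equiv.Perm (Fin 8))
    (h : ∀ A : Finset (Fin 8), rank4 b P (A.map σ.toEmbedding) = rank4 c Q A) :
    b = c ∧ (b = true → (bits 8 7).map σ.toEmbedding = bits 8 7) ∧
      ∀ A : Finset (Fin 8), (∃ m ∈ P, bits 8 m = A.map σ.toEmbedding) ↔ ∃ m ∈ Q, bits 8 m = A := by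
  have h1 : b = true → c = true ∧ (bits 8 7).map σ.toEmbedding = bits 8 7 := by
    rintro rfl
    have h2 := h ((bits 8 7).map σ.symm.toEmbedding)
    rw [map_symm_map8, rank4_line] at h2
    have h3 : ((bits 8 7).map σ.symm.toEmbedding).card = 3 := by rw [Finset.card_map, card87]
    obtain ⟨h4, h5⟩ := rank4_three h3 h2.symm
    refine ⟨h4, ?_⟩
    conv_lhs => rw [← h5]
    exact map_symm_map8 σ _
  have h2 : c = true → b = true := by
    rintro rfl
    have h3 := h (bits 8 7)
    rw [rank4_line] at h3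
    exact (rank4_three (by rw [Finset.card_map, card87]) h3).1
  have hbc : b = c := by
    cases hb : b <;> cases hc : c
    · rfl
    · exact absurd (h2 hc) (by simp [hb])
    · exact absurd (h1 hb).1 (by simp [hc])
    · rfl
  refine ⟨hbc, fun hb => (h1 hb).2, fun A => ?_⟩
  rw [mem_iff_rank4 hP, mem_iff_rank4 hQ, Finset.card_map, h, ← hbc]
  refine and_congr_right fun _ => and_congr_right fun _ => not_congr (and_congr_right fun hb => ?_)
  have h3 := (h1 hb).2
  constructor
  · intro h4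
    rw [← h3] at h4
    exact Finset.map_subset_map.1 h4
  · intro h4
    rw [← h3]
    exact Finset.map_subset_map.2 h4

theorem inv4_of_rank {b c : Bool} {P Q : List ℕ} (hP : Good4 b fun A => ∃ m ∈ P, bits 8 m = A)
    (hQ : Good4 c fun A => ∃ m ∈ Q, bits 8 m = A) (lP : ∀ m ∈ P, m < 256) (lQ : ∀ m ∈ Q, m < 256)
    (σ : Equiv.Perm (Fin 8)) (h : ∀ A : Finset (Fin 8), rank4 b P (A.map σ.toEmbedding) = rank4 c Q A) :
    b = c ∧ inv4 8 (ext4 b P) = inv4 8 (ext4 c Q) := by
  obtain ⟨h1, h2, h3⟩ := iso4_of_rank hP hQ σ h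
  subst h1
  refine ⟨rfl, ?_⟩
  by_contra hne
  have hl : ∀ R : List ℕ, (∀ m ∈ R, m < 256) → ∀ m ∈ ext4 b R, m < 2 ^ 8 := by
    intro R hR m hm
    cases b
    · exact hR m hm
    · rcases List.mem_cons.1 hm with rfl | hm
      · norm_num
      · exact hR m hm
  refine distinct4 8 _ _ (hl P lP) (hl Q lQ) hne ⟨σ, fun A => ?_⟩
  cases b
  · exact h3 A
  · have h4 := h2 rfl
    show (∃ m ∈ 7 :: P, bits 8 m = A.map σ.toEmbedding) ↔ ∃ m ∈ 7 :: Q, bits 8 m = A
    have h5 : bits 8 7 = A.map σ.toEmbedding ↔ bits 8 7 = A := by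
      constructor
      · intro h6
        rw [← h4] at h6
        exact Finset.map_injective _ h6
      · intro h6
        rw [← h6, h4]
    simp only [List.mem_cons, exists_eq_or_imp]
    rw [h5, h3 A]

end Pool.Agent.BW3
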