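import Pool.Agent.Lib_MP_a68485_co.Distinct

/-!
# MP_a68485_co, piece D: the systems of a list are pairwise non-isomorphic
-/

set_option autoImplicit false

namespace Pool.Agent.BW3

/-- the systems `P` and `Q` are isomorphic -/
def IsoSys (n : ℕ) (P Q : List ℕ) : Prop :=
  ∃ σ : Equiv.Perm (Fin n), ∀ A : Finset (Fin n),
    (∃ m ∈ P, bits n m = A.map σ.toEmbedding) ↔ ∃ m ∈ Q, bits n m = A

/-- if the invariants have no repetition, the systems are pairwise non-isomorphic -/
theorem pairwise_not_iso (n : ℕ) (L : List (List ℕ)) (hlt : ∀ P ∈ L, ∀ m ∈ P, m < 2 ^ n)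
    (hnd : (L.map (inv n)).Nodup) : L.Pairwise fun P Q => ¬ IsoSys n P Q := by
  have h1 : L.Pairwise fun P Q => inv n P ≠ inv n Q := List.pairwise_map.1 hnd
  exact h1.imp_of_mem fun {P Q} hP hQ h => distinct n P Q (hlt P hP) (hlt Q hQ) h

end Pool.Agent.BW3
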