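import Pool.Agent.Lib_MP_a68485_co.Transfer

/-!
# MP_a68485_co: the matroid of rank three with given long lines
-/

set_option autoImplicit false

namespace Pool.Agent.BW3

/-- the independent sets of the matroid of rank three whose long lines are the sets in `P` -/
def LInd (n : ℕ) (P : List ℕ) (I : Finset (Fin n)) : Prop :=
  I.card ≤ 3 ∧ (I.card = 3 → ∀ m ∈ P, ¬ I ⊆ bits n m)

theorem line_ext {n : ℕ} {P : List ℕ}
    (hmeet : ∀ m ∈ P, ∀ l ∈ P, bits n m ≠ bits n l → (bits n m ∩ bits n l).card ≤ 1)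
    {I B : Finset (Fin n)} (hI : I.card = 2) (hne : ∃ e ∈ B, e ∉ I)
    (h : ∀ e ∈ B, e ∉ I → ∃ m ∈ P, insert e I ⊆ bits n m) : ∃ m ∈ P, B ⊆ bits n m := by
  obtain ⟨e₀, he₀, he₀I⟩ := hne
  obtain ⟨m₀, hm₀, hs₀⟩ := h e₀ he₀ he₀I
  have hI0 : I ⊆ bits n m₀ := (Finset.subset_insert _ _).trans hs₀
  refine ⟨m₀, hm₀, fun e he => ?_⟩
  by_cases heI : e ∈ I
  · exact hI0 heI
  · obtain ⟨m, hm, hs⟩ := h e he heI
    have heq : bits n m = bits n m₀ := by
      by_contra hne
      have h1 := hmeet m hm m₀ hm₀ hne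
      have h2 : I ⊆ bits n m ∩ bits n m₀ :=
        Finset.subset_inter ((Finset.subset_insert _ _).trans hs) hI0
      have h3 := Finset.card_le_card h2
      omega
    rw [← heq]
    exact hs (Finset.mem_insert_self _ _)

theorem lInd_aug {n : ℕ} {P : List ℕ}
    (hmeet : ∀ m ∈ P, ∀ l ∈ P, bits n m ≠ bits n l → (bits n m ∩ bits n l).card ≤ 1)
    {I J : Finset (Fin n)} (_ : LInd n P I) (hJ : LInd n P J) (hlt : I.card < J.card) :
    ∃ e ∈ J, e ∉ I ∧ LInd n P (insert e I) := by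
  obtain ⟨e₀, he₀, he₀I⟩ := Finset.exists_mem_notMem_of_card_lt_card hlt
  by_cases h1 : I.card ≤ 1
  · refine ⟨e₀, he₀, he₀I, ?_, ?_⟩
    · rw [Finset.card_insert_of_notMem he₀I]
      omega
    · rw [Finset.card_insert_of_notMem he₀I]
      omega
  · have hJ3 := hJ.1
    have hI2 : I.card = 2 := by omega
    have hJc : J.card = 3 := by omega
    by_contra hcon
    push Not at hcon
    obtain ⟨m, hm, hs⟩ := line_ext hmeet hI2 ⟨e₀, he₀, he₀I⟩ (fun e he heI => by
      by_contra hno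
      push Not at hno
      refine hcon e he heI ⟨?_, fun _ m hm => hno m hm⟩
      rw [Finset.card_insert_of_notMem heI]
      omega)
    exact hJ.2 hJc m hm hs

theorem exists_matroid (n : ℕ) (P : List ℕ)
    (hmeet : ∀ m ∈ P, ∀ l ∈ P, bits n m ≠ bits n l → (bits n m ∩ bits n l).card ≤ 1) :
    ∃ M : Matroid (Fin n), M.E = Set.univ ∧
      ∀ A : Finset (Fin n), rk M (A : Set (Fin n)) = lineRank n P A := by
  classical
  have a1 : LInd n P ∅ := ⟨by simp, by simp⟩
  have a2 : ∀ ⦃I J : Finset (Fin n)⦄, LInd n P J → I ⊆ J → LInd n P I :=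
    fun I J hJ hIJ => ⟨(Finset.card_le_card hIJ).trans hJ.1, fun h3 m hm hs => by
      have h1 := Finset.card_le_card hIJ
      have h2 : J.card = 3 := le_antisymm hJ.1 (by omega)
      have h4 : I = J := Finset.eq_of_subset_of_card_le hIJ (by omega)
      exact hJ.2 h2 m hm (h4 ▸ hs)⟩
  have a3 : ∀ ⦃I J : Finset (Fin n)⦄, LInd n P I → LInd n P J → I.card < J.card →
      ∃ e ∈ J, e ∉ I ∧ LInd n P (insert e I) := fun _ _ hI hJ hlt => lInd_aug hmeet hI hJ hlt
  have a4 : ∀ ⦃I : Finset (Fin n)⦄, LInd n P I → (I : Set (Fin n)) ⊆ Set.univ :=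
    fun I _ => Set.subset_univ _
  let N : IndepMatroid (Fin n) := IndepMatroid.ofFinset Set.univ (LInd n P) a1 a2 a3 a4
  have hind : ∀ I : Finset (Fin n), N.matroid.Indep (I : Set (Fin n)) ↔ LInd n P I := by
    intro I
    exact IndepMatroid.ofFinset_indep (E := Set.univ) (Indep := LInd n P) a1 a2 a3 a4
  refine ⟨N.matroid, rfl, fun A => ?_⟩
  have hle : ∀ k : ℕ, (∀ I : Finset (Fin n), I ⊆ A → LInd n P I → I.card ≤ k) →
      N.matroid.eRk (A : Set (Fin n)) ≤ (k : ℕ∞) := by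
    intro k hk
    rw [Matroid.eRk_le_iff]
    intro I hI hInd
    obtain ⟨I', rfl⟩ : ∃ I' : Finset (Fin n), (I' : Set (Fin n)) = I :=
      ⟨I.toFinite.toFinset, I.toFinite.coe_toFinset⟩
    rw [Set.encard_coe_eq_coe_finsetCard]
    exact_mod_cast hk I' (Finset.coe_subset.1 hI) ((hind I').1 hInd)
  have hge : ∀ I : Finset (Fin n), I ⊆ A → LInd n P I →
      (I.card : ℕ∞) ≤ N.matroid.eRk (A : Set (Fin n)) := by
    intro I hI hInd
    have h := ((hind I).2 hInd).encard_le_eRk_of_subset (Finset.coe_subset.2 hI)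
    rwa [Set.encard_coe_eq_coe_finsetCard] at h
  have hfin : ∀ k : ℕ, N.matroid.eRk (A : Set (Fin n)) = (k : ℕ∞) →
      rk N.matroid (A : Set (Fin n)) = k := by
    intro k hk
    unfold rk
    rw [hk]
    rfl
  unfold lineRank
  split_ifs with h1 h2
  · refine hfin _ (le_antisymm (hle _ fun I hI _ => Finset.card_le_card hI)
      (hge A subset_rfl ⟨by omega, by omega⟩))
  · obtain ⟨m, hm, hs⟩ := h2
    refine hfin 2 (le_antisymm (hle 2 fun I hI hInd => ?_) ?_)
    · by_contra hcon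
      have h3 : I.card = 3 := le_antisymm hInd.1 (by omega)
      exact hInd.2 h3 m hm (hI.trans hs)
    · obtain ⟨I, hI, hc⟩ := Finset.exists_subset_card_eq (s := A) (n := 2) (by omega)
      have h3 := hge I hI ⟨by omega, by omega⟩
      rwa [hc] at h3
  · refine hfin 3 (le_antisymm (hle 3 fun I hI hInd => hInd.1) ?_)
    obtain ⟨I, hI, hc⟩ := Finset.exists_subset_card_eq (s := A) (n := 2) (by omega)
    obtain ⟨e₀, he₀, he₀I⟩ := Finset.exists_mem_notMem_of_card_lt_card (s := I) (t := A) (by omega)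
    by_contra hcon
    refine h2 (line_ext hmeet hc ⟨e₀, he₀, he₀I⟩ fun e he heI => ?_)
    by_contra hno
    push Not at hno
    apply hcon
    have hc3 : (insert e I).card = 3 := by rw [Finset.card_insert_of_notMem heI, hc]
    have h4 := hge (insert e I) (Finset.insert_subset he hI) ⟨by omega, fun _ m hm => hno m hm⟩
    rwa [hc3] at h4

end Pool.Agent.BW3
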