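import Pool.Agent.Lib_MP_a68485_co.Base
import Pool.Agent.Lib_MP_a68485_co.Comb4

/-!
# MP_a68485_co: the matroid of rank four with given four-element circuits
-/

set_option autoImplicit false

namespace Pool.Agent.BW3

/-- the independent sets of the matroid of rank four -/
def XInd (b : Bool) (P : List ℕ) (I : Finset (Fin 8)) : Prop :=
  I.card ≤ 4 ∧ (b = true → ¬ bits 8 7 ⊆ I) ∧ ¬ ∃ m ∈ P, bits 8 m = I

theorem x_card7 : (bits 8 7).card = 3 := by decide

theorem x_two {b : Bool} {P : List ℕ} (h : Good4 b fun A => ∃ m ∈ P, bits 8 m = A)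
    {I : Finset (Fin 8)} (hI : XInd b P I) (h3 : I.card ≤ 3) {e f : Fin 8} (he : e ∉ I) (hf : f ∉ I)
    (hef : e ≠ f) : XInd b P (insert e I) ∨ XInd b P (insert f I) := by
  by_contra hcon
  push Not at hcon
  obtain ⟨h1, h2⟩ := hcon
  have hce : (insert e I).card = I.card + 1 := Finset.card_insert_of_notMem he
  have hcf : (insert f I).card = I.card + 1 := Finset.card_insert_of_notMem hf
  have hbad : ∀ x, (insert x I).card = I.card + 1 → ¬ XInd b P (insert x I) →
      (b = true ∧ bits 8 7 ⊆ insert x I) ∨ ∃ m ∈ P, bits 8 m = insert x I := by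
    intro x hx hn
    by_contra hc
    push Not at hc
    exact hn ⟨by omega, fun hb => hc.1 hb, fun ⟨m, hm, hs⟩ => hc.2 m hm hs⟩
  have key : ∀ x y, x ∉ I → y ∉ I → x ≠ y → (b = true ∧ bits 8 7 ⊆ insert x I) →
      (∃ m ∈ P, bits 8 m = insert y I) → False := by
    rintro x y hx hy hxy ⟨hb, hs⟩ hN
    have h4 := h.line hb _ hN
    have h5 : bits 8 7 ⊆ insert x ((insert y I) ∩ bits 8 7) := by
      intro z hz
      rw [Finset.mem_insert, Finset.mem_inter, Finset.mem_insert]
      rcases Finset.mem_insert.1 (hs hz) with h6 | h6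
      · exact Or.inl h6
      · exact Or.inr ⟨Or.inr h6, hz⟩
    have h7 := Finset.card_le_card h5
    have h8 := Finset.card_insert_le x ((insert y I) ∩ bits 8 7)
    rw [x_card7] at h7
    omega
  rcases hbad e hce h1 with ⟨hb, hs⟩ | hN
  · rcases hbad f hcf h2 with ⟨hb', hs'⟩ | hN'
    · apply hI.2.1 hb
      intro z hz
      rcases Finset.mem_insert.1 (hs hz) with h6 | h6
      · rcases Finset.mem_insert.1 (hs' hz) with h7 | h7
        · exact absurd (h6.symm.trans h7) hef
        · exact h7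
      · exact h6
    · exact key e f he hf hef ⟨hb, hs⟩ hN'
  · rcases hbad f hcf h2 with ⟨hb', hs'⟩ | hN'
    · exact key f e hf he (Ne.symm hef) ⟨hb', hs'⟩ hN
    · have h4 := h.card _ hN
      have hne : insert e I ≠ insert f I := by
        intro heq
        have : e ∈ insert f I := heq ▸ Finset.mem_insert_self e I
        rcases Finset.mem_insert.1 this with h6 | h6
        · exact hef h6
        · exact he h6
      have h5 := h.meet _ _ hN hN' hne
      have h6 : I ⊆ insert e I ∩ insert f I :=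
        Finset.subset_inter (Finset.subset_insert _ _) (Finset.subset_insert _ _)
      have h7 := Finset.card_le_card h6
      omega

theorem x_aug {b : Bool} {P : List ℕ} (h : Good4 b fun A => ∃ m ∈ P, bits 8 m = A)
    {I J : Finset (Fin 8)} (hI : XInd b P I) (hJ : XInd b P J) (hlt : I.card < J.card) :
    ∃ e ∈ J, e ∉ I ∧ XInd b P (insert e I) := by
  have hJ4 := hJ.1
  obtain ⟨e, heJ, heI⟩ := Finset.exists_mem_notMem_of_card_lt_card hlt
  by_cases hs : ∃ f ∈ J, f ∉ I ∧ e ≠ f
  · obtain ⟨f, hfJ, hfI, hef⟩ := hs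
    rcases x_two h hI (by omega) heI hfI hef with h1 | h1
    · exact ⟨e, heJ, heI, h1⟩
    · exact ⟨f, hfJ, hfI, h1⟩
  · push Not at hs
    refine ⟨e, heJ, heI, ?_⟩
    have h1 : J ⊆ insert e I := by
      intro f hf
      rw [Finset.mem_insert]
      by_cases hfI : f ∈ I
      · exact Or.inr hfI
      · exact Or.inl (hs f hf hfI).symm
    have h2 : J = insert e I := Finset.eq_of_subset_of_card_le h1 (by
      rw [Finset.card_insert_of_notMem heI]
      omega)
    rw [← h2]
    exact hJ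

theorem x_three {b : Bool} {P : List ℕ} (h : Good4 b fun A => ∃ m ∈ P, bits 8 m = A)
    {A : Finset (Fin 8)} (hA : 4 ≤ A.card) : ∃ I ⊆ A, I.card = 3 ∧ XInd b P I := by
  have key : ∃ I ⊆ A, I.card = 3 ∧ ¬ bits 8 7 ⊆ I := by
    obtain ⟨B, hB, hBc⟩ := Finset.exists_subset_card_eq (s := A) (n := 4) hA
    by_cases hs : bits 8 7 ⊆ B
    · have h0 : (0 : Fin 8) ∈ bits 8 7 := by decide
      refine ⟨B.erase 0, (Finset.erase_subset _ _).trans hB, ?_, fun h1 => ?_⟩
      · rw [Finset.card_erase_of_mem (hs h0), hBc]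
      · exact Finset.notMem_erase _ _ (h1 h0)
    · obtain ⟨I, hI, hIc⟩ := Finset.exists_subset_card_eq (s := B) (n := 3) (by omega)
      exact ⟨I, hI.trans hB, hIc, fun h1 => hs (h1.trans hI)⟩
  obtain ⟨I, hI, hIc, hs⟩ := key
  refine ⟨I, hI, hIc, by omega, fun _ => hs, fun hN => ?_⟩
  have := h.card _ hN
  omega

theorem exists_matroid4 (b : Bool) (P : List ℕ) (h : Good4 b fun A => ∃ m ∈ P, bits 8 m = A) :
    ∃ M : Matroid (Fin 8), M.E = Set.univ ∧
      ∀ A : Finset (Fin 8), rk M (A : Set (Fin 8)) = rank4 b P A := by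
  classical
  have hno : ∀ A : Finset (Fin 8), A.card ≠ 4 → ¬ ∃ m ∈ P, bits 8 m = A :=
    fun A hA hN => hA (h.card _ hN)
  have a1 : XInd b P ∅ := ⟨by simp, fun _ hs => by
    have := Finset.card_le_card hs
    rw [x_card7] at this
    simp at this, hno _ (by simp)⟩
  have a2 : ∀ ⦃I J : Finset (Fin 8)⦄, XInd b P J → I ⊆ J → XInd b P I :=
    fun I J hJ hIJ => ⟨(Finset.card_le_card hIJ).trans hJ.1, fun hb hs => hJ.2.1 hb (hs.trans hIJ),
      fun hN => by
        have h1 := h.card _ hN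
        have h2 : I = J := Finset.eq_of_subset_of_card_le hIJ (by
          have := hJ.1
          omega)
        exact hJ.2.2 (h2 ▸ hN)⟩
  have a3 : ∀ ⦃I J : Finset (Fin 8)⦄, XInd b P I → XInd b P J → I.card < J.card →
      ∃ e ∈ J, e ∉ I ∧ XInd b P (insert e I) := fun _ _ hI hJ hlt => x_aug h hI hJ hlt
  have a4 : ∀ ⦃I : Finset (Fin 8)⦄, XInd b P I → (I : Set (Fin 8)) ⊆ Set.univ :=
    fun I _ => Set.subset_univ _
  let N : IndepMatroid (Fin 8) := IndepMatroid.ofFinset Set.univ (XInd b P) a1 a2 a3 a4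
  have hind : ∀ I : Finset (Fin 8), N.matroid.Indep (I : Set (Fin 8)) ↔ XInd b P I := by
    intro I
    exact IndepMatroid.ofFinset_indep (E := Set.univ) (Indep := XInd b P) a1 a2 a3 a4
  refine ⟨N.matroid, rfl, fun A => ?_⟩
  have hle : ∀ k : ℕ, (∀ I : Finset (Fin 8), I ⊆ A → XInd b P I → I.card ≤ k) →
      N.matroid.eRk (A : Set (Fin 8)) ≤ (k : ℕ∞) := by
    intro k hk
    rw [Matroid.eRk_le_iff]
    intro I hI hInd
    obtain ⟨I', rfl⟩ : ∃ I' : Finset (Fin 8), (I' : Set (Fin 8)) = I :=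
      ⟨I.toFinite.toFinset, I.toFinite.coe_toFinset⟩
    rw [Set.encard_coe_eq_coe_finsetCard]
    exact_mod_cast hk I' (Finset.coe_subset.1 hI) ((hind I').1 hInd)
  have hge : ∀ I : Finset (Fin 8), I ⊆ A → XInd b P I →
      (I.card : ℕ∞) ≤ N.matroid.eRk (A : Set (Fin 8)) := by
    intro I hI hInd
    have h := ((hind I).2 hInd).encard_le_eRk_of_subset (Finset.coe_subset.2 hI)
    rwa [Set.encard_coe_eq_coe_finsetCard] at h
  have hfin : ∀ k : ℕ, N.matroid.eRk (A : Set (Fin 8)) = (k : ℕ∞) →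
      rk N.matroid (A : Set (Fin 8)) = k := by
    intro k hk
    unfold rk
    rw [hk]
    rfl
  have hsmall : ∀ B : Finset (Fin 8), B.card ≤ 2 → XInd b P B := fun B hB =>
    ⟨by omega, fun _ hs => by
      have := Finset.card_le_card hs
      rw [x_card7] at this
      omega, hno _ (by omega)⟩
  unfold rank4
  split_ifs with h1 h2 h3 h4 h5
  · exact hfin _ (le_antisymm (hle _ fun I hI _ => Finset.card_le_card hI)
      (hge A subset_rfl (hsmall A h1)))
  · -- the line
    obtain ⟨hb, rfl⟩ := h3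
    refine hfin 2 (le_antisymm (hle 2 fun I hI hInd => ?_) ?_)
    · by_contra hcon
      have h6 : I = bits 8 7 := Finset.eq_of_subset_of_card_le hI (by omega)
      exact hInd.2.1 hb (h6 ▸ subset_rfl)
    · obtain ⟨I, hI, hc⟩ := Finset.exists_subset_card_eq (s := bits 8 7) (n := 2) (by omega)
      have h6 := hge I hI (hsmall I (by omega))
      rwa [hc] at h6
  · refine hfin 3 (le_antisymm (hle 3 fun I hI _ => (Finset.card_le_card hI).trans (by omega)) ?_)
    have h6 := hge A subset_rfl ⟨by omega, fun hb hs => h3 ⟨hb,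
      (Finset.eq_of_subset_of_card_le hs (by rw [x_card7]; omega)).symm⟩, hno _ (by omega)⟩
    rwa [h2] at h6
  · -- a non-basis
    refine hfin 3 (le_antisymm (hle 3 fun I hI hInd => ?_) ?_)
    · by_contra hcon
      have h6 : I = A := Finset.eq_of_subset_of_card_le hI (by omega)
      subst h6
      rcases h5 with ⟨hb, hs⟩ | hN
      · exact hInd.2.1 hb hs
      · exact hInd.2.2 hN
    · obtain ⟨I, hI, hc, hInd⟩ := x_three h (A := A) (by omega)
      have h6 := hge I hI hInd
      rwa [hc] at h6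
  · refine hfin 4 (le_antisymm (hle 4 fun I hI hInd => hInd.1) ?_)
    have h6 := hge A subset_rfl ⟨by omega, fun hb hs => h5 (Or.inl ⟨hb, hs⟩), fun hN => h5 (Or.inr hN)⟩
    rwa [h4] at h6
  · refine hfin 4 (le_antisymm (hle 4 fun I hI hInd => hInd.1) ?_)
    obtain ⟨I, hI, hc, hInd⟩ := x_three h (A := A) (by omega)
    obtain ⟨e, he, f, hf, hef⟩ : ∃ e ∈ A \ I, ∃ f ∈ A \ I, e ≠ f := by
      have h6 : 1 < (A \ I).card := by
        rw [Finset.card_sdiff_of_subset hI]
        omega
      exact Finset.one_lt_card.1 h6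
    rw [Finset.mem_sdiff] at he hf
    rcases x_two h hInd (by omega) he.2 hf.2 hef with h6 | h6
    · have h7 := hge _ (Finset.insert_subset he.1 hI) h6
      rwa [Finset.card_insert_of_notMem he.2, hc] at h7
    · have h7 := hge _ (Finset.insert_subset hf.1 hI) h6
      rwa [Finset.card_insert_of_notMem hf.2, hc] at h7

end Pool.Agent.BW3
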