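import Pool.Agent.Lib_MP_a68485_co.Comb

/-!
# MP_a68485_co: the critical systems with 8, 9 and 10 points
-/

set_option autoImplicit false

namespace Pool.Agent.BW3

/-- the systems of long lines of the excluded minors of rank three with 8 elements -/
def list8 : List (List ℕ) := [[42, 25, 7], [52, 42, 25, 7], [76, 42, 25, 7], [76, 52, 42, 25, 7], [82, 76, 52, 42, 25,
  7], [97, 82, 76, 52, 42, 25, 7]]

/-- the systems of long lines of the excluded minors of rank three with 9 elements -/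
def list9 : List (List ℕ) := [[212, 168, 98, 25, 7], [400, 172, 98, 25, 7], [448, 164, 84, 42, 25, 7], [386, 224, 84,
  42, 25, 7], [396, 224, 84, 42, 25, 7], [386, 225, 84, 42, 25, 7], [388, 193, 116, 42, 25, 7], [416, 332, 193, 42,
  25, 7], [416, 336, 196, 42, 25, 7], [417, 336, 196, 42, 25, 7], [388, 322, 193, 52, 42, 25, 7], [392, 322, 193, 52,
  42, 25, 7], [396, 322, 193, 52, 42, 25, 7], [400, 322, 193, 52, 42, 25, 7], [416, 332, 193, 52, 42, 25, 7], [385,
  146, 112, 76, 42, 25, 7], [276, 224, 146, 76, 42, 25, 7], [292, 224, 146, 76, 42, 25, 7], [308, 224, 146, 76, 42,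
  25, 7], [292, 225, 146, 76, 42, 25, 7], [448, 292, 146, 76, 42, 25, 7], [448, 308, 146, 76, 42, 25, 7], [416, 322,
  146, 76, 42, 25, 7], [388, 336, 146, 76, 42, 25, 7], [416, 336, 146, 76, 42, 25, 7], [385, 336, 176, 76, 42, 25, 7],
  [386, 336, 176, 76, 42, 25, 7], [385, 338, 176, 76, 42, 25, 7], [388, 338, 176, 76, 42, 25, 7], [392, 338, 176, 76,
  42, 25, 7], [353, 200, 164, 84, 42, 25, 7], [402, 328, 164, 84, 42, 25, 7], [402, 352, 164, 84, 42, 25, 7], [388,
  321, 146, 76, 52, 42, 25, 7], [416, 321, 146, 76, 52, 42, 25, 7], [388, 322, 146, 76, 52, 42, 25, 7], [388, 322,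
  193, 76, 52, 42, 25, 7], [392, 322, 193, 76, 52, 42, 25, 7], [400, 322, 193, 76, 52, 42, 25, 7], [388, 338, 193, 76,
  52, 42, 25, 7], [416, 338, 193, 76, 52, 42, 25, 7], [386, 352, 193, 76, 52, 42, 25, 7], [388, 352, 193, 76, 52, 42,
  25, 7], [193, 164, 146, 112, 76, 42, 25, 7], [321, 164, 146, 112, 76, 42, 25, 7], [416, 276, 146, 112, 76, 42, 25,
  7], [385, 292, 146, 112, 76, 42, 25, 7], [336, 292, 224, 146, 76, 42, 25, 7], [321, 308, 224, 146, 76, 42, 25, 7],
  [322, 308, 224, 146, 76, 42, 25, 7], [392, 321, 224, 146, 76, 42, 25, 7], [388, 336, 224, 146, 76, 42, 25, 7], [392,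
  322, 225, 146, 76, 42, 25, 7], [388, 336, 225, 146, 76, 42, 25, 7], [386, 321, 161, 82, 76, 52, 42, 25, 7], [388,
  322, 193, 146, 76, 52, 42, 25, 7], [392, 322, 193, 146, 76, 52, 42, 25, 7], [416, 322, 193, 146, 76, 52, 42, 25, 7],
  [388, 322, 225, 146, 76, 52, 42, 25, 7], [385, 336, 292, 224, 146, 76, 42, 25, 7], [392, 321, 308, 224, 146, 76, 42,
  25, 7]]

/-- the systems of long lines of the excluded minors of rank three with 10 elements -/
def list10 : List (List ℕ) := [[291, 149, 78, 960], [312, 163, 85, 14, 960], [112, 291, 149, 78, 960], [568, 291, 149,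
  78, 960], [568, 265, 163, 85, 14, 960], [552, 280, 163, 85, 14, 960], [168, 112, 291, 149, 78, 960], [521, 112, 291,
  149, 78, 960], [568, 274, 265, 163, 85, 14, 960], [536, 296, 274, 163, 85, 14, 960], [280, 168, 112, 291, 149, 78,
  960], [521, 168, 112, 291, 149, 78, 960], [548, 168, 112, 291, 149, 78, 960], [568, 292, 274, 265, 163, 85, 14,
  960], [548, 536, 296, 274, 163, 85, 14, 960], [521, 280, 168, 112, 291, 149, 78, 960], [530, 521, 168, 112, 291,
  149, 78, 960], [530, 521, 280, 168, 112, 291, 149, 78, 960], [548, 530, 521, 280, 168, 112, 291, 149, 78, 960]]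

end Pool.Agent.BW3
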