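import Pool.Agent.Lib_MP_a68485_co.Transfer

/-!
# MP_a68485_co: assembly, for a given list of systems
-/

set_option autoImplicit false

namespace Pool.Agent.BW3

open Set

variable {α : Type*}

section

variable {M : Matroid α}

theorem TL_comp {n : ℕ} (f : Fin n → α) (σ : Equiv.Perm (Fin n)) (A : Finset (Fin n)) :
    TL M (f ∘ σ) A ↔ TL M f (A.map σ.toEmbedding) := by
  have himg : ∀ B : Finset (Fin n), (f ∘ σ) '' (B : Set (Fin n)) = f '' ((B.map σ.toEmbedding : Finset (Fin n)) : Set (Fin n)) := by
    intro B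
    rw [Finset.coe_map, Set.image_comp]
    rfl
  unfold TL
  rw [Finset.card_map, ← himg]
  refine and_congr_right fun _ => and_congr_right fun _ => ?_
  constructor
  · intro h j hj
    have h1 : σ.symm j ∉ A := fun h => hj (Finset.mem_map.2 ⟨_, h, by simp⟩)
    have h2 := h _ h1
    rw [himg, Finset.map_insert] at h2
    simpa using h2
  · intro h i hi
    have h1 : σ i ∉ A.map σ.toEmbedding := by
      rw [Finset.mem_map]
      rintro ⟨k, hk, hk'⟩
      rw [← σ.injective hk'] at hi
      exact hi hk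
    have h2 := h _ h1
    rw [himg, Finset.map_insert]
    simpa using h2

variable [M.Finite]

theorem desc_of_listed (h3 : rk M M.E = 3) (hs : Simp M M.E) {n : ℕ} (hn : 2 ≤ n) {f : Fin n → α}
    (hf : Function.Injective f) (hr : Set.range f = M.E) {Ls : List (List ℕ)} (hL : Listed n Ls (TL M f)) :
    ∃ P ∈ Ls, ∃ g : Fin n → α, Desc M n P g := by
  obtain ⟨P, hP, σ, h⟩ := hL
  refine ⟨P, hP, f ∘ σ, ?_⟩
  refine desc_of_TL (hf.comp σ.injective) ?_ hn h3 hs fun A => ?_
  · rw [Set.range_comp, σ.surjective.range_eq, Set.image_univ, hr]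
  · rw [TL_comp, h]

theorem exists_label {n : ℕ} (h : M.E.ncard = n) : ∃ f : Fin n → α, Function.Injective f ∧ Set.range f = M.E := by
  have hfin : Finite M.E := M.ground_finite
  have hc : Nat.card M.E = n := h
  let e := (Finite.equivFinOfCardEq hc).symm
  refine ⟨fun i => (e i : α), fun i j hij => e.injective (Subtype.ext hij), ?_⟩
  ext z
  constructor
  · rintro ⟨i, rfl⟩
    exact (e i).2
  · intro hz
    exact ⟨e.symm ⟨z, hz⟩, by simp⟩

/-- there is no long line among seven elements -/
theorem listed_seven (T : Finset (Fin 7) → Prop) (h : Good 7 T) : Listed 7 [[]] T := by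
  refine ⟨[], by simp, 1, fun A => ⟨fun hA => ?_, fun hA => ?_⟩⟩
  · exfalso
    have h1 := h.card _ hA
    generalize A.map (Equiv.toEmbedding (1 : Equiv.Perm (Fin 7))) = B at hA h1
    have h2 := Finset.card_sdiff_add_card_inter (Finset.univ : Finset (Fin 7)) B
    rw [Finset.univ_inter, Finset.card_univ, Fintype.card_fin] at h2
    have h3 : (Finset.univ \ B).card ≤ 2 * (1 + 1) := by omega
    exact h.notcov (Or.inr ⟨_, hA, Or.inl h3⟩)
  · obtain ⟨m, hm, _⟩ := hA
    simp at hm

/-- all the systems, with their numbers of elements -/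
def allSys (l8 l9 l10 : List (List ℕ)) : List (ℕ × List ℕ) :=
  [(7, [])] ++ l8.map (fun P => (8, P)) ++ l9.map (fun P => (9, P)) ++ l10.map (fun P => (10, P))

theorem main_rank_three {l8 l9 l10 : List (List ℕ)} (c8 : ∀ T, Good 8 T → Listed 8 l8 T)
    (c9 : ∀ T, Good 9 T → Listed 9 l9 T) (c10 : ∀ T, Good 10 T → Listed 10 l10 T)
    (g : ∀ s ∈ allSys l8 l9 l10, Good s.1 fun A => ∃ m ∈ s.2, bits s.1 m = A) (h3 : rk M M.E = 3) :
    ExMinor M ↔ ∃ s ∈ allSys l8 l9 l10, ∃ f : Fin s.1 → α, Desc M s.1 s.2 f := by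
  constructor
  · intro h
    have hk := (exMinor_iff M h3).1 h
    have hs := hk.simp (by norm_num)
    have h1 := hk.card (by norm_num) M.ground_finite
    have h2 := hk.lt_card M.ground_finite
    have h4 : 7 ≤ M.E.ncard := by omega
    have h5 : M.E.ncard ≤ 10 := by omega
    obtain ⟨f, hf, hr⟩ := exists_label (M := M) rfl
    have hg := good_TL hf hr hk
    generalize hn : M.E.ncard = n at *
    interval_cases n
    · obtain ⟨P, hP, g, hd⟩ := desc_of_listed h3 hs (by norm_num) hf hr (listed_seven _ hg)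
      have : P = [] := by simpa using hP
      subst this
      exact ⟨(7, []), by simp [allSys], g, hd⟩
    · obtain ⟨P, hP, g, hd⟩ := desc_of_listed h3 hs (by norm_num) hf hr (c8 _ hg)
      exact ⟨(8, P), by simp [allSys, hP], g, hd⟩
    · obtain ⟨P, hP, g, hd⟩ := desc_of_listed h3 hs (by norm_num) hf hr (c9 _ hg)
      exact ⟨(9, P), by simp [allSys, hP], g, hd⟩
    · obtain ⟨P, hP, g, hd⟩ := desc_of_listed h3 hs (by norm_num) hf hr (c10 _ hg)
      exact ⟨(10, P), by simp [allSys, hP], g, hd⟩
  · rintro ⟨s, hs, f, hd⟩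
    exact (exMinor_of_desc hd (g s hs)).2

omit [M.Finite] in
/-- a set that is not covered contains a critical set -/
theorem exists_crit {k : ℕ} {X : Set α} (hX : X.Finite) (h : ¬ Cov M k X) : ∃ Y ⊆ X, KCrit M k Y := by
  induction hn : X.ncard using Nat.strong_induction_on generalizing X with
  | _ n ih =>
    by_cases hc : ∀ x ∈ X, Cov M k (X \ {x})
    · exact ⟨X, subset_refl X, h, hc⟩
    · push Not at hc
      obtain ⟨x, hx, hc⟩ := hc
      have h1 := Set.ncard_sdiff_singleton_add_one hx hX
      obtain ⟨Y, hY, hk⟩ := ih _ (by omega) (hX.subset Set.sdiff_subset) hc rfl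
      exact ⟨Y, hY.trans Set.sdiff_subset, hk⟩

/-- for matroids of rank at most three, branch-width at most three means: no minor that is an excluded minor of rank
three -/
theorem bw_iff_no_minor (h3 : rk M M.E ≤ 3) :
    BwLE M 3 ↔ ∀ N : Matroid α, N.IsMinor M → ¬ (rk N N.E = 3 ∧ ExMinor N) := by
  constructor
  · rintro h N hN ⟨hr, hex⟩
    have hfin : N.Finite := finite_of_minor hN
    have h4 := restr_of_rank M hN (by omega)
    have h5 : rk N N.E ≤ rk M M.E := by
      rw [h4, rk_restrict']
      exact rk_le_rank M _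
    have h6 := (bw_iff_cov M (by omega)).1 h
    refine hex.1 ((bw_iff_cov N hr).2 ?_)
    have h7 : Cov (M.restrict N.E) 3 N.E := cov_restrict M (h6.mono hN.subset)
    rwa [← h4] at h7
  · intro h
    by_contra hc
    have h4 : rk M M.E = 3 := by
      by_contra h5
      exact hc (bw_of_rank_le M (by omega))
    rw [bw_iff_cov M h4] at hc
    obtain ⟨Y, hY, hk⟩ := exists_crit M.ground_finite hc
    have hmin : (M.restrict Y).IsMinor M := by
      refine ⟨∅, M.E \ Y, ?_⟩
      rw [Matroid.contract_empty, Matroid.delete_eq_restrict, Set.sdiff_sdiff_cancel_left hY]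
    have hfin : (M.restrict Y).Finite := finite_of_minor hmin
    have hrk : rk (M.restrict Y) (M.restrict Y).E = 3 := by
      have h5 : rk (M.restrict Y) (M.restrict Y).E = rk M Y := rk_restrict M (subset_refl Y)
      have h6 := rk_le_rank M Y
      by_contra h7
      refine hk.1 ⟨Y, by omega, ?_⟩
      rw [Set.sdiff_self]
      exact (show Cov M 0 (∅ : Set α) from rfl).succ.succ
    refine h _ hmin ⟨hrk, (exMinor_iff _ hrk).2 ⟨fun h5 => hk.1 (cov_of_restrict M (subset_refl Y) h5), fun e he => ?_⟩⟩
    exact cov_restrict M (hk.2 e he)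

end

end Pool.Agent.BW3
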