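import Pool.Agent.Lib_MP_a68485_co.DistinctL
import Pool.Agent.Lib_MP_a68485_co.Check
import Pool.Agent.Lib_MP_a68485_co.Main
import Pool.Agent.Lib_MP_a68485_co.Lists

/-!
# MP_a68485_co, pieces D and H: the 87 systems give pairwise non-isomorphic excluded minors
-/

set_option autoImplicit false

namespace Pool.Agent.BW3

/-! ### the lists -/

theorem len8 : list8.length = 6 := by decide +kernel

theorem len9 : list9.length = 61 := by decide +kernel

theorem len10 : list10.length = 19 := by decide +kernel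

theorem lt8 : ∀ P ∈ list8, ∀ m ∈ P, m < 2 ^ 8 := by decide +kernel

theorem lt9 : ∀ P ∈ list9, ∀ m ∈ P, m < 2 ^ 9 := by decide +kernel

theorem lt10 : ∀ P ∈ list10, ∀ m ∈ P, m < 2 ^ 10 := by decide +kernel

theorem inv8 : (list8.map (inv 8)).Nodup := by decide +kernel

theorem inv9 : (list9.map (inv 9)).Nodup := by decide +kernel

theorem inv10 : (list10.map (inv 10)).Nodup := by decide +kernel

theorem goodB8 : list8.all (goodB 8) = true := by decide +kernel

theorem goodB9 : list9.all (goodB 9) = true := by decide +kernel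

theorem goodB10 : list10.all (goodB 10) = true := by decide +kernel

/-! ### isomorphic matroids have isomorphic systems -/

variable {α : Type*} {M : Matroid α}

theorem card_of_desc {n : ℕ} {P : List ℕ} {f : Fin n → α} (h : Desc M n P f) : M.E.ncard = n := by
  rw [← h.2.1, ← Set.image_univ, Set.ncard_image_of_injective _ h.1, Set.ncard_univ, Nat.card_eq_fintype_card,
    Fintype.card_fin]

theorem line_iff {n : ℕ} {P : List ℕ} (hP : Good n fun A => ∃ m ∈ P, bits n m = A) (A : Finset (Fin n)) :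
    (∃ m ∈ P, bits n m = A) ↔
      3 ≤ A.card ∧ lineRank n P A = 2 ∧ ∀ i, i ∉ A → lineRank n P (insert i A) = 3 := by
  constructor
  · rintro ⟨m, hm, rfl⟩
    have h1 : 3 ≤ (bits n m).card := by
      have := hP.card _ ⟨m, hm, rfl⟩
      omega
    refine ⟨h1, ?_, ?_⟩
    · unfold lineRank
      rw [if_neg (by omega), if_pos ⟨m, hm, Finset.Subset.refl _⟩]
    · intro i hi
      have h2 : (insert i (bits n m)).card = (bits n m).card + 1 := Finset.card_insert_of_notMem hi
      unfold lineRank
      rw [if_neg (by omega), if_neg]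
      rintro ⟨l, hl, hsub⟩
      have h3 : bits n m ⊆ bits n l := (Finset.subset_insert _ _).trans hsub
      have h4 : bits n m ≠ bits n l := by
        intro h5
        apply hi
        rw [h5]
        exact hsub (Finset.mem_insert_self _ _)
      have h5 := hP.meet _ _ ⟨m, hm, rfl⟩ ⟨l, hl, rfl⟩ h4
      rw [Finset.inter_eq_left.2 h3] at h5
      omega
  · rintro ⟨h1, h2, h3⟩
    unfold lineRank at h2
    rw [if_neg (by omega)] at h2
    by_cases h4 : ∃ m ∈ P, A ⊆ bits n m
    swap
    · rw [if_neg h4] at h2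
      omega
    obtain ⟨m, hm, hsub⟩ := h4
    refine ⟨m, hm, ?_⟩
    by_contra hne
    obtain ⟨i, hi, hiA⟩ : ∃ i ∈ bits n m, i ∉ A := by
      by_contra hc
      push Not at hc
      exact hne (Finset.Subset.antisymm hc hsub)
    have h5 := h3 i hiA
    have h6 : (insert i A).card = A.card + 1 := Finset.card_insert_of_notMem hiA
    unfold lineRank at h5
    rw [if_neg (by omega), if_pos ⟨m, hm, Finset.insert_subset hi hsub⟩] at h5
    omega

theorem iso_of_desc {n : ℕ} {P Q : List ℕ} (hP : Good n fun A => ∃ m ∈ P, bits n m = A)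
    (hQ : Good n fun A => ∃ m ∈ Q, bits n m = A) {f g : Fin n → α} (hf : Desc M n P f) (hg : Desc M n Q g) :
    IsoSys n P Q := by
  let σ : Equiv.Perm (Fin n) := (Equiv.ofInjective g hg.1).trans
    ((Equiv.setCongr (hg.2.1.trans hf.2.1.symm)).trans (Equiv.ofInjective f hf.1).symm)
  have hσ : ∀ i, f (σ i) = g i := by
    intro i
    simp [σ, Equiv.apply_ofInjective_symm]
  have hrank : ∀ A : Finset (Fin n), lineRank n P (A.map σ.toEmbedding) = lineRank n Q A := by
    intro A
    rw [← hf.2.2, ← hg.2.2]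
    congr 1
    ext z
    simp only [Finset.coe_map, Equiv.coe_toEmbedding, Set.mem_image, Finset.mem_coe]
    constructor
    · rintro ⟨_, ⟨i, hi, rfl⟩, rfl⟩
      exact ⟨i, hi, (hσ i).symm⟩
    · rintro ⟨i, hi, rfl⟩
      exact ⟨σ i, ⟨i, hi, rfl⟩, hσ i⟩
  refine ⟨σ, fun A => ?_⟩
  rw [line_iff hP, line_iff hQ, Finset.card_map, hrank]
  refine and_congr_right fun _ => and_congr_right fun _ => ?_
  constructor
  · intro h i hi
    have h1 : σ i ∉ A.map σ.toEmbedding := by
      rw [Finset.mem_map_equiv, Equiv.symm_apply_apply]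
      exact hi
    have h2 := h _ h1
    have h3 : insert (σ i) (A.map σ.toEmbedding) = (insert i A).map σ.toEmbedding := by
      rw [Finset.map_insert]
      rfl
    rw [h3, hrank] at h2
    exact h2
  · intro h j hj
    have h1 : σ.symm j ∉ A := by
      intro h2
      apply hj
      rw [Finset.mem_map_equiv]
      exact h2
    have h2 := h _ h1
    have h3 : insert j (A.map σ.toEmbedding) = (insert (σ.symm j) A).map σ.toEmbedding := by
      rw [Finset.map_insert, Equiv.coe_toEmbedding, Equiv.apply_symm_apply]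
    rw [h3, hrank]
    exact h2

theorem inv_of_iso {n : ℕ} {P Q : List ℕ} (hP : ∀ m ∈ P, m < 2 ^ n) (hQ : ∀ m ∈ Q, m < 2 ^ n)
    (h : IsoSys n P Q) : inv n P = inv n Q := by
  by_contra hne
  exact distinct n P Q hP hQ hne h

/-! ### all the systems -/

theorem mem_allSys (s : ℕ × List ℕ) : s ∈ allSys list8 list9 list10 ↔
    s = (7, []) ∨ (∃ P ∈ list8, s = (8, P)) ∨ (∃ P ∈ list9, s = (9, P)) ∨ ∃ P ∈ list10, s = (10, P) := by
  unfold allSys
  simp only [List.mem_append, List.mem_singleton, List.mem_map, or_assoc, eq_comm (b := s)]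

theorem good_all : ∀ s ∈ allSys list8 list9 list10, Good s.1 fun A => ∃ m ∈ s.2, bits s.1 m = A := by
  intro s hs
  rcases (mem_allSys s).1 hs with rfl | ⟨P, hP, rfl⟩ | ⟨P, hP, rfl⟩ | ⟨P, hP, rfl⟩
  · exact good7
  · exact good_of_all 8 list8 goodB8 P hP
  · exact good_of_all 9 list9 goodB9 P hP
  · exact good_of_all 10 list10 goodB10 P hP

theorem systems_length : (allSys list8 list9 list10).length = 87 := by
  unfold allSys
  simp only [List.length_append, List.length_map, len8, len9, len10, List.length_cons, List.length_nil]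

/-- different systems give non-isomorphic matroids: no matroid is described by two of them -/
theorem systems_unique (s t : ℕ × List ℕ) (hs : s ∈ allSys list8 list9 list10)
    (ht : t ∈ allSys list8 list9 list10) (M : Matroid α) (f : Fin s.1 → α) (g : Fin t.1 → α)
    (hf : Desc M s.1 s.2 f) (hg : Desc M t.1 t.2 g) : s = t := by
  have h1 : s.1 = t.1 := by rw [← card_of_desc hf, card_of_desc hg]
  have hgs := good_all s hs
  have hgt := good_all t ht
  have key : ∀ (n : ℕ) (L : List (List ℕ)) (_ : ∀ P ∈ L, ∀ m ∈ P, m < 2 ^ n) (_ : (L.map (inv n)).Nodup)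
      (P Q : List ℕ) (_ : P ∈ L) (_ : Q ∈ L) (_ : Good n fun A => ∃ m ∈ P, bits n m = A)
      (_ : Good n fun A => ∃ m ∈ Q, bits n m = A) (f g : Fin n → α) (_ : Desc M n P f) (_ : Desc M n Q g), P = Q := by
    intro n L hlt hnd P Q hP hQ gP gQ f g hf hg
    have h2 := inv_of_iso (hlt P hP) (hlt Q hQ) (iso_of_desc gP gQ hf hg)
    exact List.inj_on_of_nodup_map hnd hP hQ h2
  rcases (mem_allSys s).1 hs with rfl | ⟨P, hP, rfl⟩ | ⟨P, hP, rfl⟩ | ⟨P, hP, rfl⟩ <;>
    rcases (mem_allSys t).1 ht with rfl | ⟨Q, hQ, rfl⟩ | ⟨Q, hQ, rfl⟩ | ⟨Q, hQ, rfl⟩ <;>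
    first
    | rfl
    | (exfalso; simp at h1; done)
    | rw [key 8 list8 lt8 inv8 P Q hP hQ hgs hgt f g hf hg]
    | rw [key 9 list9 lt9 inv9 P Q hP hQ hgs hgt f g hf hg]
    | rw [key 10 list10 lt10 inv10 P Q hP hQ hgs hgt f g hf hg]

end Pool.Agent.BW3
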