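import Pool.Agent.Lib_MP_a68485_co.Comb4

/-!
# MP_a68485_co: the critical systems of four-element sets for eight elements, rank four
-/

set_option autoImplicit false

namespace Pool.Agent.BW3

/-- the listed systems, `b = false` -/
def listS : List (List ℕ) := [[212, 51, 15], [197, 60, 51, 15], [150, 85, 51, 15], [154, 85, 51, 15], [172, 85, 51,
  15], [232, 85, 51, 15], [172, 92, 51, 15], [180, 92, 51, 15], [225, 92, 51, 15], [232, 212, 51, 15], [150, 85, 60,
  51, 15], [154, 85, 60, 51, 15], [198, 85, 60, 51, 15], [202, 85, 60, 51, 15], [202, 197, 60, 51, 15], [210, 197, 60,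
  51, 15], [154, 105, 85, 51, 15], [150, 106, 85, 51, 15], [153, 106, 85, 51, 15], [156, 106, 85, 51, 15], [195, 106,
  85, 51, 15], [198, 106, 85, 51, 15], [216, 106, 85, 51, 15], [232, 150, 85, 51, 15], [226, 153, 85, 51, 15], [225,
  154, 85, 51, 15], [228, 154, 85, 51, 15], [216, 169, 85, 51, 15], [202, 172, 85, 51, 15], [216, 172, 85, 51, 15],
  [195, 172, 92, 51, 15], [209, 172, 92, 51, 15], [150, 90, 85, 60, 51, 15], [166, 90, 85, 60, 51, 15], [225, 90, 85,
  60, 51, 15], [150, 106, 85, 60, 51, 15], [198, 106, 85, 60, 51, 15], [201, 150, 85, 60, 51, 15], [216, 150, 85, 60,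
  51, 15], [232, 150, 85, 60, 51, 15], [198, 154, 85, 60, 51, 15], [225, 154, 85, 60, 51, 15], [201, 198, 85, 60, 51,
  15], [216, 198, 85, 60, 51, 15], [232, 198, 85, 60, 51, 15], [232, 210, 197, 60, 51, 15], [166, 153, 105, 85, 51,
  15], [172, 153, 105, 85, 51, 15], [166, 154, 105, 85, 51, 15], [172, 154, 105, 85, 51, 15], [228, 154, 105, 85, 51,
  15], [169, 150, 106, 85, 51, 15], [172, 150, 106, 85, 51, 15], [216, 150, 106, 85, 51, 15], [166, 153, 106, 85, 51,
  15], [172, 153, 106, 85, 51, 15], [180, 153, 106, 85, 51, 15], [210, 153, 106, 85, 51, 15], [225, 153, 106, 85, 51,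
  15], [228, 153, 106, 85, 51, 15], [210, 156, 106, 85, 51, 15], [225, 156, 106, 85, 51, 15], [228, 156, 106, 85, 51,
  15], [225, 198, 106, 85, 51, 15], [228, 216, 106, 85, 51, 15], [226, 216, 172, 85, 51, 15], [150, 102, 90, 85, 60,
  51, 15], [169, 102, 90, 85, 60, 51, 15], [153, 150, 90, 85, 60, 51, 15], [169, 150, 90, 85, 60, 51, 15], [225, 150,
  90, 85, 60, 51, 15], [226, 150, 90, 85, 60, 51, 15], [169, 166, 90, 85, 60, 51, 15], [201, 166, 90, 85, 60, 51, 15],
  [225, 166, 90, 85, 60, 51, 15], [169, 150, 106, 85, 60, 51, 15], [201, 150, 106, 85, 60, 51, 15], [216, 150, 106,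
  85, 60, 51, 15], [201, 198, 106, 85, 60, 51, 15], [216, 198, 106, 85, 60, 51, 15], [226, 201, 150, 85, 60, 51, 15],
  [228, 201, 150, 85, 60, 51, 15], [228, 216, 150, 85, 60, 51, 15], [225, 198, 154, 85, 60, 51, 15], [225, 216, 198,
  85, 60, 51, 15], [198, 165, 153, 105, 85, 51, 15], [202, 166, 153, 105, 85, 51, 15], [202, 172, 153, 105, 85, 51,
  15], [210, 172, 153, 105, 85, 51, 15], [198, 172, 154, 105, 85, 51, 15], [226, 172, 154, 105, 85, 51, 15], [216,
  169, 150, 106, 85, 51, 15], [216, 172, 150, 106, 85, 51, 15], [210, 166, 153, 106, 85, 51, 15], [210, 172, 153, 106,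
  85, 51, 15], [225, 172, 153, 106, 85, 51, 15], [169, 150, 102, 90, 85, 60, 51, 15], [225, 153, 150, 90, 85, 60, 51,
  15], [226, 169, 150, 90, 85, 60, 51, 15], [216, 169, 150, 106, 85, 60, 51, 15], [228, 201, 150, 106, 85, 60, 51,
  15], [228, 216, 150, 106, 85, 60, 51, 15], [225, 216, 198, 106, 85, 60, 51, 15], [228, 216, 169, 150, 106, 85, 51,
  15], [225, 216, 172, 150, 106, 85, 51, 15], [228, 216, 169, 150, 106, 85, 60, 51, 15]]

/-- the listed systems, `b = true` -/
def listL : List (List ℕ) := [[90, 57], [202, 57], [108, 90, 57], [156, 90, 57], [170, 90, 57], [172, 90, 57], [225,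
  90, 57], [228, 90, 57], [156, 108, 90, 57], [178, 108, 90, 57], [225, 156, 90, 57], [201, 170, 90, 57], [204, 170,
  90, 57], [209, 170, 90, 57], [212, 170, 90, 57], [212, 172, 90, 57], [170, 156, 108, 90, 57], [178, 156, 108, 90,
  57], [225, 156, 108, 90, 57], [209, 178, 108, 90, 57], [212, 178, 108, 90, 57], [228, 209, 170, 90, 57], [201, 170,
  156, 108, 90, 57], [209, 170, 156, 108, 90, 57], [225, 178, 156, 108, 90, 57], [225, 212, 178, 108, 90, 57]]

end Pool.Agent.BW3
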