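import Pool.Agent.Lib_MP_a68485_co.Distinct4
import Pool.Agent.Lib_MP_a68485_co.Lists4
import Pool.Agent.Lib_MP_a68485_co.Base

/-!
# MP_a68485_co: the systems in `listS` and `listL` give pairwise non-isomorphic matroids
-/

set_option autoImplicit false

namespace Pool.Agent.BW3

theorem lenS : listS.length = 106 := by decide +kernel

theorem lenL : listL.length = 26 := by decide +kernel

theorem ltS : ∀ P ∈ listS, ∀ m ∈ P, m < 256 := by decide +kernel

theorem ltL : ∀ P ∈ listL, ∀ m ∈ P, m < 256 := by decide +kernel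

theorem goodBS : listS.all (goodB4 false) = true := by decide +kernel

theorem goodBL : listL.all (goodB4 true) = true := by decide +kernel

theorem invS : (listS.map fun P => inv4 8 (ext4 false P)).Nodup := by decide +kernel

theorem invL : (listL.map fun P => inv4 8 (ext4 true P)).Nodup := by decide +kernel

/-- the list for `b = false`, `b = true` -/
def listSL (b : Bool) : List (List ℕ) := bif b then listL else listS

theorem ltSL (b : Bool) : ∀ P ∈ listSL b, ∀ m ∈ P, m < 256 := by
  cases b
  · exact ltS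
  · exact ltL

theorem good_all4 (b : Bool) : ∀ P ∈ listSL b, Good4 b fun A => ∃ m ∈ P, bits 8 m = A := by
  intro P hP
  apply good4_of_check
  cases b
  · exact List.all_eq_true.1 goodBS P hP
  · exact List.all_eq_true.1 goodBL P hP

theorem inv_inj4 (b : Bool) (P Q : List ℕ) (hP : P ∈ listSL b) (hQ : Q ∈ listSL b)
    (h : inv4 8 (ext4 b P) = inv4 8 (ext4 b Q)) : P = Q := by
  cases b
  · exact List.inj_on_of_nodup_map invS hP hQ h
  · exact List.inj_on_of_nodup_map invL hP hQ h

/-- no matroid is described by two of the systems -/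
theorem unique4 {α : Type*} {M : Matroid α} {b c : Bool} {P Q : List ℕ} (hP : P ∈ listSL b) (hQ : Q ∈ listSL c)
    {f g : Fin 8 → α} (hf : Function.Injective f) (hfr : Set.range f = M.E)
    (hfk : ∀ A : Finset (Fin 8), rk M (f '' (A : Set (Fin 8))) = rank4 b P A)
    (hg : Function.Injective g) (hgr : Set.range g = M.E)
    (hgk : ∀ A : Finset (Fin 8), rk M (g '' (A : Set (Fin 8))) = rank4 c Q A) : b = c ∧ P = Q := by
  let σ : Equiv.Perm (Fin 8) := (Equiv.ofInjective g hg).trans
    ((Equiv.setCongr (hgr.trans hfr.symm)).trans (Equiv.ofInjective f hf).symm)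
  have hσ : ∀ i, f (σ i) = g i := by
    intro i
    simp [σ, Equiv.apply_ofInjective_symm]
  have hrank : ∀ A : Finset (Fin 8), rank4 b P (A.map σ.toEmbedding) = rank4 c Q A := by
    intro A
    rw [← hfk, ← hgk]
    congr 1
    ext z
    simp only [Finset.coe_map, Equiv.coe_toEmbedding, Set.mem_image, Finset.mem_coe]
    constructor
    · rintro ⟨_, ⟨i, hi, rfl⟩, rfl⟩
      exact ⟨i, hi, (hσ i).symm⟩
    · rintro ⟨i, hi, rfl⟩
      exact ⟨σ i, ⟨i, hi, rfl⟩, hσ i⟩
  obtain ⟨h1, h2⟩ := inv4_of_rank (good_all4 b P hP) (good_all4 c Q hQ) (ltSL b P hP) (ltSL c Q hQ) σ hrank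
  subst h1
  exact ⟨rfl, inv_inj4 b P Q hP hQ h2⟩

end Pool.Agent.BW3
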