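import Pool.Agent.Lib_MP_a68485_co.Transfer4
import Pool.Agent.Lib_MP_a68485_co.Exist
import Pool.Agent.Lib_MP_a68485_co.Exist4
import Pool.Agent.Lib_MP_a68485_co.Unique
import Pool.Agent.Lib_MP_a68485_co.Unique4
import Pool.Agent.Lib_MP_a68485_co.Data8

/-!
# MP_a68485_co: all excluded minors with eight elements (assembly)
-/

set_option autoImplicit false

namespace Pool.Agent.BW3

open Set

variable {α : Type*}

namespace Eight

theorem claim_fst {n : ℕ} {Ls : List (List ℕ)} {L : List (List ℕ × List ℕ)} (h : ∀ p ∈ L, Claim n Ls p.1) :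
    ∀ P ∈ L.map Prod.fst, Claim n Ls P := by
  intro P hP
  obtain ⟨p, hp, rfl⟩ := List.mem_map.1 hP
  exact h p hp

theorem claim_nil {n : ℕ} {Ls : List (List ℕ)} : ∀ P ∈ ([] : List (List ℕ)), Claim n Ls P := by
  intro P hP
  simp at hP

theorem class8 (T : Finset (Fin 8) → Prop) (hT : Good 8 T) : Listed 8 list8 T := by
  have h7 := level_sound _ _ _ claim_nil ok8_7
  have h6 := level_sound _ _ _ (claim_fst h7) ok8_6
  have h5 := level_sound _ _ _ (claim_fst h6) ok8_5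
  have h4 := level_sound _ _ _ (claim_fst h5) ok8_4
  have h3 := level_sound _ _ _ (claim_fst h4) ok8_3
  have h2 := level_sound _ _ _ (claim_fst h3) ok8_2
  have h1 := level_sound _ _ _ (claim_fst h2) ok8_1
  have h0 := level_sound _ _ _ (claim_fst h1) ok8_0
  exact h0 (_, _) (List.mem_cons_self ..) T hT (by simp)

end Eight

/-- `M` is isomorphic to the matroid with eight elements given by the code `s`: kind 0, rank three with the long lines
`s.2`; kind 1, dual of such; kinds 2 and 3, rank four with rank function `rank4`, without and with the three-point line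
`{0, 1, 2}`; kind 4, dual of kind 3 -/
def Is8 (M : Matroid α) (s : ℕ × List ℕ) : Prop :=
  (s.1 = 0 ∧ ∃ f : Fin 8 → α, Desc M 8 s.2 f) ∨ (s.1 = 1 ∧ ∃ f : Fin 8 → α, Desc M.dual 8 s.2 f) ∨
    (s.1 = 2 ∧ ∃ f : Fin 8 → α, Desc4 M false s.2 f) ∨ (s.1 = 3 ∧ ∃ f : Fin 8 → α, Desc4 M true s.2 f) ∨
    (s.1 = 4 ∧ ∃ f : Fin 8 → α, Desc4 M.dual true s.2 f)

/-- the codes of the 170 excluded minors with eight elements: 6 of rank three, 6 of rank five, 106 + 26 + 26 of rank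
four -/
def list170 : List (ℕ × List ℕ) :=
  list8.map (fun P => (0, P)) ++ list8.map (fun P => (1, P)) ++ listS.map (fun P => (2, P)) ++
    listL.map (fun P => (3, P)) ++ listL.map (fun P => (4, P))

theorem mem_list170 (s : ℕ × List ℕ) : s ∈ list170 ↔ (s.1 = 0 ∧ s.2 ∈ list8) ∨ (s.1 = 1 ∧ s.2 ∈ list8) ∨
    (s.1 = 2 ∧ s.2 ∈ listS) ∨ (s.1 = 3 ∧ s.2 ∈ listL) ∨ (s.1 = 4 ∧ s.2 ∈ listL) := by
  obtain ⟨k, P⟩ := s
  unfold list170
  simp only [List.mem_append, List.mem_map, Prod.mk.injEq]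
  constructor
  · rintro ((((⟨Q, hQ, rfl, rfl⟩ | ⟨Q, hQ, rfl, rfl⟩) | ⟨Q, hQ, rfl, rfl⟩) | ⟨Q, hQ, rfl, rfl⟩) | ⟨Q, hQ, rfl, rfl⟩)
    · exact Or.inl ⟨rfl, hQ⟩
    · exact Or.inr (Or.inl ⟨rfl, hQ⟩)
    · exact Or.inr (Or.inr (Or.inl ⟨rfl, hQ⟩))
    · exact Or.inr (Or.inr (Or.inr (Or.inl ⟨rfl, hQ⟩)))
    · exact Or.inr (Or.inr (Or.inr (Or.inr ⟨rfl, hQ⟩)))
  · rintro (⟨rfl, hQ⟩ | ⟨rfl, hQ⟩ | ⟨rfl, hQ⟩ | ⟨rfl, hQ⟩ | ⟨rfl, hQ⟩)
    · exact Or.inl (Or.inl (Or.inl (Or.inl ⟨P, hQ, rfl, rfl⟩)))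
    · exact Or.inl (Or.inl (Or.inl (Or.inr ⟨P, hQ, rfl, rfl⟩)))
    · exact Or.inl (Or.inl (Or.inr ⟨P, hQ, rfl, rfl⟩))
    · exact Or.inl (Or.inr ⟨P, hQ, rfl, rfl⟩)
    · exact Or.inr ⟨P, hQ, rfl, rfl⟩

theorem list170_nodup : list170.Nodup := by decide +kernel

theorem list170_length : list170.length = 170 := by decide +kernel

theorem good8_all : ∀ P ∈ list8, Good 8 fun A => ∃ m ∈ P, bits 8 m = A := good_of_all 8 list8 goodB8

theorem goodS_all : ∀ P ∈ listS, Good4 false fun A => ∃ m ∈ P, bits 8 m = A := good_all4 false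

theorem goodL_all : ∀ P ∈ listL, Good4 true fun A => ∃ m ∈ P, bits 8 m = A := good_all4 true

section

variable {M : Matroid α} [M.Finite]

theorem rank3_eight (h8 : M.E.ncard = 8) (h3 : rk M M.E = 3) (h : ExMinor M) :
    ∃ P ∈ list8, ∃ f : Fin 8 → α, Desc M 8 P f := by
  have hk := (exMinor_iff M h3).1 h
  obtain ⟨f, hf, hr⟩ := exists_label (M := M) h8
  exact desc_of_listed h3 (hk.simp (by norm_num)) (by norm_num) hf hr (Eight.class8 _ (good_TL hf hr hk))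

theorem eight_iff (h8 : M.E.ncard = 8) : ExMinor M ↔ ∃ s ∈ list170, Is8 M s := by
  constructor
  · intro h
    obtain ⟨h1, h2⟩ := rank_range M h
    have h3 : rk M M.E = 3 ∨ rk M M.E = 4 ∨ rk M M.E = 5 := by omega
    rcases h3 with h3 | h3 | h3
    · obtain ⟨P, hP, f, hd⟩ := rank3_eight h8 h3 h
      exact ⟨(0, P), (mem_list170 _).2 (Or.inl ⟨rfl, hP⟩), Or.inl ⟨rfl, f, hd⟩⟩
    · rcases class_rank4 h8 h3 h with ⟨P, hP, f, hd⟩ | ⟨P, hP, f, hd⟩ | ⟨P, hP, f, hd⟩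
      · exact ⟨(2, P), (mem_list170 _).2 (Or.inr (Or.inr (Or.inl ⟨rfl, hP⟩))), Or.inr (Or.inr (Or.inl ⟨rfl, f, hd⟩))⟩
      · exact ⟨(3, P), (mem_list170 _).2 (Or.inr (Or.inr (Or.inr (Or.inl ⟨rfl, hP⟩)))),
          Or.inr (Or.inr (Or.inr (Or.inl ⟨rfl, f, hd⟩)))⟩
      · exact ⟨(4, P), (mem_list170 _).2 (Or.inr (Or.inr (Or.inr (Or.inr ⟨rfl, hP⟩)))),
          Or.inr (Or.inr (Or.inr (Or.inr ⟨rfl, f, hd⟩)))⟩
    · have h4 := rk_dual_ground M
      obtain ⟨P, hP, f, hd⟩ := rank3_eight (M := M.dual) h8 (by rw [Matroid.dual_ground]; omega) h.dual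
      exact ⟨(1, P), (mem_list170 _).2 (Or.inr (Or.inl ⟨rfl, hP⟩)), Or.inr (Or.inl ⟨rfl, f, hd⟩)⟩
  · rintro ⟨s, hs, hi⟩
    rw [mem_list170] at hs
    rcases hi with ⟨hk, f, hd⟩ | ⟨hk, f, hd⟩ | ⟨hk, f, hd⟩ | ⟨hk, f, hd⟩ | ⟨hk, f, hd⟩
    · have hP : s.2 ∈ list8 := by
        rcases hs with h | h | h | h | h
        · exact h.2
        all_goals exact absurd h.1 (by omega)
      exact (exMinor_of_desc hd (good8_all _ hP)).2
    · have hP : s.2 ∈ list8 := by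
        rcases hs with h | h | h | h | h
        · exact absurd h.1 (by omega)
        · exact h.2
        all_goals exact absurd h.1 (by omega)
      exact (ExMinor_dual_iff M).1 (exMinor_of_desc hd (good8_all _ hP)).2
    · have hP : s.2 ∈ listS := by
        rcases hs with h | h | h | h | h
        · exact absurd h.1 (by omega)
        · exact absurd h.1 (by omega)
        · exact h.2
        all_goals exact absurd h.1 (by omega)
      exact (exMinor_of_desc4 hd (goodS_all _ hP)).2.2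
    · have hP : s.2 ∈ listL := by
        rcases hs with h | h | h | h | h
        · exact absurd h.1 (by omega)
        · exact absurd h.1 (by omega)
        · exact absurd h.1 (by omega)
        · exact h.2
        · exact absurd h.1 (by omega)
      exact (exMinor_of_desc4 hd (goodL_all _ hP)).2.2
    · have hP : s.2 ∈ listL := by
        rcases hs with h | h | h | h | h
        · exact absurd h.1 (by omega)
        · exact absurd h.1 (by omega)
        · exact absurd h.1 (by omega)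
        · exact absurd h.1 (by omega)
        · exact h.2
      exact (ExMinor_dual_iff M).1 (exMinor_of_desc4 hd (goodL_all _ hP)).2.2

/-- at most seven elements -/
theorem seven_iff (h7 : M.E.ncard ≤ 7) :
    ExMinor M ↔ (∃ f : Fin 7 → α, Desc M 7 [] f) ∨ ∃ f : Fin 7 → α, Desc M.dual 7 [] f := by
  have key : ∀ (N : Matroid α) [N.Finite], N.E.ncard ≤ 7 → rk N N.E = 3 → ExMinor N →
      ∃ f : Fin 7 → α, Desc N 7 [] f := by
    intro N _ hN h3 h
    have hk := (exMinor_iff N h3).1 h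
    have h2 := hk.lt_card N.ground_finite
    have h8 : N.E.ncard = 7 := by omega
    obtain ⟨f, hf, hr⟩ := exists_label (M := N) h8
    obtain ⟨P, hP, g, hd⟩ := desc_of_listed h3 (hk.simp (by norm_num)) (by norm_num) hf hr
      (listed_seven _ (good_TL hf hr hk))
    have : P = [] := by simpa using hP
    subst this
    exact ⟨g, hd⟩
  have hgood : Good 7 fun A => ∃ m ∈ ([] : List ℕ), bits 7 m = A :=
    good_all (7, []) ((mem_allSys _).2 (Or.inl rfl))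
  constructor
  · intro h
    obtain ⟨h1, h2⟩ := rank_range M h
    have h4 := rk_dual_ground M
    have h3 : rk M M.E = 3 ∨ rk M M.E = 4 := by omega
    rcases h3 with h3 | h3
    · exact Or.inl (key M h7 h3 h)
    · have h5 := h.dual
      have h6 : rk M.dual M.dual.E ≤ 3 := by
        rw [Matroid.dual_ground]
        omega
      obtain ⟨h8, _⟩ := rank_range M.dual h5
      exact Or.inr (key M.dual h7 (by omega) h5)
  · rintro (⟨f, hd⟩ | ⟨f, hd⟩)
    · exact (exMinor_of_desc hd hgood).2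
    · exact (ExMinor_dual_iff M).1 (exMinor_of_desc hd hgood).2

theorem desc4_ground {b : Bool} {P : List ℕ} {f : Fin 8 → α} (hd : Desc4 M b P f) :
    M.E.ncard = 8 ∧ rk M M.E = 4 := by
  obtain ⟨hf, hr, hrk⟩ := hd
  have huniv : f '' ((Finset.univ : Finset (Fin 8)) : Set (Fin 8)) = M.E := by
    rw [Finset.coe_univ, Set.image_univ, hr]
  refine ⟨by rw [← huniv, ncard_image8 hf, Finset.card_univ, Fintype.card_fin], ?_⟩
  rw [← huniv, hrk]
  unfold rank4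
  rw [Finset.card_univ, Fintype.card_fin, if_neg (by norm_num), if_neg (by norm_num), if_neg (by norm_num)]

/-- a matroid of kind 2 or 3 is not of kind 4 -/
theorem not_both {b : Bool} {P Q : List ℕ} {f g : Fin 8 → α} (hf : Desc4 M b P f) (hg : Desc4 M.dual true Q g) :
    False := by
  obtain ⟨h8, h4⟩ := desc4_ground hf
  obtain ⟨hgi, hgr, hgk⟩ := hg
  have hgr' : Set.range g = M.E := hgr
  have h1 := hgk (bits 8 7)
  have h2 : rank4 true Q (bits 8 7) = 2 := by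
    unfold rank4
    rw [card_bits7]
    simp
  have h3 := rk_dual M (image_subset8 hgr' (bits 8 7))
  rw [h1, h2, h4, ncard_image8 hgi, card_bits7, compl_image hgi hgr'] at h3
  obtain ⟨A, hA⟩ := exists_finset8 hf.2.1 (image_subset8 hgr' (bits 8 7)ᶜ)
  have h5 : A.card = 5 := by
    have h6 := ncard_image8 hf.1 A
    rw [hA, ncard_image8 hgi, card_compl8, card_bits7] at h6
    exact h6.symm
  have h7 := hf.2.2 A
  rw [hA] at h7
  have h8 : rank4 b P A = 4 := by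
    unfold rank4
    rw [h5]
    simp
  omega

theorem eight_unique {s t : ℕ × List ℕ} (hs : s ∈ list170) (ht : t ∈ list170) (h1 : Is8 M s) (h2 : Is8 M t) :
    s = t := by
  rw [mem_list170] at hs ht
  have hg3 : ∀ (N : Matroid α) [N.Finite] (P : List ℕ) (f : Fin 8 → α), P ∈ list8 → Desc N 8 P f →
      rk N N.E = 3 := fun N _ P f hP hd => (exMinor_of_desc hd (good8_all P hP)).1
  have hdg := rk_dual_ground M
  have h34 : ∀ (N : Matroid α) (P Q : List ℕ) (f g : Fin 8 → α), P ∈ list8 → Q ∈ list8 → Desc N 8 P f →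
      Desc N 8 Q g → P = Q := by
    intro N P Q f g hP hQ hf hg
    have := systems_unique (8, P) (8, Q) ((mem_allSys _).2 (by simp [hP])) ((mem_allSys _).2 (by simp [hQ])) N f g hf hg
    simpa using this
  obtain ⟨k, P⟩ := s
  obtain ⟨l, Q⟩ := t
  have m0 : ∀ {k : ℕ} {P : List ℕ}, ((k = 0 ∧ P ∈ list8) ∨ (k = 1 ∧ P ∈ list8) ∨ (k = 2 ∧ P ∈ listS) ∨
      (k = 3 ∧ P ∈ listL) ∨ (k = 4 ∧ P ∈ listL)) → Is8 M (k, P) →
      (k = 0 ∧ P ∈ list8 ∧ rk M M.E = 3 ∧ M.E.ncard = 8 ∧ ∃ f : Fin 8 → α, Desc M 8 P f) ∨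
      (k = 1 ∧ P ∈ list8 ∧ rk M M.E = 5 ∧ M.E.ncard = 8 ∧ ∃ f : Fin 8 → α, Desc M.dual 8 P f) ∨
      (k = 2 ∧ P ∈ listSL false ∧ rk M M.E = 4 ∧ M.E.ncard = 8 ∧ ∃ f : Fin 8 → α, Desc4 M false P f) ∨
      (k = 3 ∧ P ∈ listSL true ∧ rk M M.E = 4 ∧ M.E.ncard = 8 ∧ ∃ f : Fin 8 → α, Desc4 M true P f) ∨
      (k = 4 ∧ P ∈ listSL true ∧ rk M M.E = 4 ∧ M.E.ncard = 8 ∧ ∃ f : Fin 8 → α, Desc4 M.dual true P f) := by
    intro k P hs h
    rcases h with ⟨hk, f, hd⟩ | ⟨hk, f, hd⟩ | ⟨hk, f, hd⟩ | ⟨hk, f, hd⟩ | ⟨hk, f, hd⟩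
    · obtain rfl : k = 0 := hk
      have hP : P ∈ list8 := by simpa using hs
      exact Or.inl ⟨rfl, hP, hg3 M P f hP hd, card_of_desc hd, f, hd⟩
    · obtain rfl : k = 1 := hk
      have hP : P ∈ list8 := by simpa using hs
      have h8 : M.dual.E.ncard = 8 := card_of_desc hd
      have h3 := hg3 M.dual P f hP hd
      rw [Matroid.dual_ground] at h3 h8
      exact Or.inr (Or.inl ⟨rfl, hP, by omega, h8, f, hd⟩)
    · obtain rfl : k = 2 := hk
      have hP : P ∈ listS := by simpa using hs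
      obtain ⟨h8, h4⟩ := desc4_ground hd
      exact Or.inr (Or.inr (Or.inl ⟨rfl, hP, h4, h8, f, hd⟩))
    · obtain rfl : k = 3 := hk
      have hP : P ∈ listL := by simpa using hs
      obtain ⟨h8, h4⟩ := desc4_ground hd
      exact Or.inr (Or.inr (Or.inr (Or.inl ⟨rfl, hP, h4, h8, f, hd⟩)))
    · obtain rfl : k = 4 := hk
      have hP : P ∈ listL := by simpa using hs
      obtain ⟨h8, h4⟩ := desc4_ground hd
      rw [Matroid.dual_ground] at h8 h4
      exact Or.inr (Or.inr (Or.inr (Or.inr ⟨rfl, hP, by omega, h8, f, hd⟩)))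
  rcases m0 hs h1 with ⟨rfl, hP, hr, _, f, hf⟩ | ⟨rfl, hP, hr, _, f, hf⟩ | ⟨rfl, hP, hr, _, f, hf⟩ |
    ⟨rfl, hP, hr, _, f, hf⟩ | ⟨rfl, hP, hr, _, f, hf⟩ <;>
  rcases m0 ht h2 with ⟨rfl, hQ, hr', _, g, hg⟩ | ⟨rfl, hQ, hr', _, g, hg⟩ | ⟨rfl, hQ, hr', _, g, hg⟩ |
    ⟨rfl, hQ, hr', _, g, hg⟩ | ⟨rfl, hQ, hr', _, g, hg⟩ <;>
  first
  | (exfalso; omega)
  | exact congrArg (fun R => (0, R)) (h34 M P Q f g hP hQ hf hg)
  | exact congrArg (fun R => (1, R)) (h34 M.dual P Q f g hP hQ hf hg)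
  | exact congrArg (fun R => (2, R)) (unique4 hP hQ hf.1 hf.2.1 hf.2.2 hg.1 hg.2.1 hg.2.2).2
  | exact congrArg (fun R => (3, R)) (unique4 hP hQ hf.1 hf.2.1 hf.2.2 hg.1 hg.2.1 hg.2.2).2
  | exact congrArg (fun R => (4, R)) (unique4 hP hQ hf.1 hf.2.1 hf.2.2 hg.1 hg.2.1 hg.2.2).2
  | exact absurd (unique4 hP hQ hf.1 hf.2.1 hf.2.2 hg.1 hg.2.1 hg.2.2).1 (by simp)
  | exact (not_both hf hg).elim
  | exact (not_both hg hf).elim

end

theorem eight_exists {s : ℕ × List ℕ} (hs : s ∈ list170) : ∃ M : Matroid (Fin 8), M.E = Set.univ ∧ Is8 M s := by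
  have e3 : ∀ P ∈ list8, ∃ M : Matroid (Fin 8), M.E = Set.univ ∧ Desc M 8 P id := by
    intro P hP
    have hg := good8_all P hP
    obtain ⟨M, hE, hrk⟩ := exists_matroid 8 P fun m hm l hl hne => hg.meet _ _ ⟨m, hm, rfl⟩ ⟨l, hl, rfl⟩ hne
    refine ⟨M, hE, Function.injective_id, by rw [Set.range_id, hE], fun A => ?_⟩
    rw [Set.image_id]
    exact hrk A
  have e4 : ∀ (b : Bool) (P : List ℕ), (Good4 b fun A => ∃ m ∈ P, bits 8 m = A) →
      ∃ M : Matroid (Fin 8), M.E = Set.univ ∧ Desc4 M b P id := by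
    intro b P hg
    obtain ⟨M, hE, hrk⟩ := exists_matroid4 b P hg
    refine ⟨M, hE, Function.injective_id, by rw [Set.range_id, hE], fun A => ?_⟩
    rw [Set.image_id]
    exact hrk A
  rw [mem_list170] at hs
  rcases hs with ⟨hk, hP⟩ | ⟨hk, hP⟩ | ⟨hk, hP⟩ | ⟨hk, hP⟩ | ⟨hk, hP⟩
  · obtain ⟨M, hE, hd⟩ := e3 _ hP
    exact ⟨M, hE, Or.inl ⟨hk, id, hd⟩⟩
  · obtain ⟨M, hE, hd⟩ := e3 _ hP
    refine ⟨M.dual, hE, Or.inr (Or.inl ⟨hk, id, ?_⟩)⟩
    rw [Matroid.dual_dual]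
    exact hd
  · obtain ⟨M, hE, hd⟩ := e4 false _ (goodS_all _ hP)
    exact ⟨M, hE, Or.inr (Or.inr (Or.inl ⟨hk, id, hd⟩))⟩
  · obtain ⟨M, hE, hd⟩ := e4 true _ (goodL_all _ hP)
    exact ⟨M, hE, Or.inr (Or.inr (Or.inr (Or.inl ⟨hk, id, hd⟩)))⟩
  · obtain ⟨M, hE, hd⟩ := e4 true _ (goodL_all _ hP)
    refine ⟨M.dual, hE, Or.inr (Or.inr (Or.inr (Or.inr ⟨hk, id, ?_⟩)))⟩
    rw [Matroid.dual_dual]
    exact hd

end Pool.Agent.BW3
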