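import Pool.Agent.Lib_MP_a68485_co.Base

/-!
# MP_a68485_co: the sparse paving matroid with given circuit-hyperplanes
-/

set_option autoImplicit false

namespace Pool.Agent.BW3

/-- the independent sets of the sparse paving matroid of rank `r` with the circuit-hyperplanes `N` -/
def SpInd {n : ℕ} (r : ℕ) (N : Finset (Fin n) → Prop) (I : Finset (Fin n)) : Prop :=
  I.card ≤ r ∧ ¬ N I

theorem sp_two {n r : ℕ} {N : Finset (Fin n) → Prop} (hc : ∀ A, N A → A.card = r)
    (hm : ∀ A B, N A → N B → A ≠ B → (A ∩ B).card + 2 ≤ r)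
    {I : Finset (Fin n)} (h3 : I.card + 1 ≤ r) {e f : Fin n} (he : e ∉ I) (hf : f ∉ I)
    (hef : e ≠ f) : SpInd r N (insert e I) ∨ SpInd r N (insert f I) := by
  by_contra hcon
  push Not at hcon
  obtain ⟨h1, h2⟩ := hcon
  have hce : (insert e I).card = I.card + 1 := Finset.card_insert_of_notMem he
  have hcf : (insert f I).card = I.card + 1 := Finset.card_insert_of_notMem hf
  have hN : N (insert e I) := by
    by_contra hn
    exact h1 ⟨by omega, hn⟩
  have hN' : N (insert f I) := by
    by_contra hn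
    exact h2 ⟨by omega, hn⟩
  have h4 := hc _ hN
  have hne : insert e I ≠ insert f I := by
    intro heq
    have : e ∈ insert f I := heq ▸ Finset.mem_insert_self e I
    rcases Finset.mem_insert.1 this with h6 | h6
    · exact hef h6
    · exact he h6
  have h5 := hm _ _ hN hN' hne
  have h6 : I ⊆ insert e I ∩ insert f I :=
    Finset.subset_inter (Finset.subset_insert _ _) (Finset.subset_insert _ _)
  have h7 := Finset.card_le_card h6
  omega

theorem sp_aug {n r : ℕ} {N : Finset (Fin n) → Prop} (hc : ∀ A, N A → A.card = r)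
    (hm : ∀ A B, N A → N B → A ≠ B → (A ∩ B).card + 2 ≤ r)
    {I J : Finset (Fin n)} (hJ : SpInd r N J) (hlt : I.card < J.card) :
    ∃ e ∈ J, e ∉ I ∧ SpInd r N (insert e I) := by
  have hJ4 := hJ.1
  obtain ⟨e, heJ, heI⟩ := Finset.exists_mem_notMem_of_card_lt_card hlt
  by_cases hs : ∃ f ∈ J, f ∉ I ∧ e ≠ f
  · obtain ⟨f, hfJ, hfI, hef⟩ := hs
    rcases sp_two hc hm (by omega) heI hfI hef with h1 | h1
    · exact ⟨e, heJ, heI, h1⟩
    · exact ⟨f, hfJ, hfI, h1⟩
  · push Not at hs
    refine ⟨e, heJ, heI, ?_⟩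
    have h1 : J ⊆ insert e I := by
      intro f hf
      rw [Finset.mem_insert]
      by_cases hfI : f ∈ I
      · exact Or.inr hfI
      · exact Or.inl (hs f hf hfI).symm
    have h2 : J = insert e I := Finset.eq_of_subset_of_card_le h1 (by
      rw [Finset.card_insert_of_notMem heI]
      omega)
    rw [← h2]
    exact hJ

/-- existence of sparse paving matroids -/
theorem exists_sparse_paving {n r : ℕ} (hr : 1 ≤ r) (N : Finset (Fin n) → Prop)
    (hc : ∀ A, N A → A.card = r) (hm : ∀ A B, N A → N B → A ≠ B → (A ∩ B).card + 2 ≤ r) :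
    ∃ M : Matroid (Fin n), M.E = Set.univ ∧
      (∀ A : Finset (Fin n), A.card < r → rk M (A : Set (Fin n)) = A.card) ∧
      (∀ A : Finset (Fin n), A.card = r → ¬ N A → rk M (A : Set (Fin n)) = r) ∧
      (∀ A : Finset (Fin n), N A → rk M (A : Set (Fin n)) = r - 1) ∧
      (∀ A : Finset (Fin n), r < A.card → rk M (A : Set (Fin n)) = r) := by
  classical
  have hno : ∀ A : Finset (Fin n), A.card ≠ r → ¬ N A := fun A hA hN => hA (hc _ hN)
  have a1 : SpInd r N ∅ := ⟨by simp, hno _ (by rw [Finset.card_empty]; omega)⟩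
  have a2 : ∀ ⦃I J : Finset (Fin n)⦄, SpInd r N J → I ⊆ J → SpInd r N I :=
    fun I J hJ hIJ => ⟨(Finset.card_le_card hIJ).trans hJ.1, fun hN => by
        have h1 := hc _ hN
        have h2 : I = J := Finset.eq_of_subset_of_card_le hIJ (by
          have := hJ.1
          omega)
        exact hJ.2 (h2 ▸ hN)⟩
  have a3 : ∀ ⦃I J : Finset (Fin n)⦄, SpInd r N I → SpInd r N J → I.card < J.card →
      ∃ e ∈ J, e ∉ I ∧ SpInd r N (insert e I) := fun _ _ _ hJ hlt => sp_aug hc hm hJ hlt
  have a4 : ∀ ⦃I : Finset (Fin n)⦄, SpInd r N I → (I : Set (Fin n)) ⊆ Set.univ :=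
    fun I _ => Set.subset_univ _
  let K : IndepMatroid (Fin n) := IndepMatroid.ofFinset Set.univ (SpInd r N) a1 a2 a3 a4
  have hind : ∀ I : Finset (Fin n), K.matroid.Indep (I : Set (Fin n)) ↔ SpInd r N I := by
    intro I
    exact IndepMatroid.ofFinset_indep (E := Set.univ) (Indep := SpInd r N) a1 a2 a3 a4
  have hle : ∀ (A : Finset (Fin n)) (k : ℕ), (∀ I : Finset (Fin n), I ⊆ A → SpInd r N I → I.card ≤ k) →
      K.matroid.eRk (A : Set (Fin n)) ≤ (k : ℕ∞) := by
    intro A k hk
    rw [Matroid.eRk_le_iff]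
    intro I hI hInd
    obtain ⟨I', rfl⟩ : ∃ I' : Finset (Fin n), (I' : Set (Fin n)) = I :=
      ⟨I.toFinite.toFinset, I.toFinite.coe_toFinset⟩
    rw [Set.encard_coe_eq_coe_finsetCard]
    exact_mod_cast hk I' (Finset.coe_subset.1 hI) ((hind I').1 hInd)
  have hge : ∀ A I : Finset (Fin n), I ⊆ A → SpInd r N I →
      (I.card : ℕ∞) ≤ K.matroid.eRk (A : Set (Fin n)) := by
    intro A I hI hInd
    have h := ((hind I).2 hInd).encard_le_eRk_of_subset (Finset.coe_subset.2 hI)
    rwa [Set.encard_coe_eq_coe_finsetCard] at h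
  have hfin : ∀ (A : Finset (Fin n)) (k : ℕ), K.matroid.eRk (A : Set (Fin n)) = (k : ℕ∞) →
      rk K.matroid (A : Set (Fin n)) = k := by
    intro A k hk
    unfold rk
    rw [hk]
    rfl
  have hsmall : ∀ B : Finset (Fin n), B.card < r → SpInd r N B := fun B hB => ⟨hB.le, hno _ hB.ne⟩
  refine ⟨K.matroid, rfl, fun A hA => ?_, fun A hA hN => ?_, fun A hN => ?_, fun A hA => ?_⟩
  · exact hfin A _ (le_antisymm (hle A _ fun I hI _ => Finset.card_le_card hI)
      (hge A A subset_rfl (hsmall A hA)))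
  · refine hfin A _ (le_antisymm (hle A _ fun I hI hInd => hInd.1) ?_)
    have := hge A A subset_rfl ⟨hA.le, hN⟩
    rwa [hA] at this
  · have hA := hc A hN
    refine hfin A _ (le_antisymm (hle A _ fun I hI hInd => ?_) ?_)
    · by_contra hcon
      have h6 : I = A := Finset.eq_of_subset_of_card_le hI (by omega)
      exact hInd.2 (h6 ▸ hN)
    · obtain ⟨I, hI, hcI⟩ := Finset.exists_subset_card_eq (s := A) (n := r - 1) (by omega)
      have h6 := hge A I hI (hsmall I (by omega))
      rwa [hcI] at h6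
  · refine hfin A _ (le_antisymm (hle A _ fun I hI hInd => hInd.1) ?_)
    obtain ⟨I, hI, hcI⟩ := Finset.exists_subset_card_eq (s := A) (n := r - 1) (by omega)
    obtain ⟨e, he, f, hf, hef⟩ : ∃ e ∈ A \ I, ∃ f ∈ A \ I, e ≠ f := by
      have h6 : 1 < (A \ I).card := by
        rw [Finset.card_sdiff_of_subset hI]
        omega
      exact Finset.one_lt_card.1 h6
    rw [Finset.mem_sdiff] at he hf
    rcases sp_two hc hm (I := I) (by omega) he.2 hf.2 hef with h6 | h6
    · have h7 := hge A _ (Finset.insert_subset he.1 hI) h6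
      rw [Finset.card_insert_of_notMem he.2, hcI] at h7
      rwa [Nat.sub_add_cancel hr] at h7
    · have h7 := hge A _ (Finset.insert_subset hf.1 hI) h6
      rw [Finset.card_insert_of_notMem hf.2, hcI] at h7
      rwa [Nat.sub_add_cancel hr] at h7

end Pool.Agent.BW3
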