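import Mathlib

/-!
# MP_a68485_co: the graph of a parent function is a tree (for BwLE implies BranchDecomp)
-/

set_option autoImplicit false

namespace Pool.Agent.BW3

variable {V : Type} (p : V → Option V) (h : V → ℕ) (r : V)

/-- the graph which joins every vertex with its parent -/
def PG : SimpleGraph V := SimpleGraph.fromRel fun a b => p a = some b

/-- `w` is a descendant of `a` -/
inductive Dsc (a : V) : V → Prop
  | refl : Dsc a a
  | step {w c : V} : p w = some c → Dsc a c → Dsc a w

variable {p h r}

theorem dsc_h (hh : ∀ a b, p a = some b → h b < h a) {a w : V} (hd : Dsc p a w) : h a ≤ h w := by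
  induction hd with
  | refl => exact le_rfl
  | step h1 _ ih => exact ih.trans (hh _ _ h1).le

theorem pg_adj (hh : ∀ a b, p a = some b → h b < h a) {a b : V} :
    (PG p).Adj a b ↔ p a = some b ∨ p b = some a := by
  unfold PG
  rw [SimpleGraph.fromRel_adj]
  constructor
  · rintro ⟨-, h1⟩
    exact h1
  · intro h1
    refine ⟨?_, h1⟩
    rintro rfl
    rcases h1 with h1 | h1 <;> exact absurd (hh _ _ h1) (lt_irrefl _)

theorem not_dsc_parent (hh : ∀ a b, p a = some b → h b < h a) {a b : V} (hab : p a = some b) :
    ¬ Dsc p a b := fun hd => absurd (dsc_h hh hd) (not_le.2 (hh _ _ hab))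

/-- the descendants of `a` are closed under adjacency without the edge from `a` to its parent -/
theorem dsc_adj (hh : ∀ a b, p a = some b → h b < h a) {a b : V} (hab : p a = some b) {w y : V}
    (hd : Dsc p a w) (hy : ((PG p).deleteEdges {s(a, b)}).Adj w y) : Dsc p a y := by
  rw [SimpleGraph.deleteEdges_adj, pg_adj hh, Set.mem_singleton_iff] at hy
  obtain ⟨h1 | h1, hne⟩ := hy
  · cases hd with
    | refl =>
      rw [hab] at h1
      have h2 : b = y := Option.some_injective _ h1
      exact absurd (by rw [h2]) hne
    | step h2 h3 =>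
      rw [h2] at h1
      have h4 := Option.some_injective _ h1
      rw [← h4]
      exact h3
  · exact Dsc.step h1 hd

theorem dsc_of_reach (hh : ∀ a b, p a = some b → h b < h a) {a b : V} (hab : p a = some b) {w : V}
    (hr : ((PG p).deleteEdges {s(a, b)}).Reachable a w) : Dsc p a w := by
  obtain ⟨q⟩ := hr
  have key : ∀ (x y : V) (q : ((PG p).deleteEdges {s(a, b)}).Walk x y), Dsc p a x → Dsc p a y := by
    intro x y q
    induction q with
    | nil => exact id
    | cons hxy _ ih => exact fun hx => ih (dsc_adj hh hab hx hxy)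
  exact key a w q Dsc.refl

theorem reach_of_dsc (hh : ∀ a b, p a = some b → h b < h a) {a b : V} (hab : p a = some b) {w : V}
    (hd : Dsc p a w) : ((PG p).deleteEdges {s(a, b)}).Reachable a w := by
  induction hd with
  | refl => exact SimpleGraph.Reachable.refl _
  | @step w c h1 h2 ih =>
    refine ih.trans (SimpleGraph.Adj.reachable ?_)
    rw [SimpleGraph.deleteEdges_adj, pg_adj hh, Set.mem_singleton_iff]
    refine ⟨Or.inr h1, fun heq => ?_⟩
    rw [Sym2.eq_iff] at heq
    rcases heq with ⟨h3, h4⟩ | ⟨h3, h4⟩
    · rw [h4] at h1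
      rw [h3] at h1
      have h5 := hh _ _ h1
      have h6 := hh _ _ hab
      omega
    · rw [h3] at h2
      exact not_dsc_parent hh hab h2

theorem reach_root (hh : ∀ a b, p a = some b → h b < h a) (hr : ∀ a, p a = none → a = r) {a b : V}
    (hab : p a = some b) : ∀ (n : ℕ) (w : V), h w ≤ n → ¬ Dsc p a w →
      ((PG p).deleteEdges {s(a, b)}).Reachable w r := by
  intro n
  induction n with
  | zero =>
    intro w hw _
    cases hp : p w with
    | none => rw [hr w hp]
    | some c =>
      have := hh _ _ hp
      omega
  | succ n ih =>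
    intro w hw hd
    cases hp : p w with
    | none => rw [hr w hp]
    | some c =>
      have hlt := hh _ _ hp
      have hc : ¬ Dsc p a c := fun hc => hd (Dsc.step hp hc)
      refine SimpleGraph.Reachable.trans (SimpleGraph.Adj.reachable ?_) (ih c (by omega) hc)
      rw [SimpleGraph.deleteEdges_adj, pg_adj hh, Set.mem_singleton_iff]
      refine ⟨Or.inl hp, fun heq => ?_⟩
      rw [Sym2.eq_iff] at heq
      rcases heq with ⟨h3, h4⟩ | ⟨h3, h4⟩
      · exact hd (h3 ▸ Dsc.refl)
      · exact hc (h4 ▸ Dsc.refl)

theorem reach_parent_iff (hh : ∀ a b, p a = some b → h b < h a) (hr : ∀ a, p a = none → a = r)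
    {a b : V} (hab : p a = some b) (w : V) :
    ((PG p).deleteEdges {s(a, b)}).Reachable b w ↔ ¬ Dsc p a w := by
  constructor
  · intro h1 h2
    have h3 := (reach_of_dsc hh hab h2).trans h1.symm
    exact not_dsc_parent hh hab (dsc_of_reach hh hab h3)
  · intro h1
    exact (reach_root hh hr hab _ b le_rfl (not_dsc_parent hh hab)).trans
      (reach_root hh hr hab _ w le_rfl h1).symm

theorem pg_isTree (hh : ∀ a b, p a = some b → h b < h a) (hr : ∀ a, p a = none → a = r) :
    (PG p).IsTree := by
  have hreach : ∀ (n : ℕ) (w : V), h w ≤ n → (PG p).Reachable w r := by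
    intro n
    induction n with
    | zero =>
      intro w hw
      cases hp : p w with
      | none => rw [hr w hp]
      | some c =>
        have := hh _ _ hp
        omega
    | succ n ih =>
      intro w hw
      cases hp : p w with
      | none => rw [hr w hp]
      | some c =>
        have hlt := hh _ _ hp
        exact SimpleGraph.Reachable.trans
          (SimpleGraph.Adj.reachable ((pg_adj hh).2 (Or.inl hp))) (ih c (by omega))
  haveI : Nonempty V := ⟨r⟩
  refine ⟨⟨fun x y => (hreach _ x le_rfl).trans (hreach _ y le_rfl).symm⟩, ?_⟩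
  rw [SimpleGraph.isAcyclic_iff_forall_adj_isBridge]
  intro v w hvw
  rw [SimpleGraph.isBridge_iff]
  rcases (pg_adj hh).1 hvw with h1 | h1
  · intro h2
    exact not_dsc_parent hh h1 (dsc_of_reach hh h1 h2)
  · intro h2
    have e : s(v, w) = s(w, v) := Sym2.eq_swap
    rw [e] at h2
    exact not_dsc_parent hh h1 (dsc_of_reach hh h1 h2.symm)

end Pool.Agent.BW3
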