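import Pool.Agent.Lib_MP_a68485_co.Comb

/-!
# MP_a68485_co: invariance of `Good` and `Listed` under permutations of the ground set
-/

set_option autoImplicit false

namespace Pool.Agent.BW3

variable {n : ℕ}

theorem map_symm_map (σ : Equiv.Perm (Fin n)) (A : Finset (Fin n)) :
    (A.map σ.symm.toEmbedding).map σ.toEmbedding = A := by
  ext x
  simp

theorem map_sdiff_perm (σ : Equiv.Perm (Fin n)) (A B : Finset (Fin n)) :
    (A \ B).map σ.toEmbedding = A.map σ.toEmbedding \ B.map σ.toEmbedding := by
  ext x
  simp only [Finset.mem_map_equiv, Finset.mem_sdiff]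

theorem covT_perm (σ : Equiv.Perm (Fin n)) (T : Finset (Fin n) → Prop) :
    ∀ (k : ℕ) (R : Finset (Fin n)),
      CovT (fun A => T (A.map σ.toEmbedding)) k R ↔ CovT T k (R.map σ.toEmbedding)
  | 0, R => by simp [CovT]
  | k + 1, R => by
    simp only [CovT, Finset.card_map]
    refine or_congr Iff.rfl ⟨?_, ?_⟩
    · rintro ⟨A, hA, h⟩
      refine ⟨A.map σ.toEmbedding, hA, ?_⟩
      rw [← map_sdiff_perm]
      exact (covT_perm σ T k _).1 h
    · rintro ⟨A, hA, h⟩
      refine ⟨A.map σ.symm.toEmbedding, ?_, ?_⟩
      · show T _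
        rw [map_symm_map]
        exact hA
      · rw [covT_perm σ T k, map_sdiff_perm, map_symm_map]
        exact h

theorem good_perm (σ : Equiv.Perm (Fin n)) {T : Finset (Fin n) → Prop} (h : Good n T) :
    Good n (fun A => T (A.map σ.toEmbedding)) := by
  refine ⟨?_, ?_, ?_, ?_⟩
  · intro A hA
    have := h.card _ hA
    rwa [Finset.card_map] at this
  · intro A B hA hB hAB
    have h1 := h.meet _ _ hA hB (fun e => hAB (Finset.map_injective _ e))
    rwa [← Finset.map_inter, Finset.card_map] at h1
  · rw [covT_perm, Finset.map_univ_equiv]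
    exact h.notcov
  · intro i
    rw [covT_perm]
    have e : (Finset.univ.erase i).map σ.toEmbedding = Finset.univ.erase (σ i) := by
      rw [Finset.map_erase, Finset.map_univ_equiv]
      rfl
    rw [e]
    exact h.cov _

theorem listed_perm (σ : Equiv.Perm (Fin n)) {Ls : List (List ℕ)} {T : Finset (Fin n) → Prop}
    (h : Listed n Ls (fun A => T (A.map σ.toEmbedding))) : Listed n Ls T := by
  obtain ⟨P, hP, τ, hτ⟩ := h
  refine ⟨P, hP, τ.trans σ, fun A => ?_⟩
  rw [← hτ A]
  have e : A.map (τ.trans σ).toEmbedding = (A.map τ.toEmbedding).map σ.toEmbedding := by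
    rw [Finset.map_map]
    rfl
  rw [e]

/-- two sets with the same number of elements are mapped to each other by a permutation -/
theorem exists_perm_map (s t : Finset (Fin n)) (h : s.card = t.card) :
    ∃ σ : Equiv.Perm (Fin n), s.map σ.toEmbedding = t := by
  classical
  let e : {x // x ∈ s} ≃ {x // x ∈ t} := Finset.equivOfCardEq h
  refine ⟨e.extendSubtype, ?_⟩
  apply Finset.eq_of_subset_of_card_le
  · intro x hx
    obtain ⟨y, hy, rfl⟩ := Finset.mem_map.1 hx
    exact e.extendSubtype_mem y hy
  · rw [Finset.card_map, h]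

end Pool.Agent.BW3
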