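import Pool.Agent.Lib_MP_a68485_co.Comb4
import Pool.Agent.Lib_MP_a68485_co.Sound

/-!
# MP_a68485_co: rank functions on eight elements, rank four
-/

set_option autoImplicit false

namespace Pool.Agent.BW3

/-- the rank function of an excluded minor of rank four with eight elements -/
structure RF (r : Finset (Fin 8) → ℕ) : Prop where
  le_card : ∀ A, r A ≤ A.card
  mono : ∀ A B, A ⊆ B → r A ≤ r B
  sub : ∀ A B, r (A ∩ B) + r (A ∪ B) ≤ r A + r B
  univ : r Finset.univ = 4
  h1 : ∀ A, A.card = 4 → 7 ≤ r A + r Aᶜ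
  h2 : ∀ A B, A.card = 3 → B.card = 3 → Disjoint A B → r A + r Aᶜ ≤ 6 → r B + r Bᶜ ≤ 6 → False
  inn : ∀ i, ∃ A, A.card = 4 ∧ i ∈ A ∧ r A ≤ 3
  out : ∀ i, ∃ A, A.card = 4 ∧ i ∉ A ∧ r A ≤ 3

section

variable {r : Finset (Fin 8) → ℕ}

theorem card_compl8 (A : Finset (Fin 8)) : Aᶜ.card = 8 - A.card := by
  rw [Finset.card_compl, Fintype.card_fin]

theorem RF.le_four (h : RF r) (A : Finset (Fin 8)) : r A ≤ 4 := h.univ ▸ h.mono A _ (Finset.subset_univ A)

theorem RF.le_add (h : RF r) {A B : Finset (Fin 8)} (hAB : A ⊆ B) : r B ≤ r A + (B.card - A.card) := by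
  have h1 := h.sub A (B \ A)
  rw [Finset.union_sdiff_of_subset hAB] at h1
  have h2 := h.le_card (B \ A)
  rw [Finset.card_sdiff_of_subset hAB] at h2
  omega

theorem RF.three_le (h : RF r) {A : Finset (Fin 8)} (hA : A.card = 4) : 3 ≤ r A := by
  have h1 := h.h1 A hA
  have h2 := h.le_four Aᶜ
  omega

/-- no loops -/
theorem RF.single (h : RF r) (y : Fin 8) : 1 ≤ r {y} := by
  by_contra hc
  obtain ⟨B, hB, hyB, hrB⟩ := h.out y
  have h1 := h.h1 B hB
  have h2 := h.le_add (A := {y}) (B := Bᶜ) (by simpa using hyB)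
  rw [card_compl8, Finset.card_singleton] at h2
  omega

/-- no parallel elements -/
theorem RF.pair (h : RF r) {A : Finset (Fin 8)} (hA : A.card = 2) : r A = 2 := by
  have hle := h.le_card A
  by_contra hc
  have hA1 : r A ≤ 1 := by omega
  obtain ⟨x, y, hxy, rfl⟩ := Finset.card_eq_two.1 hA
  obtain ⟨B, hB, hxB, hrB⟩ := h.out x
  by_cases hyB : y ∈ B
  · have h1 := h.sub B {x, y}
    have h2 : r {y} ≤ r (B ∩ {x, y}) := h.mono _ _ (by
      intro z hz
      rw [Finset.mem_singleton] at hz
      subst hz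
      simp [hyB])
    have h3 := h.single y
    have h4 : r (insert x B) ≤ 3 := by
      have h5 := h.mono (insert x B) (B ∪ {x, y}) (by
        intro z hz
        rw [Finset.mem_insert] at hz
        rcases hz with rfl | hz
        · simp
        · simp [hz])
      omega
    have h6 : (insert x B).card = 5 := by rw [Finset.card_insert_of_notMem hxB, hB]
    obtain ⟨C, hxyC, hCB, hC⟩ := Finset.exists_subsuperset_card_eq (s := {x, y}) (t := insert x B) (n := 3) (by
      intro z hz
      rw [Finset.mem_insert, Finset.mem_singleton] at hz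
      rcases hz with rfl | rfl
      · simp
      · simp [hyB]) (by omega) (by omega)
    have h7 := h.le_add hxyC
    refine h.h2 C (insert x B)ᶜ hC (by rw [card_compl8, h6]) ?_ ?_ ?_
    · exact Finset.disjoint_left.2 fun z hz hz' => (Finset.mem_compl.1 hz') (hCB hz)
    · have := h.le_four Cᶜ
      omega
    · have := h.le_card (insert x B)ᶜ
      rw [card_compl8, h6] at this
      rw [compl_compl]
      omega
  · have h1 := h.h1 B hB
    have h2 := h.le_add (A := {x, y}) (B := Bᶜ) (by
      intro z hz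
      rw [Finset.mem_insert, Finset.mem_singleton] at hz
      rw [Finset.mem_compl]
      rcases hz with rfl | rfl
      · exact hxB
      · exact hyB)
    rw [card_compl8, hB] at h2
    omega

/-- not both a dependent triple and five elements of rank three -/
theorem RF.dep_five (h : RF r) {T K : Finset (Fin 8)} (hT : T.card = 3) (hrT : r T ≤ 2) (hK : K.card = 5)
    (hrK : r K ≤ 3) : False := by
  have step1 : ∀ K' : Finset (Fin 8), K'.card = 5 → r K' ≤ 3 → T ⊆ K' → False := by
    intro K' hK' hr hsub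
    refine h.h2 T K'ᶜ hT (by rw [card_compl8, hK']) ?_ ?_ ?_
    · exact Finset.disjoint_left.2 fun z hz hz' => (Finset.mem_compl.1 hz') (hsub hz)
    · have := h.le_four Tᶜ
      omega
    · have := h.le_card K'ᶜ
      rw [card_compl8, hK'] at this
      rw [compl_compl]
      omega
  have hc1 := Finset.card_inter_add_card_sdiff K T
  have hc2 := Finset.card_inter_add_card_union K T
  have hc3 : (K ∩ T).card ≤ 3 := hT ▸ Finset.card_le_card Finset.inter_subset_right
  have hsub := h.sub K T
  rcases Nat.lt_or_ge (K ∩ T).card 2 with h0 | h0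
  · obtain ⟨B, hB, hBc⟩ := Finset.exists_subset_card_eq (show 4 ≤ (K \ T).card by omega)
    have h1 := h.h1 B hBc
    have h2 := h.mono B K (hB.trans Finset.sdiff_subset)
    have h3 := h.le_add (A := T) (B := Bᶜ) (by
      intro z hz
      rw [Finset.mem_compl]
      exact fun hz' => (Finset.mem_sdiff.1 (hB hz')).2 hz)
    rw [card_compl8, hBc, hT] at h3
    omega
  · rcases Nat.lt_or_ge (K ∩ T).card 3 with h4 | h4
    · have h5 := h.pair (A := K ∩ T) (by omega)
      obtain ⟨K', hTK', hK'U, hK'⟩ := Finset.exists_subsuperset_card_eq (s := T) (t := K ∪ T) (n := 5)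
        Finset.subset_union_right (by omega) (by omega)
      have h6 := h.mono _ _ hK'U
      exact step1 K' hK' (by omega) hTK'
    · refine step1 K hK hrK ?_
      have h5 : K ∩ T = T := Finset.eq_of_subset_of_card_le Finset.inter_subset_right (by omega)
      exact Finset.inter_eq_right.1 h5

/-- at most one dependent triple -/
theorem RF.dep_unique (h : RF r) {T S : Finset (Fin 8)} (hT : T.card = 3) (hrT : r T ≤ 2) (hS : S.card = 3)
    (hrS : r S ≤ 2) : T = S := by
  by_contra hne
  have hc2 := Finset.card_inter_add_card_union T S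
  have hsub := h.sub T S
  have h3 : (T ∩ S).card < 3 := by
    by_contra hc
    have h5 : T ∩ S = T := Finset.eq_of_subset_of_card_le Finset.inter_subset_left (by omega)
    have h6 : T ∩ S = S := Finset.eq_of_subset_of_card_le Finset.inter_subset_right (by omega)
    exact hne (h5.symm.trans h6)
  have h4 := h.le_four Tᶜ
  have h5 := h.le_four Sᶜ
  interval_cases hc : (T ∩ S).card
  · exact h.h2 T S hT hS (Finset.disjoint_iff_inter_eq_empty.2 (Finset.card_eq_zero.1 hc)) (by omega) (by omega)
  · obtain ⟨x, hx⟩ := Finset.card_eq_one.1 hc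
    have h6 := h.single x
    rw [← hx] at h6
    exact h.dep_five hT hrT (K := T ∪ S) (by omega) (by omega)
  · have h6 := h.pair hc
    have h7 := h.three_le (A := T ∪ S) (by omega)
    omega

/-- the four-element sets of rank three that do not contain the line `{0, 1, 2}` -/
def NB (b : Bool) (r : Finset (Fin 8) → ℕ) (A : Finset (Fin 8)) : Prop :=
  A.card = 4 ∧ r A ≤ 3 ∧ (b = true → ¬ bits 8 7 ⊆ A)

theorem card_bits7 : (bits 8 7).card = 3 := by decide

/-- two non-bases that share an independent triple give five elements of rank three -/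
theorem RF.meet (h : RF r) {A B : Finset (Fin 8)} (hA : A.card = 4) (hrA : r A ≤ 3) (hB : B.card = 4) (hrB : r B ≤ 3)
    (hne : A ≠ B) (hK : ∀ K : Finset (Fin 8), K.card = 5 → ¬ r K ≤ 3)
    (hT : ∀ T : Finset (Fin 8), T.card = 3 → T ⊆ A → T ⊆ B → 3 ≤ r T) : (A ∩ B).card ≤ 2 := by
  by_contra hc
  have hc2 := Finset.card_inter_add_card_union A B
  have hsub := h.sub A B
  have h3 : (A ∩ B).card < 4 := by
    by_contra hc
    have h5 : A ∩ B = A := Finset.eq_of_subset_of_card_le Finset.inter_subset_left (by omega)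
    have h6 : A ∩ B = B := Finset.eq_of_subset_of_card_le Finset.inter_subset_right (by omega)
    exact hne (h5.symm.trans h6)
  have h4 : (A ∩ B).card = 3 := by omega
  have h5 := hT _ h4 Finset.inter_subset_left Finset.inter_subset_right
  exact hK (A ∪ B) (by omega) (by omega)

/-- sparse paving type -/
theorem RF.good_false (h : RF r) (hT : ∀ T : Finset (Fin 8), T.card = 3 → 3 ≤ r T)
    (hK : ∀ K : Finset (Fin 8), K.card = 5 → ¬ r K ≤ 3) : Good4 false (NB false r) := by
  refine ⟨fun A hA => hA.1, fun A B hA hB hne => ?_, fun A hA hA' => ?_, fun hb => by simp at hb, fun _ i => ?_, fun i _ => ?_⟩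
  · exact h.meet hA.1 hA.2.1 hB.1 hB.2.1 hne hK fun T hTc _ _ => hT T hTc
  · have h1 := h.h1 A hA.1
    have h2 := hA.2.1
    have h3 := hA'.2.1
    omega
  · obtain ⟨A, hA, hi, hr⟩ := h.inn i
    exact ⟨A, ⟨hA, hr, by simp⟩, hi⟩
  · obtain ⟨A, hA, hi, hr⟩ := h.out i
    exact ⟨A, ⟨hA, hr, by simp⟩, hi⟩

/-- the type with a three-point line -/
theorem RF.good_true (h : RF r) (hT : r (bits 8 7) ≤ 2) : Good4 true (NB true r) := by
  have hK : ∀ K : Finset (Fin 8), K.card = 5 → ¬ r K ≤ 3 := fun K hK hr => h.dep_five card_bits7 hT hK hr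
  refine ⟨fun A hA => hA.1, fun A B hA hB hne => ?_, fun A hA hA' => ?_, fun _ A hA => ?_, fun hb => by simp at hb, fun i hi => ?_⟩
  · refine h.meet hA.1 hA.2.1 hB.1 hB.2.1 hne hK fun T hTc hTA _ => ?_
    by_contra hc
    have := h.dep_unique hTc (by omega) card_bits7 hT
    subst this
    exact hA.2.2 rfl hTA
  · have h1 := h.h1 A hA.1
    have h2 := hA.2.1
    have h3 := hA'.2.1
    omega
  · have hA1 := hA.1
    have hA2 := hA.2.1
    have hc3 : (A ∩ bits 8 7).card ≤ 3 := card_bits7 ▸ Finset.card_le_card Finset.inter_subset_right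
    have hc2 := Finset.card_inter_add_card_union A (bits 8 7)
    rw [card_bits7] at hc2
    have hsub := h.sub A (bits 8 7)
    interval_cases hc : (A ∩ bits 8 7).card
    · exfalso
      have h1 := h.h1 A hA1
      have h3 := h.le_add (A := bits 8 7) (B := Aᶜ) (by
        intro z hz
        rw [Finset.mem_compl]
        intro hz'
        have : z ∈ A ∩ bits 8 7 := Finset.mem_inter.2 ⟨hz', hz⟩
        rw [Finset.card_eq_zero.1 hc] at this
        simp at this)
      rw [card_compl8, hA1, card_bits7] at h3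
      omega
    · rfl
    · exfalso
      have h5 := h.pair hc
      exact hK _ (show (A ∪ bits 8 7).card = 5 by omega) (by omega)
    · exfalso
      have h5 : A ∩ bits 8 7 = bits 8 7 := Finset.eq_of_subset_of_card_le Finset.inter_subset_right (by
        rw [card_bits7]
        omega)
      exact hA.2.2 rfl (Finset.inter_eq_right.1 h5)
  · obtain ⟨A, hA, hiA, hr⟩ := h.out i
    exact ⟨A, ⟨hA, hr, fun _ hsub => hiA (hsub (hi rfl))⟩, hiA⟩

/-- the rank function is determined by the non-bases -/
theorem RF.eq_rank4 (h : RF r) {b : Bool} {P : List ℕ} (hP : ∀ A, NB b r A ↔ ∃ m ∈ P, bits 8 m = A)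
    (hK : ∀ K : Finset (Fin 8), K.card = 5 → ¬ r K ≤ 3)
    (hT : ∀ T : Finset (Fin 8), T.card = 3 → (r T ≤ 2 ↔ b = true ∧ T = bits 8 7)) (A : Finset (Fin 8)) :
    r A = rank4 b P A := by
  have hle := h.le_card A
  unfold rank4
  split_ifs with h2 h3 h4 h5 h6
  · interval_cases hc : A.card
    · omega
    · obtain ⟨i, rfl⟩ := Finset.card_eq_one.1 hc
      have := h.single i
      omega
    · exact h.pair hc
  · have h5 := (hT A h3).2 h4
    obtain ⟨B, hB, hBc⟩ := Finset.exists_subset_card_eq (show 2 ≤ A.card by omega)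
    have h6 := h.pair hBc
    have h7 := h.mono _ _ hB
    omega
  · have h5 : ¬ r A ≤ 2 := fun h6 => h4 ((hT A h3).1 h6)
    omega
  · have h7 := h.three_le h5
    have h8 : r A ≤ 3 := by
      rcases h6 with ⟨hb, hsub⟩ | hm
      · have h9 := (hT (bits 8 7) card_bits7).2 ⟨hb, rfl⟩
        have h10 := h.le_add hsub
        rw [card_bits7] at h10
        omega
      · exact ((hP A).2 hm).2.1
    omega
  · have h7 := h.three_le h5
    have h8 : ¬ r A ≤ 3 := by
      intro h9
      refine h6 (Or.inr ((hP A).1 ⟨h5, h9, fun hb hsub => h6 (Or.inl ⟨hb, hsub⟩)⟩))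
    omega
  · obtain ⟨K, hKA, hKc⟩ := Finset.exists_subset_card_eq (show 5 ≤ A.card by omega)
    have h7 := hK K hKc
    have h8 := h.mono _ _ hKA
    have h9 := h.le_four A
    omega

end

end Pool.Agent.BW3
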