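import Pool.Agent.Lib_MP_a68485_co.Crit

/-!
# MP_a68485_co: rank three, branch-width and covers by lines
-/

set_option autoImplicit false

namespace Pool.Agent.BW3

open Set

variable {α : Type*}

section

variable (M : Matroid α) [M.Finite]

/-- descend in the tree to a three-cover -/
theorem cov_of_tree (hr : rk M M.E = 3) (t : BT α) (ht : t.set ⊆ M.E) (hw : t.WidthLE M 3)
    (hc : rk M (M.E \ t.set) ≤ 2) : Cov M 3 M.E := by
  have key : ∀ X ⊆ M.E, conn M X ≤ 3 → rk M X ≤ 2 ∨ rk M (M.E \ X) ≤ 2 := by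
    intro X _ hX
    unfold conn at hX
    omega
  induction t with
  | leaf a =>
    refine ⟨M.E \ {a}, hc, ⟨{a}, (rk_singleton_le M a).trans (by norm_num), ⟨∅, by rw [rk_empty]; norm_num, ?_⟩⟩⟩
    change ((M.E \ (M.E \ {a})) \ {a}) \ ∅ = ∅
    ext z
    simp only [Set.mem_sdiff, Set.mem_singleton_iff, Set.mem_empty_iff_false]
    tauto
  | node l r h1 h2 =>
    have hl : l.set ⊆ M.E := Set.subset_union_left.trans ht
    have hr' : r.set ⊆ M.E := Set.subset_union_right.trans ht
    have wl : conn M l.set ≤ 3 := by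
      cases l with
      | leaf a => exact hw.2.1
      | node a b => exact hw.2.1.1
    have wr : conn M r.set ≤ 3 := by
      cases r with
      | leaf a => exact hw.2.2
      | node a b => exact hw.2.2.1
    rcases key _ hl wl with h3 | h3
    · rcases key _ hr' wr with h4 | h4
      · refine ⟨l.set, h3, ⟨r.set, h4, ⟨M.E \ (BT.node l r).set, hc, ?_⟩⟩⟩
        change ((M.E \ l.set) \ r.set) \ (M.E \ (l.set ∪ r.set)) = ∅
        ext z
        simp only [Set.mem_sdiff, Set.mem_union, Set.mem_empty_iff_false]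
        tauto
      · exact h2 hr' hw.2.2 h4
    · exact h1 hl hw.2.1 h3

theorem bw_iff_cov (hr : rk M M.E = 3) : BwLE M 3 ↔ Cov M 3 M.E := by
  constructor
  · rintro (⟨h, _⟩ | ⟨t, _, ht, hw⟩)
    · refine cov_of_ncard M M.ground_finite ?_
      rw [← M.ground_finite.cast_ncard_eq] at h
      have : M.E.ncard ≤ 1 := by exact_mod_cast h
      omega
    · refine cov_of_tree M hr t ht.le hw ?_
      rw [ht, Set.sdiff_self, rk_empty]
      norm_num
  · rintro ⟨A, hA, B, hB, C, hC, h⟩
    have h0 : ((M.E \ A) \ B) \ C = ∅ := h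
    have tr : ∀ S ⊆ M.E, rk M S ≤ 2 → GT M 3 S := by
      intro S hS h2
      refine exists_tree M 3 S (M.ground_finite.subset hS) fun X hX => ?_
      exact conn_le M ((rk_mono M hX).trans h2) (rk_le_rank M _) (by omega)
    have g1 := tr (M.E ∩ A) Set.inter_subset_left ((rk_mono M Set.inter_subset_right).trans hA)
    have g2 := tr ((M.E \ A) ∩ B) (Set.inter_subset_left.trans Set.sdiff_subset)
      ((rk_mono M Set.inter_subset_right).trans hB)
    have hCle : rk M ((M.E \ A) \ B) ≤ 2 :=
      (rk_mono M (Set.sdiff_eq_empty.1 h0)).trans hC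
    have g3 := tr ((M.E \ A) \ B) (Set.sdiff_subset.trans Set.sdiff_subset) hCle
    have g4 := g1.join g2 (by
      rw [Set.disjoint_left]
      rintro z ⟨_, h1⟩ ⟨⟨_, h2⟩, _⟩
      exact h2 h1) (by
      refine conn_le M (a := 3) (b := 2) (hr ▸ rk_le_rank M _) ((rk_mono M ?_).trans hCle) (by omega)
      rintro z ⟨h1, h2⟩
      refine ⟨⟨h1, fun h => h2 (Or.inl ⟨h1, h⟩)⟩, fun h => h2 (Or.inr ⟨⟨h1, fun h => h2 (Or.inl ⟨h1, h⟩)⟩, h⟩)⟩)
    have hE : M.E ∩ A ∪ (M.E \ A) ∩ B ∪ (M.E \ A) \ B = M.E := by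
      ext z
      simp only [Set.mem_union, Set.mem_inter_iff, Set.mem_sdiff]
      tauto
    have g5 := g4.join g3 (by
      rw [Set.disjoint_left]
      rintro z (⟨_, h1⟩ | ⟨_, h1⟩) ⟨⟨_, h2⟩, h3⟩
      · exact h2 h1
      · exact h3 h1) (by
      rw [hE]
      refine conn_le M (a := 3) (b := 0) (hr ▸ rk_le_rank M _) ?_ (by omega)
      rw [Set.sdiff_self, rk_empty])
    rw [hE] at g5
    exact g5.bw (by norm_num)

/-! ### restrictions -/

omit [M.Finite] in
theorem rk_restrict' (R X : Set α) : rk (M.restrict R) X = rk M (X ∩ R) := by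
  have h1 : rk (M.restrict R) X = rk (M.restrict R) (X ∩ R) := (rk_inter (M.restrict R) X).symm
  rw [h1, rk_restrict M Set.inter_subset_right]

omit [M.Finite] in
theorem cov_of_restrict {k : ℕ} {R X : Set α} (hX : X ⊆ R) (h : Cov (M.restrict R) k X) : Cov M k X := by
  induction k generalizing X with
  | zero => exact h
  | succ k ih =>
    obtain ⟨L, hL, h⟩ := h
    rw [rk_restrict'] at hL
    refine ⟨L ∩ R, hL, ?_⟩
    have h1 : X \ (L ∩ R) = X \ L := by
      ext z
      simp only [Set.mem_sdiff, Set.mem_inter_iff]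
      constructor
      · rintro ⟨h1, h2⟩
        exact ⟨h1, fun h => h2 ⟨h, hX h1⟩⟩
      · rintro ⟨h1, h2⟩
        exact ⟨h1, fun h => h2 h.1⟩
    rw [h1]
    exact ih (Set.sdiff_subset.trans hX) h

theorem cov_restrict {k : ℕ} {R X : Set α} (h : Cov M k X) : Cov (M.restrict R) k X := by
  induction k generalizing X with
  | zero => exact h
  | succ k ih =>
    obtain ⟨L, hL, h⟩ := h
    refine ⟨L, ?_, ih h⟩
    rw [rk_restrict']
    exact (rk_mono M Set.inter_subset_left).trans hL

theorem restr_of_rank {N : Matroid α} (h : N.IsMinor M) (hr : rk M M.E ≤ rk N N.E) : N = M.restrict N.E := by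
  obtain ⟨C, D, rfl⟩ := h
  have hf : ((M.contract C).delete D).Finite := finite_of_minor (Matroid.contract_delete_isMinor M C D)
  obtain ⟨K, hK⟩ := M.exists_isBasis' C
  obtain ⟨J, hJ⟩ := ((M.contract C).delete D).exists_isBase
  have h1 : (M.contract C).Indep J := (Matroid.delete_indep_iff.1 hJ.indep).1
  rw [hK.contract_indep_iff] at h1
  have h2 : K = ∅ := by
    by_contra hne
    have h3 := h1.1.encard_le_eRank
    have hdis : Disjoint J K := (h1.2.mono_left hK.subset).symm
    rw [Set.encard_union_eq hdis, Matroid.eRank_def, ← coe_rk M, hJ.encard_eq_eRank, Matroid.eRank_def, ← coe_rk] at h3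
    have h4 : 1 ≤ K.encard := Set.one_le_encard_iff_nonempty.2 (Set.nonempty_iff_ne_empty.2 hne)
    have h5 : ((rk ((M.contract C).delete D) ((M.contract C).delete D).E : ℕ) : ℕ∞) + 1 ≤ (rk M M.E : ℕ∞) := (by gcongr : _ ≤ _).trans h3
    have h6 : rk ((M.contract C).delete D) ((M.contract C).delete D).E + 1 ≤ rk M M.E := by exact_mod_cast h5
    omega
  subst h2
  have h3 := hK.contract_eq_contract_delete
  rw [Matroid.contract_empty] at h3
  rw [h3, Matroid.delete_delete, Matroid.delete_eq_restrict]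
  rfl

/-- Excluded minors of rank three. -/
theorem exMinor_iff (hr : rk M M.E = 3) : ExMinor M ↔ KCrit M 3 M.E := by
  constructor
  · rintro ⟨h1, h2⟩
    refine ⟨fun h => h1 ((bw_iff_cov M hr).2 h), fun e he => ?_⟩
    have hss : M.E \ {e} ⊂ M.E := by
      refine ⟨Set.sdiff_subset, fun h => ?_⟩
      exact (h he).2 rfl
    have hN : (M.restrict (M.E \ {e})).IsStrictMinor M := by
      rw [Matroid.isStrictMinor_iff_isMinor_ssubset]
      refine ⟨⟨∅, {e}, ?_⟩, hss⟩
      rw [Matroid.contract_empty, Matroid.delete_eq_restrict]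
    have hfin : (M.restrict (M.E \ {e})).Finite := finite_of_minor hN.1
    have h3 := h2 _ hN
    have h4 : rk (M.restrict (M.E \ {e})) (M.restrict (M.E \ {e})).E = rk M (M.E \ {e}) := rk_restrict M (subset_refl _)
    have h5 : rk M (M.E \ {e}) ≤ 3 := hr ▸ rk_le_rank M _
    rcases Nat.lt_or_ge (rk M (M.E \ {e})) 3 with h6 | h6
    · refine ⟨M.E \ {e}, by omega, ?_⟩
      rw [Set.sdiff_self]
      exact (show Cov M 0 (∅ : Set α) from rfl).succ.succ
    · have h7 := (bw_iff_cov _ (by omega)).1 h3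
      exact cov_of_restrict M (subset_refl _) h7
  · rintro ⟨h1, h2⟩
    refine ⟨fun h => h1 ((bw_iff_cov M hr).1 h), fun N hN => ?_⟩
    have hfin : N.Finite := finite_of_minor hN.1
    rcases Nat.lt_or_ge (rk N N.E) 3 with h3 | h3
    · exact bw_of_rank_le N (by omega)
    · have h4 := restr_of_rank M hN.1 (by omega)
      have hss := hN.ssubset
      obtain ⟨e, he, heN⟩ := Set.exists_of_ssubset hss
      have h5 : Cov M 3 N.E := (h2 e he).mono fun z hz => ⟨hss.1 hz, fun h => heN (h ▸ hz)⟩
      have h6 : Cov N 3 N.E := by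
        have h7 : Cov (M.restrict N.E) 3 N.E := cov_restrict M h5
        rwa [← h4] at h7
      have h7 : rk N N.E ≤ 3 := by
        rw [h4, rk_restrict']
        exact hr ▸ rk_le_rank M _
      exact (bw_iff_cov N (by omega)).2 h6

end

end Pool.Agent.BW3
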