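import Pool.Agent.Lib_MP_a68485_co.Small
import Pool.Agent.Lib_MP_a68485_co.Comb

/-!
# MP_a68485_co: sparse paving matroids (definitions)
-/

set_option autoImplicit false

namespace Pool.Agent.BW3

variable {α : Type*}

/-- sparse paving: with `r` the rank, all sets of `r - 1` elements are independent and all sets of `r + 1`
elements are spanning -/
def SparsePaving (M : Matroid α) : Prop :=
  ∀ X ⊆ M.E, (X.ncard + 1 = rk M M.E → rk M X = X.ncard) ∧ (X.ncard = rk M M.E + 1 → rk M X = rk M M.E)

/-- the circles of the Moebius plane of order three that do not contain a given point -/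
def mobius : List ℕ :=
  [15, 51, 60, 85, 106, 154, 165, 198, 201, 240, 278, 297, 323, 344, 356, 396, 401, 418]

/-- the rank function of the sparse paving matroid of rank four on `Fin 9` with circuit-hyperplanes `mobius` -/
def rank9 (A : Finset (Fin 9)) : ℕ := if A.card = 4 ∧ ∃ m ∈ mobius, bits 9 m = A then 3 else min A.card 4

/-- `f` is an isomorphism of that matroid onto `M` -/
def Desc9 (M : Matroid α) (f : Fin 9 → α) : Prop :=
  Function.Injective f ∧ Set.range f = M.E ∧ ∀ A : Finset (Fin 9), rk M (f '' (A : Set (Fin 9))) = rank9 A

end Pool.Agent.BW3
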