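import Pool.Agent.Lib_MP_a68485_co.SP0
import Pool.Agent.Lib_MP_a68485_co.Bw8

/-!
# MP_a68485_co: sparse paving matroids with at least nine elements
-/

set_option autoImplicit false

namespace Pool.Agent.BW3

open Set

variable {α : Type*}

section

variable {M : Matroid α} [M.Finite]

/-- a set of independent elements extends: rank grows by at most the number of new elements -/
theorem rk_le_add {X Y : Set α} (hXY : X ⊆ Y) (hY : Y.Finite) : rk M Y ≤ rk M X + (Y \ X).ncard := by
  have h1 := rk_union_le M X (Y \ X)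
  rw [Set.union_sdiff_cancel hXY] at h1
  have h2 := rk_le_ncard M (hY.subset (Set.sdiff_subset : Y \ X ⊆ Y))
  omega

theorem sp_lt (hs : SparsePaving M) {X : Set α} (hX : X ⊆ M.E) (h : X.ncard < rk M M.E) : rk M X = X.ncard := by
  have h0 : rk M M.E ≤ M.E.ncard := rk_le_ncard M M.ground_finite
  obtain ⟨Y, hXY, hY, hYc⟩ := Set.exists_superset_subset_encard_eq hX
    (show X.encard ≤ ((rk M M.E - 1 : ℕ) : ℕ∞) by
      rw [← (M.ground_finite.subset hX).cast_ncard_eq]
      exact_mod_cast (by omega : X.ncard ≤ rk M M.E - 1))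
    (show ((rk M M.E - 1 : ℕ) : ℕ∞) ≤ M.E.encard by
      rw [← M.ground_finite.cast_ncard_eq]
      exact_mod_cast (by omega : rk M M.E - 1 ≤ M.E.ncard))
  have hYf : Y.Finite := M.ground_finite.subset hY
  have hYn : Y.ncard = rk M M.E - 1 := by
    rw [← hYf.cast_ncard_eq] at hYc
    exact_mod_cast hYc
  have h1 := (hs Y hY).1 (by omega)
  have h2 := rk_le_add (M := M) hXY hYf
  have h3 := Set.ncard_sdiff_add_ncard_of_subset hXY hYf
  have h4 := rk_le_ncard M (M.ground_finite.subset hX)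
  omega

theorem sp_gt (hs : SparsePaving M) {X : Set α} (hX : X ⊆ M.E) (h : rk M M.E < X.ncard) : rk M X = rk M M.E := by
  obtain ⟨Y, hY, hYc⟩ := Set.exists_subset_card_eq (show rk M M.E + 1 ≤ X.ncard by omega)
  have h1 := (hs Y (hY.trans hX)).2 hYc
  have h2 := rk_mono M hY
  have h3 := rk_le_rank M X
  omega

theorem sp_eq (hs : SparsePaving M) {X : Set α} (hX : X ⊆ M.E) (h : X.ncard = rk M M.E) :
    rk M M.E ≤ rk M X + 1 := by
  by_cases h0 : X.ncard = 0
  · omega
  obtain ⟨Y, hY, hYc⟩ := Set.exists_subset_card_eq (show rk M M.E - 1 ≤ X.ncard by omega)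
  have h1 := sp_lt hs (hY.trans hX) (by omega)
  have h2 := rk_mono M hY
  omega

theorem sp_inter (hs : SparsePaving M) {X Y : Set α} (hX : X ⊆ M.E) (hY : Y ⊆ M.E) (h1 : X.ncard = rk M M.E)
    (h2 : Y.ncard = rk M M.E) (hne : X ≠ Y) (hrX : rk M X < rk M M.E) (hrY : rk M Y < rk M M.E) :
    (X ∩ Y).ncard + 2 ≤ rk M M.E := by
  have hfX := M.ground_finite.subset hX
  have hfY := M.ground_finite.subset hY
  have h3 := Set.ncard_union_add_ncard_inter X Y hfX hfY
  have h4 : (X ∩ Y).ncard < X.ncard := by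
    refine Set.ncard_lt_ncard ⟨Set.inter_subset_left, fun h => hne ?_⟩ hfX
    have h5 : X ⊆ Y := fun z hz => (h hz).2
    exact Set.eq_of_subset_of_ncard_le h5 (by omega) hfY
  have h6 := sp_lt hs (Set.inter_subset_left.trans hX : X ∩ Y ⊆ M.E) (by omega)
  have h7 := sp_gt hs (Set.union_subset hX hY) (by omega)
  have h8 := rk_sub M X Y
  omega

/-- a balanced subtree -/
theorem balanced (t : BT α) (hi : t.Inj) (hw : t.WidthLE M 3) (hn : 3 ≤ M.E.ncard)
    (h : 2 * M.E.ncard < 3 * t.set.ncard) :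
    ∃ X ⊆ t.set, conn M X ≤ 3 ∧ M.E.ncard ≤ 3 * X.ncard ∧ 3 * X.ncard ≤ 2 * M.E.ncard := by
  induction t with
  | leaf a =>
    change 2 * M.E.ncard < 3 * ({a} : Set α).ncard at h
    rw [Set.ncard_singleton] at h
    omega
  | node l r h1 h2 =>
    obtain ⟨hl, hr, hd⟩ := hi
    obtain ⟨hc, hwl, hwr⟩ := hw
    have hu : (l.set ∪ r.set).ncard = l.set.ncard + r.set.ncard :=
      Set.ncard_union_eq hd l.set_finite r.set_finite
    change 2 * M.E.ncard < 3 * (l.set ∪ r.set).ncard at h
    by_cases ha : 2 * M.E.ncard < 3 * l.set.ncard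
    · obtain ⟨X, hX, h3⟩ := h1 hl hwl ha
      exact ⟨X, hX.trans Set.subset_union_left, h3⟩
    by_cases hb : 2 * M.E.ncard < 3 * r.set.ncard
    · obtain ⟨X, hX, h3⟩ := h2 hr hwr hb
      exact ⟨X, hX.trans Set.subset_union_right, h3⟩
    by_cases hab : M.E.ncard ≤ 3 * l.set.ncard
    · exact ⟨l.set, Set.subset_union_left, bw8_width_conn M hwl, hab, by omega⟩
    · exact ⟨r.set, Set.subset_union_right, bw8_width_conn M hwr, by omega, by omega⟩

/-- a sparse paving matroid with at least nine elements, of rank and corank at least four, has branch-width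
at least four -/
theorem sp_not_bw (hs : SparsePaving M) (h9 : 9 ≤ M.E.ncard) (h4 : 4 ≤ rk M M.E)
    (h5 : rk M M.E + 4 ≤ M.E.ncard) : ¬ BwLE M 3 := by
  rintro (⟨h1, -⟩ | ⟨t, h1, h2, h3⟩)
  · rw [← M.ground_finite.cast_ncard_eq] at h1
    have : M.E.ncard ≤ 1 := by exact_mod_cast h1
    omega
  · obtain ⟨X, hX, hc, ha, hb⟩ := balanced (M := M) t h1 h3 (by omega) (by rw [h2]; omega)
    rw [h2] at hX
    have h6 := ncard_compl hX
    have hY : M.E \ X ⊆ M.E := Set.sdiff_subset
    unfold conn at hc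
    rcases lt_trichotomy X.ncard (rk M M.E) with h7 | h7 | h7 <;>
      rcases lt_trichotomy (M.E \ X).ncard (rk M M.E) with h8 | h8 | h8
    · have := sp_lt hs hX h7; have := sp_lt hs hY h8; omega
    · have := sp_lt hs hX h7; have := sp_eq hs hY h8; omega
    · have := sp_lt hs hX h7; have := sp_gt hs hY h8; omega
    · have := sp_eq hs hX h7; have := sp_lt hs hY h8; omega
    · have := sp_eq hs hX h7; have := sp_eq hs hY h8; omega
    · have := sp_eq hs hX h7; have := sp_gt hs hY h8; omega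
    · have := sp_gt hs hX h7; have := sp_lt hs hY h8; omega
    · have := sp_gt hs hX h7; have := sp_eq hs hY h8; omega
    · have := sp_gt hs hX h7; have := sp_gt hs hY h8; omega

theorem sp_delete (hs : SparsePaving M) {e : α} (he : e ∈ M.E) (h : rk M M.E + 2 ≤ M.E.ncard) :
    SparsePaving (M.delete {e}) ∧ rk (M.delete {e}) (M.E \ {e}) = rk M M.E := by
  have hE : (M.delete {e}).E = M.E \ {e} := rfl
  have hc := Set.ncard_sdiff_singleton_add_one he M.ground_finite
  have h1 : rk (M.delete {e}) (M.E \ {e}) = rk M M.E := by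
    rw [rk_delete M (subset_refl _)]
    exact sp_gt hs Set.sdiff_subset (by omega)
  refine ⟨fun X hX => ?_, h1⟩
  rw [hE] at hX
  rw [hE, h1, rk_delete M hX]
  exact hs X (hX.trans Set.sdiff_subset)

theorem sp_dual (hs : SparsePaving M) : SparsePaving M.dual := by
  have hd := rk_dual_ground M
  intro X hX
  rw [Matroid.dual_ground] at hX ⊢
  have h1 := rk_dual M hX
  have h2 := ncard_compl hX
  constructor
  · intro h3
    have := (hs (M.E \ X) Set.sdiff_subset).2 (by omega)
    omega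
  · intro h3
    have := (hs (M.E \ X) Set.sdiff_subset).1 (by omega)
    omega

theorem sp_ten (hs : SparsePaving M) (h9 : 10 ≤ M.E.ncard) (h4 : 4 ≤ rk M M.E)
    (h5 : rk M M.E + 4 ≤ M.E.ncard) : ¬ ExMinor M := by
  have key : ∀ N : Matroid α, N.Finite → SparsePaving N → 10 ≤ N.E.ncard → 4 ≤ rk N N.E →
      rk N N.E + 5 ≤ N.E.ncard → ¬ ExMinor N := by
    intro N hN hs h9 h4 h5 hx
    obtain ⟨e, he⟩ : N.E.Nonempty := by
      rw [← Set.ncard_pos N.ground_finite]
      omega
    have hfin : (N.delete {e}).Finite := finite_of_minor (delete_isStrictMinor N he).1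
    have hE : (N.delete {e}).E = N.E \ {e} := rfl
    have hc := Set.ncard_sdiff_singleton_add_one he N.ground_finite
    obtain ⟨h1, h2⟩ := sp_delete hs he (by omega)
    exact sp_not_bw h1 (by rw [hE]; omega) (by rw [hE, h2]; omega) (by rw [hE, h2]; omega)
      (hx.2 _ (delete_isStrictMinor N he))
  by_cases h6 : rk M M.E + 5 ≤ M.E.ncard
  · exact key M inferInstance hs h9 h4 h6
  · have hd := rk_dual_ground M
    rw [← ExMinor_dual_iff]
    refine key M.dual inferInstance (sp_dual hs) ?_ ?_ ?_ <;>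
      rw [Matroid.dual_ground] <;> omega

theorem sp_nine (hs : SparsePaving M) (h9 : M.E.ncard = 9) (h4 : rk M M.E = 4) (h : ExMinor M) :
    (∀ X ⊆ M.E, ∀ Y ⊆ M.E, X.ncard = 4 → Y.ncard = 4 → X ≠ Y → rk M X = 3 → rk M Y = 3 →
      (X ∩ Y).ncard ≤ 2) ∧
    ∀ e ∈ M.E, ∃ X ⊆ M.E \ {e}, X.ncard = 4 ∧ rk M X = 3 ∧ rk M ((M.E \ {e}) \ X) = 3 := by
  refine ⟨fun X hX Y hY hX4 hY4 hne hrX hrY => ?_, fun e he => ?_⟩
  · have := sp_inter hs hX hY (by omega) (by omega) hne (by omega) (by omega)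
    omega
  · have hfin : (M.delete {e}).Finite := finite_of_minor (delete_isStrictMinor M he).1
    have hE : (M.delete {e}).E = M.E \ {e} := rfl
    have hc := Set.ncard_sdiff_singleton_add_one he M.ground_finite
    obtain ⟨h1, h2⟩ := sp_delete hs he (by omega)
    have h3 := h.2 _ (delete_isStrictMinor M he)
    rw [bw8 _ (by rw [hE]; omega), hE] at h3
    have hr : rk (M.delete {e}) (M.delete {e}).E = 4 := by rw [hE, h2, h4]
    have three : ∀ X ⊆ M.E \ {e}, X.ncard = 3 → ¬ conn (M.delete {e}) X ≤ 3 := by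
      intro X hX hX3 hc3
      have h5 := sp_lt h1 hX (by omega)
      have h7 := Set.ncard_sdiff_add_ncard_of_subset hX (M.ground_finite.subset Set.sdiff_subset)
      have h6 := sp_gt h1 (Set.sdiff_subset : (M.E \ {e}) \ X ⊆ M.E \ {e}) (by omega)
      unfold conn at hc3
      rw [hE] at hc3 h6 hr
      omega
    rcases h3 with ⟨X, hX, hX4, hc3⟩ | ⟨X, hX, Y, hY, hX3, hY3, -, hcX, -⟩
    · have h5 := sp_eq h1 hX (by omega)
      have h7 := Set.ncard_sdiff_add_ncard_of_subset hX (M.ground_finite.subset Set.sdiff_subset)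
      have h6 := sp_eq h1 (Set.sdiff_subset : (M.E \ {e}) \ X ⊆ M.E \ {e}) (by omega)
      unfold conn at hc3
      rw [hE] at hc3 h6 h5 hr
      rw [rk_delete M hX] at hc3 h5
      rw [rk_delete M Set.sdiff_subset] at hc3 h6
      rw [h2] at hc3 h5 h6
      exact ⟨X, hX, hX4, by omega, by omega⟩
    · exact absurd hcX (three X hX hX3)

end

end Pool.Agent.BW3
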