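import Pool.Agent.Lib_MP_a68485_co.SP0
import Pool.Agent.Lib_MP_a68485_co.Sound

/-!
# MP_a68485_co: the sparse paving excluded minor with nine elements is unique (piece B)

A family of four-element sets on nine points, two of which meet in at most two points, such that the complement of
every point is the union of two disjoint members, is the set of the circles of the Moebius plane of order three that
miss a point, up to a permutation. The first two pairs are fixed by symmetry, the rest is a search checked by the
kernel.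
-/

set_option autoImplicit false

namespace Pool.Agent.BW3.SPB

/-- the conditions on the family -/
structure Good9 (N : Finset (Fin 9) → Prop) : Prop where
  card : ∀ A, N A → A.card = 4
  meet : ∀ A B, N A → N B → A ≠ B → (A ∩ B).card ≤ 2
  pair : ∀ e, ∃ A, e ∉ A ∧ N A ∧ N (Finset.univ.erase e \ A)

/-- every good family that contains the members of `P` is `mobius`, up to a permutation -/
def Claim9 (P : List ℕ) : Prop :=
  ∀ N : Finset (Fin 9) → Prop, Good9 N → (∀ m ∈ P, N (bits 9 m)) →
    ∃ σ : Equiv.Perm (Fin 9), ∀ A : Finset (Fin 9), N (A.map σ.toEmbedding) ↔ ∃ m ∈ mobius, bits 9 m = A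

/-- one of the permutations in `cs` maps the members of `Q` into `P` -/
def wl (cs Q P : List ℕ) : Bool :=
  cs.any fun c => isPerm 9 9 c 0 && Q.all fun l => P.any fun x => Nat.beq (pm 9 c l) x

/-- `m` has exactly three elements in common with some member of `P` -/
def bad9 (P : List ℕ) (m : ℕ) : Bool := P.any fun l => Nat.beq (pc 9 (m &&& l)) 3

/-- the rest of the complement of the point `e` -/
def co (e m : ℕ) : ℕ := (511 ^^^ 2 ^ e) ^^^ ((511 ^^^ 2 ^ e) &&& m)

/-- the first two points of a set of candidates: `0`, or `1` if `e = 0` -/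
def el (e : ℕ) : ℕ := if e = 0 then 1 else 0

/-- the search over the points in the list; `leaf` is the test at the end -/
def dfs (leaf : List ℕ → Bool) : List (ℕ × List ℕ) → List ℕ → Bool
  | [], P => leaf P
  | q :: es, P => q.2.all fun m => bad9 P m || (bad9 P (co q.1 m) || dfs leaf es (m :: co q.1 m :: P))

/-- the list of candidates is complete -/
def full (q : ℕ × List ℕ) : Bool :=
  Nat.blt q.1 9 && (List.range 512).all fun m => !(Nat.beq (pc 9 m) 4) || (m.testBit q.1 || (!(m.testBit (el q.1)) ||
    q.2.any fun x => Nat.beq x m))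

def s0 : ℕ × List ℕ := (0, [30, 46, 54, 58, 78, 86, 90, 102, 106, 114, 142, 150, 154, 166, 170, 178, 198, 202, 210, 226, 270, 278, 282, 294, 298, 306, 326, 330, 338, 354, 390, 394, 402, 418, 450])

def s1 : ℕ × List ℕ := (1, [29, 45, 53, 57, 77, 85, 89, 101, 105, 113, 141, 149, 153, 165, 169, 177, 197, 201, 209, 225, 269, 277, 281, 293, 297, 305, 325, 329, 337, 353, 389, 393, 401, 417, 449])

def s2 : ℕ × List ℕ := (2, [27, 43, 51, 57, 75, 83, 89, 99, 105, 113, 139, 147, 153, 163, 169, 177, 195, 201, 209, 225, 267, 275, 281, 291, 297, 305, 323, 329, 337, 353, 387, 393, 401, 417, 449])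

def s3 : ℕ × List ℕ := (3, [23, 39, 51, 53, 71, 83, 85, 99, 101, 113, 135, 147, 149, 163, 165, 177, 195, 197, 209, 225, 263, 275, 277, 291, 293, 305, 323, 325, 337, 353, 387, 389, 401, 417, 449])

def s4 : ℕ × List ℕ := (4, [15, 39, 43, 45, 71, 75, 77, 99, 101, 105, 135, 139, 141, 163, 165, 169, 195, 197, 201, 225, 263, 267, 269, 291, 293, 297, 323, 325, 329, 353, 387, 389, 393, 417, 449])

def s5 : ℕ × List ℕ := (5, [15, 23, 27, 29, 71, 75, 77, 83, 85, 89, 135, 139, 141, 147, 149, 153, 195, 197, 201, 209, 263, 267, 269, 275, 277, 281, 323, 325, 329, 337, 387, 389, 393, 401, 449])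

def s6 : ℕ × List ℕ := (6, [15, 23, 27, 29, 39, 43, 45, 51, 53, 57, 135, 139, 141, 147, 149, 153, 163, 165, 169, 177, 263, 267, 269, 275, 277, 281, 291, 293, 297, 305, 387, 389, 393, 401, 417])

def s7 : ℕ × List ℕ := (7, [15, 23, 27, 29, 39, 43, 45, 51, 53, 57, 71, 75, 77, 83, 85, 89, 99, 101, 105, 113, 263, 267, 269, 275, 277, 281, 291, 293, 297, 305, 323, 325, 329, 337, 353])

def s8 : ℕ × List ℕ := (8, [15, 23, 27, 29, 39, 43, 45, 51, 53, 57, 71, 75, 77, 83, 85, 89, 99, 101, 105, 113, 135, 139, 141, 147, 149, 153, 163, 165, 169, 177, 195, 197, 201, 209, 225])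

def cs0 : List ℕ := [35486004816, 35754440256, 35771217456, 35772266016, 35772331536, 36022875456, 36039652656, 36040701216, 36040766736, 36056429616, 36057478176, 36057543696, 36058526496, 36058592016, 36058657296, 36291306816, 36308084016, 36309132576, 36309198096, 36324860976, 36325909536, 36325975056, 36326957856, 36327023376, 36327088656, 36341634096, 36342682656, 36342748176, 36343730976, 36343796496, 36343861776, 36344775456, 36344840976, 36344906256, 36344967696]

def cs1 : List ℕ := [36312518706, 36312522801, 36312523056, 36312526881, 36312527136, 36312527376, 36329230386, 36329234481, 36329234736, 36329238561, 36329238816, 36329239056, 36344959026, 36344963121, 36344963376, 36344967201, 36344967456, 36344967696]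

def cs2 : List ℕ := [36343980816, 36343984656, 36344963856, 36344967696]

theorem full0 : full s0 = true := by decide +kernel
theorem full1 : full s1 = true := by decide +kernel
theorem full2 : full s2 = true := by decide +kernel
theorem full3 : full s3 = true := by decide +kernel
theorem full4 : full s4 = true := by decide +kernel
theorem full5 : full s5 = true := by decide +kernel
theorem full6 : full s6 = true := by decide +kernel
theorem full7 : full s7 = true := by decide +kernel
theorem full8 : full s8 = true := by decide +kernel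

theorem max9 : ((List.range 512).all fun m => !(Nat.beq (pc 9 m) 4) || ((mobius.any fun x => Nat.beq x m) ||
    bad9 mobius m)) = true := by decide +kernel

theorem ok0 : dfs (wl cs0 [15, 240]) [s8] [] = true := by decide +kernel

theorem ok1 : dfs (wl cs1 [323, 60, 15, 240]) [s7] [15, 240] = true := by decide +kernel

theorem ok2 : dfs (wl cs2 mobius) [s6, s5, s4, s3, s2, s1, s0] [323, 60, 15, 240] = true := by decide +kernel

theorem Good9.map {N : Finset (Fin 9) → Prop} (h : Good9 N) (σ : Equiv.Perm (Fin 9)) :
    Good9 fun A => N (A.map σ.toEmbedding) where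
  card A hA := by simpa using h.card _ hA
  meet A B hA hB hAB := by
    have := h.meet _ _ hA hB (fun h' => hAB (Finset.map_injective _ h'))
    rwa [← Finset.map_inter, Finset.card_map] at this
  pair e := by
    obtain ⟨A, he, hA, hB⟩ := h.pair (σ e)
    have h1 : (A.map σ.symm.toEmbedding).map σ.toEmbedding = A := by
      ext x
      simp
    refine ⟨A.map σ.symm.toEmbedding, ?_, ?_, ?_⟩
    · intro hx
      rw [Finset.mem_map] at hx
      obtain ⟨y, hy, hxy⟩ := hx
      apply he
      have : σ e = y := by
        rw [← hxy]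
        simp
      rwa [this]
    · show N (Finset.map σ.toEmbedding (Finset.map σ.symm.toEmbedding A))
      rwa [h1]
    · show N (Finset.map σ.toEmbedding _)
      have h2 : Finset.map σ.toEmbedding (Finset.univ.erase e \ A.map σ.symm.toEmbedding) =
          Finset.univ.erase (σ e) \ A := by
        ext x
        simp only [Finset.mem_map, Finset.mem_sdiff, Finset.mem_erase, Finset.mem_univ, and_true,
          Equiv.coe_toEmbedding]
        constructor
        · rintro ⟨y, ⟨hy1, hy2⟩, rfl⟩
          refine ⟨fun h' => hy1 (σ.injective h'), fun h' => hy2 ⟨σ y, h', by simp⟩⟩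
        · rintro ⟨hx1, hx2⟩
          refine ⟨σ.symm x, ⟨fun h' => hx1 (by rw [← h']; simp), ?_⟩, by simp⟩
          rintro ⟨y, hy, hyx⟩
          exact hx2 (by rwa [← σ.symm.injective hyx])
      rwa [h2]

theorem wl_sound {cs Q P : List ℕ} (hQ : Claim9 Q) (h : wl cs Q P = true) : Claim9 P := by
  intro N hN hP
  rw [wl, List.any_eq_true] at h
  obtain ⟨c, -, h⟩ := h
  rw [Bool.and_eq_true] at h
  obtain ⟨σ, hσ⟩ := exists_perm h.1
  obtain ⟨τ, hτ⟩ := hQ (fun A => N (A.map σ.toEmbedding)) (hN.map σ) (by
    intro l hl
    have h1 := List.all_eq_true.1 h.2 l hl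
    rw [List.any_eq_true] at h1
    obtain ⟨x, hx, h1⟩ := h1
    show N ((bits 9 l).map σ.toEmbedding)
    rw [hσ, Nat.eq_of_beq_eq_true h1]
    exact hP x hx)
  refine ⟨τ.trans σ, fun A => ?_⟩
  rw [← hτ A]
  show _ ↔ N (Finset.map σ.toEmbedding (Finset.map τ.toEmbedding A))
  rw [Finset.map_map]
  rfl

theorem bad_sound {N : Finset (Fin 9) → Prop} (hN : Good9 N) {P : List ℕ} (hP : ∀ l ∈ P, N (bits 9 l)) {m : ℕ}
    (hm : N (bits 9 m)) (h : bad9 P m = true) : False := by
  rw [bad9, List.any_eq_true] at h
  obtain ⟨l, hl, h⟩ := h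
  have h1 := Nat.eq_of_beq_eq_true h
  rw [pc_eq_card, ← bits_inter] at h1
  have h2 : bits 9 m ≠ bits 9 l := by
    intro h2
    rw [h2, Finset.inter_self, hN.card _ (hP l hl)] at h1
    omega
  have := hN.meet _ _ hm (hP l hl) h2
  omega

theorem claim_mobius : Claim9 mobius := by
  intro N hN hP
  refine ⟨Equiv.refl _, fun A => ?_⟩
  have h0 : A.map (Equiv.refl (Fin 9)).toEmbedding = A := by
    ext x
    simp
  rw [h0]
  constructor
  · intro hA
    obtain ⟨m, hm, rfl⟩ := exists_mask A
    have h1 := List.all_eq_true.1 max9 m (List.mem_range.2 hm)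
    rw [Bool.or_eq_true, Bool.or_eq_true] at h1
    rcases h1 with h1 | h1 | h1
    · exfalso
      have h2 := hN.card _ hA
      rw [← pc_eq_card] at h2
      rw [h2] at h1
      simp at h1
    · rw [List.any_eq_true] at h1
      obtain ⟨x, hx, h1⟩ := h1
      exact ⟨x, hx, by rw [Nat.eq_of_beq_eq_true h1]⟩
    · exact (bad_sound hN hP hA h1).elim
  · rintro ⟨m, hm, rfl⟩
    exact hP m hm

theorem bits_co (e : Fin 9) (m : ℕ) : bits 9 (co e m) = Finset.univ.erase e \ bits 9 m := by
  rw [co, ← bits_sdiff, ← bits_erase]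
  norm_num

theorem dfs_sound (leaf : List ℕ → Bool) (hleaf : ∀ P, leaf P = true → Claim9 P) (es : List (ℕ × List ℕ))
    (hes : ∀ q ∈ es, full q = true) (P : List ℕ) (h : dfs leaf es P = true) : Claim9 P := by
  induction es generalizing P with
  | nil => exact hleaf P h
  | cons q es ih =>
    intro N hN hP
    have hq := hes q (List.mem_cons_self ..)
    rw [full, Bool.and_eq_true] at hq
    have he : q.1 < 9 := by simpa using hq.1
    have key : ∀ A : Finset (Fin 9), (⟨q.1, he⟩ : Fin 9) ∉ A → N A →
        N (Finset.univ.erase (⟨q.1, he⟩ : Fin 9) \ A) → (∃ hl : el q.1 < 9, (⟨el q.1, hl⟩ : Fin 9) ∈ A) →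
        ∃ σ : Equiv.Perm (Fin 9), ∀ A : Finset (Fin 9), N (A.map σ.toEmbedding) ↔ ∃ m ∈ mobius, bits 9 m = A := by
      intro A heA hA hB hlA
      obtain ⟨m, hm, rfl⟩ := exists_mask A
      obtain ⟨hl9, hlA⟩ := hlA
      have h1 := List.all_eq_true.1 hq.2 m (List.mem_range.2 hm)
      rw [mem_bits] at heA hlA
      have h2 := hN.card _ hA
      rw [← pc_eq_card] at h2
      have h3 : m.testBit q.1 = false := by
        cases h : m.testBit q.1
        · rfl
        · exact absurd h heA
      have h4 : m.testBit (el q.1) = true := hlA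
      rw [h2, h3, h4] at h1
      have h5 : (q.2.any fun x => Nat.beq x m) = true := by simpa using h1
      rw [List.any_eq_true] at h5
      obtain ⟨x, hx, hxm⟩ := h5
      rw [Nat.eq_of_beq_eq_true hxm] at hx
      have h6 := List.all_eq_true.1 h m hx
      rw [Bool.or_eq_true, Bool.or_eq_true] at h6
      have hB' : N (bits 9 (co q.1 m)) := by
        have := bits_co ⟨q.1, he⟩ m
        rw [show ((⟨q.1, he⟩ : Fin 9) : ℕ) = q.1 from rfl] at this
        rwa [this]
      rcases h6 with h6 | h6 | h6
      · exact (bad_sound hN hP hA h6).elim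
      · exact (bad_sound hN hP hB' h6).elim
      · refine ih (fun q hq => hes q (List.mem_cons_of_mem _ hq)) _ h6 N hN ?_
        intro l hl
        rcases List.mem_cons.1 hl with rfl | hl
        · exact hA
        · rcases List.mem_cons.1 hl with rfl | hl
          · exact hB'
          · exact hP l hl
    obtain ⟨A, heA, hA, hB⟩ := hN.pair ⟨q.1, he⟩
    have hl9 : el q.1 < 9 := by
      unfold el
      split_ifs <;> norm_num
    have hle : (⟨el q.1, hl9⟩ : Fin 9) ≠ ⟨q.1, he⟩ := by
      intro h'
      have h'' := congrArg Fin.val h'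
      simp only [el] at h''
      split_ifs at h'' <;> omega
    by_cases hl : (⟨el q.1, hl9⟩ : Fin 9) ∈ A
    · exact key A heA hA hB ⟨hl9, hl⟩
    · refine key (Finset.univ.erase (⟨q.1, he⟩ : Fin 9) \ A) (by simp) hB ?_ ⟨hl9, ?_⟩
      · have h1 : Finset.univ.erase (⟨q.1, he⟩ : Fin 9) \ (Finset.univ.erase (⟨q.1, he⟩ : Fin 9) \ A) = A := by
          ext x
          simp only [Finset.mem_sdiff, Finset.mem_erase, Finset.mem_univ, and_true, not_and, not_not]
          constructor
          · rintro ⟨h1, h2⟩
            exact h2 h1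
          · intro h1
            exact ⟨fun h2 => heA (h2 ▸ h1), fun _ => h1⟩
        rwa [h1]
      · simp only [Finset.mem_sdiff, Finset.mem_erase, Finset.mem_univ, and_true]
        exact ⟨hle, hl⟩

theorem claim2 : Claim9 [323, 60, 15, 240] := by
  refine dfs_sound _ (fun P h => wl_sound claim_mobius h) _ ?_ _ ok2
  intro q hq
  simp only [List.mem_cons, List.not_mem_nil, or_false] at hq
  rcases hq with rfl | rfl | rfl | rfl | rfl | rfl | rfl
  · exact full6
  · exact full5
  · exact full4
  · exact full3
  · exact full2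
  · exact full1
  · exact full0

theorem claim1 : Claim9 [15, 240] := by
  refine dfs_sound _ (fun P h => wl_sound claim2 h) _ ?_ _ ok1
  intro q hq
  rw [List.mem_singleton.1 hq]
  exact full7

theorem claim0 : Claim9 [] := by
  refine dfs_sound _ (fun P h => wl_sound claim1 h) _ ?_ _ ok0
  intro q hq
  rw [List.mem_singleton.1 hq]
  exact full8

end Pool.Agent.BW3.SPB

namespace Pool.Agent.BW3

/-- a family of four-element sets on nine points, two of which meet in at most two points, such that the complement of
every point is the union of two disjoint members, is `mobius` up to a permutation -/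
theorem class9 (N : Finset (Fin 9) → Prop) (h4 : ∀ A, N A → A.card = 4)
    (h1 : ∀ A B, N A → N B → A ≠ B → (A ∩ B).card ≤ 2)
    (h2 : ∀ e, ∃ A, e ∉ A ∧ N A ∧ N (Finset.univ.erase e \ A)) :
    ∃ σ : Equiv.Perm (Fin 9), ∀ A : Finset (Fin 9), N (A.map σ.toEmbedding) ↔ ∃ m ∈ mobius, bits 9 m = A :=
  SPB.claim0 N ⟨h4, h1, h2⟩ (by simp)

end Pool.Agent.BW3
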