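import Pool.Agent.Lib_MP_a68485_co.Rank3

/-!
# MP_a68485_co: branch-width of the matroids with at most seven elements, excluded minors with at most eight elements
-/

set_option autoImplicit false

namespace Pool.Agent.BW3

open Set

variable {α : Type*}

theorem ncard_compl {M : Matroid α} [M.Finite] {X : Set α} (hX : X ⊆ M.E) :
    (M.E \ X).ncard + X.ncard = M.E.ncard :=
  Set.ncard_sdiff_add_ncard_of_subset hX M.ground_finite

theorem bw_rank3 (N : Matroid α) [N.Finite] (hr : rk N N.E = 3) (h : N.E.ncard ≤ 7) :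
    BwLE N 3 ↔ ¬ (N.E.ncard = 7 ∧ ∀ X ⊆ N.E, X.ncard = 3 → rk N X = 3) := by
  rw [bw_iff_cov N hr]
  constructor
  · rintro ⟨A, hA, B, hB, C, hC, h0⟩ ⟨h7, hall⟩
    have h0' : ((N.E \ A) \ B) \ C = ∅ := h0
    have key : ∀ L, rk N L ≤ 2 → (N.E ∩ L).ncard ≤ 2 := by
      intro L hL
      by_contra hc
      obtain ⟨P, hP, hPc⟩ := Set.exists_subset_card_eq (show 3 ≤ (N.E ∩ L).ncard by omega)
      have h1 := hall P (hP.trans Set.inter_subset_left) hPc
      have h2 := rk_mono N (hP.trans Set.inter_subset_right)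
      omega
    have hsub : N.E ⊆ (N.E ∩ A) ∪ (N.E ∩ B) ∪ (N.E ∩ C) := by
      intro z hz
      by_contra hz'
      have : z ∈ ((N.E \ A) \ B) \ C :=
        ⟨⟨⟨hz, fun h => hz' (Or.inl (Or.inl ⟨hz, h⟩))⟩, fun h => hz' (Or.inl (Or.inr ⟨hz, h⟩))⟩,
          fun h => hz' (Or.inr ⟨hz, h⟩)⟩
      rw [h0'] at this
      exact this
    have hf : ((N.E ∩ A) ∪ (N.E ∩ B) ∪ (N.E ∩ C)).Finite :=
      N.ground_finite.subset (Set.union_subset (Set.union_subset Set.inter_subset_left Set.inter_subset_left)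
        Set.inter_subset_left)
    have h1 := Set.ncard_le_ncard hsub hf
    have h2 := Set.ncard_union_le ((N.E ∩ A) ∪ (N.E ∩ B)) (N.E ∩ C)
    have h3 := Set.ncard_union_le (N.E ∩ A) (N.E ∩ B)
    have h4 := key A hA
    have h5 := key B hB
    have h6 := key C hC
    omega
  · intro hn
    rcases Nat.lt_or_ge N.E.ncard 7 with h6 | h6
    · exact cov_of_ncard N N.ground_finite (by omega)
    · have h7 : N.E.ncard = 7 := by omega
      have hex : ∃ X ⊆ N.E, X.ncard = 3 ∧ rk N X ≤ 2 := by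
        by_contra hc
        refine hn ⟨h7, fun X hX hX3 => ?_⟩
        have h1 : ¬ rk N X ≤ 2 := fun h => hc ⟨X, hX, hX3, h⟩
        have h2 := rk_le_ncard N (N.ground_finite.subset hX)
        omega
      obtain ⟨X, hX, hX3, hr2⟩ := hex
      have h8 := ncard_compl hX
      exact ⟨X, hr2, cov_of_ncard N (k := 2) (N.ground_finite.subset Set.sdiff_subset) (by omega)⟩

theorem rk_dual_ground (M : Matroid α) [M.Finite] : rk M.dual M.E + rk M M.E = M.E.ncard := by
  have h := rk_dual M (subset_refl M.E)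
  rw [Set.sdiff_self, rk_empty] at h
  omega

theorem bw7 (N : Matroid α) [N.Finite] (h : N.E.ncard ≤ 7) :
    BwLE N 3 ↔ ¬ (N.E.ncard = 7 ∧ ((rk N N.E = 3 ∧ ∀ X ⊆ N.E, X.ncard = 3 → rk N X = 3) ∨
      (rk N N.E = 4 ∧ ∀ X ⊆ N.E, X.ncard = 4 → rk N X = 4))) := by
  have hd := rk_dual_ground N
  rcases Nat.lt_or_ge (rk N N.E) 3 with h1 | h1
  · exact iff_of_true (bw_of_rank_le N (by omega)) (by rintro ⟨-, ⟨h2, -⟩ | ⟨h2, -⟩⟩ <;> omega)
  rcases Nat.lt_or_ge (rk N.dual N.E) 3 with h2 | h2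
  · have h3 : rk N.dual N.dual.E ≤ 2 := by
      rw [Matroid.dual_ground]
      omega
    exact iff_of_true ((BwLE_dual N 3).1 (bw_of_rank_le N.dual h3))
      (by rintro ⟨h3, ⟨h4, -⟩ | ⟨h4, -⟩⟩ <;> omega)
  rcases Nat.lt_or_ge (rk N N.E) 4 with h3 | h3
  · have h4 : rk N N.E = 3 := by omega
    rw [bw_rank3 N h4 h]
    constructor
    · rintro h5 ⟨h6, ⟨-, h7⟩ | ⟨h7, -⟩⟩
      · exact h5 ⟨h6, h7⟩
      · omega
    · rintro h5 ⟨h6, h7⟩
      exact h5 ⟨h6, Or.inl ⟨h4, h7⟩⟩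
  · have h4 : rk N N.E = 4 := by omega
    have h5 : N.E.ncard = 7 := by omega
    have h6 : rk N.dual N.dual.E = 3 := by
      rw [Matroid.dual_ground]
      omega
    rw [← BwLE_dual N 3, bw_rank3 N.dual h6 (by rw [Matroid.dual_ground]; omega), Matroid.dual_ground]
    have key : ∀ X ⊆ N.E, rk N.dual X + 4 = rk N (N.E \ X) + X.ncard := fun X hX => by
      rw [← h4]
      exact rk_dual N hX
    constructor
    · rintro h7 ⟨-, ⟨h8, -⟩ | ⟨-, h8⟩⟩
      · omega
      · refine h7 ⟨h5, fun X hX h9 => ?_⟩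
        have h10 := key X hX
        have h12 := ncard_compl hX
        have h11 := h8 (N.E \ X) Set.sdiff_subset (by omega)
        omega
    · rintro h7 ⟨-, h8⟩
      refine h7 ⟨h5, Or.inr ⟨h4, fun X hX h9 => ?_⟩⟩
      have h12 := ncard_compl hX
      have h10 := h8 (N.E \ X) Set.sdiff_subset (by omega)
      have h11 := key (N.E \ X) Set.sdiff_subset
      rw [Set.sdiff_sdiff_cancel_left hX] at h11
      omega

/-! ### deletion of an element in a matroid of rank four with eight elements -/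

section

variable (M : Matroid α) [M.Finite]

omit [M.Finite] in
theorem delete_isStrictMinor {e : α} (he : e ∈ M.E) : (M.delete {e}).IsStrictMinor M := by
  rw [Matroid.isStrictMinor_iff_isMinor_ssubset]
  refine ⟨⟨∅, {e}, by rw [Matroid.contract_empty]⟩, Set.sdiff_subset, fun h => ?_⟩
  exact (h he).2 rfl

omit [M.Finite] in
theorem contract_isStrictMinor {e : α} (he : e ∈ M.E) : (M.contract {e}).IsStrictMinor M := by
  rw [Matroid.isStrictMinor_iff_isMinor_ssubset]
  refine ⟨⟨{e}, ∅, by rw [Matroid.delete_empty]⟩, Set.sdiff_subset, fun h => ?_⟩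
  exact (h he).2 rfl

omit [M.Finite] in
theorem rk_delete {e : α} {X : Set α} (hX : X ⊆ M.E \ {e}) : rk (M.delete {e}) X = rk M X := by
  rw [Matroid.delete_eq_restrict, rk_restrict M hX]

variable {M}

theorem delete_forward (h8 : M.E.ncard = 8) (h4 : rk M M.E = 4) {e : α} (he : e ∈ M.E)
    (h : BwLE (M.delete {e}) 3) : ∃ X ⊆ M.E, X.ncard = 4 ∧ e ∉ X ∧ rk M X ≤ 3 := by
  have hfin : (M.delete {e}).Finite := finite_of_minor (delete_isStrictMinor M he).1
  have hE : (M.delete {e}).E = M.E \ {e} := rfl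
  have hc : (M.E \ {e}).ncard + 1 = 8 := by
    rw [Set.ncard_sdiff_singleton_add_one he M.ground_finite, h8]
  rw [bw7 _ (by rw [hE]; omega), hE] at h
  by_contra hcon
  push Not at hcon
  have hall : ∀ X ⊆ M.E \ {e}, X.ncard = 4 → rk M X = 4 := by
    intro X hX hX4
    have h1 := hcon X (hX.trans Set.sdiff_subset) hX4 (fun h => (hX h).2 rfl)
    have h2 := rk_le_ncard M (M.ground_finite.subset (hX.trans Set.sdiff_subset))
    omega
  obtain ⟨P, hP, hPc⟩ := Set.exists_subset_card_eq (show 4 ≤ (M.E \ {e}).ncard by omega)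
  have h1 := hall P hP hPc
  have h2 := rk_mono M hP
  have h3 := rk_le_rank M (M.E \ {e})
  refine h ⟨by omega, Or.inr ⟨?_, fun X hX hX4 => ?_⟩⟩
  · rw [rk_delete M (subset_refl _)]
    omega
  · rw [rk_delete M hX]
    exact hall X hX hX4

theorem delete_backward (h8 : M.E.ncard = 8) (h4 : rk M M.E = 4) {e : α} (he : e ∈ M.E)
    (hX : ∃ X ⊆ M.E, X.ncard = 4 ∧ e ∉ X ∧ rk M X ≤ 3) (hY : ∃ X ⊆ M.E, X.ncard = 4 ∧ e ∈ X ∧ rk M X ≤ 3) :
    BwLE (M.delete {e}) 3 := by
  have hfin : (M.delete {e}).Finite := finite_of_minor (delete_isStrictMinor M he).1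
  have hE : (M.delete {e}).E = M.E \ {e} := rfl
  have hc : (M.E \ {e}).ncard + 1 = 8 := by
    rw [Set.ncard_sdiff_singleton_add_one he M.ground_finite, h8]
  rw [bw7 _ (by rw [hE]; omega), hE]
  rintro ⟨-, ⟨h1, h2⟩ | ⟨h1, h2⟩⟩
  · obtain ⟨Y, hY, hY4, heY, hrY⟩ := hY
    have h3 : Y \ {e} ⊆ M.E \ {e} := Set.sdiff_subset_sdiff_left hY
    have h5 := Set.ncard_sdiff_singleton_add_one heY (M.ground_finite.subset hY)
    have h6 := h2 _ h3 (by omega)
    rw [rk_delete M h3] at h6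
    rw [rk_delete M (subset_refl _)] at h1
    have h7 := rk_sub M Y (M.E \ {e})
    have h9 : Y ∩ (M.E \ {e}) = Y \ {e} := by
      ext z
      exact ⟨fun h => ⟨h.1, h.2.2⟩, fun h => ⟨h.1, hY h.1, h.2⟩⟩
    have h10 : Y ∪ (M.E \ {e}) = M.E := by
      ext z
      constructor
      · rintro (h | h)
        · exact hY h
        · exact h.1
      · intro h
        by_cases hz : z = e
        · exact Or.inl (hz ▸ heY)
        · exact Or.inr ⟨h, hz⟩
    rw [h9, h10] at h7
    omega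
  · obtain ⟨X, hX, hX4, heX, hrX⟩ := hX
    have h3 : X ⊆ M.E \ {e} := fun z hz => ⟨hX hz, fun h => heX (h ▸ hz)⟩
    have h6 := h2 _ h3 hX4
    rw [rk_delete M h3] at h6
    omega

/-- in rank four with eight elements, complementation exchanges the conditions for the dual -/
theorem dual_cond (h8 : M.E.ncard = 8) (h4 : rk M M.E = 4) {e : α} (he : e ∈ M.E) :
    ((∃ X ⊆ M.E, X.ncard = 4 ∧ e ∉ X ∧ rk M.dual X ≤ 3) ↔ ∃ X ⊆ M.E, X.ncard = 4 ∧ e ∈ X ∧ rk M X ≤ 3) ∧
    ((∃ X ⊆ M.E, X.ncard = 4 ∧ e ∈ X ∧ rk M.dual X ≤ 3) ↔ ∃ X ⊆ M.E, X.ncard = 4 ∧ e ∉ X ∧ rk M X ≤ 3) := by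
  have key : ∀ X ⊆ M.E, X.ncard = 4 → rk M.dual X = rk M (M.E \ X) ∧ rk M.dual (M.E \ X) = rk M X ∧
      (M.E \ X).ncard = 4 := by
    intro X hX hX4
    have h1 := rk_dual M hX
    have h2 := rk_dual M (Set.sdiff_subset : M.E \ X ⊆ M.E)
    rw [Set.sdiff_sdiff_cancel_left hX] at h2
    have h3 := ncard_compl hX
    omega
  refine ⟨⟨?_, ?_⟩, ⟨?_, ?_⟩⟩
  · rintro ⟨X, hX, hX4, heX, hr⟩
    obtain ⟨h1, h2, h3⟩ := key X hX hX4
    exact ⟨M.E \ X, Set.sdiff_subset, h3, ⟨he, heX⟩, by omega⟩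
  · rintro ⟨X, hX, hX4, heX, hr⟩
    obtain ⟨h1, h2, h3⟩ := key X hX hX4
    exact ⟨M.E \ X, Set.sdiff_subset, h3, fun h => h.2 heX, by omega⟩
  · rintro ⟨X, hX, hX4, heX, hr⟩
    obtain ⟨h1, h2, h3⟩ := key X hX hX4
    exact ⟨M.E \ X, Set.sdiff_subset, h3, fun h => h.2 heX, by omega⟩
  · rintro ⟨X, hX, hX4, heX, hr⟩
    obtain ⟨h1, h2, h3⟩ := key X hX hX4
    exact ⟨M.E \ X, Set.sdiff_subset, h3, ⟨he, heX⟩, by omega⟩

theorem contract_bw {e : α} (he : e ∈ M.E) : BwLE (M.contract {e}) 3 ↔ BwLE (M.dual.delete {e}) 3 := by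
  have hfin : (M.contract {e}).Finite := finite_of_minor (contract_isStrictMinor M he).1
  rw [← BwLE_dual (M.contract {e}) 3, Matroid.dual_contract]

variable (M) in
theorem exMinor8 (h8 : M.E.ncard = 8) (h4 : rk M M.E = 4) :
    ExMinor M ↔ ¬ BwLE M 3 ∧ ∀ e ∈ M.E, (∃ X ⊆ M.E, X.ncard = 4 ∧ e ∈ X ∧ rk M X ≤ 3) ∧
      (∃ X ⊆ M.E, X.ncard = 4 ∧ e ∉ X ∧ rk M X ≤ 3) := by
  have hd8 : M.dual.E.ncard = 8 := h8
  have hd4 : rk M.dual M.dual.E = 4 := by
    have := rk_dual_ground M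
    rw [Matroid.dual_ground]
    omega
  constructor
  · rintro ⟨h1, h2⟩
    refine ⟨h1, fun e he => ⟨?_, ?_⟩⟩
    · have h3 := (contract_bw he).1 (h2 _ (contract_isStrictMinor M he))
      exact (dual_cond h8 h4 he).1.1 (delete_forward (M := M.dual) hd8 hd4 he h3)
    · exact delete_forward h8 h4 he (h2 _ (delete_isStrictMinor M he))
  · rintro ⟨h1, h2⟩
    refine ⟨h1, fun N hN => ?_⟩
    have hfin : N.Finite := finite_of_minor hN.1
    have hlt : N.E.ncard < 8 := by
      rw [← h8]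
      exact Set.ncard_lt_ncard hN.ssubset M.ground_finite
    rcases Nat.lt_or_ge N.E.ncard 7 with h7 | h7
    · rw [bw7 N (by omega)]
      rintro ⟨h3, -⟩
      omega
    obtain ⟨C, D, hC, hD, hdis, rfl⟩ := hN.1.exists_eq_contract_delete_disjoint
    have hE : ((M.contract C).delete D).E = M.E \ (C ∪ D) := by
      rw [Matroid.delete_ground, Matroid.contract_ground, Set.sdiff_sdiff]
    have h3 := ncard_compl (Set.union_subset hC hD)
    rw [hE] at h7 hlt
    obtain ⟨e, he⟩ := Set.ncard_eq_one.1 (show (C ∪ D).ncard = 1 by omega)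
    have heE : e ∈ M.E := by
      have : e ∈ C ∪ D := by rw [he]; rfl
      exact Set.union_subset hC hD this
    obtain ⟨h5, h6⟩ := h2 e heE
    by_cases heC : e ∈ C
    · have hC' : C = {e} := by
        refine Set.Subset.antisymm (fun z hz => ?_) (Set.singleton_subset_iff.2 heC)
        have : z ∈ C ∪ D := Or.inl hz
        rwa [he] at this
      have hD' : D = ∅ := by
        refine Set.eq_empty_iff_forall_notMem.2 fun z hz => ?_
        have : z ∈ C ∪ D := Or.inr hz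
        rw [he] at this
        have h9 : z = e := this
        subst h9
        exact Set.disjoint_left.1 hdis heC hz
      rw [hC', hD', Matroid.delete_empty, contract_bw heE]
      exact delete_backward (M := M.dual) hd8 hd4 heE ((dual_cond h8 h4 heE).1.2 h5) ((dual_cond h8 h4 heE).2.2 h6)
    · have hC' : C = ∅ := by
        refine Set.eq_empty_iff_forall_notMem.2 fun z hz => ?_
        have : z ∈ C ∪ D := Or.inl hz
        rw [he] at this
        have h9 : z = e := this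
        exact heC (h9 ▸ hz)
      have hD' : D = {e} := by
        rwa [hC', Set.empty_union] at he
      rw [hC', hD', Matroid.contract_empty]
      exact delete_backward h8 h4 heE h6 h5

variable (M) in
/-- the excluded minors with at most seven elements -/
theorem exMinor_small (h : M.E.ncard ≤ 7) :
    ExMinor M ↔ M.E.ncard = 7 ∧ ((rk M M.E = 3 ∧ ∀ X ⊆ M.E, X.ncard = 3 → rk M X = 3) ∨
      (rk M M.E = 4 ∧ ∀ X ⊆ M.E, X.ncard = 4 → rk M X = 4)) := by
  constructor
  · rintro ⟨h1, -⟩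
    rwa [bw7 M h, not_not] at h1
  · intro h1
    refine ⟨fun h2 => (bw7 M h).1 h2 h1, fun N hN => ?_⟩
    have hfin : N.Finite := finite_of_minor hN.1
    have hlt : N.E.ncard < M.E.ncard := Set.ncard_lt_ncard hN.ssubset M.ground_finite
    rw [bw7 N (by omega)]
    rintro ⟨h3, -⟩
    omega

variable (M) in
theorem rank_range (h : ExMinor M) : 3 ≤ rk M M.E ∧ rk M M.E + 3 ≤ M.E.ncard := by
  have hd := rk_dual_ground M
  constructor
  · by_contra hc
    exact h.1 (bw_of_rank_le M (by omega))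
  · by_contra hc
    refine h.1 ((BwLE_dual M 3).1 (bw_of_rank_le M.dual ?_))
    rw [Matroid.dual_ground]
    omega

end

end Pool.Agent.BW3
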