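import Pool.Agent.Lib_MP_a68485_co.SP0
import Pool.Agent.Lib_MP_a68485_co.Bw8
import Pool.Agent.Lib_MP_a68485_co.Small

/-!
# MP_a68485_co: the sparse paving matroid of the Moebius plane of order three is an excluded minor
-/

set_option autoImplicit false

namespace Pool.Agent.BW3

open Set

variable {α : Type*}

/-- rank in a contraction -/
theorem spc_contract (M : Matroid α) [M.Finite] {C X : Set α} (hC : C ⊆ M.E) (hX : X ⊆ M.E \ C) :
    rk (M.contract C) X + rk M C = rk M (X ∪ C) := by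
  have hd : M.contract C = (M.dual.delete C).dual := by
    rw [Matroid.dual_delete, Matroid.dual_dual]
  have hf : (M.dual.delete C).Finite := ⟨M.ground_finite.subset Set.sdiff_subset⟩
  have hE : (M.dual.delete C).E = M.E \ C := rfl
  have h1 := rk_dual (M.dual.delete C) (X := X) (by rw [hE]; exact hX)
  rw [hE, ← hd] at h1
  have h2 : ∀ Z ⊆ M.E \ C, rk (M.dual.delete C) Z = rk M.dual Z := by
    intro Z hZ
    rw [Matroid.delete_eq_restrict]
    exact rk_restrict M.dual (show Z ⊆ M.dual.E \ C from hZ)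
  rw [h2 _ subset_rfl, h2 _ Set.sdiff_subset] at h1
  have h3 := rk_dual M (X := M.E \ C) Set.sdiff_subset
  have h4 := rk_dual M (X := (M.E \ C) \ X) (Set.sdiff_subset.trans Set.sdiff_subset)
  rw [Set.sdiff_sdiff_cancel_left hC] at h3
  have h5 : M.E \ ((M.E \ C) \ X) = X ∪ C := by
    ext z
    constructor
    · rintro ⟨hz, hz'⟩
      by_contra hc
      exact hz' ⟨⟨hz, fun h => hc (Or.inr h)⟩, fun h => hc (Or.inl h)⟩
    · rintro (hz | hz)
      · exact ⟨(hX hz).1, fun h => h.2 hz⟩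
      · exact ⟨hC hz, fun h => h.1.2 hz⟩
  rw [h5] at h4
  have h6 := Set.ncard_sdiff_add_ncard_of_subset hX (M.ground_finite.subset Set.sdiff_subset)
  omega

/-- rank in a minor -/
theorem spc_minor (M : Matroid α) [M.Finite] {C D X : Set α} (hC : C ⊆ M.E)
    (hX : X ⊆ M.E \ (C ∪ D)) : rk ((M.contract C).delete D) X + rk M C = rk M (X ∪ C) := by
  have h1 : X ⊆ (M.contract C).E \ D := by
    rw [Matroid.contract_ground, Set.sdiff_sdiff]
    exact hX
  rw [Matroid.delete_eq_restrict, rk_restrict _ h1]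
  exact spc_contract M hC fun z hz => ⟨(hX hz).1, fun h => (hX hz).2 (Or.inl h)⟩

/-- what we need of the matroid -/
structure SPData (M : Matroid α) : Prop where
  nine : M.E.ncard = 9
  four : rk M M.E = 4
  small : ∀ X ⊆ M.E, X.ncard ≤ 3 → rk M X = X.ncard
  big : ∀ X ⊆ M.E, 5 ≤ X.ncard → rk M X = 4
  mid : ∀ X ⊆ M.E, X.ncard = 4 → 3 ≤ rk M X
  t1 : ∀ e ∈ M.E, ∃ X ⊆ M.E, ∃ Y ⊆ M.E, e ∉ X ∧ e ∉ Y ∧ Disjoint X Y ∧ X.ncard = 4 ∧ Y.ncard = 4 ∧
    rk M X = 3 ∧ rk M Y = 3
  t2 : ∀ e ∈ M.E, ∃ X ⊆ M.E, ∃ Y ⊆ M.E, e ∈ X ∧ e ∈ Y ∧ X ∩ Y = {e} ∧ X.ncard = 4 ∧ Y.ncard = 4 ∧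
    rk M X = 3 ∧ rk M Y = 3
  t3 : ∀ e ∈ M.E, ∀ g ∈ M.E, ∃ X ⊆ M.E, e ∉ X ∧ g ∉ X ∧ X.ncard = 4 ∧ rk M X = 3
  t4 : ∀ e ∈ M.E, ∀ g ∈ M.E, e ≠ g → ∃ X ⊆ M.E, e ∈ X ∧ g ∉ X ∧ X.ncard = 4 ∧ rk M X = 3

theorem SPData.not_bw {M : Matroid α} [M.Finite] (h : SPData M) : ¬ BwLE M 3 := by
  rintro (⟨h1, -⟩ | ⟨t, h1, h2, h3⟩)
  · rw [← M.ground_finite.cast_ncard_eq, h.nine] at h1
    exact absurd h1 (by decide)
  · obtain ⟨X, hX, hc, hw⟩ := bw8_desc M t h1 h3 (by rw [h2, h.nine]; norm_num)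
    rw [h2] at hX
    have h4 := ncard_compl hX
    have h5 := h.nine
    have h6 := h.four
    have h7 := h.big (M.E \ X) Set.sdiff_subset (by omega)
    unfold conn at hw
    rcases hc with hc | hc
    · have h8 := h.small X hX hc.le
      omega
    · have h8 := h.mid X hX hc
      omega

theorem spc_bw8_delete {M : Matroid α} [M.Finite] (h : SPData M) {e : α} (he : e ∈ M.E) :
    BwLE ((M.contract ∅).delete {e}) 3 := by
  have hE : ((M.contract ∅).delete {e}).E = M.E \ (∅ ∪ {e}) := by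
    rw [Matroid.delete_ground, Matroid.contract_ground, Set.sdiff_sdiff]
  have hfin : ((M.contract ∅).delete {e}).Finite := ⟨by rw [hE]; exact M.ground_finite.subset Set.sdiff_subset⟩
  have hrk : ∀ X ⊆ M.E \ (∅ ∪ {e}), rk ((M.contract ∅).delete {e}) X = rk M X := by
    intro X hX
    have := spc_minor M (C := ∅) (D := {e}) (X := X) (Set.empty_subset _) hX
    rwa [rk_empty, Set.union_empty, Nat.add_zero] at this
  have hc := Set.ncard_sdiff_singleton_add_one he M.ground_finite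
  have h9 := h.nine
  rw [bw8 _ (by rw [hE, Set.empty_union]; omega)]
  left
  obtain ⟨X, hX, Y, hY, heX, heY, hd, hX4, hY4, hrX, hrY⟩ := h.t1 e he
  have hX' : X ⊆ M.E \ (∅ ∪ {e}) := fun z hz => ⟨hX hz, fun hz' => by
    rcases hz' with h | h
    · exact h
    · exact heX (h ▸ hz)⟩
  have hY' : Y ⊆ M.E \ (∅ ∪ {e}) := fun z hz => ⟨hY hz, fun hz' => by
    rcases hz' with h | h
    · exact h
    · exact heY (h ▸ hz)⟩
  refine ⟨X, by rw [hE]; exact hX', hX4, ?_⟩
  have hYeq : (M.E \ (∅ ∪ {e})) \ X = Y := by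
    symm
    refine Set.eq_of_subset_of_ncard_le (fun z hz => ⟨hY' hz, fun h => Set.disjoint_left.1 hd h hz⟩) ?_
      (M.ground_finite.subset (Set.sdiff_subset.trans Set.sdiff_subset))
    have := Set.ncard_sdiff_add_ncard_of_subset hX' (M.ground_finite.subset Set.sdiff_subset)
    rw [Set.empty_union] at this ⊢
    omega
  unfold conn
  rw [hE, hYeq, hrk X hX', hrk Y hY', hrk _ subset_rfl, hrX, hrY,
    h.big _ Set.sdiff_subset (by rw [Set.empty_union]; omega)]

theorem spc_bw8_contract {M : Matroid α} [M.Finite] (h : SPData M) {e : α} (he : e ∈ M.E) :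
    BwLE ((M.contract {e}).delete ∅) 3 := by
  have hE : ((M.contract {e}).delete ∅).E = M.E \ ({e} ∪ ∅) := by
    rw [Matroid.delete_ground, Matroid.contract_ground, Set.sdiff_sdiff]
  have hfin : ((M.contract {e}).delete ∅).Finite := ⟨by rw [hE]; exact M.ground_finite.subset Set.sdiff_subset⟩
  have h1 : rk M {e} = 1 := by
    have := h.small {e} (Set.singleton_subset_iff.2 he) (by rw [Set.ncard_singleton]; norm_num)
    rwa [Set.ncard_singleton] at this
  have hrk : ∀ X ⊆ M.E \ ({e} ∪ ∅), rk ((M.contract {e}).delete ∅) X + 1 = rk M (X ∪ {e}) := by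
    intro X hX
    have := spc_minor M (C := {e}) (D := ∅) (X := X) (Set.singleton_subset_iff.2 he) hX
    rwa [h1] at this
  have hc := Set.ncard_sdiff_singleton_add_one he M.ground_finite
  have h9 := h.nine
  rw [Set.union_empty] at hE hrk
  rw [bw8 _ (by rw [hE]; omega)]
  right
  obtain ⟨X, hX, Y, hY, heX, heY, hd, hX4, hY4, hrX, hrY⟩ := h.t2 e he
  have key : ∀ Z ⊆ M.E, e ∈ Z → Z.ncard = 4 → rk M Z = 3 →
      Z \ {e} ⊆ M.E \ {e} ∧ (Z \ {e}).ncard = 3 ∧ conn ((M.contract {e}).delete ∅) (Z \ {e}) ≤ 3 := by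
    intro Z hZ heZ hZ4 hrZ
    have hZ' : Z \ {e} ⊆ M.E \ {e} := Set.sdiff_subset_sdiff_left hZ
    have h3 := Set.ncard_sdiff_singleton_add_one heZ (M.ground_finite.subset hZ)
    refine ⟨hZ', by omega, ?_⟩
    have h4 := hrk (Z \ {e}) hZ'
    have h5 := hrk (M.E \ {e}) subset_rfl
    have h6 := hrk ((M.E \ {e}) \ (Z \ {e})) Set.sdiff_subset
    rw [Set.sdiff_union_self, Set.union_eq_self_of_subset_right (Set.singleton_subset_iff.2 heZ), hrZ] at h4
    rw [Set.sdiff_union_self, Set.union_eq_self_of_subset_right (Set.singleton_subset_iff.2 he), h.four] at h5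
    have h7 := rk_le_rank M ((M.E \ {e}) \ (Z \ {e}) ∪ {e})
    rw [h.four] at h7
    unfold conn
    rw [hE]
    omega
  obtain ⟨a1, a2, a3⟩ := key X hX heX hX4 hrX
  obtain ⟨b1, b2, b3⟩ := key Y hY heY hY4 hrY
  refine ⟨X \ {e}, by rw [hE]; exact a1, Y \ {e}, by rw [hE]; exact b1, a2, b2, ?_, a3, b3⟩
  rw [Set.disjoint_left]
  rintro z ⟨hz, hze⟩ ⟨hz', -⟩
  have : z ∈ X ∩ Y := ⟨hz, hz'⟩
  rw [hd] at this
  exact hze this

theorem SPData.exMinor {M : Matroid α} [M.Finite] (h : SPData M) : ExMinor M := by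
  refine ⟨h.not_bw, fun N hN => ?_⟩
  have hfin : N.Finite := finite_of_minor hN.1
  have h9 := h.nine
  have hlt : N.E.ncard < 9 := by
    rw [← h9]
    exact Set.ncard_lt_ncard hN.ssubset M.ground_finite
  rcases Nat.lt_or_ge N.E.ncard 7 with h7 | h7
  · rw [bw7 N (by omega)]
    rintro ⟨h3, -⟩
    omega
  obtain ⟨C, D, hC, hD, hdis, rfl⟩ := hN.1.exists_eq_contract_delete_disjoint
  have hE : ((M.contract C).delete D).E = M.E \ (C ∪ D) := by
    rw [Matroid.delete_ground, Matroid.contract_ground, Set.sdiff_sdiff]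
  have hCD := Set.union_subset hC hD
  have h3 := ncard_compl hCD
  rw [hE] at h7 hlt
  have hfC : C.Finite := M.ground_finite.subset hC
  have hfD : D.Finite := M.ground_finite.subset hD
  have hu := Set.ncard_union_eq hdis hfC hfD
  rcases Nat.lt_or_ge (M.E \ (C ∪ D)).ncard 8 with h8 | h8
  · -- seven elements
    have hr := spc_minor M (C := C) (D := D) (X := M.E \ (C ∪ D)) hC subset_rfl
    have hrC := h.small C hC (by omega)
    have hbig : rk M (M.E \ (C ∪ D) ∪ C) = 4 := by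
      refine h.big _ (Set.union_subset Set.sdiff_subset hC) ?_
      have := Set.ncard_le_ncard (Set.subset_union_left : M.E \ (C ∪ D) ⊆ M.E \ (C ∪ D) ∪ C)
        (M.ground_finite.subset (Set.union_subset Set.sdiff_subset hC))
      omega
    rw [hbig, hrC] at hr
    rw [bw7 _ (by rw [hE]; omega), hE]
    rintro ⟨-, ⟨h4, h5⟩ | ⟨h4, h5⟩⟩
    · obtain ⟨e, rfl⟩ := Set.ncard_eq_one.1 (show C.ncard = 1 by omega)
      have : D.ncard = 1 := by
        rw [Set.ncard_singleton] at hu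
        omega
      obtain ⟨g, rfl⟩ := Set.ncard_eq_one.1 this
      have he : e ∈ M.E := hC rfl
      have hg : g ∈ M.E := hD rfl
      have heg : e ≠ g := fun h => Set.disjoint_left.1 hdis rfl h
      obtain ⟨X, hX, heX, hgX, hX4, hrX⟩ := h.t4 e he g hg heg
      have h6 := Set.ncard_sdiff_singleton_add_one heX (M.ground_finite.subset hX)
      have hX' : X \ {e} ⊆ M.E \ ({e} ∪ {g}) := by
        rintro z ⟨hz, hze⟩
        refine ⟨hX hz, ?_⟩
        rintro (h | h)
        · exact hze h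
        · exact hgX (h ▸ hz)
      have h7' := spc_minor M (C := {e}) (D := {g}) (X := X \ {e}) hC hX'
      rw [Set.sdiff_union_self, Set.union_eq_self_of_subset_right (Set.singleton_subset_iff.2 heX), hrX, hrC,
        h5 _ hX' (by omega), Set.ncard_singleton] at h7'
      omega
    · have hC0 : C = ∅ := (Set.ncard_eq_zero hfC).1 (by omega)
      subst hC0
      rw [Set.ncard_empty] at hu
      obtain ⟨e, g, -, rfl⟩ := Set.ncard_eq_two.1 (show D.ncard = 2 by omega)
      obtain ⟨X, hX, heX, hgX, hX4, hrX⟩ := h.t3 e (hD (Or.inl rfl)) g (hD (Or.inr rfl))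
      have hX' : X ⊆ M.E \ (∅ ∪ {e, g}) := by
        intro z hz
        refine ⟨hX hz, ?_⟩
        rintro (h | h | h)
        · exact h
        · exact heX (h ▸ hz)
        · exact hgX (h ▸ hz)
      have h7' := spc_minor M (C := ∅) (D := {e, g}) (X := X) hC hX'
      rw [Set.union_empty, hrX, rk_empty, h5 _ hX' hX4] at h7'
      omega
  · -- eight elements
    obtain ⟨e, he⟩ := Set.ncard_eq_one.1 (show (C ∪ D).ncard = 1 by omega)
    have heE : e ∈ M.E := by
      have : e ∈ C ∪ D := by rw [he]; rfl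
      exact hCD this
    by_cases heC : e ∈ C
    · have hC' : C = {e} := by
        refine Set.Subset.antisymm (fun z hz => ?_) (Set.singleton_subset_iff.2 heC)
        have : z ∈ C ∪ D := Or.inl hz
        rwa [he] at this
      have hD' : D = ∅ := by
        refine Set.eq_empty_iff_forall_notMem.2 fun z hz => ?_
        have : z ∈ C ∪ D := Or.inr hz
        rw [he] at this
        have h9 : z = e := this
        subst h9
        exact Set.disjoint_left.1 hdis heC hz
      rw [hC', hD']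
      exact spc_bw8_contract h heE
    · have hC' : C = ∅ := by
        refine Set.eq_empty_iff_forall_notMem.2 fun z hz => ?_
        have : z ∈ C ∪ D := Or.inl hz
        rw [he] at this
        have h9 : z = e := this
        exact heC (h9 ▸ hz)
      have hD' : D = {e} := by
        rwa [hC', Set.empty_union] at he
      rw [hC', hD']
      exact spc_bw8_delete h heE

theorem spc_d0 : ∀ m ∈ mobius, (bits 9 m).card = 4 := by decide +kernel

theorem spc_d1 : ∀ e : Fin 9, ∃ m ∈ mobius, ∃ l ∈ mobius, e ∉ bits 9 m ∧ e ∉ bits 9 l ∧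
    bits 9 m ∩ bits 9 l = ∅ := by decide +kernel

theorem spc_d2 : ∀ e : Fin 9, ∃ m ∈ mobius, ∃ l ∈ mobius, e ∈ bits 9 m ∧ e ∈ bits 9 l ∧
    bits 9 m ∩ bits 9 l = {e} := by decide +kernel

theorem spc_d3 : ∀ e g : Fin 9, ∃ m ∈ mobius, e ∉ bits 9 m ∧ g ∉ bits 9 m := by decide +kernel

theorem spc_d4 : ∀ e g : Fin 9, e ≠ g → ∃ m ∈ mobius, e ∈ bits 9 m ∧ g ∉ bits 9 m := by decide +kernel

theorem spc_data {M : Matroid α} [M.Finite] {f : Fin 9 → α} (hd : Desc9 M f) : SPData M := by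
  classical
  obtain ⟨hf, hr, hrk⟩ := hd
  have hcard : ∀ A : Finset (Fin 9), (f '' (A : Set (Fin 9))).ncard = A.card := fun A => by
    rw [Set.ncard_image_of_injective _ hf, Set.ncard_coe_finset]
  have hex : ∀ X ⊆ M.E, ∃ A : Finset (Fin 9), f '' (A : Set (Fin 9)) = X := by
    intro X hX
    refine ⟨Finset.univ.filter fun i => f i ∈ X, ?_⟩
    ext z
    simp only [Finset.coe_filter, Finset.mem_univ, true_and, Set.mem_image, Set.mem_ofPred_eq]
    constructor
    · rintro ⟨i, hi, rfl⟩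
      exact hi
    · intro hz
      have h1 := hX hz
      rw [← hr] at h1
      obtain ⟨i, rfl⟩ := h1
      exact ⟨i, hz, rfl⟩
  have hsub : ∀ A : Finset (Fin 9), f '' (A : Set (Fin 9)) ⊆ M.E := fun A => hr ▸ Set.image_subset_range f _
  have hmem : ∀ (i : Fin 9) (A : Finset (Fin 9)), f i ∈ f '' (A : Set (Fin 9)) ↔ i ∈ A := fun i A => by
    rw [hf.mem_set_image, Finset.mem_coe]
  have huniv : f '' ((Finset.univ : Finset (Fin 9)) : Set (Fin 9)) = M.E := by
    rw [Finset.coe_univ, Set.image_univ, hr]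
  have hcirc : ∀ m ∈ mobius, rk M (f '' (bits 9 m : Set (Fin 9))) = 3 := by
    intro m hm
    rw [hrk]
    unfold rank9
    rw [if_pos ⟨spc_d0 m hm, m, hm, rfl⟩]
  have hlow : ∀ A : Finset (Fin 9), A.card ≠ 4 → rank9 A = min A.card 4 := by
    intro A hA
    unfold rank9
    rw [if_neg fun h => hA h.1]
  refine ⟨?_, ?_, ?_, ?_, ?_, ?_, ?_, ?_, ?_⟩
  · rw [← huniv, hcard, Finset.card_univ, Fintype.card_fin]
  · rw [← huniv, hrk, hlow _ (by rw [Finset.card_univ, Fintype.card_fin]; norm_num), Finset.card_univ,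
      Fintype.card_fin]
    rfl
  · intro X hX h3
    obtain ⟨A, rfl⟩ := hex X hX
    rw [hcard] at h3 ⊢
    rw [hrk, hlow A (by omega), min_eq_left (by omega)]
  · intro X hX h5
    obtain ⟨A, rfl⟩ := hex X hX
    rw [hcard] at h5
    rw [hrk, hlow A (by omega), min_eq_right (by omega)]
  · intro X hX h4
    obtain ⟨A, rfl⟩ := hex X hX
    rw [hcard] at h4
    rw [hrk]
    unfold rank9
    split_ifs
    · exact le_rfl
    · rw [h4]
      decide
  · intro e he
    rw [← hr] at he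
    obtain ⟨i, rfl⟩ := he
    obtain ⟨m, hm, l, hl, h1, h2, h3⟩ := spc_d1 i
    refine ⟨_, hsub (bits 9 m), _, hsub (bits 9 l), by rwa [hmem], by rwa [hmem], ?_, by rw [hcard, spc_d0 m hm],
      by rw [hcard, spc_d0 l hl], hcirc m hm, hcirc l hl⟩
    rw [Set.disjoint_image_iff hf, Finset.disjoint_coe]
    exact Finset.disjoint_iff_inter_eq_empty.2 h3
  · intro e he
    rw [← hr] at he
    obtain ⟨i, rfl⟩ := he
    obtain ⟨m, hm, l, hl, h1, h2, h3⟩ := spc_d2 i
    refine ⟨_, hsub (bits 9 m), _, hsub (bits 9 l), by rwa [hmem], by rwa [hmem], ?_, by rw [hcard, spc_d0 m hm],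
      by rw [hcard, spc_d0 l hl], hcirc m hm, hcirc l hl⟩
    rw [← Set.image_inter hf, ← Finset.coe_inter, h3, Finset.coe_singleton, Set.image_singleton]
  · intro e he g hg
    rw [← hr] at he hg
    obtain ⟨i, rfl⟩ := he
    obtain ⟨j, rfl⟩ := hg
    obtain ⟨m, hm, h1, h2⟩ := spc_d3 i j
    exact ⟨_, hsub (bits 9 m), by rwa [hmem], by rwa [hmem], by rw [hcard, spc_d0 m hm], hcirc m hm⟩
  · intro e he g hg heg
    rw [← hr] at he hg
    obtain ⟨i, rfl⟩ := he
    obtain ⟨j, rfl⟩ := hg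
    obtain ⟨m, hm, h1, h2⟩ := spc_d4 i j fun h => heg (by rw [h])
    exact ⟨_, hsub (bits 9 m), by rwa [hmem], by rwa [hmem], by rw [hcard, spc_d0 m hm], hcirc m hm⟩

theorem desc9_ex {M : Matroid α} [M.Finite] {f : Fin 9 → α} (hf : Desc9 M f) : ExMinor M :=
  (spc_data hf).exMinor

end Pool.Agent.BW3
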