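import Pool.Agent.Lib_MP_a68485_co.SP0
import Pool.Agent.Lib_MP_a68485_co.ExistSP

/-!
# MP_a68485_co: existence of the sparse paving excluded minor with nine elements
-/

set_option autoImplicit false

namespace Pool.Agent.BW3

theorem sp9_card : ∀ m ∈ mobius, (bits 9 m).card = 4 := by decide +kernel

theorem sp9_meet : ∀ m ∈ mobius, ∀ l ∈ mobius, m ≠ l → (bits 9 m ∩ bits 9 l).card + 2 ≤ 4 := by
  decide +kernel

theorem exists9 : ∃ M : Matroid (Fin 9), M.E = Set.univ ∧ Desc9 M id := by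
  obtain ⟨M, hE, h1, h2, h3, h4⟩ := exists_sparse_paving (n := 9) (r := 4) (by norm_num)
    (fun A => ∃ m ∈ mobius, bits 9 m = A) (by
      rintro A ⟨m, hm, rfl⟩
      exact sp9_card m hm) (by
      rintro A B ⟨m, hm, rfl⟩ ⟨l, hl, rfl⟩ hne
      exact sp9_meet m hm l hl fun h => hne (by rw [h]))
  refine ⟨M, hE, Function.injective_id, by rw [Set.range_id, hE], fun A => ?_⟩
  rw [Set.image_id]
  unfold rank9
  split_ifs with h
  · exact h3 A h.2
  · rcases lt_trichotomy A.card 4 with hA | hA | hA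
    · rw [h1 A hA, min_eq_left hA.le]
    · rw [h2 A hA fun hN => h ⟨hA, hN⟩, hA, min_self]
    · rw [h4 A hA, min_eq_right hA.le]

end Pool.Agent.BW3
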