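import Pool.Agent.Lib_MP_a68485_co.TreeB

/-!
# MP_a68485_co: branch-width as in the problem file
-/

set_option autoImplicit false

namespace Pool.Agent.BW3

variable {α : Type*}

/-- branch-width at most `k`, for a finite matroid: at most one element (then the branch-width is one) or a branch
decomposition of width at most `k` -/
def BW (M : Matroid α) (k : ℕ) : Prop := (M.E.ncard ≤ 1 ∧ 1 ≤ k) ∨ (2 ≤ M.E.ncard ∧ BranchDecomp M k)

/-- `M` is an excluded minor for the class of the matroids of branch-width at most three -/
def Excluded (M : Matroid α) : Prop := ¬ BW M 3 ∧ ∀ N : Matroid α, N.IsStrictMinor M → BW N 3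

theorem bw_iff (M : Matroid α) [M.Finite] {k : ℕ} (hk : 1 ≤ k) : BW M k ↔ BwLE M k := by
  rcases Nat.lt_or_ge M.E.ncard 2 with h | h
  · constructor
    · intro _
      left
      refine ⟨?_, hk⟩
      rw [← M.ground_finite.cast_ncard_eq]
      exact_mod_cast (by omega : M.E.ncard ≤ 1)
    · intro _
      exact Or.inl ⟨by omega, hk⟩
  · rw [bwLE_iff_branchDecomp M k hk h]
    constructor
    · rintro (⟨h1, _⟩ | ⟨_, h1⟩)
      · omega
      · exact h1
    · intro h1
      exact Or.inr ⟨h, h1⟩

theorem excluded_iff (M : Matroid α) [M.Finite] : Excluded M ↔ ExMinor M := by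
  unfold Excluded ExMinor
  rw [bw_iff M (by norm_num)]
  refine and_congr_right fun _ => forall_congr' fun N => forall_congr' fun hN => ?_
  have : N.Finite := finite_of_minor hN.1
  exact bw_iff N (by norm_num)

end Pool.Agent.BW3
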