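import Pool.Agent.Lib_MP_a68485_co.SPA
import Pool.Agent.Lib_MP_a68485_co.Main
import Pool.Agent.Lib_MP_a68485_co.Width

/-!
# MP_a68485_co: sparse paving excluded minors, transfer to `Fin 9`
-/

set_option autoImplicit false

namespace Pool.Agent.BW3

open Set

variable {α : Type*}

section

variable {M : Matroid α} {f : Fin 9 → α}

theorem ncard_image9 (hf : Function.Injective f) (A : Finset (Fin 9)) :
    (f '' (A : Set (Fin 9))).ncard = A.card := by
  rw [Set.ncard_image_of_injective _ hf, Set.ncard_coe_finset]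

theorem image_subset9 (hr : Set.range f = M.E) (A : Finset (Fin 9)) :
    f '' (A : Set (Fin 9)) ⊆ M.E := hr ▸ Set.image_subset_range f _

theorem exists_finset9 (hr : Set.range f = M.E) {X : Set α} (hX : X ⊆ M.E) :
    ∃ A : Finset (Fin 9), f '' (A : Set (Fin 9)) = X := by
  classical
  refine ⟨Finset.univ.filter fun i => f i ∈ X, ?_⟩
  ext z
  simp only [Finset.coe_filter, Finset.mem_univ, true_and, Set.mem_image, Set.mem_ofPred_eq]
  constructor
  · rintro ⟨i, hi, rfl⟩
    exact hi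
  · intro hz
    have h1 := hX hz
    rw [← hr] at h1
    obtain ⟨i, rfl⟩ := h1
    exact ⟨i, hz, rfl⟩

theorem image_comp9 (f : Fin 9 → α) (σ : Equiv.Perm (Fin 9)) (A : Finset (Fin 9)) :
    (f ∘ σ) '' (A : Set (Fin 9)) = f '' ((A.map σ.toEmbedding : Finset (Fin 9)) : Set (Fin 9)) := by
  rw [Finset.coe_map, Set.image_comp]
  rfl

theorem desc9_sparse (hd : Desc9 M f) : M.E.ncard = 9 ∧ rk M M.E = 4 ∧ SparsePaving M := by
  obtain ⟨hf, hr, hk⟩ := hd
  have h1 : f '' ((Finset.univ : Finset (Fin 9)) : Set (Fin 9)) = M.E := by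
    rw [Finset.coe_univ, Set.image_univ, hr]
  have h2 := hk Finset.univ
  rw [h1] at h2
  have h3 : rank9 Finset.univ = 4 := by decide +kernel
  rw [h3] at h2
  have h4 := ncard_image9 hf Finset.univ
  rw [h1, Finset.card_univ, Fintype.card_fin] at h4
  refine ⟨h4, h2, fun X hX => ?_⟩
  obtain ⟨A, rfl⟩ := exists_finset9 hr hX
  rw [h2, hk, ncard_image9 hf]
  unfold rank9
  constructor
  · intro h
    rw [if_neg (by omega)]
    omega
  · intro h
    rw [if_neg (by omega)]
    omega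

variable [M.Finite]

theorem sp_desc9
    (class9 : ∀ (N : Finset (Fin 9) → Prop), (∀ A, N A → A.card = 4) →
      (∀ A B, N A → N B → A ≠ B → (A ∩ B).card ≤ 2) →
      (∀ e, ∃ A, e ∉ A ∧ N A ∧ N (Finset.univ.erase e \ A)) →
      ∃ σ : Equiv.Perm (Fin 9), ∀ A : Finset (Fin 9), N (A.map σ.toEmbedding) ↔ ∃ m ∈ mobius, bits 9 m = A)
    (hs : SparsePaving M) (h9 : M.E.ncard = 9) (h4 : rk M M.E = 4) (h : ExMinor M) :
    ∃ f : Fin 9 → α, Desc9 M f := by
  obtain ⟨f, hf, hr⟩ := exists_label h9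
  obtain ⟨ha, hb⟩ := sp_nine hs h9 h4 h
  obtain ⟨σ, hσ⟩ := class9 (fun A => A.card = 4 ∧ rk M (f '' (A : Set (Fin 9))) = 3) (fun A h => h.1)
    (by
      rintro A B ⟨hA, hA3⟩ ⟨hB, hB3⟩ hne
      have h1 := ha _ (image_subset9 hr A) _ (image_subset9 hr B) (by rw [ncard_image9 hf, hA])
        (by rw [ncard_image9 hf, hB]) (fun h => hne (Finset.coe_injective (hf.image_injective h))) hA3 hB3
      rw [← Set.image_inter hf, ← Finset.coe_inter, ncard_image9 hf] at h1
      exact h1)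
    (by
      intro e
      obtain ⟨X, hX, hX4, hX3, hY3⟩ := hb (f e) (hr ▸ Set.mem_range_self e)
      obtain ⟨A, rfl⟩ := exists_finset9 hr (hX.trans Set.sdiff_subset)
      have he : e ∉ A := fun he => (hX ⟨e, he, rfl⟩).2 rfl
      have h1 : (M.E \ {f e}) \ (f '' (A : Set (Fin 9))) =
          f '' ((Finset.univ.erase e \ A : Finset (Fin 9)) : Set (Fin 9)) := by
        rw [← hr, ← Set.image_univ, ← Set.image_singleton, ← Set.image_sdiff hf, ← Set.image_sdiff hf,
          Finset.coe_sdiff, Finset.coe_erase, Finset.coe_univ]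
      rw [ncard_image9 hf] at hX4
      rw [h1] at hY3
      refine ⟨A, he, ⟨hX4, hX3⟩, ?_, hY3⟩
      have h2 : A ⊆ Finset.univ.erase e := fun i hi =>
        Finset.mem_erase.2 ⟨fun h => he (h ▸ hi), Finset.mem_univ i⟩
      rw [Finset.card_sdiff_of_subset h2, Finset.card_erase_of_mem (Finset.mem_univ e), Finset.card_univ,
        Fintype.card_fin, hX4])
  refine ⟨f ∘ σ, hf.comp σ.injective, ?_, fun A => ?_⟩
  · rw [Set.range_comp, σ.surjective.range_eq, Set.image_univ, hr]
  · rw [image_comp9]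
    have h1 := image_subset9 hr (A.map σ.toEmbedding)
    have h2 := ncard_image9 hf (A.map σ.toEmbedding)
    rw [Finset.card_map] at h2
    have h3 := hσ A
    rw [Finset.card_map] at h3
    unfold rank9
    rcases lt_trichotomy A.card 4 with h5 | h5 | h5
    · rw [if_neg (by omega)]
      have := sp_lt hs h1 (by omega)
      omega
    · have h6 := sp_eq hs h1 (by omega)
      have h7 := rk_le_rank M (f '' ((A.map σ.toEmbedding : Finset (Fin 9)) : Set (Fin 9)))
      by_cases h8 : ∃ m ∈ mobius, bits 9 m = A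
      · rw [if_pos ⟨h5, h8⟩]
        exact (h3.2 h8).2
      · rw [if_neg (fun h => h8 h.2)]
        have h9 : ¬ rk M (f '' ((A.map σ.toEmbedding : Finset (Fin 9)) : Set (Fin 9))) = 3 :=
          fun h => h8 (h3.1 ⟨h5, h⟩)
        omega
    · rw [if_neg (by omega)]
      have := sp_gt hs h1 (by omega)
      omega

theorem sp_main
    (class9 : ∀ (N : Finset (Fin 9) → Prop), (∀ A, N A → A.card = 4) →
      (∀ A B, N A → N B → A ≠ B → (A ∩ B).card ≤ 2) →
      (∀ e, ∃ A, e ∉ A ∧ N A ∧ N (Finset.univ.erase e \ A)) →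
      ∃ σ : Equiv.Perm (Fin 9), ∀ A : Finset (Fin 9), N (A.map σ.toEmbedding) ↔ ∃ m ∈ mobius, bits 9 m = A)
    (desc9_ex : ∀ (N : Matroid α) (_ : N.Finite) (f : Fin 9 → α), Desc9 N f → ExMinor N)
    (hs : SparsePaving M) (h9 : 9 ≤ M.E.ncard) (h4 : 4 ≤ rk M M.E) (h5 : rk M M.E + 4 ≤ M.E.ncard) :
    ¬ BW M 3 ∧ (Excluded M ↔ (∃ f : Fin 9 → α, Desc9 M f) ∨ ∃ f : Fin 9 → α, Desc9 M.dual f) := by
  refine ⟨fun h => sp_not_bw hs h9 h4 h5 ((bw_iff M (by norm_num)).1 h), ?_⟩
  rw [excluded_iff M]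
  have hd := rk_dual_ground M
  constructor
  · intro h
    have h10 : M.E.ncard = 9 := by
      by_contra hc
      exact sp_ten hs (by omega) h4 h5 h
    rcases (show rk M M.E = 4 ∨ rk M M.E = 5 by omega) with h6 | h6
    · exact Or.inl (sp_desc9 class9 hs h10 h6 h)
    · refine Or.inr (sp_desc9 class9 (sp_dual hs) ?_ ?_ h.dual) <;> rw [Matroid.dual_ground] <;> omega
  · rintro (⟨f, hf⟩ | ⟨f, hf⟩)
    · exact desc9_ex M inferInstance f hf
    · exact (ExMinor_dual_iff M).1 (desc9_ex M.dual inferInstance f hf)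

end

end Pool.Agent.BW3
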