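import Pool.Agent.Lib_MP_a68485_co.Comb4
import Pool.Agent.Lib_MP_a68485_co.Sound

/-!
# MP_a68485_co: soundness of the checker for rank four and eight elements
-/

set_option autoImplicit false

namespace Pool.Agent.BW3

theorem mem_bits87 : ∀ i : Fin 8, i ∈ bits 8 7 ↔ (i : ℕ) < 3 := by decide

theorem bits_filter3 (m : ℕ) : ((bits 8 m).filter fun i : Fin 8 => (i : ℕ) < 3) = bits 8 m ∩ bits 8 7 := by
  ext i
  rw [Finset.mem_filter, Finset.mem_inter, mem_bits87]

theorem map_symm_map8 (σ : Equiv.Perm (Fin 8)) (B : Finset (Fin 8)) :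
    (B.map σ.symm.toEmbedding).map σ.toEmbedding = B := by
  ext i
  simp

theorem Good4.map {b : Bool} {N : Finset (Fin 8) → Prop} (h : Good4 b N) (σ : Equiv.Perm (Fin 8))
    (hσ : b = true → (bits 8 7).map σ.toEmbedding = bits 8 7) : Good4 b fun A => N (A.map σ.toEmbedding) where
  card A hA := by simpa using h.card _ hA
  meet A B hA hB hAB := by
    have := h.meet _ _ hA hB (fun h' => hAB (Finset.map_injective _ h'))
    rwa [← Finset.map_inter, Finset.card_map] at this
  compl A hA hc := by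
    have h1 : (Aᶜ).map σ.toEmbedding = (A.map σ.toEmbedding)ᶜ := by
      ext i
      simp
    rw [h1] at hc
    exact h.compl _ hA hc
  line hb A hA := by
    have h1 := h.line hb _ hA
    rw [← hσ hb, ← Finset.map_inter, Finset.card_map] at h1
    exact h1
  inn hb i := by
    obtain ⟨B, hB, hi⟩ := h.inn hb (σ i)
    refine ⟨B.map σ.symm.toEmbedding, ?_, ?_⟩
    · rw [map_symm_map8]
      exact hB
    · rw [Finset.mem_map_equiv]
      simpa using hi
  out i hi := by
    obtain ⟨B, hB, hi'⟩ := h.out (σ i) (fun hb => by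
      rw [← hσ hb, Finset.mem_map_equiv, Equiv.symm_apply_apply]
      exact hi hb)
    refine ⟨B.map σ.symm.toEmbedding, ?_, ?_⟩
    · rw [map_symm_map8]
      exact hB
    · rw [Finset.mem_map_equiv]
      simpa using hi'

theorem Listed4.of_map {b : Bool} {Ls : List (List ℕ)} {N : Finset (Fin 8) → Prop} (σ : Equiv.Perm (Fin 8))
    (hσ : b = true → (bits 8 7).map σ.toEmbedding = bits 8 7)
    (h : Listed4 b Ls fun A => N (A.map σ.toEmbedding)) : Listed4 b Ls N := by
  obtain ⟨P, hP, τ, hτ, h⟩ := h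
  refine ⟨P, hP, τ.trans σ, fun hb => ?_, fun A => ?_⟩
  · have h1 : (bits 8 7).map (τ.trans σ).toEmbedding = ((bits 8 7).map τ.toEmbedding).map σ.toEmbedding := by
      rw [Finset.map_map]
      rfl
    rw [h1, hτ hb, hσ hb]
  · rw [← h A]
    show _ ↔ N (Finset.map σ.toEmbedding (Finset.map τ.toEmbedding A))
    rw [Finset.map_map]
    rfl

theorem bad4_sound {b : Bool} {N : Finset (Fin 8) → Prop} (hG : Good4 b N) {P : List ℕ}
    (hP : ∀ l ∈ P, N (bits 8 l)) {m : ℕ} (hNm : N (bits 8 m)) (h : bad4 P m = true) :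
    ∃ l ∈ P, bits 8 l = bits 8 m := by
  rw [bad4, List.any_eq_true] at h
  obtain ⟨l, hl, h⟩ := h
  refine ⟨l, hl, ?_⟩
  by_contra hne
  rw [Bool.or_eq_true] at h
  rcases h with h | h
  · have h1 := Nat.le_of_ble_eq_true h
    have h2 := hG.meet _ _ (hP l hl) hNm hne
    rw [Finset.inter_comm, bits_inter, ← pc_eq_card] at h2
    omega
  · have h1 := Nat.eq_of_beq_eq_true h
    have h2 : bits 8 m ∩ bits 8 l = ∅ := by
      rw [bits_inter, h1]
      ext i
      simp [bits]
    have h3 : bits 8 l = (bits 8 m)ᶜ := by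
      apply Finset.eq_of_subset_of_card_le
      · intro i hi
        rw [Finset.mem_compl]
        intro hi'
        have h4 : i ∈ bits 8 m ∩ bits 8 l := Finset.mem_inter.2 ⟨hi', hi⟩
        rw [h2] at h4
        simp at h4
      · rw [Finset.card_compl, Fintype.card_fin, hG.card _ hNm, hG.card _ (hP l hl)]
    have h4 := hP l hl
    rw [h3] at h4
    exact hG.compl _ hNm h4

theorem entry4_sound {b : Bool} {Ls Q : List (List ℕ)} (hQ : ∀ P ∈ Q, Claim4 b Ls P) {P : List ℕ} {m e : ℕ}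
    (h : entryOK4 b Q P m e = true) {N : Finset (Fin 8) → Prop} (hN : Good4 b N) (hP : ∀ l ∈ P, N (bits 8 l))
    (hNm : N (bits 8 m)) : Listed4 b Ls N := by
  have hP' : ∀ l ∈ m :: P, N (bits 8 l) := by
    intro l hl
    rcases List.mem_cons.1 hl with rfl | hl
    · exact hNm
    · exact hP l hl
  rw [entryOK4, Bool.and_eq_true, Bool.and_eq_true] at h
  obtain ⟨h1, h7, h2⟩ := h
  obtain ⟨σ, hσ⟩ := exists_perm h1
  have hσ7 : b = true → (bits 8 7).map σ.toEmbedding = bits 8 7 := by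
    intro hb
    rw [hσ]
    rw [hb, Bool.not_true, Bool.false_or] at h7
    rw [Nat.eq_of_beq_eq_true h7]
  cases hq : Q[e % 1024]? with
  | none => rw [hq] at h2; simp at h2
  | some q =>
    rw [hq] at h2
    have hqQ : q ∈ Q := List.mem_of_getElem? hq
    apply Listed4.of_map σ hσ7
    apply hQ q hqQ _ (hN.map σ hσ7)
    intro l hl
    have h3 := List.all_eq_true.1 h2 l hl
    obtain ⟨x, hx, hx'⟩ := List.any_eq_true.1 h3
    have hx'' := Nat.eq_of_beq_eq_true hx'
    show N ((bits 8 l).map σ.toEmbedding)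
    rw [hσ, hx'']
    exact hP' x hx

theorem chk4_sound {b : Bool} (Ls Q : List (List ℕ)) (hQ : ∀ P ∈ Q, Claim4 b Ls P) (P C cert : List ℕ)
    (h : chk4 b Q P C cert = true) (N : Finset (Fin 8) → Prop) (hN : Good4 b N) (hP : ∀ l ∈ P, N (bits 8 l))
    (m : ℕ) (hmC : m ∈ C) (hNm : N (bits 8 m)) :
    (∃ l ∈ P, bits 8 l = bits 8 m) ∨ Listed4 b Ls N := by
  induction C generalizing cert with
  | nil => simp at hmC
  | cons a C ih =>
    rw [chk4.eq_def] at h
    simp only at h
    cases hb : bad4 P a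
    · rw [hb, cond_false] at h
      cases cert with
      | nil => simp at h
      | cons e es =>
        simp only [Bool.and_eq_true] at h
        rcases List.mem_cons.1 hmC with rfl | hmC
        · exact Or.inr (entry4_sound hQ h.1 hN hP hNm)
        · exact ih es h.2 hmC
    · rw [hb, cond_true] at h
      rcases List.mem_cons.1 hmC with rfl | hmC
      · exact Or.inl (bad4_sound hN hP hNm hb)
      · exact ih cert h hmC

theorem mem_cands4 {b : Bool} {m : ℕ} : m ∈ cands4 b ↔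
    m < 256 ∧ (bits 8 m).card = 4 ∧ (b = true → (bits 8 m ∩ bits 8 7).card = 1) := by
  rw [cands4, List.mem_filter, List.mem_range, Bool.and_eq_true, pc_eq_card, Bool.or_eq_true,
    pc_lt_eq 8 3 m (by norm_num), bits_filter3]
  simp only [Nat.beq_eq, Bool.not_eq_true']
  cases b <;> simp

theorem exact4_sound {b : Bool} {Ls : List (List ℕ)} {P : List ℕ} (h : exactOK4 b Ls P = true)
    {N : Finset (Fin 8) → Prop} (hN : Good4 b N) (hP : ∀ A, N A ↔ ∃ m ∈ P, bits 8 m = A) : Listed4 b Ls N := by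
  rw [exactOK4, Bool.or_eq_true] at h
  rcases h with h | h
  · obtain ⟨q, hq, h1⟩ := List.any_eq_true.1 h
    have h1' : q = P := by simpa using h1
    subst h1'
    have h2 : ∀ A : Finset (Fin 8), A.map (Equiv.refl (Fin 8)).toEmbedding = A := by
      intro A
      ext i
      simp
    refine ⟨q, hq, Equiv.refl _, fun _ => h2 _, fun A => ?_⟩
    rw [← hP, h2]
  · exfalso
    obtain ⟨i, hi, h1⟩ := List.any_eq_true.1 h
    rw [List.mem_range] at hi
    rw [Bool.or_eq_true, Bool.and_eq_true, Bool.and_eq_true] at h1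
    rcases h1 with ⟨h2, h3⟩ | ⟨h2, h3⟩
    · have hb : b = false := by simpa using h2
      obtain ⟨A, hA, hiA⟩ := hN.inn hb ⟨i, hi⟩
      obtain ⟨m, hm, rfl⟩ := (hP A).1 hA
      have h4 := List.all_eq_true.1 h3 m hm
      rw [mem_bits] at hiA
      have h5 : m.testBit i = true := hiA
      rw [h5] at h4
      simp at h4
    · obtain ⟨A, hA, hiA⟩ := hN.out ⟨i, hi⟩ (fun hb => by
        rw [mem_bits87]
        rw [hb, Bool.not_true, Bool.false_or] at h2
        simpa [Nat.blt] using h2)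
      obtain ⟨m, hm, rfl⟩ := (hP A).1 hA
      have h4 := List.all_eq_true.1 h3 m hm
      exact hiA (mem_bits.2 h4)

theorem level_sound4 (b : Bool) (Ls Q : List (List ℕ)) (L : List (List ℕ × List ℕ)) (hQ : ∀ P ∈ Q, Claim4 b Ls P)
    (h : levelOK4 b Ls Q (cands4 b) L = true) : ∀ p ∈ L, Claim4 b Ls p.1 := by
  intro p hp N hN hNP
  have h1 := List.all_eq_true.1 h p hp
  rw [Bool.and_eq_true] at h1
  by_cases hA : ∃ A, N A ∧ ∀ l ∈ p.1, bits 8 l ≠ A
  · obtain ⟨A, hA, hA'⟩ := hA
    obtain ⟨m, hm, rfl⟩ := exists_mask A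
    rcases chk4_sound Ls Q hQ p.1 (cands4 b) p.2 h1.2 N hN hNP m
      (mem_cands4.2 ⟨hm, hN.card _ hA, fun hb => hN.line hb _ hA⟩) hA with h2 | h2
    · obtain ⟨l, hl, h2⟩ := h2
      exact absurd h2 (hA' l hl)
    · exact h2
  · apply exact4_sound h1.1 hN
    intro A
    constructor
    · intro hA'
      by_contra hc
      push Not at hc
      exact hA ⟨A, hA', hc⟩
    · rintro ⟨m, hm, rfl⟩
      exact hNP m hm

theorem good4_of_check (b : Bool) (P : List ℕ) (h : goodB4 b P = true) :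
    Good4 b fun A => ∃ m ∈ P, bits 8 m = A := by
  rw [goodB4, Bool.and_eq_true] at h
  obtain ⟨h1, h2⟩ := h
  have h1' : ∀ m ∈ P, (bits 8 m).card = 4 ∧ (b = true → (bits 8 m ∩ bits 8 7).card = 1) ∧
      ∀ l ∈ P, m = l ∨ ((bits 8 m ∩ bits 8 l).card ≤ 2 ∧ 1 ≤ (bits 8 m ∩ bits 8 l).card) := by
    intro m hm
    have h4 := List.all_eq_true.1 h1 m hm
    rw [Bool.and_eq_true, Bool.and_eq_true, Bool.and_eq_true, Bool.or_eq_true] at h4
    obtain ⟨_, h6, h7, h8⟩ := h4
    refine ⟨?_, ?_, ?_⟩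
    · rw [← pc_eq_card]
      exact Nat.eq_of_beq_eq_true h6
    · intro hb
      rcases h7 with h7 | h7
      · rw [hb] at h7
        simp at h7
      · rw [← bits_filter3, ← pc_lt_eq 8 3 m (by norm_num)]
        exact Nat.eq_of_beq_eq_true h7
    · intro l hl
      have h9 := List.all_eq_true.1 h8 l hl
      rw [Bool.or_eq_true, Bool.and_eq_true] at h9
      rcases h9 with h9 | ⟨h9, h10⟩
      · exact Or.inl (Nat.eq_of_beq_eq_true h9)
      · right
        rw [bits_inter, ← pc_eq_card]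
        exact ⟨Nat.le_of_ble_eq_true h9, Nat.le_of_ble_eq_true h10⟩
  have h2' : ∀ i : Fin 8, (b = true ∨ ∃ m ∈ P, m.testBit i = true) ∧
      ((b = true ∧ 3 ≤ (i : ℕ)) ∨ ∃ m ∈ P, m.testBit i = false) := by
    intro i
    have h4 := List.all_eq_true.1 h2 (i : ℕ) (List.mem_range.2 i.isLt)
    rw [Bool.and_eq_true, Bool.or_eq_true, Bool.or_eq_true, Bool.and_eq_true] at h4
    obtain ⟨h5, h6⟩ := h4
    constructor
    · rcases h5 with h5 | h5
      · exact Or.inl h5
      · exact Or.inr (List.any_eq_true.1 h5)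
    · rcases h6 with ⟨h6, h7⟩ | h6
      · exact Or.inl ⟨h6, Nat.le_of_ble_eq_true h7⟩
      · obtain ⟨m, hm, h7⟩ := List.any_eq_true.1 h6
        exact Or.inr ⟨m, hm, by simpa using h7⟩
  refine ⟨?_, ?_, ?_, ?_, ?_, ?_⟩
  · rintro A ⟨m, hm, rfl⟩
    exact (h1' m hm).1
  · rintro A B ⟨m, hm, rfl⟩ ⟨l, hl, rfl⟩ hne
    rcases (h1' m hm).2.2 l hl with h4 | h4
    · exact absurd (by rw [h4]) hne
    · exact h4.1
  · rintro A ⟨m, hm, rfl⟩ ⟨l, hl, hle⟩
    rcases (h1' m hm).2.2 l hl with h4 | h4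
    · rw [h4] at hle
      have h5 : (bits 8 l).card = 4 := (h1' l hl).1
      obtain ⟨i, hi⟩ : (bits 8 l).Nonempty := by
        rw [← Finset.card_pos]
        omega
      have h6 := hi
      rw [hle, Finset.mem_compl] at h6
      exact h6 hi
    · rw [hle, Finset.inter_compl, Finset.card_empty] at h4
      omega
  · rintro hb A ⟨m, hm, rfl⟩
    exact (h1' m hm).2.1 hb
  · intro hb i
    rcases (h2' i).1 with h4 | ⟨m, hm, h4⟩
    · rw [h4] at hb
      exact absurd hb (by simp)
    · exact ⟨_, ⟨m, hm, rfl⟩, mem_bits.2 h4⟩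
  · intro i hi
    rcases (h2' i).2 with ⟨hb, h4⟩ | ⟨m, hm, h4⟩
    · have := (mem_bits87 i).1 (hi hb)
      omega
    · refine ⟨_, ⟨m, hm, rfl⟩, fun h5 => ?_⟩
      rw [mem_bits] at h5
      rw [h5] at h4
      exact absurd h4 (by simp)

end Pool.Agent.BW3
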