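import Pool.Agent.Lib_MP_a68485_co.Rank3
import Pool.Agent.Lib_MP_a68485_co.Comb

/-!
# MP_a68485_co: from matroids to systems of lines on `Fin n`
-/

set_option autoImplicit false

namespace Pool.Agent.BW3

open Set

variable {α : Type*}

/-- the long lines of `M`, in the labelling `f` -/
def TL (M : Matroid α) {n : ℕ} (f : Fin n → α) (A : Finset (Fin n)) : Prop :=
  3 ≤ A.card ∧ rk M (f '' (A : Set (Fin n))) ≤ 2 ∧
    ∀ i, i ∉ A → 3 ≤ rk M (f '' ((insert i A : Finset (Fin n)) : Set (Fin n)))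

/-- the rank function of the matroid of rank three on `{0, ..., n - 1}` whose lines with more than two points are the
sets of the positions of the ones in the binary expansions of the numbers in `P` -/
def lineRank (n : ℕ) (P : List ℕ) (A : Finset (Fin n)) : ℕ :=
  if A.card ≤ 2 then A.card else if ∃ m ∈ P, A ⊆ bits n m then 2 else 3

/-- `f` is an isomorphism from the matroid given by `P` to `M` -/
def Desc (M : Matroid α) (n : ℕ) (P : List ℕ) (f : Fin n → α) : Prop :=
  Function.Injective f ∧ Set.range f = M.E ∧ ∀ A : Finset (Fin n), rk M (f '' (A : Set (Fin n))) = lineRank n P A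

section

variable (M : Matroid α) [M.Finite]

omit [M.Finite] in
theorem exists_TL {n : ℕ} (f : Fin n → α) (A : Finset (Fin n)) (h3 : 3 ≤ A.card)
    (h : rk M (f '' (A : Set (Fin n))) ≤ 2) : ∃ B, TL M f B ∧ A ⊆ B := by
  obtain ⟨B, hAB, hB⟩ := Finite.exists_le_maximal (p := fun B : Finset (Fin n) => rk M (f '' (B : Set (Fin n))) ≤ 2) h
  refine ⟨B, ⟨h3.trans (Finset.card_le_card hAB), hB.prop, fun i hi => ?_⟩, hAB⟩
  by_contra hc
  have h1 : rk M (f '' ((insert i B : Finset (Fin n)) : Set (Fin n))) ≤ 2 := by omega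
  exact hi (hB.le_of_ge h1 (Finset.subset_insert i B) (Finset.mem_insert_self i B))

variable {M}

theorem cov_iff {n : ℕ} {f : Fin n → α} (hf : Function.Injective f) {T : Finset (Fin n) → Prop}
    (ha : ∀ A, T A → rk M (f '' (A : Set (Fin n))) ≤ 2)
    (hb : ∀ A : Finset (Fin n), 3 ≤ A.card → rk M (f '' (A : Set (Fin n))) ≤ 2 → ∃ B, T B ∧ A ⊆ B)
    (k : ℕ) (R : Finset (Fin n)) : Cov M k (f '' (R : Set (Fin n))) ↔ CovT T k R := by
  induction k generalizing R with
  | zero =>
    change f '' (R : Set (Fin n)) = ∅ ↔ R = ∅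
    rw [Set.image_eq_empty, Finset.coe_eq_empty]
  | succ k ih =>
    have hcard : (f '' (R : Set (Fin n))).ncard = R.card := by
      rw [Set.ncard_image_of_injective _ hf, Set.ncard_coe_finset]
    have hfin : (f '' (R : Set (Fin n))).Finite := Set.toFinite _
    constructor
    · intro h
      rcases Nat.lt_or_ge (2 * (k + 1)) R.card with h1 | h1
      · right
        obtain ⟨L, hL, h3, hcov⟩ := cov_big hfin h (by omega)
        classical
        have h4 : f '' ((R.filter fun i => f i ∈ L : Finset (Fin n)) : Set (Fin n)) = f '' (R : Set (Fin n)) ∩ L := by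
          ext z
          simp only [Finset.coe_filter, Set.mem_image, Set.mem_ofPred_eq, Set.mem_inter_iff, Finset.mem_coe]
          constructor
          · rintro ⟨i, ⟨hi, hi'⟩, rfl⟩
            exact ⟨⟨i, hi, rfl⟩, hi'⟩
          · rintro ⟨⟨i, hi, rfl⟩, hi'⟩
            exact ⟨i, ⟨hi, hi'⟩, rfl⟩
        have h5 : 3 ≤ (R.filter fun i => f i ∈ L).card := by
          rw [← h4, Set.ncard_image_of_injective _ hf, Set.ncard_coe_finset] at h3
          exact h3
        obtain ⟨B, hB, hsub⟩ := hb _ h5 (by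
          rw [h4]
          exact (rk_mono M Set.inter_subset_right).trans hL)
        refine ⟨B, hB, (ih _).1 (hcov.mono ?_)⟩
        rintro z ⟨i, hi, rfl⟩
        rw [Finset.mem_coe, Finset.mem_sdiff] at hi
        refine ⟨⟨i, hi.1, rfl⟩, fun h => hi.2 (hsub ?_)⟩
        exact Finset.mem_filter.2 ⟨hi.1, h⟩
      · exact Or.inl h1
    · rintro (h | ⟨A, hA, h⟩)
      · exact cov_of_ncard M hfin (by omega)
      · refine ⟨f '' (A : Set (Fin n)), ha A hA, ?_⟩
        rw [← Set.image_sdiff hf, ← Finset.coe_sdiff]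
        exact (ih _).2 h

/-- the long lines of a critical matroid of rank three form a good system -/
theorem good_TL {n : ℕ} {f : Fin n → α} (hf : Function.Injective f) (hr : Set.range f = M.E)
    (h : KCrit M 3 M.E) : Good n (TL M f) := by
  have himg : ∀ A : Finset (Fin n), f '' (A : Set (Fin n)) ⊆ M.E := fun A => hr ▸ Set.image_subset_range f _
  have hs := h.simp (by norm_num)
  have ha : ∀ A, TL M f A → rk M (f '' (A : Set (Fin n))) ≤ 2 := fun A hA => hA.2.1
  have hb := exists_TL M f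
  have huniv : f '' ((Finset.univ : Finset (Fin n)) : Set (Fin n)) = M.E := by
    rw [Finset.coe_univ, Set.image_univ, hr]
  refine ⟨fun A hA => ?_, fun A B hA hB hAB => ?_, fun hc => ?_, fun i => ?_⟩
  · have h1 := h.line M.ground_finite (by norm_num) (himg A) hA.2.1
    rw [Set.ncard_image_of_injective _ hf, Set.ncard_coe_finset] at h1
    have := hA.1
    omega
  · by_contra hc
    obtain ⟨x, hx, y, hy, hxy⟩ := Finset.one_lt_card.1 (by omega : 1 < (A ∩ B).card)
    rw [Finset.mem_inter] at hx hy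
    have h1 : rk M (f '' (A : Set (Fin n)) ∪ f '' (B : Set (Fin n))) ≤ 2 :=
      absorb M hs hA.2.1 hB.2.1 (himg A ⟨x, hx.1, rfl⟩) (himg A ⟨y, hy.1, rfl⟩) (fun h => hxy (hf h))
        ⟨x, hx.1, rfl⟩ ⟨y, hy.1, rfl⟩ ⟨x, hx.2, rfl⟩ ⟨y, hy.2, rfl⟩
    have h2 : ∀ C D : Finset (Fin n), TL M f C → f '' (D : Set (Fin n)) ⊆ f '' (A : Set (Fin n)) ∪ f '' (B : Set (Fin n)) →
        f '' (C : Set (Fin n)) ⊆ f '' (A : Set (Fin n)) ∪ f '' (B : Set (Fin n)) → D ⊆ C := by
      intro C D hC hD hC' i hi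
      by_contra hiC
      have h3 := hC.2.2 i hiC
      have h4 : f '' ((insert i C : Finset (Fin n)) : Set (Fin n)) ⊆ f '' (A : Set (Fin n)) ∪ f '' (B : Set (Fin n)) := by
        rw [Finset.coe_insert, Set.image_insert_eq]
        exact Set.insert_subset (hD ⟨i, hi, rfl⟩) hC'
      have h5 := (rk_mono M h4).trans h1
      omega
    exact hAB (Finset.Subset.antisymm (h2 B A hB Set.subset_union_left Set.subset_union_right)
      (h2 A B hA Set.subset_union_right Set.subset_union_left))
  · have h1 := (cov_iff hf ha hb 3 Finset.univ).2 hc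
    rw [huniv] at h1
    exact h.1 h1
  · refine (cov_iff hf ha hb 3 _).1 ?_
    rw [Finset.coe_erase, Set.image_sdiff hf, huniv, Set.image_singleton]
    exact h.2 _ (hr ▸ ⟨i, rfl⟩)

/-- if the long lines are given by `P` then so is the rank function -/
theorem desc_of_TL {n : ℕ} {f : Fin n → α} (hf : Function.Injective f) (hr : Set.range f = M.E) (hn : 2 ≤ n)
    (h3 : rk M M.E = 3) (hs : Simp M M.E) {P : List ℕ} (hP : ∀ A, TL M f A ↔ ∃ m ∈ P, bits n m = A) :
    Desc M n P f := by
  refine ⟨hf, hr, fun A => ?_⟩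
  have himg : ∀ A : Finset (Fin n), f '' (A : Set (Fin n)) ⊆ M.E := fun A => hr ▸ Set.image_subset_range f _
  have hfE : ∀ i, f i ∈ M.E := fun i => hr ▸ ⟨i, rfl⟩
  have hpair : ∀ i j, i ≠ j → 2 ≤ rk M {f i, f j} := fun i j hij => hs _ (hfE i) _ (hfE j) fun h => hij (hf h)
  have hle : rk M (f '' (A : Set (Fin n))) ≤ A.card := by
    have := rk_le_ncard M (Set.toFinite (f '' (A : Set (Fin n))))
    rwa [Set.ncard_image_of_injective _ hf, Set.ncard_coe_finset] at this
  have htwo : 2 ≤ A.card → 2 ≤ rk M (f '' (A : Set (Fin n))) := by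
    intro h
    obtain ⟨x, hx, y, hy, hxy⟩ := Finset.one_lt_card.1 (by omega : 1 < A.card)
    refine (hpair x y hxy).trans (rk_mono M ?_)
    rintro z (rfl | rfl)
    · exact ⟨x, hx, rfl⟩
    · exact ⟨y, hy, rfl⟩
  unfold lineRank
  split_ifs with h1 h2
  · interval_cases hc : A.card
    · omega
    · obtain ⟨i, rfl⟩ := Finset.card_eq_one.1 hc
      obtain ⟨j, hj⟩ : ∃ j : Fin n, i ≠ j := by
        by_cases h0 : (i : ℕ) = 0
        · exact ⟨⟨1, by omega⟩, fun h => by rw [h] at h0; simp at h0⟩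
        · exact ⟨⟨0, by omega⟩, fun h => h0 (by rw [h])⟩
      have h2 := hpair i j hj
      have h3 := rk_union_le M {f i} {f j}
      have h4 := rk_singleton_le M (f j)
      rw [Set.singleton_union] at h3
      rw [Finset.coe_singleton, Set.image_singleton] at hle ⊢
      omega
    · have := htwo (by omega)
      omega
  · obtain ⟨m, hm, hsub⟩ := h2
    have h4 := ((hP (bits n m)).2 ⟨m, hm, rfl⟩).2.1
    have h5 := rk_mono M (Set.image_mono (f := f) (Finset.coe_subset.2 hsub))
    have h6 := htwo (by omega)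
    omega
  · have h4 : rk M (f '' (A : Set (Fin n))) ≤ 3 := h3 ▸ rk_le_rank M _
    by_contra hc
    obtain ⟨B, hB, hAB⟩ := exists_TL M f A (by omega) (by omega)
    obtain ⟨m, hm, rfl⟩ := (hP B).1 hB
    exact h2 ⟨m, hm, hAB⟩

/-- the converse: a matroid described by a good system is an excluded minor -/
theorem exMinor_of_desc {n : ℕ} {f : Fin n → α} {P : List ℕ} (hd : Desc M n P f)
    (hg : Good n fun A => ∃ m ∈ P, bits n m = A) : rk M M.E = 3 ∧ ExMinor M := by
  obtain ⟨hf, hr, hrk⟩ := hd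
  have huniv : f '' ((Finset.univ : Finset (Fin n)) : Set (Fin n)) = M.E := by
    rw [Finset.coe_univ, Set.image_univ, hr]
  have ha : ∀ A, (∃ m ∈ P, bits n m = A) → rk M (f '' (A : Set (Fin n))) ≤ 2 := by
    rintro A ⟨m, hm, rfl⟩
    rw [hrk]
    unfold lineRank
    split_ifs with h1 h2
    · exact h1
    · exact le_refl _
    · exact absurd ⟨m, hm, subset_refl _⟩ h2
  have hb : ∀ A : Finset (Fin n), 3 ≤ A.card → rk M (f '' (A : Set (Fin n))) ≤ 2 →
      ∃ B, (∃ m ∈ P, bits n m = B) ∧ A ⊆ B := by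
    intro A h3 h2
    rw [hrk] at h2
    unfold lineRank at h2
    split_ifs at h2 with h4 h5
    · omega
    · obtain ⟨m, hm, hsub⟩ := h5
      exact ⟨_, ⟨m, hm, rfl⟩, hsub⟩
    · omega
  have h1 := fun k R => cov_iff hf ha hb k R
  have h3 : rk M M.E = 3 := by
    rw [← huniv, hrk]
    unfold lineRank
    rw [if_neg, if_neg]
    · rintro ⟨m, hm, hsub⟩
      refine hg.notcov ?_
      refine Or.inr ⟨_, ⟨m, hm, rfl⟩, ?_⟩
      rw [Finset.sdiff_eq_empty_iff_subset.2 hsub]
      exact Or.inl (by simp)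
    · intro h
      exact hg.notcov (Or.inl (by omega))
  refine ⟨h3, (exMinor_iff M h3).2 ⟨fun hc => hg.notcov ((h1 _ _).1 (huniv ▸ hc)), fun e he => ?_⟩⟩
  rw [← hr] at he
  obtain ⟨i, rfl⟩ := he
  have h4 := (h1 3 _).2 (hg.cov i)
  rwa [Finset.coe_erase, Set.image_sdiff hf, huniv, Set.image_singleton] at h4

end

end Pool.Agent.BW3
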