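import Pool.Agent.Lib_MP_a68485_co.Main
import Pool.Agent.Lib_MP_a68485_co.Bw8
import Pool.Agent.Lib_MP_a68485_co.Small
import Pool.Agent.Lib_MP_a68485_co.RF
import Pool.Agent.Lib_MP_a68485_co.Perm
import Pool.Agent.Lib_MP_a68485_co.Class4

/-!
# MP_a68485_co: excluded minors of rank four with eight elements
-/

set_option autoImplicit false

namespace Pool.Agent.BW3

open Set

variable {α : Type*}

/-- `f` is an isomorphism from the matroid on eight points with the rank function `rank4 b P` to `M` -/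
def Desc4 (M : Matroid α) (b : Bool) (P : List ℕ) (f : Fin 8 → α) : Prop :=
  Function.Injective f ∧ Set.range f = M.E ∧ ∀ A : Finset (Fin 8), rk M (f '' (A : Set (Fin 8))) = rank4 b P A

section

variable {M : Matroid α}

theorem compl_image {f : Fin 8 → α} (hf : Function.Injective f) (hr : Set.range f = M.E) (A : Finset (Fin 8)) :
    M.E \ (f '' (A : Set (Fin 8))) = f '' ((Aᶜ : Finset (Fin 8)) : Set (Fin 8)) := by
  rw [← hr, ← Set.image_univ, ← Set.image_sdiff hf, Finset.coe_compl, Set.compl_eq_univ_sdiff]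

theorem ncard_image8 {f : Fin 8 → α} (hf : Function.Injective f) (A : Finset (Fin 8)) :
    (f '' (A : Set (Fin 8))).ncard = A.card := by
  rw [Set.ncard_image_of_injective _ hf, Set.ncard_coe_finset]

theorem image_subset8 {f : Fin 8 → α} (hr : Set.range f = M.E) (A : Finset (Fin 8)) :
    f '' (A : Set (Fin 8)) ⊆ M.E := hr ▸ Set.image_subset_range f _

theorem exists_finset8 {f : Fin 8 → α} (hr : Set.range f = M.E) {X : Set α} (hX : X ⊆ M.E) :
    ∃ A : Finset (Fin 8), f '' (A : Set (Fin 8)) = X := by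
  classical
  refine ⟨Finset.univ.filter fun i => f i ∈ X, ?_⟩
  ext z
  simp only [Finset.coe_filter, Finset.mem_univ, true_and, Set.mem_image, Set.mem_ofPred_eq]
  constructor
  · rintro ⟨i, hi, rfl⟩
    exact hi
  · intro hz
    have h1 := hX hz
    rw [← hr] at h1
    obtain ⟨i, rfl⟩ := h1
    exact ⟨i, hz, rfl⟩

theorem conn_image8 (h4 : rk M M.E = 4) {f : Fin 8 → α} (hf : Function.Injective f) (hr : Set.range f = M.E)
    (A : Finset (Fin 8)) : conn M (f '' (A : Set (Fin 8))) ≤ 3 ↔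
      rk M (f '' (A : Set (Fin 8))) + rk M (f '' ((Aᶜ : Finset (Fin 8)) : Set (Fin 8))) ≤ 6 := by
  unfold conn
  rw [compl_image hf hr, h4]
  omega

variable [M.Finite]

theorem rf_of_exMinor (h8 : M.E.ncard = 8) (h4 : rk M M.E = 4) (h : ExMinor M) {f : Fin 8 → α}
    (hf : Function.Injective f) (hr : Set.range f = M.E) :
    RF (fun A : Finset (Fin 8) => rk M (f '' (A : Set (Fin 8)))) := by
  obtain ⟨hb, hmin⟩ := (exMinor8 M h8 h4).1 h
  rw [bw8 M h8, not_or] at hb
  obtain ⟨hb1, hb2⟩ := hb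
  have huniv : f '' ((Finset.univ : Finset (Fin 8)) : Set (Fin 8)) = M.E := by
    rw [Finset.coe_univ, Set.image_univ, hr]
  refine ⟨fun A => ?_, fun A B hAB => rk_mono M (Set.image_mono (Finset.coe_subset.2 hAB)), fun A B => ?_, ?_,
    fun A hA => ?_, fun A B hA hB hd h1 h2 => ?_, fun i => ?_, fun i => ?_⟩
  · rw [← ncard_image8 hf A]
    exact rk_le_ncard M (Set.toFinite _)
  · have h1 := rk_sub M (f '' (A : Set (Fin 8))) (f '' (B : Set (Fin 8)))
    rw [← Set.image_inter hf, ← Set.image_union, ← Finset.coe_inter, ← Finset.coe_union] at h1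
    exact h1
  · change rk M (f '' ((Finset.univ : Finset (Fin 8)) : Set (Fin 8))) = 4
    rw [huniv, h4]
  · by_contra hc
    refine hb1 ⟨f '' (A : Set (Fin 8)), image_subset8 hr A, by rw [ncard_image8 hf, hA], ?_⟩
    rw [conn_image8 h4 hf hr]
    omega
  · refine hb2 ⟨f '' (A : Set (Fin 8)), image_subset8 hr A, f '' (B : Set (Fin 8)), image_subset8 hr B,
      by rw [ncard_image8 hf, hA], by rw [ncard_image8 hf, hB], ?_, ?_, ?_⟩
    · exact (Set.disjoint_image_iff hf).2 (Finset.disjoint_coe.2 hd)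
    · rw [conn_image8 h4 hf hr]
      exact h1
    · rw [conn_image8 h4 hf hr]
      exact h2
  · obtain ⟨⟨X, hX, hXc, hiX, hrX⟩, _⟩ := hmin (f i) (hr ▸ ⟨i, rfl⟩)
    obtain ⟨A, rfl⟩ := exists_finset8 hr hX
    rw [ncard_image8 hf] at hXc
    refine ⟨A, hXc, ?_, hrX⟩
    obtain ⟨j, hj, hji⟩ := hiX
    rw [← hf hji]
    exact hj
  · obtain ⟨_, X, hX, hXc, hiX, hrX⟩ := hmin (f i) (hr ▸ ⟨i, rfl⟩)
    obtain ⟨A, rfl⟩ := exists_finset8 hr hX
    rw [ncard_image8 hf] at hXc
    exact ⟨A, hXc, fun hi => hiX ⟨i, hi, rfl⟩, hrX⟩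

theorem image_comp8 (f : Fin 8 → α) (σ : Equiv.Perm (Fin 8)) (A : Finset (Fin 8)) :
    (f ∘ σ) '' (A : Set (Fin 8)) = f '' ((A.map σ.toEmbedding : Finset (Fin 8)) : Set (Fin 8)) := by
  rw [Finset.coe_map, Set.image_comp]
  rfl

theorem range_comp8 {f : Fin 8 → α} (hr : Set.range f = M.E) (σ : Equiv.Perm (Fin 8)) :
    Set.range (f ∘ σ) = M.E := by
  rw [Set.range_comp, σ.surjective.range_eq, Set.image_univ, hr]

/-- with a dependent triple -/
theorem desc4_line (h8 : M.E.ncard = 8) (h4 : rk M M.E = 4) (h : ExMinor M) {f : Fin 8 → α}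
    (hf : Function.Injective f) (hr : Set.range f = M.E) {T : Finset (Fin 8)} (hT : T.card = 3)
    (hrT : rk M (f '' (T : Set (Fin 8))) ≤ 2) : ∃ P ∈ listL, ∃ g : Fin 8 → α, Desc4 M true P g := by
  obtain ⟨σ, hσ⟩ := exists_perm_map (bits 8 7) T (by rw [card_bits7, hT])
  have hf1 : Function.Injective (f ∘ σ) := hf.comp σ.injective
  have hr1 : Set.range (f ∘ σ) = M.E := range_comp8 hr σ
  have h1 := rf_of_exMinor h8 h4 h hf1 hr1
  have hT1 : rk M ((f ∘ σ) '' ((bits 8 7 : Finset (Fin 8)) : Set (Fin 8))) ≤ 2 := by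
    rw [image_comp8, hσ]
    exact hrT
  obtain ⟨P, hP, τ, hτ, hN⟩ := class4L _ (h1.good_true hT1)
  refine ⟨P, hP, (f ∘ σ) ∘ τ, ?_⟩
  have hf2 : Function.Injective ((f ∘ σ) ∘ τ) := hf1.comp τ.injective
  have hr2 : Set.range ((f ∘ σ) ∘ τ) = M.E := range_comp8 hr1 τ
  have h2 := rf_of_exMinor h8 h4 h hf2 hr2
  have hT2 : rk M (((f ∘ σ) ∘ τ) '' ((bits 8 7 : Finset (Fin 8)) : Set (Fin 8))) ≤ 2 := by
    rw [image_comp8, hτ rfl]
    exact hT1
  refine ⟨hf2, hr2, h2.eq_rank4 (fun A => ?_) (fun K hK hrK => h2.dep_five card_bits7 hT2 hK hrK) fun S hS => ?_⟩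
  · rw [← hN A]
    unfold NB
    dsimp only
    rw [image_comp8, Finset.card_map]
    have h3 : bits 8 7 ⊆ A.map τ.toEmbedding ↔ bits 8 7 ⊆ A := by
      conv_lhs => rw [← hτ rfl]
      rw [Finset.map_subset_map]
    rw [h3]
  · constructor
    · intro hrS
      exact ⟨rfl, h2.dep_unique hS hrS card_bits7 hT2⟩
    · rintro ⟨_, rfl⟩
      exact hT2

/-- without dependent triples and without five elements of rank three -/
theorem desc4_sparse (h8 : M.E.ncard = 8) (h4 : rk M M.E = 4) (h : ExMinor M) {f : Fin 8 → α}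
    (hf : Function.Injective f) (hr : Set.range f = M.E)
    (hT : ∀ T : Finset (Fin 8), T.card = 3 → 3 ≤ rk M (f '' (T : Set (Fin 8))))
    (hK : ∀ K : Finset (Fin 8), K.card = 5 → ¬ rk M (f '' (K : Set (Fin 8))) ≤ 3) :
    ∃ P ∈ listS, ∃ g : Fin 8 → α, Desc4 M false P g := by
  have h1 := rf_of_exMinor h8 h4 h hf hr
  obtain ⟨P, hP, τ, _, hN⟩ := class4S _ (h1.good_false hT hK)
  refine ⟨P, hP, f ∘ τ, ?_⟩
  have hf2 : Function.Injective (f ∘ τ) := hf.comp τ.injective
  have hr2 : Set.range (f ∘ τ) = M.E := range_comp8 hr τ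
  have h2 := rf_of_exMinor h8 h4 h hf2 hr2
  refine ⟨hf2, hr2, h2.eq_rank4 (fun A => ?_) (fun K hK' => ?_) fun S hS => ?_⟩
  · rw [← hN A]
    unfold NB
    dsimp only
    rw [image_comp8, Finset.card_map]
    simp
  · rw [image_comp8]
    exact hK _ (by rw [Finset.card_map, hK'])
  · rw [image_comp8]
    have := hT (S.map τ.toEmbedding) (by rw [Finset.card_map, hS])
    constructor
    · intro h3
      omega
    · rintro ⟨h3, _⟩
      simp at h3

/-- rank four and eight elements, the three types -/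
theorem class_rank4 (h8 : M.E.ncard = 8) (h4 : rk M M.E = 4) (h : ExMinor M) :
    (∃ P ∈ listS, ∃ g : Fin 8 → α, Desc4 M false P g) ∨ (∃ P ∈ listL, ∃ g : Fin 8 → α, Desc4 M true P g) ∨
      ∃ P ∈ listL, ∃ g : Fin 8 → α, Desc4 M.dual true P g := by
  obtain ⟨f, hf, hr⟩ := exists_label (M := M) h8
  by_cases hT : ∃ T : Finset (Fin 8), T.card = 3 ∧ rk M (f '' (T : Set (Fin 8))) ≤ 2
  · obtain ⟨T, hTc, hrT⟩ := hT
    exact Or.inr (Or.inl (desc4_line h8 h4 h hf hr hTc hrT))
  by_cases hK : ∃ K : Finset (Fin 8), K.card = 5 ∧ rk M (f '' (K : Set (Fin 8))) ≤ 3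
  · obtain ⟨K, hKc, hrK⟩ := hK
    refine Or.inr (Or.inr ?_)
    have h5 := rk_dual M (image_subset8 hr Kᶜ)
    rw [compl_image hf hr, compl_compl, h4, ncard_image8 hf, card_compl8, hKc] at h5
    have h6 := rk_dual_ground M
    refine desc4_line (M := M.dual) h8 ?_ h.dual hf hr (T := Kᶜ) (by rw [card_compl8, hKc]) (by omega)
    rw [Matroid.dual_ground]
    omega
  · push Not at hT hK
    exact Or.inl (desc4_sparse h8 h4 h hf hr (fun T hTc => by have := hT T hTc; omega) fun K hKc hr' => by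
      have := hK K hKc
      omega)

/-! ### the converse -/

theorem rank4_le {b : Bool} {P : List ℕ} (A : Finset (Fin 8)) : rank4 b P A ≤ 4 := by
  unfold rank4
  split_ifs <;> omega

theorem rank4_four {b : Bool} {P : List ℕ} {A : Finset (Fin 8)} (hA : A.card = 4) :
    rank4 b P A = if (b = true ∧ bits 8 7 ⊆ A) ∨ ∃ m ∈ P, bits 8 m = A then 3 else 4 := by
  unfold rank4
  rw [if_neg (by omega), if_neg (by omega), if_pos hA]

theorem exMinor_of_desc4 {b : Bool} {P : List ℕ} {f : Fin 8 → α} (hd : Desc4 M b P f)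
    (hg : Good4 b fun A => ∃ m ∈ P, bits 8 m = A) : M.E.ncard = 8 ∧ rk M M.E = 4 ∧ ExMinor M := by
  obtain ⟨hf, hr, hrk⟩ := hd
  have huniv : f '' ((Finset.univ : Finset (Fin 8)) : Set (Fin 8)) = M.E := by
    rw [Finset.coe_univ, Set.image_univ, hr]
  have h8 : M.E.ncard = 8 := by
    rw [← huniv, ncard_image8 hf, Finset.card_univ, Fintype.card_fin]
  have h4 : rk M M.E = 4 := by
    rw [← huniv, hrk]
    unfold rank4
    rw [Finset.card_univ, Fintype.card_fin, if_neg (by norm_num), if_neg (by norm_num), if_neg (by norm_num)]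
  refine ⟨h8, h4, (exMinor8 M h8 h4).2 ⟨?_, fun e he => ?_⟩⟩
  · rw [bw8 M h8]
    rintro (⟨X, hX, hXc, hc⟩ | ⟨X, hX, Y, hY, hXc, hYc, hdis, hc1, hc2⟩)
    · obtain ⟨A, rfl⟩ := exists_finset8 hr hX
      rw [ncard_image8 hf] at hXc
      rw [conn_image8 h4 hf hr, hrk, hrk, rank4_four hXc, rank4_four (by rw [card_compl8, hXc])] at hc
      split_ifs at hc with h1 h2
      · rcases h1 with ⟨hb, h1⟩ | h1
        · rcases h2 with ⟨_, h2⟩ | h2
          · have h3 : (0 : Fin 8) ∈ bits 8 7 := by decide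
            exact (Finset.mem_compl.1 (h2 h3)) (h1 h3)
          · have h3 := hg.line hb _ h2
            have h4 : Aᶜ ∩ bits 8 7 = ∅ := by
              rw [← Finset.disjoint_iff_inter_eq_empty, Finset.disjoint_left]
              intro z hz hz'
              exact (Finset.mem_compl.1 hz) (h1 hz')
            rw [h4, Finset.card_empty] at h3
            omega
        · rcases h2 with ⟨hb, h2⟩ | h2
          · have h3 := hg.line hb _ h1
            have h4 : A ∩ bits 8 7 = ∅ := by
              rw [← Finset.disjoint_iff_inter_eq_empty, Finset.disjoint_left]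
              intro z hz hz'
              exact (Finset.mem_compl.1 (h2 hz')) hz
            rw [h4, Finset.card_empty] at h3
            omega
          · exact hg.compl _ h1 h2
      all_goals omega
    · obtain ⟨A, rfl⟩ := exists_finset8 hr hX
      obtain ⟨B, rfl⟩ := exists_finset8 hr hY
      rw [ncard_image8 hf] at hXc hYc
      rw [conn_image8 h4 hf hr, hrk, hrk] at hc1 hc2
      have key : ∀ C : Finset (Fin 8), C.card = 3 → rank4 b P C + rank4 b P Cᶜ ≤ 6 → C = bits 8 7 := by
        intro C hC hC'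
        unfold rank4 at hC'
        rw [card_compl8, hC] at hC'
        by_contra hne
        simp [hne] at hC'
      have hA := key A hXc hc1
      have hB := key B hYc hc2
      rw [hA, hB, Set.disjoint_left] at hdis
      have h3 : (0 : Fin 8) ∈ bits 8 7 := by decide
      exact hdis ⟨0, h3, rfl⟩ ⟨0, h3, rfl⟩
  · rw [← hr] at he
    obtain ⟨i, rfl⟩ := he
    have hconv : ∀ A : Finset (Fin 8), A.card = 4 → ((b = true ∧ bits 8 7 ⊆ A) ∨ ∃ m ∈ P, bits 8 m = A) →
        rk M (f '' (A : Set (Fin 8))) ≤ 3 := by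
      intro A hA h1
      rw [hrk, rank4_four hA, if_pos h1]
    have hinj : ∀ A : Finset (Fin 8), f i ∈ f '' (A : Set (Fin 8)) ↔ i ∈ A := by
      intro A
      constructor
      · rintro ⟨j, hj, hji⟩
        rw [← hf hji]
        exact hj
      · intro hi
        exact ⟨i, hi, rfl⟩
    -- sets that contain the line
    have hline : ∀ j : Fin 8, j ∉ bits 8 7 → (insert j (bits 8 7)).card = 4 := by
      intro j hj
      rw [Finset.card_insert_of_notMem hj, card_bits7]
    constructor
    · cases hb : b with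
      | false =>
        obtain ⟨A, hA, hi⟩ := hg.inn hb i
        exact ⟨f '' (A : Set (Fin 8)), image_subset8 hr A, by rw [ncard_image8 hf, hg.card _ hA], (hinj A).2 hi,
          hconv A (hg.card _ hA) (Or.inr hA)⟩
      | true =>
        have hj : ∃ j : Fin 8, j ∉ bits 8 7 ∧ i ∈ insert j (bits 8 7) := by
          by_cases hi : i ∈ bits 8 7
          · exact ⟨3, by decide, Finset.mem_insert_of_mem hi⟩
          · exact ⟨i, hi, Finset.mem_insert_self _ _⟩
        obtain ⟨j, hj, hi⟩ := hj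
        exact ⟨f '' ((insert j (bits 8 7) : Finset (Fin 8)) : Set (Fin 8)), image_subset8 hr _,
          by rw [ncard_image8 hf, hline j hj], (hinj _).2 hi,
          hconv _ (hline j hj) (Or.inl ⟨hb, Finset.subset_insert _ _⟩)⟩
    · by_cases hcase : b = true → i ∈ bits 8 7
      · obtain ⟨A, hA, hi⟩ := hg.out i hcase
        exact ⟨f '' (A : Set (Fin 8)), image_subset8 hr A, by rw [ncard_image8 hf, hg.card _ hA],
          fun h => hi ((hinj A).1 h), hconv A (hg.card _ hA) (Or.inr hA)⟩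
      · push Not at hcase
        obtain ⟨hb, hi⟩ := hcase
        have hj : ∃ j : Fin 8, j ∉ bits 8 7 ∧ j ≠ i := by
          by_cases h3 : i = 3
          · exact ⟨4, by decide, by rw [h3]; decide⟩
          · exact ⟨3, by decide, fun h => h3 h.symm⟩
        obtain ⟨j, hj, hji⟩ := hj
        refine ⟨f '' ((insert j (bits 8 7) : Finset (Fin 8)) : Set (Fin 8)), image_subset8 hr _,
          by rw [ncard_image8 hf, hline j hj], fun h => ?_,
          hconv _ (hline j hj) (Or.inl ⟨hb, Finset.subset_insert _ _⟩)⟩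
        rcases Finset.mem_insert.1 ((hinj _).1 h) with h5 | h5
        · exact hji h5.symm
        · exact hi h5

end

end Pool.Agent.BW3
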