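import Pool.Agent.Lib_MP_a68485_co.Base

/-!
# MP_a68485_co: branch decompositions with unrooted cubic trees give rooted binary trees
-/

set_option autoImplicit false

namespace Pool.Agent.BW3

section graph

variable {V : Type} {G : SimpleGraph V}

theorem closer_unique (hG : G.IsTree) {w u z z' : V} (hz : G.Adj u z) (hz' : G.Adj u z')
    (h : G.dist w u = G.dist w z + 1) (h' : G.dist w u = G.dist w z' + 1) : z = z' := by
  classical
  obtain ⟨p, hp, hpl⟩ := hG.connected.exists_path_of_dist w u
  have key : ∀ z, G.Adj u z → G.dist w u = G.dist w z + 1 → z = p.penultimate := by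
    intro z hz h
    obtain ⟨q, hq, hql⟩ := hG.connected.exists_path_of_dist w z
    have hu : u ∉ q.support := by
      intro hmem
      have h1 := SimpleGraph.dist_le (q.takeUntil u hmem)
      have h2 := q.length_takeUntil_le_length hmem
      omega
    exact hG.isAcyclic.eq_penultimate_of_adj_end hp hz
      (hG.isAcyclic.mem_support_of_ne_mem_support_of_adj_of_isPath hp hq hz hu)
  rw [key z hz h, key z' hz' h']

theorem closer_exists (hG : G.IsTree) {w u : V} (hne : w ≠ u) :
    ∃ z, G.Adj u z ∧ G.dist w u = G.dist w z + 1 := by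
  obtain ⟨p, hp, hpl⟩ := hG.connected.exists_path_of_dist u w
  cases p with
  | nil => exact absurd rfl hne
  | @cons _ z _ h q =>
    refine ⟨z, h, ?_⟩
    have h1 := SimpleGraph.dist_le q
    rw [SimpleGraph.Walk.length_cons] at hpl
    rcases hG.dist_eq_dist_add_one_of_adj w h with h2 | h2
    · exact h2
    · rw [SimpleGraph.dist_comm (u := u)] at hpl
      rw [SimpleGraph.dist_comm (u := z)] at h1
      omega

/-- the vertices on the side of `u` of the edge `uv` -/
def side (G : SimpleGraph V) (u v : V) : Set V := {w | G.dist w v = G.dist w u + 1}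

theorem reach_of_side {u v w : V} (hG : G.IsTree)
    (h : w ∈ side G u v) : (G.deleteEdges {s(u, v)}).Reachable u w := by
  classical
  obtain ⟨p, hp, hpl⟩ := hG.connected.exists_path_of_dist u w
  refine ⟨p.toDeleteEdges {s(u, v)} fun e he heq => ?_⟩
  rw [Set.mem_singleton_iff] at heq
  subst heq
  have hv : v ∈ p.support := p.snd_mem_support_of_mem_edges he
  have h1 := SimpleGraph.dist_le (p.dropUntil v hv)
  have h2 := p.length_dropUntil_le_length hv
  have h3 : G.dist w v = G.dist w u + 1 := h
  rw [SimpleGraph.dist_comm (u := w) (v := v), SimpleGraph.dist_comm (u := w) (v := u)] at h3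
  omega

theorem side_compl (hG : G.IsTree) {u v : V} (huv : G.Adj u v) (w : V) :
    w ∈ side G u v ∨ w ∈ side G v u := by
  rcases hG.dist_eq_dist_add_one_of_adj w huv with h | h
  · exact Or.inr h
  · exact Or.inl h

theorem side_disj {u v w : V} (h : w ∈ side G u v) (h' : w ∈ side G v u) : False := by
  have h1 : G.dist w v = G.dist w u + 1 := h
  have h2 : G.dist w u = G.dist w v + 1 := h'
  omega

theorem reach_iff_side (hG : G.IsTree) {u v : V} (huv : G.Adj u v) (w : V) :
    (G.deleteEdges {s(u, v)}).Reachable u w ↔ w ∈ side G u v := by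
  refine ⟨fun h => ?_, reach_of_side hG⟩
  rcases side_compl hG huv w with h1 | h1
  · exact h1
  · exfalso
    have h2 := reach_of_side hG h1
    have h3 : s(v, u) = s(u, v) := Sym2.eq_swap
    rw [h3] at h2
    exact SimpleGraph.isBridge_iff.1
      ((SimpleGraph.isAcyclic_iff_forall_adj_isBridge.1 hG.isAcyclic) huv) (h.trans h2.symm)

theorem side_leaf (hG : G.IsTree) {u v : V} (hn : G.neighborSet u = {v}) (huv : G.Adj u v) :
    side G u v = {u} := by
  ext w
  rw [Set.mem_singleton_iff]
  constructor
  · intro h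
    by_contra hne
    obtain ⟨z, hz, hd⟩ := closer_exists hG hne
    have hzv : z = v := by
      have : z ∈ G.neighborSet u := hz
      rwa [hn, Set.mem_singleton_iff] at this
    rw [hzv] at hd
    exact side_disj h hd
  · rintro rfl
    show G.dist w v = G.dist w w + 1
    rw [SimpleGraph.dist_self, zero_add]
    exact SimpleGraph.dist_eq_one_iff_adj.2 huv

theorem not_mem_side {u v : V} (huv : G.Adj u v) : u ∉ side G v u := by
  intro h
  have h1 : G.dist u u = G.dist u v + 1 := h
  rw [SimpleGraph.dist_self] at h1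
  omega

theorem side_node (hG : G.IsTree) {u v a b : V} (hn : G.neighborSet u = {v, a, b})
    (hva : v ≠ a) (hvb : v ≠ b) (w : V) :
    w ∈ side G u v ↔ w = u ∨ w ∈ side G a u ∨ w ∈ side G b u := by
  have hv : G.Adj u v := by
    have : v ∈ G.neighborSet u := by rw [hn]; simp
    exact this
  have ha : G.Adj u a := by
    have : a ∈ G.neighborSet u := by rw [hn]; simp
    exact this
  have hb : G.Adj u b := by
    have : b ∈ G.neighborSet u := by rw [hn]; simp
    exact this
  constructor
  · intro h
    by_cases hne : w = u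
    · exact Or.inl hne
    · right
      obtain ⟨z, hz, hd⟩ := closer_exists hG hne
      have hz' : z ∈ G.neighborSet u := hz
      rw [hn] at hz'
      rcases hz' with rfl | rfl | rfl
      · exact absurd hd (fun h' => side_disj h h')
      · exact Or.inl hd
      · exact Or.inr hd
  · intro h
    rcases side_compl hG hv w with h1 | h1
    · exact h1
    · exfalso
      rcases h with rfl | h | h
      · exact not_mem_side hv h1
      · exact hva (closer_unique hG hv ha h1 h)
      · exact hvb (closer_unique hG hv hb h1 h)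

end graph

variable {α : Type*}

/-- the tree of the side of `u` of the edge `uv` -/
theorem bt_of_side {V : Type} [Fintype V] {G : SimpleGraph V} (hG : G.IsTree)
    (hdeg : ∀ v, (G.neighborSet v).ncard = 1 ∨ (G.neighborSet v).ncard = 3)
    (M : Matroid α) (k : ℕ) (φ : α → V) (hinj : Set.InjOn φ M.E)
    (himg : φ '' M.E = {v | (G.neighborSet v).ncard = 1})
    (hw : ∀ u v, G.Adj u v → conn M {x | x ∈ M.E ∧ (G.deleteEdges {s(u, v)}).Reachable u (φ x)} ≤ k) :
    ∀ (n : ℕ) (u v : V), G.Adj u v → (side G u v).ncard ≤ n →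
      ∃ t : BT α, t.Inj ∧ t.set = {x | x ∈ M.E ∧ φ x ∈ side G u v} ∧ t.WidthLE M k := by
  classical
  have hw' : ∀ u v, G.Adj u v → conn M {x | x ∈ M.E ∧ φ x ∈ side G u v} ≤ k := by
    intro u v huv
    have h1 := hw u v huv
    have h2 : {x | x ∈ M.E ∧ (G.deleteEdges {s(u, v)}).Reachable u (φ x)} =
        {x | x ∈ M.E ∧ φ x ∈ side G u v} := by
      ext x
      simp only [Set.mem_setOf_eq, reach_iff_side hG huv]
    rwa [h2] at h1
  intro n
  induction n using Nat.strong_induction_on with
  | _ n ih =>
    intro u v huv hn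
    rcases hdeg u with hd | hd
    · obtain ⟨v', hv'⟩ := Set.ncard_eq_one.1 hd
      have hvv : v = v' := by
        have : v ∈ G.neighborSet u := huv
        rwa [hv', Set.mem_singleton_iff] at this
      rw [← hvv] at hv'
      have hs := side_leaf hG hv' huv
      have hu : u ∈ φ '' M.E := by rw [himg]; exact hd
      obtain ⟨x₀, hx₀, hx₀u⟩ := hu
      have hset : {x | x ∈ M.E ∧ φ x ∈ side G u v} = {x₀} := by
        ext x
        rw [hs]
        simp only [Set.mem_setOf_eq, Set.mem_singleton_iff]
        constructor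
        · rintro ⟨h1, h2⟩
          exact hinj h1 hx₀ (h2.trans hx₀u.symm)
        · rintro rfl
          exact ⟨hx₀, hx₀u⟩
      refine ⟨BT.leaf x₀, trivial, hset.symm, ?_⟩
      have h1 := hw' u v huv
      rw [hset] at h1
      exact h1
    · obtain ⟨x, y, z, hxy, hxz, hyz, hxyz⟩ := Set.ncard_eq_three.1 hd
      have hab : ∃ a b, v ≠ a ∧ v ≠ b ∧ a ≠ b ∧ G.neighborSet u = {v, a, b} := by
        have hv : v ∈ G.neighborSet u := huv
        rw [hxyz] at hv
        rcases hv with rfl | rfl | rfl
        · exact ⟨y, z, hxy, hxz, hyz, hxyz⟩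
        · refine ⟨x, z, hxy.symm, hyz, hxz, ?_⟩
          rw [hxyz, Set.insert_comm]
        · refine ⟨x, y, hxz.symm, hyz.symm, hxy, ?_⟩
          rw [hxyz, Set.pair_comm y v, Set.insert_comm]
      obtain ⟨a, b, hva, hvb, hab', hnb⟩ := hab
      have ha : G.Adj u a := by
        have : a ∈ G.neighborSet u := by rw [hnb]; simp
        exact this
      have hb : G.Adj u b := by
        have : b ∈ G.neighborSet u := by rw [hnb]; simp
        exact this
      have hnode := side_node hG hnb hva hvb
      have hlt : ∀ c, (∀ w, w ∈ side G c u → w ∈ side G u v) → G.Adj u c →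
          (side G c u).ncard < n := by
        intro c hc hadj
        refine lt_of_lt_of_le (Set.ncard_lt_ncard ⟨hc, fun hcon => ?_⟩ (Set.toFinite _)) hn
        have hu : u ∈ side G u v := (hnode u).2 (Or.inl rfl)
        exact not_mem_side hadj (hcon hu)
      have hlta := hlt a (fun w hw => (hnode w).2 (Or.inr (Or.inl hw))) ha
      have hltb := hlt b (fun w hw => (hnode w).2 (Or.inr (Or.inr hw))) hb
      obtain ⟨s, hs1, hs2, hs3⟩ := ih _ hlta a u ha.symm le_rfl
      obtain ⟨t, ht1, ht2, ht3⟩ := ih _ hltb b u hb.symm le_rfl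
      have hset : s.set ∪ t.set = {x | x ∈ M.E ∧ φ x ∈ side G u v} := by
        rw [hs2, ht2]
        ext x
        simp only [Set.mem_union, Set.mem_setOf_eq, hnode]
        constructor
        · rintro (⟨h1, h2⟩ | ⟨h1, h2⟩)
          · exact ⟨h1, Or.inr (Or.inl h2)⟩
          · exact ⟨h1, Or.inr (Or.inr h2)⟩
        · rintro ⟨h1, h2 | h2 | h2⟩
          · exfalso
            have h3 : φ x ∈ φ '' M.E := ⟨x, h1, rfl⟩
            rw [himg, h2] at h3
            have h4 : (G.neighborSet u).ncard = 1 := h3
            omega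
          · exact Or.inl ⟨h1, h2⟩
          · exact Or.inr ⟨h1, h2⟩
      refine ⟨BT.node s t, ⟨hs1, ht1, ?_⟩, hset, ?_, hs3, ht3⟩
      · rw [Set.disjoint_left, hs2, ht2]
        rintro x ⟨_, h1⟩ ⟨_, h2⟩
        exact hab' (closer_unique hG ha hb h1 h2)
      · rw [hset]
        exact hw' u v huv

/-- A branch decomposition of width at most `k`: a finite tree whose vertices have degree one or three, a
bijection from the ground set onto its leaves, and for every edge the two sets of labels which it separates
have connectivity at most `k`. -/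
def BranchDecomp (M : Matroid α) (k : ℕ) : Prop :=
  ∃ (V : Type) (_ : Fintype V) (G : SimpleGraph V) (φ : α → V), G.IsTree ∧
    (∀ v, (G.neighborSet v).ncard = 1 ∨ (G.neighborSet v).ncard = 3) ∧
    Set.InjOn φ M.E ∧ φ '' M.E = {v | (G.neighborSet v).ncard = 1} ∧
    ∀ u v, G.Adj u v →
      conn M {x | x ∈ M.E ∧ (G.deleteEdges {s(u, v)}).Reachable u (φ x)} ≤ k

theorem bwLE_of_branchDecomp (M : Matroid α) [M.Finite] (k : ℕ) (hk : 1 ≤ k)
    (h2 : 2 ≤ M.E.ncard) (h : BranchDecomp M k) : BwLE M k := by
  classical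
  obtain ⟨V, hV, G, φ, hG, hdeg, hinj, himg, hw⟩ := h
  right
  have hne : M.E.Nonempty := by
    rw [← Set.ncard_pos M.ground_finite]
    omega
  obtain ⟨x, hx⟩ := hne
  have hu : φ x ∈ φ '' M.E := ⟨x, hx, rfl⟩
  rw [himg] at hu
  obtain ⟨v, hv⟩ := Set.ncard_eq_one.1 hu
  have hadj : G.Adj (φ x) v := by
    have : v ∈ G.neighborSet (φ x) := by rw [hv]; simp
    exact this
  obtain ⟨s, hs1, hs2, hs3⟩ := bt_of_side hG hdeg M k φ hinj himg hw _ _ _ hadj le_rfl
  obtain ⟨t, ht1, ht2, ht3⟩ := bt_of_side hG hdeg M k φ hinj himg hw _ _ _ hadj.symm le_rfl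
  have hset : s.set ∪ t.set = M.E := by
    rw [hs2, ht2]
    ext y
    simp only [Set.mem_union, Set.mem_setOf_eq]
    constructor
    · rintro (⟨h1, -⟩ | ⟨h1, -⟩) <;> exact h1
    · intro hy
      rcases side_compl hG hadj (φ y) with h3 | h3
      · exact Or.inl ⟨hy, h3⟩
      · exact Or.inr ⟨hy, h3⟩
  refine ⟨BT.node s t, ⟨hs1, ht1, ?_⟩, hset, ?_, hs3, ht3⟩
  · rw [Set.disjoint_left, hs2, ht2]
    rintro y ⟨_, h1⟩ ⟨_, h3⟩
    exact side_disj h1 h3
  · rw [hset]
    unfold conn
    rw [Set.diff_self, rk_empty]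
    omega

end Pool.Agent.BW3
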