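import Pool.Agent.Lib_MP_a68485_co.TreeA

/-!
# MP_a68485_co: a rooted binary tree gives a cubic tree (positions, the graph of the positions)
-/

set_option autoImplicit false

namespace Pool.Agent.BW3

open Set

variable {α : Type*}

/-- the subtree at a position (list of left and right moves, the last move first) -/
def BT.sub (t : BT α) : List Bool → Option (BT α)
  | [] => some t
  | b :: p => match t.sub p with
    | some (.node l r) => some (if b then r else l)
    | _ => none

theorem sub_append (t : BT α) (s p : List Bool) :
    t.sub (s ++ p) = (t.sub p).bind fun t' => t'.sub s := by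
  induction s with
  | nil => cases h : t.sub p <;> simp [h, BT.sub]
  | cons b s ih =>
    rw [List.cons_append, BT.sub, ih]
    cases h : t.sub p with
    | none => simp
    | some u => simp [BT.sub]

theorem sub_cons_node {t l r : BT α} {p : List Bool} (h : t.sub p = some (.node l r)) (b : Bool) :
    t.sub (b :: p) = some (if b then r else l) := by
  rw [BT.sub, h]

theorem sub_cons {t s : BT α} {b : Bool} {p : List Bool} (h : t.sub (b :: p) = some s) :
    ∃ l r, t.sub p = some (.node l r) ∧ s = if b then r else l := by
  rw [BT.sub] at h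
  split at h
  · next l r hl =>
    refine ⟨l, r, hl, ?_⟩
    simpa using h.symm
  · cases h

theorem nil_or_append (p : List Bool) : p = [] ∨ ∃ q b, p = q ++ [b] := by
  rcases List.eq_nil_or_concat p with h | ⟨q, b, h⟩
  · exact Or.inl h
  · exact Or.inr ⟨q, b, h.trans List.concat_eq_append⟩

theorem leaf_sub {a : α} {s : BT α} {p : List Bool} (h : (BT.leaf a).sub p = some s) : p = [] := by
  rcases nil_or_append p with rfl | ⟨p', b, rfl⟩
  · rfl
  · rw [sub_append] at h
    simp [BT.sub] at h

theorem sub_set_subset {t s : BT α} {p : List Bool} (h : t.sub p = some s) : s.set ⊆ t.set := by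
  induction p generalizing s with
  | nil =>
    cases h
    exact subset_rfl
  | cons b p ih =>
    obtain ⟨l, r, h1, rfl⟩ := sub_cons h
    have h2 := ih h1
    change l.set ∪ r.set ⊆ _ at h2
    split_ifs
    · exact Set.subset_union_right.trans h2
    · exact Set.subset_union_left.trans h2

theorem exists_pos {t : BT α} {x : α} (h : x ∈ t.set) : ∃ p, t.sub p = some (.leaf x) := by
  induction t with
  | leaf a =>
    rw [Set.mem_singleton_iff.1 h]
    exact ⟨[], rfl⟩
  | node l r hl hr =>
    rcases h with h | h
    · obtain ⟨p, hp⟩ := hl h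
      exact ⟨p ++ [false], by rw [sub_append]; simpa [BT.sub] using hp⟩
    · obtain ⟨p, hp⟩ := hr h
      exact ⟨p ++ [true], by rw [sub_append]; simpa [BT.sub] using hp⟩

theorem pos_unique {t : BT α} (hi : t.Inj) {x : α} {p q : List Bool} (hp : t.sub p = some (.leaf x))
    (hq : t.sub q = some (.leaf x)) : p = q := by
  induction t generalizing p q with
  | leaf a => rw [leaf_sub hp, leaf_sub hq]
  | node l r hl hr =>
    obtain ⟨h1, h2, h3⟩ := hi
    rcases nil_or_append p with rfl | ⟨p', b, rfl⟩
    · cases hp
    rcases nil_or_append q with rfl | ⟨q', c, rfl⟩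
    · cases hq
    rw [sub_append] at hp hq
    have key : ∀ {s : BT α} {p : List Bool}, s.sub p = some (.leaf x) → x ∈ s.set :=
      fun h => sub_set_subset h rfl
    cases b <;> cases c <;> simp only [BT.sub, Option.bind_some, Bool.false_eq_true, if_false, if_true] at hp hq
    · rw [hl h1 hp hq]
    · exact absurd (key hq) (Set.disjoint_left.1 h3 (key hp))
    · exact absurd (key hp) (Set.disjoint_left.1 h3 (key hq))
    · rw [hr h2 hp hq]

theorem suffix_iff {t s : BT α} (hi : t.Inj) {x : α} {p q : List Bool} (hp : t.sub p = some s)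
    (hq : t.sub q = some (.leaf x)) : p <:+ q ↔ x ∈ s.set := by
  constructor
  · rintro ⟨u, rfl⟩
    rw [sub_append, hp] at hq
    exact sub_set_subset (show s.sub u = some (.leaf x) from hq) rfl
  · intro h
    obtain ⟨u, hu⟩ := exists_pos h
    have h1 : t.sub (u ++ p) = some (.leaf x) := by
      rw [sub_append, hp]
      exact hu
    rw [pos_unique hi hq h1]
    exact List.suffix_append u p

theorem sub_width {M : Matroid α} {k : ℕ} {t s : BT α} {p : List Bool} (hw : t.WidthLE M k)
    (h : t.sub p = some s) : s.WidthLE M k := by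
  induction p generalizing s with
  | nil =>
    cases h
    exact hw
  | cons b p ih =>
    obtain ⟨l, r, h1, rfl⟩ := sub_cons h
    obtain ⟨-, h2, h3⟩ := ih h1
    split_ifs
    · exact h3
    · exact h2

theorem width_conn {M : Matroid α} {k : ℕ} {t : BT α} (hw : t.WidthLE M k) : conn M t.set ≤ k := by
  cases t with
  | leaf a => exact hw
  | node l r => exact hw.1

theorem finite_pos (t : BT α) : {p : List Bool | (t.sub p).isSome}.Finite := by
  induction t with
  | leaf a =>
    refine (Set.finite_singleton ([] : List Bool)).subset fun p hp => ?_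
    obtain ⟨s, hs⟩ := Option.isSome_iff_exists.1 hp
    exact leaf_sub hs
  | node l r hl hr =>
    refine ((Set.finite_singleton ([] : List Bool)).union
      ((hl.image (fun p => p ++ [false])).union (hr.image (fun p => p ++ [true])))).subset fun p hp => ?_
    obtain ⟨s, hs⟩ := Option.isSome_iff_exists.1 hp
    rcases nil_or_append p with rfl | ⟨p', b, rfl⟩
    · exact Or.inl rfl
    · rw [sub_append] at hs
      right
      cases b <;> simp only [BT.sub, Option.bind_some, Bool.false_eq_true, if_false, if_true] at hs
      · exact Or.inl ⟨p', Option.isSome_iff_exists.2 ⟨s, hs⟩, rfl⟩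
      · exact Or.inr ⟨p', Option.isSome_iff_exists.2 ⟨s, hs⟩, rfl⟩

/-- the partner of a position: its parent; for the two positions of length one, the other one -/
def mate : List Bool → List Bool
  | [] => []
  | [b] => [!b]
  | _ :: c :: p => c :: p

theorem mate_cons (c : Bool) {q : List Bool} (hq : q ≠ []) : mate (c :: q) = q := by
  cases q with
  | nil => exact absurd rfl hq
  | cons d q => rfl

theorem length_mate (p : List Bool) : (mate p).length ≤ p.length := by
  match p with
  | [] => exact le_rfl
  | [b] => exact le_rfl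
  | _ :: c :: p => simp [mate]

theorem mate_ne {p : List Bool} (hp : p ≠ []) : mate p ≠ p := by
  match p with
  | [] => exact absurd rfl hp
  | [b] => simp [mate]
  | b :: c :: p =>
    intro h
    have := congrArg List.length h
    simp [mate] at this

theorem mate_ok {l r : BT α} {p : List Bool} (h0 : p ≠ []) (h : ((BT.node l r).sub p).isSome) :
    mate p ≠ [] ∧ ((BT.node l r).sub (mate p)).isSome := by
  match p with
  | [] => exact absurd rfl h0
  | [b] => exact ⟨by simp [mate], by simp [mate, BT.sub]⟩
  | b :: c :: p =>
    refine ⟨by simp [mate], ?_⟩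
    obtain ⟨s, hs⟩ := Option.isSome_iff_exists.1 h
    obtain ⟨l', r', h1, -⟩ := sub_cons hs
    exact Option.isSome_iff_exists.2 ⟨_, h1⟩

theorem suffix_step {p a b : List Bool} (hp : p ≠ []) (ha : p <:+ a) (hb : b ≠ [])
    (hab : mate a = b ∨ mate b = a) (hne : ¬ (a = p ∧ b = mate p)) : p <:+ b := by
  rcases hab with h | h
  · obtain ⟨s, rfl⟩ := ha
    cases s with
    | nil => exact absurd ⟨rfl, h.symm⟩ hne
    | cons c s =>
      rw [List.cons_append, mate_cons c (by simp [hp])] at h
      rw [← h]
      exact List.suffix_append s p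
  · match b with
    | [] => exact absurd rfl hb
    | [c] =>
      exfalso
      change [!c] = a at h
      subst h
      obtain ⟨s, hs⟩ := ha
      cases s with
      | nil =>
        subst hs
        exact hne ⟨rfl, by simp [mate]⟩
      | cons d s =>
        have := congrArg List.length hs
        have h3 : 0 < p.length := List.length_pos_iff.2 hp
        rw [List.length_append, List.length_cons, List.length_singleton] at this
        omega
    | c :: d :: b =>
      change d :: b = a at h
      subst h
      exact ha.trans (List.suffix_cons c _)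

/-- the positions of the tree, without the root -/
abbrev PosV (t : BT α) : Type := {p : List Bool // p ≠ [] ∧ (t.sub p).isSome}

/-- the graph of the positions without the root: a position is joined to its parent, and the two
positions of length one are joined -/
def posG (t : BT α) : SimpleGraph (PosV t) where
  Adj p q := mate p.1 = q.1 ∨ mate q.1 = p.1
  symm := ⟨fun _ _ h => h.symm⟩
  loopless := ⟨fun p h => by
    rcases h with h | h <;> exact mate_ne p.2.1 h⟩

/-! ### the graph -/

theorem reach_mem {V : Type*} {G : SimpleGraph V} {S : Set V} (hS : ∀ a b, G.Adj a b → a ∈ S → b ∈ S)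
    {u w : V} (hu : u ∈ S) (h : G.Reachable u w) : w ∈ S := by
  rw [SimpleGraph.reachable_iff_reflTransGen] at h
  induction h with
  | refl => exact hu
  | tail _ h1 ih => exact hS _ _ h1 ih

theorem reach_or {V : Type*} {G : SimpleGraph V} {u w : V} (v : V) (h : G.Reachable u w) :
    (G.deleteEdges {s(u, v)}).Reachable u w ∨ (G.deleteEdges {s(u, v)}).Reachable v w := by
  rw [SimpleGraph.reachable_iff_reflTransGen] at h
  induction h with
  | refl => exact Or.inl (SimpleGraph.Reachable.refl _)
  | @tail b c _ h1 ih =>
    by_cases he : s(b, c) = s(u, v)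
    · rw [Sym2.eq_iff] at he
      rcases he with ⟨-, rfl⟩ | ⟨-, rfl⟩
      · exact Or.inr (SimpleGraph.Reachable.refl _)
      · exact Or.inl (SimpleGraph.Reachable.refl _)
    · have h2 : (G.deleteEdges {s(u, v)}).Adj b c := SimpleGraph.deleteEdges_adj.2 ⟨h1, he⟩
      exact ih.imp (fun h => h.trans h2.reachable) (fun h => h.trans h2.reachable)

section

variable {l r : BT α}

/-- the partner as a vertex -/
def mateV (p : PosV (.node l r)) : PosV (.node l r) := ⟨mate p.1, mate_ok p.2.1 p.2.2⟩

theorem adj_iff (p q : PosV (.node l r)) :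
    (posG (.node l r)).Adj p q ↔ q = mateV p ∨ ∃ c, q.1 = c :: p.1 := by
  constructor
  · rintro (h | h)
    · exact Or.inl (Subtype.ext h.symm)
    · obtain ⟨q, hq, hq'⟩ := q
      match q with
      | [] => exact absurd rfl hq
      | [c] =>
        left
        apply Subtype.ext
        change [c] = mate p.1
        rw [← h]
        simp [mate]
      | c :: d :: q =>
        right
        exact ⟨c, by rw [← h]; rfl⟩
  · rintro (rfl | ⟨c, h⟩)
    · exact Or.inl rfl
    · right
      rw [h]
      exact mate_cons c p.2.1

theorem side_iff (p q : PosV (.node l r)) :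
    ((posG (.node l r)).deleteEdges {s(p, mateV p)}).Reachable p q ↔ p.1 <:+ q.1 := by
  constructor
  · intro h
    refine reach_mem (S := {q | p.1 <:+ q.1}) (fun a b hab ha => ?_) (List.suffix_refl p.1) h
    obtain ⟨h1, h2⟩ := SimpleGraph.deleteEdges_adj.1 hab
    refine suffix_step p.2.1 ha b.2.1 h1 fun h3 => h2 ?_
    have h4 : a = p := Subtype.ext h3.1
    have h5 : b = mateV p := Subtype.ext h3.2
    rw [h4, h5]
    rfl
  · rintro ⟨s, hs⟩
    induction s generalizing q with
    | nil =>
      have : p = q := Subtype.ext hs
      rw [this]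
    | cons c s ih =>
      have h0 : s ++ p.1 ≠ [] := by simp [p.2.1]
      have h1 : ((BT.node l r).sub (s ++ p.1)).isSome := by
        obtain ⟨u, hu⟩ := Option.isSome_iff_exists.1 q.2.2
        rw [← hs, List.cons_append] at hu
        obtain ⟨l', r', h2, -⟩ := sub_cons hu
        exact Option.isSome_iff_exists.2 ⟨_, h2⟩
      have h2 := ih ⟨s ++ p.1, h0, h1⟩ rfl
      refine h2.trans (SimpleGraph.Adj.reachable (SimpleGraph.deleteEdges_adj.2 ⟨?_, ?_⟩))
      · right
        rw [← hs, List.cons_append]
        exact mate_cons c h0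
      · intro h3
        have hl : (q.1).length = s.length + 1 + p.1.length := by
          rw [← hs, List.length_append, List.length_cons]
        have hl' : (s ++ p.1).length = s.length + p.1.length := List.length_append
        have h4 := length_mate p.1
        rw [Set.mem_singleton_iff, Sym2.eq_iff] at h3
        rcases h3 with ⟨h5, h6⟩ | ⟨h5, h6⟩
        · have := congrArg (fun z : PosV (.node l r) => z.1.length) h6
          change (q.1).length = (mate p.1).length at this
          omega
        · have := congrArg (fun z : PosV (.node l r) => z.1.length) h6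
          change (q.1).length = (p.1).length at this
          omega

theorem not_suffix_mate (p : PosV (.node l r)) : ¬ p.1 <:+ mate p.1 := by
  intro h
  exact mate_ne p.2.1 (h.eq_of_length_le (length_mate p.1)).symm

theorem posG_connected : (posG (.node l r)).Connected := by
  have h0 : ∀ b : Bool, [b] ≠ [] ∧ ((BT.node l r).sub [b]).isSome := fun b => ⟨by simp, by simp [BT.sub]⟩
  have key : ∀ (p : List Bool) (hp : p ≠ [] ∧ ((BT.node l r).sub p).isSome),
      (posG (.node l r)).Reachable ⟨[false], h0 false⟩ ⟨p, hp⟩ := by
    intro p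
    induction p with
    | nil => exact fun hp => absurd rfl hp.1
    | cons b p ih =>
      intro hp
      rcases eq_or_ne p [] with rfl | hp'
      · cases b with
        | false => exact SimpleGraph.Reachable.refl _
        | true => exact SimpleGraph.Adj.reachable (Or.inl rfl)
      · obtain ⟨u, hu⟩ := Option.isSome_iff_exists.1 hp.2
        obtain ⟨l', r', h2, -⟩ := sub_cons hu
        exact (ih ⟨hp', Option.isSome_iff_exists.2 ⟨_, h2⟩⟩).trans
          (SimpleGraph.Adj.reachable (Or.inr (mate_cons b hp')))
  exact SimpleGraph.connected_iff_exists_forall_reachable _ |>.2 ⟨⟨[false], h0 false⟩, fun q => key q.1 q.2⟩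

theorem side_iff' (p q : PosV (.node l r)) :
    ((posG (.node l r)).deleteEdges {s(mateV p, p)}).Reachable (mateV p) q ↔ ¬ p.1 <:+ q.1 := by
  rw [Sym2.eq_swap]
  constructor
  · intro h h1
    have h2 := (side_iff p q).2 h1
    exact not_suffix_mate p ((side_iff p (mateV p)).1 (h2.trans h.symm))
  · intro h
    rcases reach_or (mateV p) (posG_connected (l := l) (r := r) p q) with h1 | h1
    · exact absurd ((side_iff p q).1 h1) h
    · exact h1

theorem posG_isTree : (posG (.node l r)).IsTree := by
  refine ⟨posG_connected, SimpleGraph.isAcyclic_iff_forall_adj_isBridge.2 fun v w h => ?_⟩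
  rw [SimpleGraph.isBridge_iff]
  rcases h with h | h
  · have h1 : w = mateV v := Subtype.ext h.symm
    rw [h1, side_iff]
    exact not_suffix_mate v
  · have h1 : v = mateV w := Subtype.ext h.symm
    rw [h1, side_iff', not_not]

theorem degree_leaf {x : α} {p : PosV (.node l r)} (h : (BT.node l r).sub p.1 = some (.leaf x)) :
    ((posG (.node l r)).neighborSet p).ncard = 1 := by
  have h1 : (posG (.node l r)).neighborSet p = {mateV p} := by
    ext q
    rw [SimpleGraph.mem_neighborSet, adj_iff, Set.mem_singleton_iff]
    refine or_iff_left ?_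
    rintro ⟨c, hc⟩
    obtain ⟨u, hu⟩ := Option.isSome_iff_exists.1 q.2.2
    rw [hc] at hu
    obtain ⟨l', r', h2, -⟩ := sub_cons hu
    rw [h] at h2
    cases h2
  rw [h1, Set.ncard_singleton]

theorem degree_node {l' r' : BT α} {p : PosV (.node l r)} (h : (BT.node l r).sub p.1 = some (.node l' r')) :
    ((posG (.node l r)).neighborSet p).ncard = 3 := by
  have hc : ∀ c : Bool, c :: p.1 ≠ [] ∧ ((BT.node l r).sub (c :: p.1)).isSome := fun c =>
    ⟨by simp, Option.isSome_iff_exists.2 ⟨_, sub_cons_node h c⟩⟩
  have h1 : (posG (.node l r)).neighborSet p = {mateV p, ⟨false :: p.1, hc false⟩, ⟨true :: p.1, hc true⟩} := by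
    ext q
    rw [SimpleGraph.mem_neighborSet, adj_iff, Set.mem_insert_iff, Set.mem_insert_iff, Set.mem_singleton_iff]
    refine or_congr Iff.rfl ?_
    constructor
    · rintro ⟨c, h2⟩
      cases c
      · exact Or.inl (Subtype.ext h2)
      · exact Or.inr (Subtype.ext h2)
    · rintro (rfl | rfl)
      · exact ⟨false, rfl⟩
      · exact ⟨true, rfl⟩
  have hl : ∀ c : Bool, mateV p ≠ ⟨c :: p.1, hc c⟩ := fun c h2 => by
    have h3 := congrArg (fun z : PosV (.node l r) => z.1.length) h2
    have h4 : (mate p.1).length = p.1.length + 1 := h3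
    have h5 := length_mate p.1
    omega
  have h6 : (⟨false :: p.1, hc false⟩ : PosV (.node l r)) ≠ ⟨true :: p.1, hc true⟩ := fun h2 => by
    have h3 := congrArg (fun z : PosV (.node l r) => z.1.head?) h2
    simp at h3
  rw [h1, Set.ncard_eq_three]
  exact ⟨_, _, _, hl false, hl true, h6, rfl⟩

theorem degree_cases (p : PosV (.node l r)) :
    (∃ x, (BT.node l r).sub p.1 = some (.leaf x) ∧ ((posG (.node l r)).neighborSet p).ncard = 1) ∨
      ((posG (.node l r)).neighborSet p).ncard = 3 := by
  obtain ⟨u, hu⟩ := Option.isSome_iff_exists.1 p.2.2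
  cases u with
  | leaf x => exact Or.inl ⟨x, hu, degree_leaf hu⟩
  | node l' r' => exact Or.inr (degree_node hu)

theorem conn_compl (M : Matroid α) {X : Set α} (hX : X ⊆ M.E) : conn M (M.E \ X) = conn M X := by
  unfold conn
  rw [Set.sdiff_sdiff_cancel_left hX]
  omega

/-- a rooted binary tree with at least two leaves gives a cubic tree with the same widths -/
theorem exists_cubic_tree (M : Matroid α) (k : ℕ) (hi : (BT.node l r).Inj) (hs : (BT.node l r).set = M.E)
    (hw : (BT.node l r).WidthLE M k) :
    BranchDecomp M k := by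
  classical
  have h0 : [false] ≠ [] ∧ ((BT.node l r).sub [false]).isSome := ⟨by simp, by simp [BT.sub]⟩
  have hφ0 : ∀ x : α, ∃ p : PosV (.node l r), x ∈ M.E → (BT.node l r).sub p.1 = some (.leaf x) := by
    intro x
    by_cases hx : x ∈ M.E
    · rw [← hs] at hx
      obtain ⟨p, hp⟩ := exists_pos hx
      refine ⟨⟨p, ?_, Option.isSome_iff_exists.2 ⟨_, hp⟩⟩, fun _ => hp⟩
      rintro rfl
      cases hp
    · exact ⟨⟨[false], h0⟩, fun h => absurd h hx⟩
  choose φ hφ using hφ0
  have hfin : Finite (PosV (.node l r)) :=
    ((finite_pos (BT.node l r)).subset fun p hp => hp.2 : {p : List Bool | p ≠ [] ∧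
      ((BT.node l r).sub p).isSome}.Finite)
  have key : ∀ p : PosV (.node l r), conn M {x | x ∈ M.E ∧ p.1 <:+ (φ x).1} ≤ k := by
    intro p
    obtain ⟨u, hu⟩ := Option.isSome_iff_exists.1 p.2.2
    have h1 : {x ∈ M.E | p.1 <:+ (φ x).1} = u.set := by
      ext x
      constructor
      · rintro ⟨hx, h2⟩
        exact (suffix_iff hi hu (hφ x hx)).1 h2
      · intro h2
        have hx : x ∈ M.E := hs ▸ sub_set_subset hu h2
        exact ⟨hx, (suffix_iff hi hu (hφ x hx)).2 h2⟩
    rw [h1]
    exact width_conn (sub_width hw hu)
  refine ⟨PosV (.node l r), Fintype.ofFinite _, posG _, φ, posG_isTree, fun v => ?_, fun x hx y hy hxy => ?_, ?_, ?_⟩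
  · exact (degree_cases v).imp (fun h => h.choose_spec.2) id
  · have h1 := hφ x hx
    rw [hxy, hφ y hy] at h1
    cases h1
    rfl
  · ext v
    constructor
    · rintro ⟨x, hx, rfl⟩
      exact degree_leaf (hφ x hx)
    · intro hv
      rcases degree_cases v with ⟨x, hx, -⟩ | h
      · have hxE : x ∈ M.E := hs ▸ sub_set_subset hx rfl
        exact ⟨x, hxE, Subtype.ext (pos_unique hi (hφ x hxE) hx)⟩
      · have h1 : ((posG (.node l r)).neighborSet v).ncard = 1 := hv
        omega
  · intro u v huv
    rcases huv with h | h
    · have h1 : v = mateV u := Subtype.ext h.symm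
      subst h1
      simp only [side_iff]
      exact key u
    · have h1 : u = mateV v := Subtype.ext h.symm
      subst h1
      simp only [side_iff']
      have h2 : {x ∈ M.E | ¬ v.1 <:+ (φ x).1} = M.E \ {x ∈ M.E | v.1 <:+ (φ x).1} := by
        ext x
        exact ⟨fun h => ⟨h.1, fun h' => h.2 h'.2⟩, fun h => ⟨h.1, fun h' => h.2 ⟨h.1, h'⟩⟩⟩
      rw [h2, conn_compl M fun x hx => hx.1]
      exact key v

end

/-- the second direction: a matroid with at least two elements and branch-width at most `k` in the sense
of rooted binary trees has a cubic tree of width at most `k` -/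
theorem branchDecomp_of_bwLE (M : Matroid α) (k : ℕ) (h2 : 2 ≤ M.E.ncard) (h : BwLE M k) :
    BranchDecomp M k := by
  rcases h with ⟨h1, -⟩ | ⟨t, hi, hs, hw⟩
  · exfalso
    rcases (Set.encard_le_one_iff_subsingleton.1 h1).eq_empty_or_singleton with h3 | ⟨a, h3⟩ <;>
      rw [h3] at h2 <;> simp at h2
  · cases t with
    | leaf a =>
      exfalso
      have h3 : M.E = {a} := hs.symm
      rw [h3, Set.ncard_singleton] at h2
      omega
    | node l r => exact exists_cubic_tree M k hi hs hw

/-- for a finite matroid with at least two elements, `BwLE M k` says that there is a branch decomposition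
(a tree whose vertices have degree one or three) of width at most `k` -/
theorem bwLE_iff_branchDecomp (M : Matroid α) [M.Finite] (k : ℕ) (hk : 1 ≤ k) (h2 : 2 ≤ M.E.ncard) :
    BwLE M k ↔ BranchDecomp M k :=
  ⟨branchDecomp_of_bwLE M k h2, bwLE_of_branchDecomp M k hk h2⟩

end Pool.Agent.BW3
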